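import Pool.Agent.H.MP_9a81ba_al.AutHom

/-!
A free subgroup of rank four of the surface group of genus `r + 3`.
-/

namespace Pool.Agent.H.MP_9a81ba_al

/-- letters of `F4` as generators of the surface group of genus `r + 3`: `c, m` is block `0` and
`x, y` is block `1` -/
def let4 (r : ℕ) : Fin 4 → Fin (r + 3) × Bool :=
  ![(⟨1, by omega⟩, false), (⟨1, by omega⟩, true), (⟨0, by omega⟩, false), (⟨0, by omega⟩, true)]

/-- `F4` in the surface group of genus `r + 3` -/
def toS4 (r : ℕ) : F4 →* Surf (r + 3) := (PresentedGroup.mk _).comp (FreeGroup.map (let4 r))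

theorem amalg_surfRel {n : ℕ} {K : Type*} [Group K] (f : Fin n × Bool → K) :
    FreeGroup.lift f (surfRel n) =
      (List.ofFn fun i => cm (f (i, false)) (f (i, true))).prod := by
  rw [surfRel, map_list_prod, List.map_ofFn]
  congr 2
  funext i
  simp [map_cm]

/-- the relator of the free part -/
def amalg_w4 : F4 := cm (FreeGroup.of 2) (FreeGroup.of 3) * cm (FreeGroup.of 0) (FreeGroup.of 1)

theorem amalg_perm : cm (Equiv.swap (0 : Fin 3) 1) (Equiv.swap 1 2) ≠ 1 := by
  unfold cm
  decide

theorem amalg_w4_ne : amalg_w4 ≠ 1 := by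
  intro h
  have h1 := congrArg (FreeGroup.lift
    (![1, 1, Equiv.swap (0 : Fin 3) 1, Equiv.swap 1 2] : Fin 4 → Equiv.Perm (Fin 3))) h
  rw [amalg_w4, map_mul, map_cm, map_cm, map_one] at h1
  simp only [FreeGroup.lift_apply_of] at h1
  apply amalg_perm
  rw [← h1]
  simp [cm]

theorem amalg_surfRel_ne (r : ℕ) : surfRel (r + 1) ≠ 1 := by
  intro h
  have h1 := congrArg (FreeGroup.lift (fun p : Fin (r + 1) × Bool =>
    if p.1 = 0 then (if p.2 then Equiv.swap (1 : Fin 3) 2 else Equiv.swap 0 1) else
      (1 : Equiv.Perm (Fin 3)))) h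
  rw [amalg_surfRel, map_one, List.ofFn_succ, List.prod_cons] at h1
  have h2 : (List.ofFn fun i : Fin r => cm
      (if (i.succ : Fin (r + 1)) = 0 then
        (if false = true then Equiv.swap (1 : Fin 3) 2 else Equiv.swap 0 1) else
        (1 : Equiv.Perm (Fin 3)))
      (if (i.succ : Fin (r + 1)) = 0 then
        (if true = true then Equiv.swap (1 : Fin 3) 2 else Equiv.swap 0 1) else
        (1 : Equiv.Perm (Fin 3)))).prod = 1 := by
    apply List.prod_eq_one
    intro x hx
    rw [List.mem_ofFn] at hx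
    obtain ⟨i, rfl⟩ := hx
    simp [cm, Fin.succ_ne_zero]
  rw [h2, mul_one] at h1
  apply amalg_perm
  simpa using h1

/-- the two factors -/
def amalg_G (r : ℕ) : Bool → Type
  | false => F4
  | true => FreeGroup (Fin (r + 1) × Bool)

instance (r : ℕ) : ∀ b, Group (amalg_G r b)
  | false => inferInstanceAs (Group F4)
  | true => inferInstanceAs (Group (FreeGroup (Fin (r + 1) × Bool)))

/-- the two embeddings of the cyclic group -/
def amalg_phi (r : ℕ) : ∀ b, Multiplicative ℤ →* amalg_G r b
  | false => zpowersHom F4 amalg_w4⁻¹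
  | true => zpowersHom (FreeGroup (Fin (r + 1) × Bool)) (surfRel (r + 1))

theorem amalg_inj {Y : Type*} {w : FreeGroup Y} (hw : w ≠ 1) :
    Function.Injective (zpowersHom (FreeGroup Y) w) := by
  have h1 : Function.Injective fun n : ℤ => w ^ n :=
    injective_zpow_iff_not_isOfFinOrder.2 (not_isOfFinOrder_of_isMulTorsionFree hw)
  intro a b hab
  rw [zpowersHom_apply, zpowersHom_apply] at hab
  exact Multiplicative.toAdd.injective (h1 hab)

theorem amalg_phi_inj (r : ℕ) : ∀ b, Function.Injective (amalg_phi r b)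
  | false => amalg_inj (inv_ne_one.2 amalg_w4_ne)
  | true => amalg_inj (amalg_surfRel_ne r)

/-- the generators of the surface group in the amalgam -/
def amalg_gen (r : ℕ) (p : Fin (r + 3) × Bool) : Monoid.PushoutI (amalg_phi r) :=
  Fin.cases (motive := fun _ => Monoid.PushoutI (amalg_phi r))
    (Monoid.PushoutI.of (φ := amalg_phi r) false (FreeGroup.of (if p.2 then 3 else 2) : F4))
    (fun i => Fin.cases (motive := fun _ => Monoid.PushoutI (amalg_phi r))
      (Monoid.PushoutI.of (φ := amalg_phi r) false (FreeGroup.of (if p.2 then 1 else 0) : F4))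
      (fun i => Monoid.PushoutI.of (φ := amalg_phi r) true
        (FreeGroup.of (i, p.2) : FreeGroup (Fin (r + 1) × Bool))) i) p.1

theorem amalg_rel (r : ℕ) : FreeGroup.lift (amalg_gen r) (surfRel (r + 3)) = 1 := by
  rw [amalg_surfRel, List.ofFn_succ, List.prod_cons, List.ofFn_succ, List.prod_cons, ← mul_assoc]
  have h1 : cm (amalg_gen r (0, false)) (amalg_gen r (0, true)) *
      cm (amalg_gen r (Fin.succ 0, false)) (amalg_gen r (Fin.succ 0, true)) =
      Monoid.PushoutI.of (φ := amalg_phi r) false (amalg_w4 : F4) := by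
    change _ = Monoid.PushoutI.of (φ := amalg_phi r) false
      ((cm (FreeGroup.of 2) (FreeGroup.of 3) : F4) * (cm (FreeGroup.of 0) (FreeGroup.of 1) : F4) : F4)
    erw [map_mul, map_cm, map_cm]
    rfl
  have h2 : (List.ofFn fun i : Fin (r + 1) => cm (amalg_gen r (i.succ.succ, false))
      (amalg_gen r (i.succ.succ, true))).prod =
      Monoid.PushoutI.of (φ := amalg_phi r) true
        (surfRel (r + 1) : FreeGroup (Fin (r + 1) × Bool)) := by
    have h3 := amalg_surfRel (n := r + 1) (K := Monoid.PushoutI (amalg_phi r))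
      (fun q => Monoid.PushoutI.of (φ := amalg_phi r) true
        (FreeGroup.of q : FreeGroup (Fin (r + 1) × Bool)))
    have h4 : FreeGroup.lift (fun q => Monoid.PushoutI.of (φ := amalg_phi r) true
        (FreeGroup.of q : FreeGroup (Fin (r + 1) × Bool))) =
        (Monoid.PushoutI.of (φ := amalg_phi r) true :
          FreeGroup (Fin (r + 1) × Bool) →* Monoid.PushoutI (amalg_phi r)) := by
      ext q
      exact FreeGroup.lift_apply_of
    rw [h4] at h3
    exact h3.symm
  rw [h1]
  erw [h2]
  have h5 := Monoid.PushoutI.of_apply_eq_base (amalg_phi r) false (Multiplicative.ofAdd 1)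
  have h6 := Monoid.PushoutI.of_apply_eq_base (amalg_phi r) true (Multiplicative.ofAdd 1)
  have h7 : amalg_phi r false (Multiplicative.ofAdd 1) = (amalg_w4⁻¹ : F4) := by
    change zpowersHom F4 amalg_w4⁻¹ (Multiplicative.ofAdd 1) = _
    rw [zpowersHom_apply]
    simp
  have h8 : amalg_phi r true (Multiplicative.ofAdd 1) =
      (surfRel (r + 1) : FreeGroup (Fin (r + 1) × Bool)) := by
    change zpowersHom (FreeGroup (Fin (r + 1) × Bool)) (surfRel (r + 1)) (Multiplicative.ofAdd 1) = _
    rw [zpowersHom_apply]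
    simp
  rw [h7] at h5
  rw [h8] at h6
  rw [h6, ← h5]
  have h9 : Monoid.PushoutI.of (φ := amalg_phi r) false (amalg_w4 : F4) *
      Monoid.PushoutI.of (φ := amalg_phi r) false (amalg_w4⁻¹ : F4) = 1 := by
    erw [← map_mul]
    have h10 : (amalg_w4 * amalg_w4⁻¹ : F4) = 1 := mul_inv_cancel _
    erw [h10]
    exact map_one _
  exact h9

theorem toS4_injective (r : ℕ) : Function.Injective (toS4 r) := by
  have h1 := Monoid.PushoutI.of_injective (amalg_phi_inj r) false
  set Ψ : Surf (r + 3) →* Monoid.PushoutI (amalg_phi r) :=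
    PresentedGroup.toGroup (f := amalg_gen r) (by
      intro w hw
      rw [Set.mem_singleton_iff] at hw
      rw [hw]
      exact amalg_rel r) with hΨ
  have h2 : Ψ.comp (toS4 r) = (Monoid.PushoutI.of (φ := amalg_phi r) false :
      F4 →* Monoid.PushoutI (amalg_phi r)) := by
    ext l
    change Ψ (PresentedGroup.mk _ (FreeGroup.map (let4 r) (FreeGroup.of l))) = _
    rw [FreeGroup.map.of]
    change Ψ (PresentedGroup.of (let4 r l)) = _
    rw [hΨ, PresentedGroup.toGroup.of]
    fin_cases l <;> rfl
  have h3 : Function.Injective (Ψ.comp (toS4 r)) := by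
    rw [h2]
    exact h1
  intro a b hab
  apply h3
  change Ψ (toS4 r a) = Ψ (toS4 r b)
  rw [hab]

end Pool.Agent.H.MP_9a81ba_al
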