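import Pool.Agent.H.MP_9a81ba_al.Auts

/-!
Relations between the explicit automorphisms, checked by computation.
-/

namespace Pool.Agent.H.MP_9a81ba_al

/-- tables of the automorphisms and their inverses -/
def tab : Fin 10 → Bool → Fin 6 → Wd
  | 0, true => wJ
  | 0, false => wJi
  | 1, true => wS
  | 1, false => wSi
  | 2, true => wT
  | 2, false => wTi
  | 3, true => wtx
  | 3, false => wtxi
  | 4, true => wty
  | 4, false => wtyi
  | 5, true => wtc
  | 5, false => wtci
  | 6, true => wtm
  | 6, false => wtmi
  | 7, true => wz
  | 7, false => wzi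
  | 8, true => wA1
  | 8, false => wA1i
  | 9, true => wA2
  | 9, false => wA2i

/-- the automorphisms, numbered -/
def aut : Fin 10 → MulAut F6 := ![aJ, aS, aT, atx, aty, atc, atm, az, aA1, aA2]

theorem aut_mk (j : Fin 10) (w : Wd) : aut j (FreeGroup.mk w) = FreeGroup.mk (app (tab j true) w) := by
  fin_cases j <;> exact en_mk _ w

theorem aut_inv_mk (j : Fin 10) (w : Wd) :
    (aut j)⁻¹ (FreeGroup.mk w) = FreeGroup.mk (app (tab j false) w) := by
  fin_cases j <;> exact en_mk _ w

/-- product of automorphisms -/
def aM (L : List (Fin 10 × Bool)) : MulAut F6 :=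
  (L.map fun t => if t.2 then aut t.1 else (aut t.1)⁻¹).prod

/-- evaluation of a product of automorphisms on a word -/
def aW : List (Fin 10 × Bool) → Wd → Wd
  | [], w => w
  | t :: L, w => app (tab t.1 t.2) (aW L w)

theorem aM_mk (L : List (Fin 10 × Bool)) (w : Wd) :
    aM L (FreeGroup.mk w) = FreeGroup.mk (aW L w) := by
  induction L with
  | nil => rfl
  | cons t L ih =>
    obtain ⟨j, b⟩ := t
    have h : aM ((j, b) :: L) = (if b then aut j else (aut j)⁻¹) * aM L := by
      simp [aM]
    rw [h, MulAut.mul_apply, ih]
    cases b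
    · exact aut_inv_mk j _
    · exact aut_mk j _

theorem aM_ext (L L' : List (Fin 10 × Bool))
    (h : ∀ i : Fin 6, aW L [(i, true)] = aW L' [(i, true)]) : aM L = aM L' := by
  apply aut6_ext
  intro i
  rw [aM_mk, aM_mk, h i]

theorem aM_append (L L' : List (Fin 10 × Bool)) : aM (L ++ L') = aM L * aM L' := by
  simp [aM]

/-- images of the generators of `F4` -/
def v4 : Fin 3 → Bool → Fin 4 → List (Fin 4 × Bool)
  | 0, true => ![[(0, true), (1, true), (0, false)], [(0, false)], [(2, true)], [(3, true)]]
  | 0, false => ![[(1, false)], [(1, true), (0, true), (1, false)], [(2, true)], [(3, true)]]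
  | 1, true => ![[(0, false), (3, true), (2, true), (3, false), (2, false), (0, true), (2, true), (3, true), (2, false), (3, false), (0, true)], [(1, true), (0, false), (2, true), (3, true), (2, false), (3, false), (0, true)], [(0, false), (3, true), (2, true), (3, false), (2, true), (3, true), (2, false), (3, false), (0, true)], [(0, false), (3, true), (2, true), (3, false), (2, false), (3, true), (2, true), (3, true), (2, false), (3, false), (0, true)]]
  | 1, false => ![[(2, true), (3, true), (2, false), (3, false), (0, true), (3, true), (2, true), (3, false), (2, false)], [(1, true), (3, true), (2, true), (3, false), (2, false)], [(2, true), (3, true), (2, false), (3, false), (0, true), (2, true), (0, false), (3, true), (2, true), (3, false), (2, false)], [(2, true), (3, true), (2, false), (3, false), (0, true), (3, true), (0, false), (3, true), (2, true), (3, false), (2, false)]]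
  | 2, true => ![[(0, false), (3, true), (0, true), (3, false), (0, true)], [(1, true), (0, false), (3, false), (0, true)], [(2, true), (0, true)], [(0, false), (3, true), (0, true)]]
  | 2, false => ![[(3, false), (0, true), (3, true)], [(1, true), (3, true)], [(2, true), (3, false), (0, false), (3, true)], [(3, false), (0, true), (3, true), (0, false), (3, true)]]

/-- exponents of the twist -/
def e4 : Fin 3 → Fin 4 → ℤ
  | 0 => ![0, 0, 0, 0]
  | 1 => ![0, 2, 0, 0]
  | 2 => ![0, 1, 1, 0]

/-- codes of words in the pushes -/
def cd (L : List (Fin 4 × Bool)) : List (Fin 10 × Bool) := L.map fun t => (Fin.natAdd 3 t.1 |>.castAdd 3, t.2)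


/-- the twist with an integer exponent -/
def cz (n : ℤ) : List (Fin 10 × Bool) :=
  List.replicate n.natAbs (7, decide (0 ≤ n))

theorem eqv_check : ∀ (k : Fin 3) (l : Fin 4) (i : Fin 6),
    aW (((k.castAdd 7, true) : Fin 10 × Bool) :: cd [(l, true)]) [(i, true)] =
      aW (cd (v4 k true l) ++ cz (e4 k l) ++ [(k.castAdd 7, true)]) [(i, true)] := by
  decide +kernel

theorem comm_check : ∀ (j : Fin 10) (k : Fin 3) (i : Fin 6),
    (j.1 < 7 ∨ 0 < k.1) → (k = 0 ∨ j.1 < 8) →
    aW [(j, true), (k.natAdd 7, true)] [(i, true)] = aW [(k.natAdd 7, true), (j, true)] [(i, true)] := by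
  decide +kernel

theorem beta_check : ∀ (j : Fin 10), app (tab j true) wbeta = wbeta := by
  decide +kernel

/-- letters of `F4` in `F6` -/
def j4 (L : List (Fin 4 × Bool)) : Wd := L.map fun t => (t.1.natAdd 2, t.2)

/-- deletion of the letters `u, v`, without reduction -/
def dl (L : Wd) : List (Fin 4 × Bool) :=
  L.filterMap fun t => if h : 2 ≤ t.1.1 then some (⟨t.1.1 - 2, by omega⟩, t.2) else none

end Pool.Agent.H.MP_9a81ba_al
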