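import Pool.Agent.H.MP_9a81ba_al.AutEq

/-!
The homomorphism of block pushes, and its equivariance.
-/

namespace Pool.Agent.H.MP_9a81ba_al

/-- pushes of the block `u, v` along the elements of `F4` -/
def th : F4 →* MulAut F6 := FreeGroup.lift fun l => aut ((l.natAdd 3).castAdd 3)
/-- rotation `k = 0`, handle push `k = 1`, foot push `k = 2` -/
def s6 (k : Fin 3) : MulAut F6 := aut (k.castAdd 7)
/-- the twist about the block -/
def zz : MulAut F6 := aut 7
/-- the two squared twists inside the block -/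
def a6 (k : Fin 2) : MulAut F6 := aut (k.natAdd 8)

/-- endomorphism of `F4` given by words -/
def en4 (v : Fin 4 → List (Fin 4 × Bool)) : F4 →* F4 := FreeGroup.lift fun l => FreeGroup.mk (v l)

theorem en4_check : ∀ (k : Fin 3) (b : Bool) (l : Fin 4),
    en4 (v4 k b) (en4 (v4 k (!b)) (FreeGroup.of l)) = FreeGroup.of l := by
  decide +kernel

/-- the automorphisms of `F4` induced by `s6` -/
def s4 (k : Fin 3) : MulAut F4 :=
  MonoidHom.toMulEquiv (en4 (v4 k true)) (en4 (v4 k false))
    (by ext l; exact en4_check k false l) (by ext l; exact en4_check k true l)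

/-- the twist exponents -/
def e4h (k : Fin 3) : F4 →* Multiplicative ℤ := FreeGroup.lift fun l => Multiplicative.ofAdd (e4 k l)

/-- killing the letters `u, v` -/
def del : F6 →* F4 :=
  FreeGroup.lift ![1, 1, FreeGroup.of 0, FreeGroup.of 1, FreeGroup.of 2, FreeGroup.of 3]

/-- inclusion of `F4` in `F6` -/
def inc4 : F4 →* F6 := FreeGroup.map (Fin.natAdd 2)

theorem del_inc4 (w : F4) : del (inc4 w) = w := by
  have : del.comp inc4 = MonoidHom.id F4 := by
    ext l
    fin_cases l <;> rfl
  exact DFunLike.congr_fun this w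

/-- `th` on words -/
theorem authom_th_mk (L : List (Fin 4 × Bool)) : th (FreeGroup.mk L) = aM (cd L) := by
  rw [th, FreeGroup.lift_mk, aM, cd, List.map_map]
  congr 1
  refine List.map_congr_left fun t _ => ?_
  cases h : t.2 <;> simp [h]

theorem authom_aM_single (j : Fin 10) : aM [(j, true)] = aut j := by
  simp [aM]

theorem authom_comm (j : Fin 10) (k : Fin 3) (h1 : j.1 < 7 ∨ 0 < k.1) (h2 : k = 0 ∨ j.1 < 8) :
    aut j * aut (k.natAdd 7) = aut (k.natAdd 7) * aut j := by
  have h := aM_ext [(j, true), (k.natAdd 7, true)] [(k.natAdd 7, true), (j, true)]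
    (fun i => comm_check j k i h1 h2)
  simpa [aM] using h

theorem authom_th_ind (P : Subgroup (MulAut F6)) (h : ∀ l : Fin 4, aut ((l.natAdd 3).castAdd 3) ∈ P)
    (w : F4) : th w ∈ P := by
  have : th.range ≤ P := by
    rw [th, FreeGroup.range_lift_eq_closure, Subgroup.closure_le]
    rintro _ ⟨l, rfl⟩
    exact h l
  exact this ⟨w, rfl⟩

theorem th_zz (w : F4) : th w * zz = zz * th w := by
  have := authom_th_ind (Subgroup.centralizer {zz}) (fun l => by
    rw [Subgroup.mem_centralizer_singleton_iff]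
    exact authom_comm _ 0 (Or.inl (by simp only [Fin.val_castAdd, Fin.val_natAdd]; omega))
      (Or.inl rfl)) w
  rw [Subgroup.mem_centralizer_singleton_iff] at this
  exact this

theorem s6_zz (k : Fin 3) : s6 k * zz = zz * s6 k := by
  exact authom_comm (k.castAdd 7) 0 (Or.inl (by simp only [Fin.val_castAdd]; omega)) (Or.inl rfl)

theorem authom_a6 (j : Fin 2) : a6 j = aut ((j.succ).natAdd 7) := by
  fin_cases j <;> rfl

theorem a6_th (j : Fin 2) (w : F4) : a6 j * th w = th w * a6 j := by
  have := authom_th_ind (Subgroup.centralizer {a6 j}) (fun l => by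
    rw [Subgroup.mem_centralizer_singleton_iff, authom_a6]
    exact authom_comm _ _ (Or.inr (by simp)) (Or.inr (by
      simp only [Fin.val_castAdd, Fin.val_natAdd]; omega))) w
  rw [Subgroup.mem_centralizer_singleton_iff] at this
  exact this.symm

theorem a6_s6 (j : Fin 2) (k : Fin 3) : a6 j * s6 k = s6 k * a6 j := by
  rw [authom_a6]
  exact (authom_comm (k.castAdd 7) j.succ (Or.inr (by simp)) (Or.inr (by
    simp only [Fin.val_castAdd]; omega))).symm

theorem a6_zz (j : Fin 2) : a6 j * zz = zz * a6 j := by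
  rw [authom_a6]
  exact (authom_comm 7 j.succ (Or.inr (by simp)) (Or.inr (by decide))).symm

theorem authom_cz (n : ℤ) : aM (cz n) = zz ^ n := by
  rw [cz, aM, List.map_replicate, List.prod_replicate]
  by_cases h : 0 ≤ n
  · simp only [h, decide_true, if_true]
    rw [← zpow_natCast, Int.natCast_natAbs, abs_of_nonneg h]
    rfl
  · simp only [h, decide_false, Bool.false_eq_true, if_false]
    rw [inv_pow, ← zpow_natCast, Int.natCast_natAbs, abs_of_neg (by omega), zpow_neg, inv_inv]
    rfl

theorem authom_gen (k : Fin 3) (l : Fin 4) :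
    s6 k * th (FreeGroup.of l) = th (s4 k (FreeGroup.of l)) * zz ^ (e4 k l) * s6 k := by
  have h := aM_ext _ _ (fun i => eqv_check k l i)
  rw [aM_append, aM_append, authom_aM_single, authom_cz] at h
  have h1 : aM (((k.castAdd 7, true) : Fin 10 × Bool) :: cd [(l, true)]) =
      s6 k * th (FreeGroup.of l) := by
    have h2 : (FreeGroup.of l : F4) = FreeGroup.mk [(l, true)] := rfl
    rw [h2, authom_th_mk]
    simp [aM, s6]
  rw [h1] at h
  rw [h, ← authom_th_mk]
  have h3 : s4 k (FreeGroup.of l) = FreeGroup.mk (v4 k true l) := by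
    change en4 (v4 k true) (FreeGroup.of l) = _
    rw [en4, FreeGroup.lift_apply_of]
  rw [h3]
  rfl

/-- equivariance of the pushes -/
theorem s6_th (k : Fin 3) (w : F4) :
    s6 k * th w * (s6 k)⁻¹ = th (s4 k w) * zz ^ (e4h k w).toAdd := by
  have hz : ∀ (v : F4) (n : ℤ), th v * zz ^ n = zz ^ n * th v := fun v n =>
    ((Commute.zpow_right (show Commute (th v) zz from th_zz v) n)).eq
  induction w using FreeGroup.induction_on with
  | C1 => simp
  | of l =>
    rw [authom_gen, mul_inv_cancel_right]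
    simp [e4h]
  | inv_of l ih =>
    have h : s6 k * th (FreeGroup.of l)⁻¹ * (s6 k)⁻¹ =
        (s6 k * th (FreeGroup.of l) * (s6 k)⁻¹)⁻¹ := by
      simp [mul_assoc]
    rw [h, ih, hz, mul_inv_rev, map_inv, map_inv, map_inv, toAdd_inv, zpow_neg]
  | mul v w hv hw =>
    have h : s6 k * th (v * w) * (s6 k)⁻¹ =
        (s6 k * th v * (s6 k)⁻¹) * (s6 k * th w * (s6 k)⁻¹) := by
      simp [mul_assoc]
    rw [h, hv, hw, map_mul, map_mul, map_mul, toAdd_mul, zpow_add]
    rw [mul_assoc, ← mul_assoc (zz ^ _) (th _), ← hz, mul_assoc, mul_assoc]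

theorem authom_beta (j : Fin 10) : aut j beta6 = beta6 := by
  rw [beta6, aut_mk, beta_check]

theorem th_beta (w : F4) : th w beta6 = beta6 := by
  have := authom_th_ind (MulAction.stabilizer (MulAut F6) beta6) (fun l => authom_beta _) w
  exact this
theorem s6_beta (k : Fin 3) : s6 k beta6 = beta6 := authom_beta _
theorem zz_beta : zz beta6 = beta6 := authom_beta _
theorem a6_beta (j : Fin 2) : a6 j beta6 = beta6 := authom_beta _

theorem authom_del_check : ∀ (j : Fin 10) (i : Fin 6), 3 ≤ j.1 →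
    del (FreeGroup.mk (tab j true i)) = del (FreeGroup.of i) := by
  decide +kernel

theorem authom_del (j : Fin 10) (hj : 3 ≤ j.1) (g : F6) : del (aut j g) = del g := by
  have : del.comp (aut j).toMonoidHom = del := by
    ext i
    change del (aut j (FreeGroup.mk [(i, true)])) = del (FreeGroup.of i)
    rw [aut_mk]
    have h : (FreeGroup.mk (app (tab j true) [(i, true)]) : F6) =
        FreeGroup.mk (tab j true i) := by
      rw [← en_mk]
      simp [en, FreeGroup.lift_mk]
    rw [h]
    exact authom_del_check j i hj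
  exact DFunLike.congr_fun this g

theorem del_th (w : F4) (g : F6) : del (th w g) = del g := by
  induction w using FreeGroup.induction_on generalizing g with
  | C1 => simp
  | of l => exact authom_del _ (by simp only [Fin.val_castAdd, Fin.val_natAdd]; omega) g
  | inv_of l ih =>
    have := ih ((th (FreeGroup.of l))⁻¹ g)
    rw [MulAut.apply_inv_self] at this
    rw [map_inv]
    exact this.symm
  | mul v w hv hw => rw [map_mul, MulAut.mul_apply, hv, hw]

theorem authom_del_check2 : ∀ (k : Fin 3) (i : Fin 6),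
    del (FreeGroup.mk (tab (k.castAdd 7) true i)) = s4 k (del (FreeGroup.of i)) := by
  decide +kernel

theorem del_s6 (k : Fin 3) (g : F6) : del (s6 k g) = s4 k (del g) := by
  have : del.comp (s6 k).toMonoidHom = (s4 k).toMonoidHom.comp del := by
    ext i
    change del (aut (k.castAdd 7) (FreeGroup.mk [(i, true)])) = s4 k (del (FreeGroup.of i))
    rw [aut_mk]
    have h : (FreeGroup.mk (app (tab (k.castAdd 7) true) [(i, true)]) : F6) =
        FreeGroup.mk (tab (k.castAdd 7) true i) := by
      rw [← en_mk]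
      simp [en, FreeGroup.lift_mk]
    rw [h]
    exact authom_del_check2 k i
  exact DFunLike.congr_fun this g
theorem del_zz (g : F6) : del (zz g) = del g := authom_del _ (by decide) g
theorem del_a6 (j : Fin 2) (g : F6) : del (a6 j g) = del g :=
  authom_del _ (by simp only [Fin.val_natAdd]; omega) g

/-- conjugators -/
def authom_cj (l : Fin 4) (b : Bool) : Wd :=
  (tab ((l.natAdd 3).castAdd 3) b 1).take ((tab ((l.natAdd 3).castAdd 3) b 1).length / 2)

theorem authom_cj_check : ∀ (l : Fin 4) (b : Bool),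
    del (FreeGroup.mk (authom_cj l b)) = FreeGroup.mk [(l, !b)] ∧
    ∀ i : Fin 2, (FreeGroup.mk (tab ((l.natAdd 3).castAdd 3) b (i.castAdd 4)) : F6) =
      FreeGroup.mk (authom_cj l b ++ [(i.castAdd 4, true)] ++ invW (authom_cj l b)) := by
  decide +kernel

theorem authom_block1 (l : Fin 4) : ∃ g : F6, del g = (FreeGroup.of l)⁻¹ ∧
    ∀ i : Fin 2, th (FreeGroup.of l) (FreeGroup.of (i.castAdd 4)) =
      g * FreeGroup.of (i.castAdd 4) * g⁻¹ := by
  refine ⟨FreeGroup.mk (authom_cj l true), (authom_cj_check l true).1, fun i => ?_⟩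
  have h1 : th (FreeGroup.of l) = aut ((l.natAdd 3).castAdd 3) := by
    rw [th, FreeGroup.lift_apply_of]
  have h2 : (FreeGroup.of (i.castAdd 4) : F6) = FreeGroup.mk [(i.castAdd 4, true)] := rfl
  rw [h1, h2, aut_mk]
  have h : (FreeGroup.mk (app (tab ((l.natAdd 3).castAdd 3) true) [(i.castAdd 4, true)]) : F6) =
      FreeGroup.mk (tab ((l.natAdd 3).castAdd 3) true (i.castAdd 4)) := by
    rw [← en_mk]
    simp [en, FreeGroup.lift_mk]
  rw [h, (authom_cj_check l true).2 i, ← mk_invW, FreeGroup.mul_mk, FreeGroup.mul_mk]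

theorem authom_block2 (l : Fin 4) : ∃ g : F6, del g = FreeGroup.of l ∧
    ∀ i : Fin 2, (th (FreeGroup.of l))⁻¹ (FreeGroup.of (i.castAdd 4)) =
      g * FreeGroup.of (i.castAdd 4) * g⁻¹ := by
  refine ⟨FreeGroup.mk (authom_cj l false), (authom_cj_check l false).1, fun i => ?_⟩
  have h1 : th (FreeGroup.of l) = aut ((l.natAdd 3).castAdd 3) := by
    rw [th, FreeGroup.lift_apply_of]
  have h2 : (FreeGroup.of (i.castAdd 4) : F6) = FreeGroup.mk [(i.castAdd 4, true)] := rfl
  rw [h1, h2, aut_inv_mk]
  have h : (FreeGroup.mk (app (tab ((l.natAdd 3).castAdd 3) false) [(i.castAdd 4, true)]) : F6) =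
      FreeGroup.mk (tab ((l.natAdd 3).castAdd 3) false (i.castAdd 4)) := by
    rw [← en_mk]
    simp [en, FreeGroup.lift_mk]
  rw [h, (authom_cj_check l false).2 i, ← mk_invW, FreeGroup.mul_mk, FreeGroup.mul_mk]

/-- the pushes conjugate the block -/
theorem th_block (w : F4) : ∃ g : F6, del g = w⁻¹ ∧
    ∀ l : Fin 2, th w (FreeGroup.of (l.castAdd 4)) = g * FreeGroup.of (l.castAdd 4) * g⁻¹ := by
  induction w using FreeGroup.induction_on with
  | C1 => exact ⟨1, by simp, fun l => by simp⟩
  | of l => exact authom_block1 l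
  | inv_of l _ =>
    obtain ⟨g, h1, h2⟩ := authom_block2 l
    refine ⟨g, by rw [h1, inv_inv], fun i => ?_⟩
    rw [map_inv, h2]
  | mul v w hv hw =>
    obtain ⟨g, h1, h2⟩ := hv
    obtain ⟨g', h3, h4⟩ := hw
    refine ⟨th v g' * g, ?_, fun l => ?_⟩
    · rw [map_mul, del_th, h1, h3, mul_inv_rev]
    · rw [map_mul, MulAut.mul_apply, h4, map_mul, map_mul, map_inv, h2]
      group

theorem authom_s6_check : ∀ (k : Fin 3) (l : Fin 2),
    tab (k.castAdd 7) true (l.castAdd 4) = [(l.castAdd 4, true)] := by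
  decide +kernel

theorem authom_aut_of (j : Fin 10) (i : Fin 6) :
    aut j (FreeGroup.of i) = FreeGroup.mk (tab j true i) := by
  have h2 : (FreeGroup.of i : F6) = FreeGroup.mk [(i, true)] := rfl
  rw [h2, aut_mk, ← en_mk]
  simp [en, FreeGroup.lift_mk]

theorem s6_block (k : Fin 3) (l : Fin 2) :
    s6 k (FreeGroup.of (l.castAdd 4)) = FreeGroup.of (l.castAdd 4) := by
  rw [s6, authom_aut_of, authom_s6_check]
  rfl

theorem zz_block : ∃ g : F6, del g = 1 ∧
    ∀ l : Fin 2, zz (FreeGroup.of (l.castAdd 4)) = g * FreeGroup.of (l.castAdd 4) * g⁻¹ := by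
  refine ⟨cm (FreeGroup.of 0) (FreeGroup.of 1), ?_, fun l => ?_⟩
  · simp [cm, del]
  · rw [zz, authom_aut_of]
    fin_cases l
    · decide +kernel
    · decide +kernel

theorem authom_a6_check : ∀ (j : Fin 2) (l : Fin 4),
    tab (j.natAdd 8) true (l.natAdd 2) = [(l.natAdd 2, true)] := by
  decide +kernel

theorem a6_inc4 (j : Fin 2) (w : F4) : a6 j (inc4 w) = inc4 w := by
  have : (a6 j).toMonoidHom.comp inc4 = inc4 := by
    ext l
    change aut (j.natAdd 8) (inc4 (FreeGroup.of l)) = inc4 (FreeGroup.of l)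
    rw [inc4, FreeGroup.map.of, authom_aut_of, authom_a6_check]
    rfl
  exact DFunLike.congr_fun this w

theorem a6_0 : a6 0 (FreeGroup.of 0) = FreeGroup.of 0 * FreeGroup.of 1 ^ 2 ∧
    a6 0 (FreeGroup.of 1) = FreeGroup.of 1 := by
  constructor <;> rw [a6, authom_aut_of] <;> decide +kernel

theorem a6_1 : a6 1 (FreeGroup.of 0) = FreeGroup.of 0 ∧
    a6 1 (FreeGroup.of 1) = FreeGroup.of 1 * FreeGroup.of 0 ^ 2 := by
  constructor <;> rw [a6, authom_aut_of] <;> decide +kernel

end Pool.Agent.H.MP_9a81ba_al
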