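import Pool.Agent.H.MP_9a81ba_al.Defs

/-!
Explicit automorphisms of the free group of rank six fixing the boundary word
`[u,v][c,m][x,y]`: block pushes, handle pushes, foot pushes, twists.
Letters: `0 = u`, `1 = v`, `2 = x`, `3 = y`, `4 = c`, `5 = m`.
-/

namespace Pool.Agent.H.MP_9a81ba_al

/-- words -/
abbrev Wd : Type := List (Fin 6 × Bool)
/-- the free group of rank six -/
abbrev F6 : Type := FreeGroup (Fin 6)
/-- the free group of rank four, letters `0 = x`, `1 = y`, `2 = c`, `3 = m` -/
abbrev F4 : Type := FreeGroup (Fin 4)

/-- reduced multiplication by a letter -/
def pushL (a : Fin 6 × Bool) : Wd → Wd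
  | [] => [a]
  | b :: w => if a.1 = b.1 ∧ a.2 = !b.2 then w else a :: b :: w

/-- inverse of a word -/
def invW (w : Wd) : Wd := (w.map fun a => (a.1, !a.2)).reverse

/-- reduced substitution -/
def app (f : Fin 6 → Wd) : Wd → Wd
  | [] => []
  | a :: w => (if a.2 then f a.1 else invW (f a.1)).foldr pushL (app f w)

theorem mk_pushL (a : Fin 6 × Bool) (w : Wd) :
    (FreeGroup.mk (pushL a w) : F6) = FreeGroup.mk [a] * FreeGroup.mk w := by
  cases w with
  | nil => simp [pushL, FreeGroup.mul_mk]
  | cons b w =>
    rw [pushL]
    split_ifs with h
    · obtain ⟨a1, a2⟩ := a
      obtain ⟨b1, b2⟩ := b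
      obtain ⟨h1, h2⟩ := h
      simp only at h1 h2
      subst h1 h2
      rw [FreeGroup.mul_mk]
      apply Eq.symm
      apply Quot.sound
      exact FreeGroup.Red.Step.cons_not_rev
    · rw [FreeGroup.mul_mk]
      rfl

theorem mk_foldr (v w : Wd) :
    (FreeGroup.mk (v.foldr pushL w) : F6) = FreeGroup.mk v * FreeGroup.mk w := by
  induction v with
  | nil => simp [FreeGroup.mul_mk]
  | cons a v ih =>
    rw [List.foldr_cons, mk_pushL, ih, ← mul_assoc, FreeGroup.mul_mk]
    rfl

theorem mk_invW (w : Wd) : (FreeGroup.mk (invW w) : F6) = (FreeGroup.mk w)⁻¹ := by
  rw [FreeGroup.inv_mk]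
  rfl

/-- endomorphism given by words -/
def en (f : Fin 6 → Wd) : F6 →* F6 := FreeGroup.lift fun i => FreeGroup.mk (f i)

theorem en_mk (f : Fin 6 → Wd) (w : Wd) : en f (FreeGroup.mk w) = FreeGroup.mk (app f w) := by
  induction w with
  | nil =>
    simp [en, app, FreeGroup.lift_mk]
    rfl
  | cons a w ih =>
    have : (FreeGroup.mk (a :: w) : F6) = FreeGroup.mk [a] * FreeGroup.mk w := by
      rw [FreeGroup.mul_mk]
      rfl
    rw [this, map_mul, ih, app, mk_foldr]
    congr 1
    obtain ⟨i, b⟩ := a
    cases b
    · simp [en, FreeGroup.lift_mk, mk_invW]
    · simp [en, FreeGroup.lift_mk]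

/-- automorphism given by words and inverse words -/
def mk6 (f g : Fin 6 → Wd) (h1 : ∀ i, app f (g i) = [(i, true)])
    (h2 : ∀ i, app g (f i) = [(i, true)]) : MulAut F6 :=
  MonoidHom.toMulEquiv (en f) (en g)
    (by
      ext i
      change en g (en f (FreeGroup.mk [(i, true)])) = FreeGroup.mk [(i, true)]
      rw [en_mk, en_mk]
      have : app f [(i, true)] = f i ∨ True := Or.inr trivial
      rw [← en_mk, ← en_mk]
      have h3 : en f (FreeGroup.mk [(i, true)]) = FreeGroup.mk (f i) := by
        simp [en, FreeGroup.lift_mk]
      rw [h3, en_mk, h2])
    (by
      ext i
      change en f (en g (FreeGroup.mk [(i, true)])) = FreeGroup.mk [(i, true)]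
      have h3 : en g (FreeGroup.mk [(i, true)]) = FreeGroup.mk (g i) := by
        simp [en, FreeGroup.lift_mk]
      rw [h3, en_mk, h1])

theorem mk6_mk (f g : Fin 6 → Wd) (h1 : ∀ i, app f (g i) = [(i, true)])
    (h2 : ∀ i, app g (f i) = [(i, true)]) (w : Wd) :
    mk6 f g h1 h2 (FreeGroup.mk w) = FreeGroup.mk (app f w) := en_mk f w

theorem mk6_inv_mk (f g : Fin 6 → Wd) (h1 : ∀ i, app f (g i) = [(i, true)])
    (h2 : ∀ i, app g (f i) = [(i, true)]) (w : Wd) :
    (mk6 f g h1 h2)⁻¹ (FreeGroup.mk w) = FreeGroup.mk (app g w) := en_mk g w

/-- extensionality -/
theorem aut6_ext (φ ψ : MulAut F6)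
    (h : ∀ i : Fin 6, φ (FreeGroup.mk [(i, true)]) = ψ (FreeGroup.mk [(i, true)])) : φ = ψ := by
  apply MulEquiv.toMonoidHom_injective
  ext i
  exact h i

/-- images of the generators -/
def wJ : Fin 6 → Wd := ![[(0, true)],
  [(1, true)],
  [(2, true), (3, true), (2, false)],
  [(2, false)],
  [(4, true)],
  [(5, true)]]

/-- images of the generators -/
def wJi : Fin 6 → Wd := ![[(0, true)],
  [(1, true)],
  [(3, false)],
  [(3, true), (2, true), (3, false)],
  [(4, true)],
  [(5, true)]]

/-- images of the generators -/
def wS : Fin 6 → Wd := ![[(0, true)],
  [(1, true)],
  [(2, false), (5, true), (4, true), (5, false), (4, false), (2, true), (4, true), (5, true), (4, false), (5, false), (2, true)],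
  [(3, true), (2, false), (4, true), (5, true), (4, false), (5, false), (2, true)],
  [(2, false), (5, true), (4, true), (5, false), (4, true), (5, true), (4, false), (5, false), (2, true)],
  [(2, false), (5, true), (4, true), (5, false), (4, false), (5, true), (4, true), (5, true), (4, false), (5, false), (2, true)]]

/-- images of the generators -/
def wSi : Fin 6 → Wd := ![[(0, true)],
  [(1, true)],
  [(4, true), (5, true), (4, false), (5, false), (2, true), (5, true), (4, true), (5, false), (4, false)],
  [(3, true), (5, true), (4, true), (5, false), (4, false)],
  [(4, true), (5, true), (4, false), (5, false), (2, true), (4, true), (2, false), (5, true), (4, true), (5, false), (4, false)],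
  [(4, true), (5, true), (4, false), (5, false), (2, true), (5, true), (2, false), (5, true), (4, true), (5, false), (4, false)]]

/-- images of the generators -/
def wT : Fin 6 → Wd := ![[(0, true)],
  [(1, true)],
  [(2, false), (5, true), (2, true), (5, false), (2, true)],
  [(3, true), (2, false), (5, false), (2, true)],
  [(4, true), (2, true)],
  [(2, false), (5, true), (2, true)]]

/-- images of the generators -/
def wTi : Fin 6 → Wd := ![[(0, true)],
  [(1, true)],
  [(5, false), (2, true), (5, true)],
  [(3, true), (5, true)],
  [(4, true), (5, false), (2, false), (5, true)],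
  [(5, false), (2, true), (5, true), (2, false), (5, true)]]

/-- images of the generators -/
def wtx : Fin 6 → Wd := ![[(2, false), (1, true), (0, true), (1, false), (0, true), (1, true), (0, false), (1, false), (2, true)],
  [(2, false), (1, true), (0, true), (1, false), (0, false), (1, true), (0, true), (1, true), (0, false), (1, false), (2, true)],
  [(2, false), (1, true), (0, true), (1, false), (0, false), (2, true), (0, true), (1, true), (0, false), (1, false), (2, true)],
  [(3, true), (2, false), (0, true), (1, true), (0, false), (1, false), (2, true)],
  [(2, false), (1, true), (0, true), (1, false), (0, false), (2, true), (0, true), (1, true), (0, false), (1, false), (4, true), (1, true), (0, true), (1, false), (0, false), (2, false), (0, true), (1, true), (0, false), (1, false), (2, true)],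
  [(2, false), (1, true), (0, true), (1, false), (0, false), (2, true), (0, true), (1, true), (0, false), (1, false), (5, true), (1, true), (0, true), (1, false), (0, false), (2, false), (0, true), (1, true), (0, false), (1, false), (2, true)]]

/-- images of the generators -/
def wtxi : Fin 6 → Wd := ![[(0, true), (1, true), (0, false), (1, false), (2, true), (0, true), (2, false), (1, true), (0, true), (1, false), (0, false)],
  [(0, true), (1, true), (0, false), (1, false), (2, true), (1, true), (2, false), (1, true), (0, true), (1, false), (0, false)],
  [(0, true), (1, true), (0, false), (1, false), (2, true), (1, true), (0, true), (1, false), (0, false)],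
  [(3, true), (1, true), (0, true), (1, false), (0, false)],
  [(0, true), (1, true), (0, false), (1, false), (2, true), (1, true), (0, true), (1, false), (0, false), (2, false), (4, true), (2, true), (0, true), (1, true), (0, false), (1, false), (2, false), (1, true), (0, true), (1, false), (0, false)],
  [(0, true), (1, true), (0, false), (1, false), (2, true), (1, true), (0, true), (1, false), (0, false), (2, false), (5, true), (2, true), (0, true), (1, true), (0, false), (1, false), (2, false), (1, true), (0, true), (1, false), (0, false)]]

/-- images of the generators -/
def wty : Fin 6 → Wd := ![[(0, true), (1, true), (0, false), (1, false), (3, false), (0, true), (3, true), (1, true), (0, true), (1, false), (0, false)],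
  [(0, true), (1, true), (0, false), (1, false), (3, false), (1, true), (3, true), (1, true), (0, true), (1, false), (0, false)],
  [(0, true), (1, true), (0, false), (1, false), (3, false), (1, true), (0, true), (1, false), (0, false), (3, true), (2, true), (1, true), (0, true), (1, false), (0, false)],
  [(0, true), (1, true), (0, false), (1, false), (3, true), (1, true), (0, true), (1, false), (0, false)],
  [(0, true), (1, true), (0, false), (1, false), (3, false), (1, true), (0, true), (1, false), (0, false), (3, true), (4, true), (3, false), (0, true), (1, true), (0, false), (1, false), (3, true), (1, true), (0, true), (1, false), (0, false)],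
  [(0, true), (1, true), (0, false), (1, false), (3, false), (1, true), (0, true), (1, false), (0, false), (3, true), (5, true), (3, false), (0, true), (1, true), (0, false), (1, false), (3, true), (1, true), (0, true), (1, false), (0, false)]]

/-- images of the generators -/
def wtyi : Fin 6 → Wd := ![[(3, true), (1, true), (0, true), (1, false), (0, true), (1, true), (0, false), (1, false), (3, false)],
  [(3, true), (1, true), (0, true), (1, false), (0, false), (1, true), (0, true), (1, true), (0, false), (1, false), (3, false)],
  [(3, true), (1, true), (0, true), (1, false), (0, false), (3, false), (0, true), (1, true), (0, false), (1, false), (2, true), (3, true), (0, true), (1, true), (0, false), (1, false), (3, false)],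
  [(3, true), (1, true), (0, true), (1, false), (0, false), (3, true), (0, true), (1, true), (0, false), (1, false), (3, false)],
  [(3, true), (1, true), (0, true), (1, false), (0, false), (3, false), (0, true), (1, true), (0, false), (1, false), (4, true), (1, true), (0, true), (1, false), (0, false), (3, true), (0, true), (1, true), (0, false), (1, false), (3, false)],
  [(3, true), (1, true), (0, true), (1, false), (0, false), (3, false), (0, true), (1, true), (0, false), (1, false), (5, true), (1, true), (0, true), (1, false), (0, false), (3, true), (0, true), (1, true), (0, false), (1, false), (3, false)]]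

/-- images of the generators -/
def wtc : Fin 6 → Wd := ![[(4, false), (1, true), (0, true), (1, false), (0, true), (1, true), (0, false), (1, false), (4, true)],
  [(4, false), (1, true), (0, true), (1, false), (0, false), (1, true), (0, true), (1, true), (0, false), (1, false), (4, true)],
  [(2, true)],
  [(3, true)],
  [(4, false), (1, true), (0, true), (1, false), (0, false), (4, true), (0, true), (1, true), (0, false), (1, false), (4, true)],
  [(5, true), (4, false), (0, true), (1, true), (0, false), (1, false), (4, true)]]

/-- images of the generators -/
def wtci : Fin 6 → Wd := ![[(0, true), (1, true), (0, false), (1, false), (4, true), (0, true), (4, false), (1, true), (0, true), (1, false), (0, false)],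
  [(0, true), (1, true), (0, false), (1, false), (4, true), (1, true), (4, false), (1, true), (0, true), (1, false), (0, false)],
  [(2, true)],
  [(3, true)],
  [(0, true), (1, true), (0, false), (1, false), (4, true), (1, true), (0, true), (1, false), (0, false)],
  [(5, true), (1, true), (0, true), (1, false), (0, false)]]

/-- images of the generators -/
def wtm : Fin 6 → Wd := ![[(0, true), (1, true), (0, false), (1, false), (5, false), (0, true), (5, true), (1, true), (0, true), (1, false), (0, false)],
  [(0, true), (1, true), (0, false), (1, false), (5, false), (1, true), (5, true), (1, true), (0, true), (1, false), (0, false)],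
  [(2, true)],
  [(3, true)],
  [(0, true), (1, true), (0, false), (1, false), (5, false), (1, true), (0, true), (1, false), (0, false), (5, true), (4, true), (1, true), (0, true), (1, false), (0, false)],
  [(0, true), (1, true), (0, false), (1, false), (5, true), (1, true), (0, true), (1, false), (0, false)]]

/-- images of the generators -/
def wtmi : Fin 6 → Wd := ![[(5, true), (1, true), (0, true), (1, false), (0, true), (1, true), (0, false), (1, false), (5, false)],
  [(5, true), (1, true), (0, true), (1, false), (0, false), (1, true), (0, true), (1, true), (0, false), (1, false), (5, false)],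
  [(2, true)],
  [(3, true)],
  [(5, true), (1, true), (0, true), (1, false), (0, false), (5, false), (0, true), (1, true), (0, false), (1, false), (4, true), (5, true), (0, true), (1, true), (0, false), (1, false), (5, false)],
  [(5, true), (1, true), (0, true), (1, false), (0, false), (5, true), (0, true), (1, true), (0, false), (1, false), (5, false)]]

/-- images of the generators -/
def wz : Fin 6 → Wd := ![[(0, true), (1, true), (0, false), (1, false), (0, true), (1, true), (0, true), (1, false), (0, false)],
  [(0, true), (1, true), (0, false), (1, true), (0, true), (1, false), (0, false)],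
  [(2, true)],
  [(3, true)],
  [(4, true)],
  [(5, true)]]

/-- images of the generators -/
def wzi : Fin 6 → Wd := ![[(1, true), (0, true), (1, false), (0, true), (1, true), (0, false), (1, false)],
  [(1, true), (0, true), (1, false), (0, false), (1, true), (0, true), (1, true), (0, false), (1, false)],
  [(2, true)],
  [(3, true)],
  [(4, true)],
  [(5, true)]]

/-- images of the generators -/
def wA1 : Fin 6 → Wd := ![[(0, true), (1, true), (1, true)],
  [(1, true)],
  [(2, true)],
  [(3, true)],
  [(4, true)],
  [(5, true)]]

/-- images of the generators -/
def wA1i : Fin 6 → Wd := ![[(0, true), (1, false), (1, false)],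
  [(1, true)],
  [(2, true)],
  [(3, true)],
  [(4, true)],
  [(5, true)]]

/-- images of the generators -/
def wA2 : Fin 6 → Wd := ![[(0, true)],
  [(1, true), (0, true), (0, true)],
  [(2, true)],
  [(3, true)],
  [(4, true)],
  [(5, true)]]

/-- images of the generators -/
def wA2i : Fin 6 → Wd := ![[(0, true)],
  [(1, true), (0, false), (0, false)],
  [(2, true)],
  [(3, true)],
  [(4, true)],
  [(5, true)]]

/-- rotation of the block `x, y` -/
def aJ : MulAut F6 := mk6 wJ wJi (by decide +kernel) (by decide +kernel)

/-- push of the handle `c, m` around `x` -/
def aS : MulAut F6 := mk6 wS wSi (by decide +kernel) (by decide +kernel)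

/-- push of a foot of the handle around `x` -/
def aT : MulAut F6 := mk6 wT wTi (by decide +kernel) (by decide +kernel)

/-- push of the block `u, v` along `x` -/
def atx : MulAut F6 := mk6 wtx wtxi (by decide +kernel) (by decide +kernel)

/-- push of the block `u, v` along `y` -/
def aty : MulAut F6 := mk6 wty wtyi (by decide +kernel) (by decide +kernel)

/-- push of the block `u, v` along `c` -/
def atc : MulAut F6 := mk6 wtc wtci (by decide +kernel) (by decide +kernel)

/-- push of the block `u, v` along `m` -/
def atm : MulAut F6 := mk6 wtm wtmi (by decide +kernel) (by decide +kernel)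

/-- twist about the block `u, v` -/
def az : MulAut F6 := mk6 wz wzi (by decide +kernel) (by decide +kernel)

/-- squared twist inside the block `u, v` -/
def aA1 : MulAut F6 := mk6 wA1 wA1i (by decide +kernel) (by decide +kernel)

/-- squared twist inside the block `u, v` -/
def aA2 : MulAut F6 := mk6 wA2 wA2i (by decide +kernel) (by decide +kernel)

/-- the boundary word `[u,v][c,m][x,y]` -/
def wbeta : Wd := [(0, true), (1, true), (0, false), (1, false), (4, true), (5, true), (4, false), (5, false), (2, true), (3, true), (2, false), (3, false)]

/-- the boundary word `[u,v][c,m][x,y]` -/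
def beta6 : F6 := FreeGroup.mk wbeta


end Pool.Agent.H.MP_9a81ba_al
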