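import Pool.Agent.H.MP_9a81ba_al.Tools

/-!
Sanov's free group, acting on `ℤ × ℤ`.
-/

namespace Pool.Agent.H.MP_9a81ba_al

/-- `(a, b) ↦ (a, b + 2 a)` and `(a, b) ↦ (a + 2 b, b)` -/
def sn : Fin 2 → Equiv.Perm (ℤ × ℤ) :=
  ![{ toFun := fun y => (y.1, y.2 + 2 * y.1)
      invFun := fun y => (y.1, y.2 - 2 * y.1)
      left_inv := fun y => by simp
      right_inv := fun y => by simp },
    { toFun := fun y => (y.1 + 2 * y.2, y.2)
      invFun := fun y => (y.1 - 2 * y.2, y.2)
      left_inv := fun y => by simp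
      right_inv := fun y => by simp }]

theorem sanov_zpow0 (n : ℤ) (a b : ℤ) : (sn 0 ^ n) (a, b) = (a, b + 2 * n * a) := by
  induction n using Int.induction_on with
  | zero => simp
  | succ n ih =>
    rw [add_comm, zpow_add, Equiv.Perm.mul_apply, ih, zpow_one]
    simp [sn]
    ring
  | pred n ih =>
    rw [sub_eq_add_neg, add_comm, zpow_add, Equiv.Perm.mul_apply, ih, zpow_neg_one]
    change ((a, b + 2 * -(n:ℤ) * a - 2 * a) : ℤ × ℤ) = _
    congr 1
    ring

theorem sanov_zpow1 (n : ℤ) (a b : ℤ) : (sn 1 ^ n) (a, b) = (a + 2 * n * b, b) := by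
  induction n using Int.induction_on with
  | zero => simp
  | succ n ih =>
    rw [add_comm, zpow_add, Equiv.Perm.mul_apply, ih, zpow_one]
    simp [sn]
    ring
  | pred n ih =>
    rw [sub_eq_add_neg, add_comm, zpow_add, Equiv.Perm.mul_apply, ih, zpow_neg_one]
    change ((a + 2 * -(n:ℤ) * b - 2 * b, b) : ℤ × ℤ) = _
    congr 1
    ring

/-- the ping-pong sets -/
def sanovX : Fin 2 → Set (ℤ × ℤ) := ![{y | |y.1| < |y.2|}, {y | |y.2| < |y.1|}]

theorem sanov_aux (a b n : ℤ) (h : |b| < |a|) (hn : n ≠ 0) : |a| < |b + 2 * n * a| := by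
  have h1 : |2 * n * a| ≤ |b + 2 * n * a| + |b| := by
    have := abs_sub (b + 2 * n * a) b
    simpa using this
  have h2 : 2 * |a| ≤ |2 * n * a| := by
    rw [abs_mul, abs_mul, abs_two]
    have : 1 ≤ |n| := Int.one_le_abs hn
    nlinarith [abs_nonneg a]
  linarith

theorem sanov_injective : Function.Injective (FreeGroup.lift sn) := by
  have : FreeGroup.lift sn =
      (Monoid.CoprodI.lift fun i => FreeGroup.lift fun _ => sn i).comp
        (@freeGroupEquivCoprodI (Fin 2)).toMonoidHom := by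
    ext i : 1
    simp
  rw [this, MonoidHom.coe_comp]
  clear this
  refine Function.Injective.comp ?_ (MulEquiv.injective freeGroupEquivCoprodI)
  change Function.Injective (Monoid.CoprodI.lift fun i : Fin 2 =>
    (FreeGroup.lift fun _ : Unit => sn i))
  let H : Fin 2 → Type := fun _i => FreeGroup Unit
  let f : ∀ i, H i →* Equiv.Perm (ℤ × ℤ) := fun i => FreeGroup.lift fun _ => sn i
  apply Monoid.CoprodI.lift_injective_of_ping_pong f _ sanovX
  · intro i
    fin_cases i
    · exact ⟨(0, 1), by simp [sanovX]⟩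
    · exact ⟨(1, 0), by simp [sanovX]⟩
  · intro i j hij
    rw [Function.onFun, Set.disjoint_left]
    rintro ⟨a, b⟩ h1 h2
    fin_cases i <;> fin_cases j
    · exact hij rfl
    · simp [sanovX] at h1 h2
      omega
    · simp [sanovX] at h1 h2
      omega
    · exact hij rfl
  · intro i j hij h hh
    rintro _ ⟨⟨a, b⟩, hy, rfl⟩
    obtain ⟨n, hn⟩ : ∃ n : ℤ, h = (FreeGroup.of () : FreeGroup Unit) ^ n :=
      ⟨FreeGroup.freeGroupUnitEquivInt h, (FreeGroup.freeGroupUnitEquivInt.left_inv h).symm⟩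
    have hn0 : n ≠ 0 := by
      rintro rfl
      exact hh (by rw [hn]; rfl)
    have hf : f i h = sn i ^ n := by
      rw [hn]
      simp only [f]
      rw [map_zpow, FreeGroup.lift_apply_of]
    change (f i h) • ((a, b) : ℤ × ℤ) ∈ sanovX i
    rw [hf]
    change (sn i ^ n) (a, b) ∈ sanovX i
    fin_cases i <;> fin_cases j
    · exact absurd rfl hij
    · change (sn 0 ^ n) (a, b) ∈ sanovX 0
      rw [sanov_zpow0]
      exact sanov_aux a b n hy hn0
    · change (sn 1 ^ n) (a, b) ∈ sanovX 1
      rw [sanov_zpow1]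
      exact sanov_aux b a n hy hn0
    · exact absurd rfl hij
  · right
    refine ⟨0, ?_⟩
    change 3 ≤ Cardinal.mk (FreeGroup Unit)
    rw [FreeGroup.freeGroupUnitEquivInt.cardinal_eq, Cardinal.mk_denumerable]
    exact (Cardinal.natCast_lt_aleph0).le

theorem sanov_add (w : FreeGroup (Fin 2)) : ∀ y z : ℤ × ℤ,
    FreeGroup.lift sn w (y + z) = FreeGroup.lift sn w y + FreeGroup.lift sn w z := by
  have key : ∀ (i : Fin 2) (y z : ℤ × ℤ), sn i (y + z) = sn i y + sn i z := by
    rintro i ⟨a, b⟩ ⟨c, d⟩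
    fin_cases i
    · simp [sn]
      ring
    · simp [sn]
      ring
  induction w using FreeGroup.induction_on with
  | C1 => intro y z; simp
  | of i => intro y z; simpa using key i y z
  | inv_of i _ =>
    intro y z
    rw [map_inv, FreeGroup.lift_apply_of]
    apply (sn i).injective
    rw [key]
    simp
  | mul v w hv hw =>
    intro y z
    rw [map_mul, Equiv.Perm.mul_apply, Equiv.Perm.mul_apply, Equiv.Perm.mul_apply, hw, hv]

/-- the action is free on words and detected on the two basis vectors -/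
theorem sanov (w : FreeGroup (Fin 2)) (h1 : FreeGroup.lift sn w (1, 0) = (1, 0))
    (h2 : FreeGroup.lift sn w (0, 1) = (0, 1)) : w = 1 := by
  apply sanov_injective
  rw [map_one]
  let F : (ℤ × ℤ) →+ (ℤ × ℤ) := AddMonoidHom.mk' (FreeGroup.lift sn w) (sanov_add w)
  ext1 y
  obtain ⟨a, b⟩ := y
  have : ((a, b) : ℤ × ℤ) = a • (1, 0) + b • (0, 1) := by simp
  change F (a, b) = (a, b)
  rw [this, map_add, map_zsmul, map_zsmul]
  change a • (FreeGroup.lift sn w (1, 0)) + b • (FreeGroup.lift sn w (0, 1)) = _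
  rw [h1, h2]

/-- free groups of finite rank embed in the free group of rank two -/
theorem exists_free_family (α : Type*) [Finite α] :
    ∃ w : α → FreeGroup (Fin 2), Function.Injective (FreeGroup.lift w) := by
  obtain ⟨k, ⟨e⟩⟩ := Finite.exists_equiv_fin α
  let ε : Unit ⊕ Unit ≃ Fin 2 :=
    { toFun := Sum.elim (fun _ => 0) (fun _ => 1)
      invFun := ![Sum.inl (), Sum.inr ()]
      left_inv := by rintro (_ | _) <;> rfl
      right_inv := by intro i; fin_cases i <;> rfl }
  let y : α → FreeGroup Unit × Unit := fun a => (FreeGroup.of () ^ ((e a : ℕ) : ℤ), ())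
  have hy : Function.Injective y := by
    intro a b hab
    have h1 : (FreeGroup.of () : FreeGroup Unit) ^ ((e a : ℕ) : ℤ) =
        FreeGroup.of () ^ ((e b : ℕ) : ℤ) := congrArg Prod.fst hab
    have h2 : ((e a : ℕ) : ℤ) = ((e b : ℕ) : ℤ) :=
      FreeGroup.freeGroupUnitEquivInt.symm.injective h1
    exact e.injective (Fin.ext (by exact_mod_cast h2))
  refine ⟨fun a => FreeGroup.map ε (cj (y a)), ?_⟩
  have h3 : (FreeGroup.lift fun a => FreeGroup.map ε (cj (y a))) =
      (FreeGroup.map ε).comp (FreeGroup.lift fun a => cj (y a)) := by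
    ext a
    simp
  rw [h3, MonoidHom.coe_comp]
  exact (FreeGroup.freeGroupCongr ε).injective.comp (lift_cj_injective y hy)

end Pool.Agent.H.MP_9a81ba_al
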