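import Pool.Agent.H.MP_9a81ba_al.SurfExt
import Pool.Agent.H.MP_9a81ba_al.Sanov

/-!
Automorphisms of the rest of the surface and homological detection.
-/

namespace Pool.Agent.H.MP_9a81ba_al

/-- homology of the first block of `F6` -/
def hu : F6 →* Multiplicative (ℤ × ℤ) :=
  FreeGroup.lift ![Multiplicative.ofAdd (1, 0), Multiplicative.ofAdd (0, 1), 1, 1, 1, 1]

/-- value of a letter -/
private def brV (a : Fin 6 × Bool) : ℤ × ℤ :=
  if a.2 then (![(1, 0), (0, 1), 0, 0, 0, 0] : Fin 6 → ℤ × ℤ) a.1
  else -(![(1, 0), (0, 1), 0, 0, 0, 0] : Fin 6 → ℤ × ℤ) a.1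

/-- value of a word -/
private def brL : Wd → ℤ × ℤ
  | [] => 0
  | a :: w => brV a + brL w

private theorem br_hu_of (i : Fin 6) : hu (FreeGroup.of i) =
    Multiplicative.ofAdd ((![(1, 0), (0, 1), 0, 0, 0, 0] : Fin 6 → ℤ × ℤ) i) := by
  fin_cases i <;> simp [hu]

private theorem br_hu_mk (w : Wd) : hu (FreeGroup.mk w) = Multiplicative.ofAdd (brL w) := by
  induction w with
  | nil => exact map_one hu
  | cons a w ih =>
    have h1 : (FreeGroup.mk (a :: w) : F6) = FreeGroup.mk [a] * FreeGroup.mk w := by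
      rw [FreeGroup.mul_mk]
      rfl
    rw [h1, map_mul, ih, brL, ofAdd_add]
    congr 1
    obtain ⟨i, b⟩ := a
    cases b
    · have h2 : (FreeGroup.mk [(i, false)] : F6) = (FreeGroup.of i)⁻¹ := rfl
      rw [h2, map_inv, br_hu_of]
      rfl
    · have h2 : (FreeGroup.mk [(i, true)] : F6) = FreeGroup.of i := rfl
      rw [h2, br_hu_of]
      rfl

private theorem br_tab : ∀ (j : Fin 8) (i : Fin 6),
    brL (app (tab (j.castAdd 2) true) [(i, true)]) = brL [(i, true)] := by
  decide +kernel

private theorem br_tab2 : ∀ (k : Fin 2) (i : Fin 6),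
    brL (app (tab (k.natAdd 8) true) [(i, true)]) = sn k (brL [(i, true)]) := by
  decide +kernel

private theorem br_aut (j : Fin 8) (g : F6) : hu (aut (j.castAdd 2) g) = hu g := by
  have h : hu.comp (aut (j.castAdd 2)).toMonoidHom = hu := by
    refine FreeGroup.ext_hom _ _ fun i => ?_
    have h1 : (FreeGroup.of i : F6) = FreeGroup.mk [(i, true)] := rfl
    rw [MonoidHom.comp_apply, MulEquiv.toMonoidHom_eq_coe, MonoidHom.coe_coe, h1, aut_mk,
      br_hu_mk, br_hu_mk, br_tab]
  exact DFunLike.congr_fun h g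

private theorem br_ind {α : Type*} (f : α → MulAut F6) (h : ∀ a g, hu (f a g) = hu g)
    (w : FreeGroup α) : ∀ g, hu (FreeGroup.lift f w g) = hu g := by
  induction w using FreeGroup.induction_on with
  | C1 => intro g; simp
  | of a => intro g; simpa using h a g
  | inv_of a ih =>
    intro g
    have h1 := ih ((FreeGroup.lift f (FreeGroup.of a)⁻¹) g)
    rw [← h1, ← MulAut.mul_apply, ← map_mul, mul_inv_cancel, map_one, MulAut.one_apply]
  | mul a b iha ihb =>
    intro g
    rw [map_mul, MulAut.mul_apply, iha, ihb]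

theorem hu_th (w : F4) (g : F6) : hu (th w g) = hu g := by
  refine br_ind _ (fun l g => ?_) w g
  have h1 : ((l.natAdd 3).castAdd 3 : Fin 10) = ((l.natAdd 3).castAdd 1 : Fin 8).castAdd 2 := by
    fin_cases l <;> rfl
  rw [h1]
  exact br_aut _ g

theorem hu_s6 (k : Fin 3) (g : F6) : hu (s6 k g) = hu g := by
  have h1 : (k.castAdd 7 : Fin 10) = (k.castAdd 5 : Fin 8).castAdd 2 := by
    fin_cases k <;> rfl
  unfold s6
  rw [h1]
  exact br_aut _ g

theorem hu_zz (g : F6) : hu (zz g) = hu g := br_aut 7 g

private theorem br_sn_add (k : Fin 2) (a b : ℤ × ℤ) : sn k (a + b) = sn k a + sn k b := by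
  fin_cases k <;> simp [sn] <;> ring

/-- post composition with `sn` -/
private def brS (k : Fin 2) : Multiplicative (ℤ × ℤ) →* Multiplicative (ℤ × ℤ) :=
  MonoidHom.mk' (fun a => Multiplicative.ofAdd (sn k a.toAdd)) fun a b => by
    rw [toAdd_mul, br_sn_add, ofAdd_add]

private theorem br_a6 (k : Fin 2) (g : F6) :
    hu (a6 k g) = Multiplicative.ofAdd (sn k (hu g).toAdd) := by
  have h : hu.comp (a6 k).toMonoidHom = (brS k).comp hu := by
    refine FreeGroup.ext_hom _ _ fun i => ?_
    have h1 : (FreeGroup.of i : F6) = FreeGroup.mk [(i, true)] := rfl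
    have h2 : a6 k (FreeGroup.mk [(i, true)]) =
        FreeGroup.mk (app (tab (k.natAdd 8) true) [(i, true)]) := aut_mk _ _
    rw [MonoidHom.comp_apply, MulEquiv.toMonoidHom_eq_coe, MonoidHom.coe_coe, h1, h2,
      br_hu_mk, MonoidHom.comp_apply, br_hu_mk, br_tab2]
    rfl
  exact DFunLike.congr_fun h g

/-- general form -/
private theorem br_lift {G : Type*} [Group G] (h : G →* Multiplicative (ℤ × ℤ))
    (φ : Fin 2 → MulAut G)
    (hφ : ∀ k g, h (φ k g) = Multiplicative.ofAdd (sn k (h g).toAdd)) (w : FreeGroup (Fin 2)) :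
    ∀ g, h (FreeGroup.lift φ w g) = Multiplicative.ofAdd (FreeGroup.lift sn w (h g).toAdd) := by
  induction w using FreeGroup.induction_on with
  | C1 => intro g; simp
  | of a => intro g; simpa using hφ a g
  | inv_of a ih =>
    intro g
    have h1 := ih ((FreeGroup.lift φ (FreeGroup.of a)⁻¹) g)
    rw [← MulAut.mul_apply, ← map_mul, mul_inv_cancel, map_one, MulAut.one_apply] at h1
    rw [h1, toAdd_ofAdd, ← Equiv.Perm.mul_apply, ← map_mul, inv_mul_cancel, map_one,
      Equiv.Perm.one_apply, ofAdd_toAdd]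
  | mul a b iha ihb =>
    intro g
    rw [map_mul, MulAut.mul_apply, iha, ihb, map_mul, Equiv.Perm.mul_apply, toAdd_ofAdd]

theorem hu_a6 (w : FreeGroup (Fin 2)) (g : F6) :
    hu (FreeGroup.lift a6 w g) = Multiplicative.ofAdd (FreeGroup.lift sn w (hu g).toAdd) :=
  br_lift hu a6 br_a6 w g

/-- homology of the first block of the rest of the surface -/
def hr (r : ℕ) : FR r →* Multiplicative (ℤ × ℤ) :=
  FreeGroup.lift fun y => if y.1.1 = 0 then
    (if y.2 then Multiplicative.ofAdd (0, 1) else Multiplicative.ofAdd (1, 0)) else 1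

/-- the moved generator -/
private def brB (k : Fin 2) : Bool := if k = 0 then false else true

/-- twist -/
private def brE (r : ℕ) (k : Fin 2) (e : ℤ) : FR r →* FR r :=
  FreeGroup.lift fun y => if y = (0, brB k) then
    FreeGroup.of y * FreeGroup.of (0, !brB k) ^ (2 * e) else FreeGroup.of y

private theorem brE_self (r : ℕ) (k : Fin 2) (e : ℤ) :
    brE r k e (FreeGroup.of (0, brB k)) =
      FreeGroup.of (0, brB k) * FreeGroup.of (0, !brB k) ^ (2 * e) := by
  simp [brE]

private theorem brE_ne (r : ℕ) (k : Fin 2) (e : ℤ) {y : Fin (r + 1) × Bool}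
    (hy : y ≠ (0, brB k)) : brE r k e (FreeGroup.of y) = FreeGroup.of y := by
  simp [brE, hy]

private theorem brE_comp (r : ℕ) (k : Fin 2) (e : ℤ) :
    (brE r k e).comp (brE r k (-e)) = MonoidHom.id _ := by
  refine FreeGroup.ext_hom _ _ fun y => ?_
  rw [MonoidHom.comp_apply, MonoidHom.id_apply]
  by_cases hy : y = (0, brB k)
  · subst hy
    have h1 : ((0 : Fin (r + 1)), !brB k) ≠ (0, brB k) := by simp
    rw [brE_self, map_mul, map_zpow, brE_self, brE_ne r k e h1, mul_assoc, ← zpow_add]
    simp
  · rw [brE_ne r k (-e) hy, brE_ne r k e hy]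

/-- the automorphism -/
private def brA (r : ℕ) (k : Fin 2) : MulAut (FR r) :=
  MonoidHom.toMulEquiv (brE r k 1) (brE r k (-1))
    (by simpa using brE_comp r k (-1)) (brE_comp r k 1)

private theorem brA_apply (r : ℕ) (k : Fin 2) (g : FR r) : brA r k g = brE r k 1 g := rfl

private theorem brA_rel (r : ℕ) (k : Fin 2) : brA r k (surfRel (r + 1)) = surfRel (r + 1) := by
  have h0 : surfRel (r + 1) = cm (FreeGroup.of ((0 : Fin (r + 1)), false)) (FreeGroup.of (0, true)) *
      (List.ofFn fun i : Fin r => cm (FreeGroup.of (i.succ, false))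
        (FreeGroup.of (i.succ, true))).prod := by
    rw [surfRel, List.ofFn_succ, List.prod_cons]
  rw [h0, brA_apply, map_mul]
  congr 1
  · rw [map_cm]
    fin_cases k
    · have h1 := brE_self r 0 1
      have h2 := brE_ne r 0 1 (y := ((0 : Fin (r + 1)), true)) (by simp [brB])
      simp only [brB, if_true, Bool.not_false] at h1
      change cm (brE r 0 1 _) (brE r 0 1 _) = _
      rw [h1, h2]
      simp only [cm]
      group
    · have h1 := brE_self r 1 1
      have h2 := brE_ne r 1 1 (y := ((0 : Fin (r + 1)), false)) (by simp [brB])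
      simp only [brB, one_ne_zero, if_false, Bool.not_true] at h1
      change cm (brE r 1 1 _) (brE r 1 1 _) = _
      rw [h1, h2]
      simp only [cm]
      group
  · rw [map_list_prod, List.map_ofFn]
    congr 2

private theorem br_hrA (r : ℕ) (k : Fin 2) (g : FR r) :
    hr r (brA r k g) = Multiplicative.ofAdd (sn k (hr r g).toAdd) := by
  have h : (hr r).comp (brA r k).toMonoidHom = (brS k).comp (hr r) := by
    refine FreeGroup.ext_hom _ _ fun y => ?_
    rw [MonoidHom.comp_apply, MulEquiv.toMonoidHom_eq_coe, MonoidHom.coe_coe, brA_apply,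
      MonoidHom.comp_apply]
    by_cases hy : y = (0, brB k)
    · subst hy
      rw [brE_self, map_mul, map_zpow]
      fin_cases k
      · simp [hr, brB, brS, sn]
        rfl
      · simp [hr, brB, brS, sn]
        rfl
    · rw [brE_ne r k 1 hy]
      obtain ⟨i, b⟩ := y
      by_cases hi : i = 0
      · subst hi
        fin_cases k
        · cases b
          · simp [brB] at hy
          · simp [hr, brS, sn]
        · cases b
          · simp [hr, brS, sn]
          · simp [brB] at hy
      · have hi' : (i : ℕ) ≠ 0 := fun h => hi (Fin.ext h)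
        have h1 : hr r (FreeGroup.of (i, b)) = 1 := by simp [hr, hi]
        rw [h1, map_one]
  exact DFunLike.congr_fun h g

/-- the two squared twists in the first block of the rest of the surface -/
theorem exists_bR (r : ℕ) : ∃ f : FreeGroup (Fin 2) →* StR r, ∀ (w : FreeGroup (Fin 2)) (g : FR r),
    hr r ((f w : MulAut (FR r)) g) =
      Multiplicative.ofAdd (FreeGroup.lift sn w (hr r g).toAdd) := by
  refine ⟨FreeGroup.lift fun k => ⟨brA r k, ?_⟩, fun w g => ?_⟩
  · rw [StR, MulAction.mem_stabilizer_iff, MulAut.smul_def]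
    exact brA_rel r k
  · have h : (StR r).subtype.comp (FreeGroup.lift fun k => (⟨brA r k, by
        rw [StR, MulAction.mem_stabilizer_iff, MulAut.smul_def]
        exact brA_rel r k⟩ : StR r)) = FreeGroup.lift (brA r) := by
      refine FreeGroup.ext_hom _ _ fun k => ?_
      simp
    have h1 := DFunLike.congr_fun h w
    rw [MonoidHom.comp_apply, Subgroup.coe_subtype] at h1
    rw [h1]
    exact br_lift (hr r) (brA r) (br_hrA r) w g

/-- homomorphisms of the surface group to commutative groups -/
theorem exists_abHom (n : ℕ) {A : Type*} [CommGroup A] (f : Fin n × Bool → A) :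
    ∃ F : Surf n →* A, ∀ y, F (PresentedGroup.of y) = f y := by
  have h : ∀ x ∈ ({surfRel n} : Set (FreeGroup (Fin n × Bool))), FreeGroup.lift f x = 1 := by
    intro x hx
    rw [Set.mem_singleton_iff] at hx
    subst hx
    rw [surfRel, map_list_prod, List.map_ofFn]
    refine List.prod_eq_one fun y hy => ?_
    rw [List.mem_ofFn] at hy
    obtain ⟨i, rfl⟩ := hy
    rw [Function.comp_apply, map_cm, cm]
    rw [mul_comm (FreeGroup.lift f (FreeGroup.of (i, false)))]
    group
  exact ⟨PresentedGroup.toGroup h, fun y => PresentedGroup.toGroup.of h⟩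

/-- If the extension of a pair of automorphisms is inner, it acts trivially on the homology of the
two blocks. -/
theorem inner_homology (r : ℕ) (φ : MulAut F6) (ψ : MulAut (FR r)) (h : Surf (r + 4))
    (h6 : ∀ g, toS r (φ g) = h * toS r g * h⁻¹) (hR : ∀ g, toR r (ψ g) = h * toR r g * h⁻¹) :
    (∀ g, hu (φ g) = hu g) ∧ ∀ g, hr r (ψ g) = hr r g := by
  constructor
  · obtain ⟨F, hF⟩ := exists_abHom (r + 4) (A := Multiplicative (ℤ × ℤ)) fun y =>
      if y.1.1 = 0 then (if y.2 then Multiplicative.ofAdd (0, 1) else Multiplicative.ofAdd (1, 0))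
      else 1
    have h1 : F.comp (toS r) = hu := by
      refine FreeGroup.ext_hom _ _ fun i => ?_
      have h2 : toS r (FreeGroup.of i) = PresentedGroup.of (let6 r i) := by
        simp [toS, emb6, PresentedGroup.of]
      rw [MonoidHom.comp_apply, h2, hF]
      fin_cases i <;> simp [let6, hu]
    have h2 : ∀ g, F (toS r g) = hu g := fun g => DFunLike.congr_fun h1 g
    intro g
    rw [← h2, h6, map_mul, map_mul, map_inv, mul_comm (F h), mul_assoc, mul_inv_cancel, mul_one, h2]
  · obtain ⟨F, hF⟩ := exists_abHom (r + 4) (A := Multiplicative (ℤ × ℤ)) fun y =>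
      if y.1.1 = 3 then (if y.2 then Multiplicative.ofAdd (0, 1) else Multiplicative.ofAdd (1, 0))
      else 1
    have h1 : F.comp (toR r) = hr r := by
      refine FreeGroup.ext_hom _ _ fun y => ?_
      have h2 : toR r (FreeGroup.of y) = PresentedGroup.of (⟨y.1.1 + 3, by omega⟩, y.2) := by
        simp [toR, embR, PresentedGroup.of]
      rw [MonoidHom.comp_apply, h2, hF]
      simp [hr]
    have h2 : ∀ g, F (toR r g) = hr r g := fun g => DFunLike.congr_fun h1 g
    intro g
    rw [← h2, hR, map_mul, map_mul, map_inv, mul_comm (F h), mul_assoc, mul_inv_cancel, mul_one, h2]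

end Pool.Agent.H.MP_9a81ba_al
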