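import Pool.Agent.H.MP_9a81ba_al.MachDefs

/-!
The base free group attached to an affine machine and the two free families defining the
associated subgroups.
-/

namespace Pool.Agent.H.MP_9a81ba_al

/-- letters -/
inductive Gen0 (M : AM) : Type
  | x : Gen0 M
  | y : Gen0 M
  | t : M.S → Gen0 M
  | u : M.I → Gen0 M

/-- letters, with the two extra letters `a = inr false`, `b = inr true` -/
abbrev Gen (M : AM) : Type := Gen0 M ⊕ Bool

instance (M : AM) : Finite (Gen0 M) := by
  have : Function.Surjective (fun o : Option (Option (M.S ⊕ M.I)) => match o with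
    | none => (Gen0.x : Gen0 M)
    | some none => Gen0.y
    | some (some (.inl s)) => Gen0.t s
    | some (some (.inr i)) => Gen0.u i) := by
    rintro (_ | _ | s | i)
    · exact ⟨none, rfl⟩
    · exact ⟨some none, rfl⟩
    · exact ⟨some (some (.inl s)), rfl⟩
    · exact ⟨some (some (.inr i)), rfl⟩
  exact Finite.of_surjective _ this

variable (M : AM)

/-- the base group -/
abbrev F0 : Type := FreeGroup (Gen M)

/-- the letter `x` -/
def gx : F0 M := FreeGroup.of (.inl .x)
/-- the letter `y` -/
def gy : F0 M := FreeGroup.of (.inl .y)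
/-- the state letters -/
def gt (s : M.S) : F0 M := FreeGroup.of (.inl (.t s))
/-- the rule letters -/
def gu (i : M.I) : F0 M := FreeGroup.of (.inl (.u i))

/-- the conjugator of a configuration -/
def kc (c : M.Cfg) : F0 M := gy M ^ c.2.2 * gx M ^ c.2.1

/-- the element of a configuration -/
def tc (c : M.Cfg) : F0 M := (kc M c)⁻¹ * gt M c.1 * kc M c

/-- generators of the source subgroup of rule `i` -/
def e0 (i : M.I) : Fin 3 → F0 M :=
  ![gx M ^ M.p i, (gx M ^ M.a i)⁻¹ * gy M ^ M.q i * gx M ^ M.a i,
    tc M (M.src i, M.a i, M.b i)]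

/-- generators of the target subgroup of rule `i` -/
def e1 (i : M.I) : Fin 3 → F0 M :=
  ![gx M ^ M.p' i, (gx M ^ M.a' i)⁻¹ * gy M ^ M.q' i * gx M ^ M.a' i,
    tc M (M.dst i, M.a' i, M.b' i)]

/-- the family generating `A` -/
def fA (y : M.I × Fin 3) : F0 M := gu M y.1 * e0 M y.1 y.2 * (gu M y.1)⁻¹
/-- the family generating `B` -/
def fB (y : M.I × Fin 3) : F0 M := gu M y.1 * e1 M y.1 y.2 * (gu M y.1)⁻¹

end Pool.Agent.H.MP_9a81ba_al
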