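import Pool.Agent.H.MP_9a81ba_al.Tools

/-!
Free families of conjugates of powers of generators.
-/

namespace Pool.Agent.H.MP_9a81ba_al

/-- the block replacing a letter when each generator `k` is sent to its power `n k` -/
def toolsbBlk {K : Type*} (n : K → ℤ) (x : K × Bool) : List (K × Bool) :=
  List.replicate (n x.1).natAbs (x.1, xor x.2 (decide (n x.1 < 0)))

theorem toolsb_replicate {K : Type*} (k : K) (b : Bool) (m : ℕ) :
    (FreeGroup.mk (List.replicate m (k, b)) : FreeGroup K) = FreeGroup.mk [(k, b)] ^ m := by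
  induction m with
  | zero => rfl
  | succ m ih =>
    rw [List.replicate_succ, pow_succ', ← ih, FreeGroup.mul_mk]
    rfl

theorem toolsb_mk_true {K : Type*} (k : K) :
    (FreeGroup.mk [(k, true)] : FreeGroup K) = FreeGroup.of k := rfl

theorem toolsb_mk_false {K : Type*} (k : K) :
    (FreeGroup.mk [(k, false)] : FreeGroup K) = (FreeGroup.of k)⁻¹ := rfl

theorem toolsb_blk {K : Type*} (n : K → ℤ) (x : K × Bool) :
    (FreeGroup.mk (toolsbBlk n x) : FreeGroup K) =
      cond x.2 (FreeGroup.of x.1 ^ n x.1) (FreeGroup.of x.1 ^ n x.1)⁻¹ := by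
  obtain ⟨k, b⟩ := x
  rw [toolsbBlk, toolsb_replicate]
  simp only
  by_cases h : n k < 0
  · obtain ⟨m, hm⟩ : ∃ m : ℕ, n k = -(m : ℤ) := ⟨(n k).natAbs, by omega⟩
    have h1 : (n k).natAbs = m := by omega
    rw [h1]
    simp only [h, decide_true]
    rw [hm]
    cases b
    · simp only [Bool.false_xor, cond_false, toolsb_mk_true, zpow_neg, inv_inv, zpow_natCast]
    · simp only [Bool.true_xor, Bool.not_true, cond_true, toolsb_mk_false, zpow_neg,
        zpow_natCast, inv_pow]
  · obtain ⟨m, hm⟩ : ∃ m : ℕ, n k = (m : ℤ) := ⟨(n k).natAbs, by omega⟩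
    have h1 : (n k).natAbs = m := by omega
    rw [h1]
    simp only [h, decide_false]
    rw [hm]
    cases b
    · simp only [Bool.xor_false, cond_false, toolsb_mk_false, zpow_natCast, inv_pow]
    · simp only [Bool.xor_false, cond_true, toolsb_mk_true, zpow_natCast]

theorem toolsb_mk {K : Type*} (n : K → ℤ) (L : List (K × Bool)) :
    FreeGroup.lift (fun k => (FreeGroup.of k : FreeGroup K) ^ n k) (FreeGroup.mk L) =
      FreeGroup.mk (L.map (toolsbBlk n)).flatten := by
  induction L with
  | nil => rfl
  | cons x L ih =>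
    rw [List.map_cons, List.flatten_cons, ← FreeGroup.mul_mk, toolsb_blk, ← ih,
      FreeGroup.lift_mk, FreeGroup.lift_mk, List.map_cons, List.prod_cons]

theorem toolsb_ne_nil {K : Type*} (n : K → ℤ) (hn : ∀ k, n k ≠ 0) (x : K × Bool) :
    toolsbBlk n x ≠ [] := by
  rw [toolsbBlk, Ne, List.replicate_eq_nil_iff]
  exact fun h => hn x.1 (Int.natAbs_eq_zero.mp h)

theorem toolsb_reduced {K : Type*} (n : K → ℤ) (hn : ∀ k, n k ≠ 0) (L : List (K × Bool))
    (hL : FreeGroup.IsReduced L) : FreeGroup.IsReduced (L.map (toolsbBlk n)).flatten := by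
  rw [FreeGroup.IsReduced, List.isChain_flatten]
  · refine ⟨?_, ?_⟩
    · intro l hl
      obtain ⟨x, -, rfl⟩ := List.mem_map.mp hl
      exact List.isChain_replicate_of_rel _ fun _ => rfl
    · rw [List.isChain_map]
      refine List.IsChain.imp ?_ hL
      intro a b hab x hx y hy hxy
      rw [toolsbBlk, List.getLast?_replicate,
        if_neg (fun h => hn a.1 (Int.natAbs_eq_zero.mp h))] at hx
      rw [toolsbBlk, List.head?_replicate,
        if_neg (fun h => hn b.1 (Int.natAbs_eq_zero.mp h))] at hy
      rw [Option.mem_def, Option.some.injEq] at hx hy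
      subst hx hy
      simp only at hxy ⊢
      rw [hab hxy, hxy]
  · intro h
    obtain ⟨x, -, hx⟩ := List.mem_map.mp h
    exact toolsb_ne_nil n hn x hx

theorem toolsb_pow_injective {K : Type*} (n : K → ℤ) (hn : ∀ k, n k ≠ 0) :
    Function.Injective (FreeGroup.lift fun k => (FreeGroup.of k : FreeGroup K) ^ n k) := by
  classical
  rw [injective_iff_map_eq_one]
  intro w hw
  have h1 : w = FreeGroup.mk w.toWord := FreeGroup.mk_toWord.symm
  rw [h1, toolsb_mk] at hw
  have h2 := toolsb_reduced n hn w.toWord FreeGroup.isReduced_toWord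
  have h3 : FreeGroup.reduce (w.toWord.map (toolsbBlk n)).flatten = [] := by
    rw [← FreeGroup.toWord_mk, hw, FreeGroup.toWord_one]
  rw [h2.reduce_eq] at h3
  have h4 : w.toWord = [] := by
    rcases hc : w.toWord with _ | ⟨x, L⟩
    · rfl
    · rw [hc, List.map_cons, List.flatten_cons, List.append_eq_nil_iff] at h3
      exact absurd h3.1 (toolsb_ne_nil n hn x)
  exact FreeGroup.toWord_eq_nil_iff.mp h4

/-- powers of distinct generators form a free family -/
theorem lift_pow_injective {Y K : Type*} (i : K → Y) (hi : Function.Injective i) (n : K → ℤ)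
    (hn : ∀ k, n k ≠ 0) :
    Function.Injective (FreeGroup.lift fun k => (FreeGroup.of (i k) : FreeGroup Y) ^ n k) := by
  have h : (FreeGroup.lift fun k => (FreeGroup.of (i k) : FreeGroup Y) ^ n k) =
      (FreeGroup.map i).comp (FreeGroup.lift fun k => (FreeGroup.of k : FreeGroup K) ^ n k) := by
    refine FreeGroup.ext_hom _ _ fun k => ?_
    simp
  rw [h]
  exact (FreeGroup.map_injective hi).comp (toolsb_pow_injective n hn)

/-- The main criterion: free families built from a free family in `F(Z)` and conjugates of powers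
of the letters in `T`. -/
theorem lift_sum_injective {Z Z' T T' : Type*} (θ : Z' → FreeGroup Z)
    (hθ : Function.Injective (FreeGroup.lift θ)) (h : T' → FreeGroup Z) (s : T' → T) (n : T' → ℤ)
    (hn : ∀ j, n j ≠ 0)
    (hinj : Function.Injective fun y : FreeGroup Z' × T' =>
      (h y.2 * FreeGroup.lift θ y.1, s y.2)) :
    Function.Injective (FreeGroup.lift (Sum.elim
      (fun z' => FreeGroup.map (Sum.inl : Z → Z ⊕ T) (θ z'))
      (fun j => (FreeGroup.map Sum.inl (h j))⁻¹ * FreeGroup.of (Sum.inr (s j)) ^ n j *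
        FreeGroup.map Sum.inl (h j)))) := by
  set fn : FreeGroup (FreeGroup Z' × T') →* FreeGroup (FreeGroup Z × T) :=
    FreeGroup.lift fun y => (FreeGroup.of (h y.2 * FreeGroup.lift θ y.1, s y.2)) ^ n y.2 with hfn
  have hfi : Function.Injective fn :=
    lift_pow_injective (fun y : FreeGroup Z' × T' => (h y.2 * FreeGroup.lift θ y.1, s y.2)) hinj
      (fun y => n y.2) fun y => hn y.2
  have hc : ∀ g : FreeGroup Z', fn.comp (shiftAct Z' T' g).toMonoidHom =
      (shiftAct Z T (FreeGroup.lift θ g)).toMonoidHom.comp fn := by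
    intro g
    refine FreeGroup.ext_hom _ _ fun y => ?_
    obtain ⟨v, j⟩ := y
    change fn (shiftAct Z' T' g (FreeGroup.of (v, j))) =
      shiftAct Z T (FreeGroup.lift θ g) (fn (FreeGroup.of (v, j)))
    rw [shiftAct_of, hfn, FreeGroup.lift_apply_of, FreeGroup.lift_apply_of]
    simp only
    rw [map_zpow, shiftAct_of, map_mul, map_inv, mul_assoc]
  have hg : Function.Injective (SemidirectProduct.map fn (FreeGroup.lift θ) hc) := by
    intro x y hxy
    have h1 := congrArg SemidirectProduct.left hxy
    have h2 := congrArg SemidirectProduct.right hxy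
    rw [SemidirectProduct.map_left, SemidirectProduct.map_left] at h1
    rw [SemidirectProduct.map_right, SemidirectProduct.map_right] at h2
    exact SemidirectProduct.ext (hfi h1) (hθ h2)
  have hcomp : (SemidirectProduct.map fn (FreeGroup.lift θ) hc).comp (semi Z' T') =
      (semi Z T).comp (FreeGroup.lift (Sum.elim
      (fun z' => FreeGroup.map (Sum.inl : Z → Z ⊕ T) (θ z'))
      (fun j => (FreeGroup.map Sum.inl (h j))⁻¹ * FreeGroup.of (Sum.inr (s j)) ^ n j *
        FreeGroup.map Sum.inl (h j)))) := by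
    refine FreeGroup.ext_hom _ _ fun y => ?_
    rw [MonoidHom.comp_apply, MonoidHom.comp_apply, FreeGroup.lift_apply_of]
    rcases y with z' | j
    · rw [semi, FreeGroup.lift_apply_of]
      simp only [Sum.elim_inl]
      rw [semi_map, SemidirectProduct.map_inr, FreeGroup.lift_apply_of]
    · rw [semi, FreeGroup.lift_apply_of]
      simp only [Sum.elim_inr]
      have h3 : (FreeGroup.map Sum.inl (h j))⁻¹ * FreeGroup.of (Sum.inr (s j)) ^ n j *
          FreeGroup.map Sum.inl (h j) = (cj (h j, s j)) ^ n j := by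
        have := conj_zpow (a := (FreeGroup.map (Sum.inl : Z → Z ⊕ T) (h j))⁻¹)
          (b := FreeGroup.of (Sum.inr (s j))) (i := n j)
        rw [inv_inv] at this
        exact this.symm
      rw [h3, map_zpow, semi_cj, SemidirectProduct.map_inl, hfn, FreeGroup.lift_apply_of,
        ← map_zpow]
      simp
  have hfin := hg.comp (semi_injective Z' T')
  rw [← MonoidHom.coe_comp, hcomp, MonoidHom.coe_comp] at hfin
  exact hfin.of_comp

end Pool.Agent.H.MP_9a81ba_al
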