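import Pool.Agent.H.MP_9a81ba_al.Base
import Pool.Agent.H.MP_9a81ba_al.ToolsB

/-!
Freeness of the two families.
-/

namespace Pool.Agent.H.MP_9a81ba_al

variable (M : AM)

/-- first family: conjugates of powers of `x` -/
def baseFree1 (I : Type) (p : I → ℤ) : Empty ⊕ I → FreeGroup (I ⊕ Unit) :=
  Sum.elim (fun z' : Empty => FreeGroup.map (Sum.inl : I → I ⊕ Unit) (z'.elim))
    (fun j => (FreeGroup.map Sum.inl (FreeGroup.of j)⁻¹)⁻¹ * FreeGroup.of (Sum.inr ()) ^ p j *
      FreeGroup.map Sum.inl (FreeGroup.of j)⁻¹)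

theorem baseFree1_injective (I : Type) (p : I → ℤ) (hp : ∀ i, 0 < p i) :
    Function.Injective (FreeGroup.lift (baseFree1 I p)) := by
  refine lift_sum_injective (Z := I) (Z' := Empty) (T := Unit) (T' := I)
    (fun z' => z'.elim) ?_ (fun j => (FreeGroup.of j)⁻¹) (fun _ => ()) p
    (fun j => (hp j).ne') ?_
  · exact Function.injective_of_subsingleton _
  · rintro ⟨v, i⟩ ⟨w, j⟩ h
    have hv : v = w := Subsingleton.elim _ _
    subst hv
    have h1 : (FreeGroup.of i)⁻¹ * FreeGroup.lift (fun z' : Empty => z'.elim) v =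
      (FreeGroup.of j)⁻¹ * FreeGroup.lift (fun z' : Empty => z'.elim) v := congrArg Prod.fst h
    have h2 := FreeGroup.of_injective (inv_injective (mul_right_cancel h1))
    rw [h2]

/-- second family: conjugates of powers of `y` -/
def baseFree2 (I : Type) (p a q : I → ℤ) : (Empty ⊕ I) ⊕ I → FreeGroup ((I ⊕ Unit) ⊕ Unit) :=
  Sum.elim (fun z' => FreeGroup.map (Sum.inl : I ⊕ Unit → (I ⊕ Unit) ⊕ Unit) (baseFree1 I p z'))
    (fun j => (FreeGroup.map Sum.inl (FreeGroup.of (Sum.inr ()) ^ a j *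
        (FreeGroup.of (Sum.inl j))⁻¹))⁻¹ * FreeGroup.of (Sum.inr ()) ^ q j *
      FreeGroup.map Sum.inl (FreeGroup.of (Sum.inr ()) ^ a j * (FreeGroup.of (Sum.inl j))⁻¹))

theorem baseFree2_injective (I : Type) (p a q : I → ℤ) (hp : ∀ i, 0 < p i) (hq : ∀ i, 0 < q i) :
    Function.Injective (FreeGroup.lift (baseFree2 I p a q)) := by
  refine lift_sum_injective (Z := I ⊕ Unit) (Z' := Empty ⊕ I) (T := Unit) (T' := I)
    (baseFree1 I p) (baseFree1_injective I p hp)
    (fun j => FreeGroup.of (Sum.inr ()) ^ a j * (FreeGroup.of (Sum.inl j))⁻¹) (fun _ => ()) q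
    (fun j => (hq j).ne') ?_
  let κ : FreeGroup (I ⊕ Unit) →* FreeGroup I :=
    FreeGroup.lift (Sum.elim FreeGroup.of (fun _ => 1))
  have hκ : ∀ v, κ (FreeGroup.lift (baseFree1 I p) v) = 1 := by
    have : κ.comp (FreeGroup.lift (baseFree1 I p)) = 1 := by
      ext y
      rcases y with y | y
      · exact y.elim
      · simp [κ, baseFree1]
    intro v
    exact DFunLike.congr_fun this v
  rintro ⟨v, i⟩ ⟨w, j⟩ h
  have h1 : FreeGroup.of (Sum.inr ()) ^ a i * (FreeGroup.of (Sum.inl i))⁻¹ *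
      FreeGroup.lift (baseFree1 I p) v = FreeGroup.of (Sum.inr ()) ^ a j *
      (FreeGroup.of (Sum.inl j))⁻¹ * FreeGroup.lift (baseFree1 I p) w := congrArg Prod.fst h
  have h2 := congrArg κ h1
  simp only [map_mul, hκ] at h2
  have h3 : i = j := FreeGroup.of_injective (by simpa [κ] using h2)
  subst h3
  rw [baseFree1_injective I p hp (mul_left_cancel h1)]

/-- third family -/
def baseFree3 (I S : Type) (p a q b : I → ℤ) (s : I → S) :
    ((Empty ⊕ I) ⊕ I) ⊕ I → FreeGroup (((I ⊕ Unit) ⊕ Unit) ⊕ S) :=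
  Sum.elim (fun z' => FreeGroup.map
      (Sum.inl : (I ⊕ Unit) ⊕ Unit → ((I ⊕ Unit) ⊕ Unit) ⊕ S) (baseFree2 I p a q z'))
    (fun j => (FreeGroup.map Sum.inl (FreeGroup.of (Sum.inr ()) ^ b j *
        FreeGroup.of (Sum.inl (Sum.inr ())) ^ a j *
        (FreeGroup.of (Sum.inl (Sum.inl j)))⁻¹))⁻¹ * FreeGroup.of (Sum.inr (s j)) ^ (1 : ℤ) *
      FreeGroup.map Sum.inl (FreeGroup.of (Sum.inr ()) ^ b j *
        FreeGroup.of (Sum.inl (Sum.inr ())) ^ a j *
        (FreeGroup.of (Sum.inl (Sum.inl j)))⁻¹))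

theorem baseFree3_injective (I S : Type) (p a q b : I → ℤ) (s : I → S) (hp : ∀ i, 0 < p i)
    (hq : ∀ i, 0 < q i) :
    Function.Injective (FreeGroup.lift (baseFree3 I S p a q b s)) := by
  refine lift_sum_injective (Z := (I ⊕ Unit) ⊕ Unit) (Z' := (Empty ⊕ I) ⊕ I) (T := S) (T' := I)
    (baseFree2 I p a q) (baseFree2_injective I p a q hp hq)
    (fun j => FreeGroup.of (Sum.inr ()) ^ b j * FreeGroup.of (Sum.inl (Sum.inr ())) ^ a j *
        (FreeGroup.of (Sum.inl (Sum.inl j)))⁻¹) s (fun _ => 1)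
    (fun j => one_ne_zero) ?_
  let κ : FreeGroup ((I ⊕ Unit) ⊕ Unit) →* FreeGroup I :=
    FreeGroup.lift (Sum.elim (Sum.elim FreeGroup.of (fun _ => 1)) (fun _ => 1))
  have hκ : ∀ v, κ (FreeGroup.lift (baseFree2 I p a q) v) = 1 := by
    have : κ.comp (FreeGroup.lift (baseFree2 I p a q)) = 1 := by
      ext y
      rcases y with (y | y) | y
      · exact y.elim
      · simp [κ, baseFree1, baseFree2]
      · simp [κ, baseFree2]
    intro v
    exact DFunLike.congr_fun this v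
  rintro ⟨v, i⟩ ⟨w, j⟩ h
  have h1 := congrArg Prod.fst h
  dsimp only at h1
  have h2 := congrArg κ h1
  simp only [map_mul, hκ] at h2
  have h3 : i = j := FreeGroup.of_injective (by simpa [κ] using h2)
  subst h3
  rw [baseFree2_injective I p a q hp hq (mul_left_cancel h1)]

/-- renaming of the letters -/
def baseFreeR : ((M.I ⊕ Unit) ⊕ Unit) ⊕ M.S → Gen M
  | .inl (.inl (.inl i)) => .inl (.u i)
  | .inl (.inl (.inr ())) => .inl .x
  | .inl (.inr ()) => .inl .y
  | .inr s => .inl (.t s)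

theorem baseFreeR_injective : Function.Injective (baseFreeR M) := by
  rintro (((i | i) | i) | i) (((j | j) | j) | j) h <;> simp_all [baseFreeR]

/-- renaming of the indices -/
def baseFreeJ (I : Type) (y : I × Fin 3) : ((Empty ⊕ I) ⊕ I) ⊕ I :=
  (![.inl (.inl (.inr y.1)), .inl (.inr y.1), .inr y.1] :
    Fin 3 → ((Empty ⊕ I) ⊕ I) ⊕ I) y.2

theorem baseFreeJ_injective (I : Type) : Function.Injective (baseFreeJ I) := by
  rintro ⟨i, l⟩ ⟨j, k⟩ h
  fin_cases l <;> fin_cases k <;> simp_all [baseFreeJ]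

/-- generic form of the freeness of the families `fA` and `fB` -/
theorem free_family (p a q b : M.I → ℤ) (s : M.I → M.S) (hp : ∀ i, 0 < p i) (hq : ∀ i, 0 < q i) :
    Function.Injective (FreeGroup.lift fun y : M.I × Fin 3 =>
      gu M y.1 * (![gx M ^ p y.1, (gx M ^ a y.1)⁻¹ * gy M ^ q y.1 * gx M ^ a y.1,
        tc M (s y.1, a y.1, b y.1)] : Fin 3 → F0 M) y.2 * (gu M y.1)⁻¹) := by
  have key : (FreeGroup.lift fun y : M.I × Fin 3 =>
      gu M y.1 * (![gx M ^ p y.1, (gx M ^ a y.1)⁻¹ * gy M ^ q y.1 * gx M ^ a y.1,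
        tc M (s y.1, a y.1, b y.1)] : Fin 3 → F0 M) y.2 * (gu M y.1)⁻¹) =
      ((FreeGroup.map (baseFreeR M)).comp (FreeGroup.lift (baseFree3 M.I M.S p a q b s))).comp
        (FreeGroup.map (baseFreeJ M.I)) := by
    ext ⟨i, l⟩
    fin_cases l
    · simp [baseFreeJ, baseFree3, baseFree2, baseFree1, baseFreeR, gu, gx]
    · simp [baseFreeJ, baseFree3, baseFree2, baseFreeR, gu, gx, gy, mul_assoc]
    · simp [baseFreeJ, baseFree3, baseFreeR, gu, gx, gy, gt, tc, kc, mul_assoc]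
  rw [key, MonoidHom.coe_comp, MonoidHom.coe_comp]
  exact ((FreeGroup.map_injective (baseFreeR_injective M)).comp
    (baseFree3_injective M.I M.S p a q b s hp hq)).comp
    (FreeGroup.map_injective (baseFreeJ_injective M.I))

theorem fA_injective : Function.Injective (FreeGroup.lift (fA M)) :=
  free_family M M.p M.a M.q M.b M.src M.hp M.hq

theorem fB_injective : Function.Injective (FreeGroup.lift (fB M)) :=
  free_family M M.p' M.a' M.q' M.b' M.dst M.hp' M.hq'

end Pool.Agent.H.MP_9a81ba_al
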