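import Mathlib

/-!
Britton's lemma in a convenient form.
-/

namespace Pool.Agent.H.MP_9a81ba_al

open HNNExtension

/-- Britton's lemma: a word with at least one stable letter representing an element of the base
group contains a pinch. -/
theorem britton {G : Type*} [Group G] {A B : Subgroup G} (φ : A ≃* B) (g₀ : G)
    (l : List (ℤˣ × G)) (hl : l ≠ [])
    (h : (of g₀ * (l.map fun y => (t : HNNExtension G A B φ) ^ (y.1 : ℤ) * of y.2).prod) ∈
      (of : G →* HNNExtension G A B φ).range) :
    ∃ l₁ u g g' l₂, l = l₁ ++ (u, g) :: (-u, g') :: l₂ ∧ g ∈ toSubgroup A B u := by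
  by_contra hcon
  have chain : l.IsChain (fun a b => a.2 ∈ toSubgroup A B a.1 → a.1 = b.1) := by
    rw [List.isChain_iff_forall_rel_of_append_cons_cons]
    rintro ⟨u, g⟩ ⟨v, g'⟩ l₁ l₂ hlist hmem
    by_contra hne
    have hv : v = -u := by
      rcases Int.units_eq_one_or u with hu | hu <;> rcases Int.units_eq_one_or v with hv | hv
      · exact absurd (hu.trans hv.symm) hne
      · rw [hu, hv]
      · rw [hu, hv, neg_neg]
      · exact absurd (hu.trans hv.symm) hne
    subst hv
    exact hcon ⟨l₁, u, g, g', l₂, hlist, hmem⟩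
  exact hl (ReducedWord.toList_eq_nil_of_mem_of_range φ ⟨g₀, l, chain⟩ h)

end Pool.Agent.H.MP_9a81ba_al
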