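import Mathlib

/-!
Free group tools: the representation of `F(Z ⊔ T)` as a semidirect product
`F(F(Z) × T) ⋊ F(Z)`, and free families of conjugates of powers of generators.
-/

namespace Pool.Agent.H.MP_9a81ba_al

/-- `g : F(Z)` acts on the free group on `F(Z) × T` by `(h, s) ↦ (h * g⁻¹, s)`. -/
def shiftAct (Z T : Type*) : FreeGroup Z →* MulAut (FreeGroup (FreeGroup Z × T)) where
  toFun g := FreeGroup.freeGroupCongr ((Equiv.mulRight g⁻¹).prodCongr (Equiv.refl T))
  map_one' := by
    refine MulEquiv.ext fun w => ?_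
    simp only [inv_one]
    change FreeGroup.map (⇑((Equiv.mulRight (1 : FreeGroup Z)).prodCongr (Equiv.refl T))) w = w
    have : (⇑((Equiv.mulRight (1 : FreeGroup Z)).prodCongr (Equiv.refl T)) :
        FreeGroup Z × T → FreeGroup Z × T) = id := by
      funext y
      simp [Prod.map]
    rw [this]
    exact FreeGroup.map.id w
  map_mul' g h := by
    refine MulEquiv.ext fun w => ?_
    change FreeGroup.map _ w = FreeGroup.map _ (FreeGroup.map _ w)
    rw [FreeGroup.map.comp]
    congr 2
    funext y
    simp [Prod.map, mul_assoc]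

theorem shiftAct_of {Z T : Type*} (g h : FreeGroup Z) (s : T) :
    shiftAct Z T g (FreeGroup.of (h, s)) = FreeGroup.of (h * g⁻¹, s) := by
  change FreeGroup.map _ (FreeGroup.of (h, s)) = _
  rw [FreeGroup.map.of]
  rfl

/-- the representation of `F(Z ⊔ T)` as a semidirect product -/
def semi (Z T : Type*) :
    FreeGroup (Z ⊕ T) →* FreeGroup (FreeGroup Z × T) ⋊[shiftAct Z T] FreeGroup Z :=
  FreeGroup.lift (Sum.elim (fun z => SemidirectProduct.inr (FreeGroup.of z))
    (fun s => SemidirectProduct.inl (FreeGroup.of (1, s))))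

/-- the conjugate `g⁻¹ s g` of a generator `s ∈ T` by `g ∈ F(Z)` -/
def cj {Z T : Type*} (y : FreeGroup Z × T) : FreeGroup (Z ⊕ T) :=
  (FreeGroup.map Sum.inl y.1)⁻¹ * FreeGroup.of (Sum.inr y.2) * FreeGroup.map Sum.inl y.1

theorem semi_map {Z T : Type*} (g : FreeGroup Z) :
    semi Z T (FreeGroup.map Sum.inl g) = SemidirectProduct.inr g := by
  have h : (semi Z T).comp (FreeGroup.map Sum.inl) = SemidirectProduct.inr := by
    refine FreeGroup.ext_hom _ _ fun z => ?_
    simp [semi]
  exact DFunLike.congr_fun h g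

theorem semi_cj {Z T : Type*} (y : FreeGroup Z × T) :
    semi Z T (cj y) = SemidirectProduct.inl (FreeGroup.of y) := by
  obtain ⟨g, s⟩ := y
  have h1 : semi Z T (FreeGroup.of (Sum.inr s)) = SemidirectProduct.inl (FreeGroup.of (1, s)) := by
    simp [semi]
  have h2 := SemidirectProduct.inl_aut_inv (φ := shiftAct Z T) g (FreeGroup.of (1, s))
  have h3 : (shiftAct Z T g)⁻¹ (FreeGroup.of (1, s)) = FreeGroup.of (g, s) := by
    rw [← map_inv, shiftAct_of, inv_inv, one_mul]
  rw [h3] at h2
  rw [h2]
  simp only [cj, map_mul, map_inv, semi_map, h1]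

/-- inverse of `semi` -/
private def toolsBack (Z T : Type*) :
    FreeGroup (FreeGroup Z × T) ⋊[shiftAct Z T] FreeGroup Z →* FreeGroup (Z ⊕ T) :=
  SemidirectProduct.lift (FreeGroup.lift cj) (FreeGroup.map Sum.inl) (by
    intro g
    refine FreeGroup.ext_hom _ _ fun y => ?_
    obtain ⟨h, s⟩ := y
    simp only [MonoidHom.comp_apply, MulEquiv.coe_toMonoidHom, shiftAct_of, FreeGroup.lift_apply_of,
      MulAut.conj_apply, cj, map_mul, map_inv]
    group)

theorem semi_injective (Z T : Type*) : Function.Injective (semi Z T) := by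
  have h : (toolsBack Z T).comp (semi Z T) = MonoidHom.id _ := by
    refine FreeGroup.ext_hom _ _ fun y => ?_
    rcases y with z | s
    · simp [toolsBack, semi]
    · simp [toolsBack, semi, cj]
  exact Function.LeftInverse.injective (g := toolsBack Z T) fun x => DFunLike.congr_fun h x

open Classical in
/-- retraction onto the free factor generated by `E` -/
private noncomputable def toolsRet {Y : Type*} (E : Set Y) : FreeGroup Y →* FreeGroup Y :=
  FreeGroup.lift fun y => if y ∈ E then FreeGroup.of y else 1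

private theorem tools_ret_fix {Y : Type*} (E : Set Y) (w : FreeGroup Y)
    (h : w ∈ Subgroup.closure (FreeGroup.of '' E)) : toolsRet E w = w := by
  have h1 : Set.EqOn (toolsRet E) (MonoidHom.id (FreeGroup Y)) (FreeGroup.of '' E) := by
    rintro _ ⟨y, hy, rfl⟩
    simp [toolsRet, hy]
  exact MonoidHom.eqOn_closure h1 h

private theorem tools_ret_mem {Y : Type*} (E₁ E₂ : Set Y) (w : FreeGroup Y)
    (h : w ∈ Subgroup.closure (FreeGroup.of '' E₂)) :
    toolsRet E₁ w ∈ Subgroup.closure (FreeGroup.of '' (E₁ ∩ E₂)) := by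
  have h1 : Subgroup.closure (FreeGroup.of '' E₂) ≤
      (Subgroup.closure (FreeGroup.of '' (E₁ ∩ E₂))).comap (toolsRet E₁) := by
    rw [Subgroup.closure_le]
    rintro _ ⟨y, hy, rfl⟩
    rw [SetLike.mem_coe, Subgroup.mem_comap]
    by_cases hy1 : y ∈ E₁
    · have : toolsRet E₁ (FreeGroup.of y) = FreeGroup.of y := by simp [toolsRet, hy1]
      rw [this]
      exact Subgroup.subset_closure ⟨y, ⟨hy1, hy⟩, rfl⟩
    · have : toolsRet E₁ (FreeGroup.of y) = 1 := by simp [toolsRet, hy1]
      rw [this]
      exact Subgroup.one_mem _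
  exact h1 h

/-- intersections of subgroups generated by subsets of a basis -/
theorem closure_of_inter {Y : Type*} (E₁ E₂ : Set Y) (w : FreeGroup Y)
    (h₁ : w ∈ Subgroup.closure (FreeGroup.of '' E₁))
    (h₂ : w ∈ Subgroup.closure (FreeGroup.of '' E₂)) :
    w ∈ Subgroup.closure (FreeGroup.of '' (E₁ ∩ E₂)) := by
  rw [← tools_ret_fix E₁ w h₁]
  exact tools_ret_mem E₁ E₂ w h₂

theorem of_mem_closure {Y : Type*} (E : Set Y) (y : Y)
    (h : FreeGroup.of y ∈ Subgroup.closure (FreeGroup.of '' E)) : y ∈ E := by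
  classical
  by_contra hy
  let f : FreeGroup Y →* Multiplicative ℤ :=
    FreeGroup.lift fun z => if z = y then Multiplicative.ofAdd 1 else 1
  have h1 : Subgroup.closure (FreeGroup.of '' E) ≤ f.ker := by
    rw [Subgroup.closure_le]
    rintro _ ⟨z, hz, rfl⟩
    rw [SetLike.mem_coe, MonoidHom.mem_ker]
    have hzy : z ≠ y := by
      rintro rfl
      exact hy hz
    simp [f, hzy]
  have h2 := h1 h
  rw [MonoidHom.mem_ker] at h2
  have h3 : f (FreeGroup.of y) = Multiplicative.ofAdd 1 := by simp [f]
  rw [h3] at h2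
  have h4 : (1 : ℤ) = 0 := congrArg Multiplicative.toAdd h2
  exact one_ne_zero h4

theorem cj_mem_closure {Z T : Type*} (E : Set (FreeGroup Z × T)) (y : FreeGroup Z × T)
    (h : cj y ∈ Subgroup.closure (cj '' E)) : y ∈ E := by
  have h1 : semi Z T (cj y) ∈ (Subgroup.closure (cj '' E)).map (semi Z T) :=
    Subgroup.mem_map_of_mem _ h
  rw [MonoidHom.map_closure, semi_cj, Set.image_image] at h1
  have h2 : (fun x => semi Z T (cj x)) '' E =
      (SemidirectProduct.inl : _ →* FreeGroup (FreeGroup Z × T) ⋊[shiftAct Z T] FreeGroup Z) ''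
        (FreeGroup.of '' E) := by
    rw [Set.image_image]
    simp only [semi_cj]
  rw [h2, ← MonoidHom.map_closure] at h1
  obtain ⟨w, hw, hwe⟩ := h1
  rw [SemidirectProduct.inl_inj] at hwe
  subst hwe
  exact of_mem_closure E y hw

/-- conjugates of the `T`-letters by distinct elements of `F(Z)` form a free family -/
theorem lift_cj_injective {Z T K : Type*} (y : K → FreeGroup Z × T)
    (hy : Function.Injective y) : Function.Injective (FreeGroup.lift fun k => cj (y k)) := by
  have h : (semi Z T).comp (FreeGroup.lift fun k => cj (y k)) =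
      SemidirectProduct.inl.comp (FreeGroup.map y) := by
    refine FreeGroup.ext_hom _ _ fun k => ?_
    simp [semi_cj]
  intro a b hab
  have h1 := DFunLike.congr_fun h a
  have h2 := DFunLike.congr_fun h b
  rw [MonoidHom.comp_apply, MonoidHom.comp_apply] at h1 h2
  rw [hab, h2, SemidirectProduct.inl_inj] at h1
  exact (FreeGroup.map_injective hy h1).symm

end Pool.Agent.H.MP_9a81ba_al
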