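import Pool.Agent.H.MP_9a81ba_al.Base
import Pool.Agent.H.MP_9a81ba_al.Tools

/-!
Intersections of the rule subgroups with subgroups generated by configuration elements.
-/

namespace Pool.Agent.H.MP_9a81ba_al

variable (M : AM)

/-- relabelling of letters -/
def confIo : Bool ⊕ M.S → Gen M
  | .inl false => .inl .x
  | .inl true => .inl .y
  | .inr s => .inl (.t s)

theorem conf_io_inj : Function.Injective (confIo M) := by
  rintro (a | a) (b | b) h
  · cases a <;> cases b <;> simp [confIo] at h ⊢
  · cases a <;> simp [confIo] at h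
  · cases b <;> simp [confIo] at h
  · simpa [confIo] using h

/-- the embedding of the free group on `x, y, t_s` -/
def confIota : FreeGroup (Bool ⊕ M.S) →* F0 M := FreeGroup.map (confIo M)

theorem conf_iota_inj : Function.Injective (confIota M) :=
  FreeGroup.map_injective (conf_io_inj M)

/-- the index of a configuration -/
def confIx (c : M.Cfg) : FreeGroup Bool × M.S :=
  (FreeGroup.of true ^ c.2.2 * FreeGroup.of false ^ c.2.1, c.1)

theorem conf_tc (c : M.Cfg) : tc M c = confIota M (cj (confIx M c)) := by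
  simp [tc, kc, confIx, cj, confIota, gt, gx, gy, confIo]

/-- exponent sum -/
def confEx (b : Bool) : FreeGroup Bool →* Multiplicative ℤ :=
  FreeGroup.lift fun z => Multiplicative.ofAdd (if z = b then (1 : ℤ) else 0)

theorem conf_ix_inj : Function.Injective (confIx M) := by
  rintro ⟨s, m, n⟩ ⟨s', m', n'⟩ h
  simp only [confIx, Prod.mk.injEq] at h
  obtain ⟨h1, h2⟩ := h
  have e1 := congrArg (confEx true) h1
  have e2 := congrArg (confEx false) h1
  simp only [confEx, map_mul, map_zpow, FreeGroup.lift_apply_of, if_true, Bool.false_eq_true,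
    Bool.true_eq_false, if_false] at e1 e2
  have e1' := congrArg Multiplicative.toAdd e1
  have e2' := congrArg Multiplicative.toAdd e2
  simp at e1' e2'
  rw [h2, e1', e2']

theorem conf_semi_closure {Z T : Type*} (E : Set (FreeGroup Z × T)) :
    (Subgroup.closure (cj '' E)).map (semi Z T) =
      (Subgroup.closure (FreeGroup.of '' E)).map SemidirectProduct.inl := by
  rw [MonoidHom.map_closure, MonoidHom.map_closure, Set.image_image, Set.image_image]
  congr 1
  refine Set.image_congr fun y _ => ?_
  exact semi_cj y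

theorem conf_tc_closure (P : Set M.Cfg) :
    Subgroup.closure (tc M '' P) =
      (Subgroup.closure (cj '' (confIx M '' P))).map (confIota M) := by
  rw [MonoidHom.map_closure, Set.image_image, Set.image_image]
  congr 1
  refine Set.image_congr fun y _ => ?_
  exact conf_tc M y

/-- the subgroup of `F(x,y)` of the rule -/
def confV (p a q : ℤ) : Subgroup (FreeGroup Bool) :=
  Subgroup.closure {FreeGroup.of false ^ p,
    (FreeGroup.of false ^ a)⁻¹ * FreeGroup.of true ^ q * FreeGroup.of false ^ a}

/-- the indices in the rule subgroup -/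
def confE {S : Type*} (p a q b : ℤ) (s : S) : Set (FreeGroup Bool × S) :=
  {y | ∃ v ∈ confV p a q, y = (FreeGroup.of true ^ b * FreeGroup.of false ^ a * v, s)}

theorem conf_shift {S : Type*} (p a q b : ℤ) (s : S) (v : FreeGroup Bool)
    (hv : v ∈ confV p a q) (n : FreeGroup (FreeGroup Bool × S))
    (hn : n ∈ Subgroup.closure (FreeGroup.of '' confE p a q b s)) :
    shiftAct Bool S v n ∈ Subgroup.closure (FreeGroup.of '' confE p a q b s) := by
  induction hn using Subgroup.closure_induction with
  | mem x hx =>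
    obtain ⟨y, hy, rfl⟩ := hx
    obtain ⟨w, hw, rfl⟩ := hy
    rw [shiftAct_of]
    refine Subgroup.subset_closure ⟨_, ⟨w * v⁻¹, mul_mem hw (inv_mem hv), ?_⟩, rfl⟩
    simp [mul_assoc]
  | one => rw [map_one]; exact one_mem _
  | mul x y _ _ hx hy => rw [map_mul]; exact mul_mem hx hy
  | inv x _ hx => rw [map_inv]; exact inv_mem hx

/-- the image of the rule subgroup in the semidirect product -/
def confK {S : Type*} (p a q b : ℤ) (s : S) :
    Subgroup (FreeGroup (FreeGroup Bool × S) ⋊[shiftAct Bool S] FreeGroup Bool) where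
  carrier := {z | z.left ∈ Subgroup.closure (FreeGroup.of '' confE p a q b s) ∧
    z.right ∈ confV p a q}
  one_mem' := ⟨one_mem _, one_mem _⟩
  mul_mem' := by
    rintro x y ⟨h1, h2⟩ ⟨h3, h4⟩
    refine ⟨?_, ?_⟩
    · rw [SemidirectProduct.mul_left]
      exact mul_mem h1 (conf_shift p a q b s _ h2 _ h3)
    · rw [SemidirectProduct.mul_right]
      exact mul_mem h2 h4
  inv_mem' := by
    rintro x ⟨h1, h2⟩
    refine ⟨?_, ?_⟩
    · rw [SemidirectProduct.inv_left]
      exact conf_shift p a q b s _ (inv_mem h2) _ (inv_mem h1)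
    · rw [SemidirectProduct.inv_right]
      exact inv_mem h2

theorem conf_mem_K {S : Type*} (p a q b : ℤ) (s : S) (g : FreeGroup (Bool ⊕ S))
    (h : g ∈ Subgroup.closure (Set.range (![FreeGroup.map Sum.inl (FreeGroup.of false ^ p),
      FreeGroup.map Sum.inl ((FreeGroup.of false ^ a)⁻¹ * FreeGroup.of true ^ q *
        FreeGroup.of false ^ a),
      cj (FreeGroup.of true ^ b * FreeGroup.of false ^ a, s)] :
        Fin 3 → FreeGroup (Bool ⊕ S)))) :
    semi Bool S g ∈ confK p a q b s := by
  have : Subgroup.closure (Set.range (![FreeGroup.map Sum.inl (FreeGroup.of false ^ p),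
      FreeGroup.map Sum.inl ((FreeGroup.of false ^ a)⁻¹ * FreeGroup.of true ^ q *
        FreeGroup.of false ^ a),
      cj (FreeGroup.of true ^ b * FreeGroup.of false ^ a, s)] :
        Fin 3 → FreeGroup (Bool ⊕ S))) ≤ (confK p a q b s).comap (semi Bool S) := by
    rw [Subgroup.closure_le]
    rintro _ ⟨i, rfl⟩
    rw [SetLike.mem_coe, Subgroup.mem_comap]
    fin_cases i
    · change semi Bool S (FreeGroup.map Sum.inl (FreeGroup.of false ^ p)) ∈ _
      rw [semi_map]
      refine ⟨?_, ?_⟩
      · rw [SemidirectProduct.left_inr]; exact one_mem _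
      · rw [SemidirectProduct.right_inr]; exact Subgroup.subset_closure (by simp)
    · change semi Bool S (FreeGroup.map Sum.inl ((FreeGroup.of false ^ a)⁻¹ *
        FreeGroup.of true ^ q * FreeGroup.of false ^ a)) ∈ _
      rw [semi_map]
      refine ⟨?_, ?_⟩
      · rw [SemidirectProduct.left_inr]; exact one_mem _
      · rw [SemidirectProduct.right_inr]; exact Subgroup.subset_closure (by simp)
    · change semi Bool S (cj (FreeGroup.of true ^ b * FreeGroup.of false ^ a, s)) ∈ _
      rw [semi_cj]
      refine ⟨?_, ?_⟩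
      · rw [SemidirectProduct.left_inl]
        exact Subgroup.subset_closure ⟨_, ⟨1, one_mem _, by simp⟩, rfl⟩
      · rw [SemidirectProduct.right_inl]; exact one_mem _
  exact this h

theorem conf_ex_V (p a q : ℤ) (v : FreeGroup Bool) (hv : v ∈ confV p a q) :
    ∃ n k : ℤ, (confEx false v).toAdd = p * n ∧ (confEx true v).toAdd = q * k := by
  induction hv using Subgroup.closure_induction with
  | mem x hx =>
    rcases hx with rfl | rfl
    · exact ⟨1, 0, by simp [confEx], by simp [confEx]⟩
    · exact ⟨0, 1, by simp [confEx], by simp [confEx]⟩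
  | one => exact ⟨0, 0, by simp, by simp⟩
  | mul x y _ _ hx hy =>
    obtain ⟨n, k, h1, h2⟩ := hx
    obtain ⟨n', k', h3, h4⟩ := hy
    exact ⟨n + n', k + k', by rw [map_mul, toAdd_mul, h1, h3]; ring,
      by rw [map_mul, toAdd_mul, h2, h4]; ring⟩
  | inv x _ hx =>
    obtain ⟨n, k, h1, h2⟩ := hx
    exact ⟨-n, -k, by rw [map_inv, toAdd_inv, h1]; ring, by rw [map_inv, toAdd_inv, h2]; ring⟩

/-- intersection of a rule subgroup with a subgroup generated by configuration elements -/
theorem conf_inter (p a q b : ℤ) (s : M.S) (P : Set M.Cfg) (g : F0 M)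
    (hg : g ∈ Subgroup.closure (tc M '' P))
    (h : g ∈ Subgroup.closure (Set.range (![gx M ^ p, (gx M ^ a)⁻¹ * gy M ^ q * gx M ^ a,
        tc M (s, a, b)] : Fin 3 → F0 M))) :
    g ∈ Subgroup.closure (tc M '' {c | c ∈ P ∧ ∃ n k : ℤ, c = (s, p * n + a, q * k + b)}) := by
  rw [conf_tc_closure] at hg ⊢
  obtain ⟨g1, hg1, rfl⟩ := hg
  -- the second description
  have h2 : g1 ∈ Subgroup.closure (Set.range (![FreeGroup.map Sum.inl (FreeGroup.of false ^ p),
      FreeGroup.map Sum.inl ((FreeGroup.of false ^ a)⁻¹ * FreeGroup.of true ^ q *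
        FreeGroup.of false ^ a),
      cj (FreeGroup.of true ^ b * FreeGroup.of false ^ a, s)] :
        Fin 3 → FreeGroup (Bool ⊕ M.S))) := by
    have e : Subgroup.closure (Set.range (![gx M ^ p, (gx M ^ a)⁻¹ * gy M ^ q * gx M ^ a,
        tc M (s, a, b)] : Fin 3 → F0 M)) =
        (Subgroup.closure (Set.range (![FreeGroup.map Sum.inl (FreeGroup.of false ^ p),
      FreeGroup.map Sum.inl ((FreeGroup.of false ^ a)⁻¹ * FreeGroup.of true ^ q *
        FreeGroup.of false ^ a),
      cj (FreeGroup.of true ^ b * FreeGroup.of false ^ a, s)] :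
        Fin 3 → FreeGroup (Bool ⊕ M.S)))).map (confIota M) := by
      rw [MonoidHom.map_closure, ← Set.range_comp]
      congr 2
      funext i
      fin_cases i
      · simp [confIota, gx, confIo]
      · simp [confIota, gx, gy, confIo]
      · change tc M (s, a, b) = confIota M (cj (confIx M (s, a, b)))
        exact conf_tc M _
    rw [e] at h
    obtain ⟨g2, hg2, hh⟩ := h
    rwa [← conf_iota_inj M hh]
  have h3 := conf_mem_K p a q b s g1 h2
  have h4 : semi Bool M.S g1 ∈ (Subgroup.closure (cj '' (confIx M '' P))).map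
      (semi Bool M.S) := ⟨g1, hg1, rfl⟩
  rw [conf_semi_closure] at h4
  obtain ⟨w1, hw1, hw2⟩ := h4
  have h5 : w1 ∈ Subgroup.closure (FreeGroup.of '' confE p a q b s) := by
    have := h3.1
    rw [← hw2, SemidirectProduct.left_inl] at this
    exact this
  have h6 := closure_of_inter _ _ w1 hw1 h5
  have h7 : (confIx M '' P) ∩ confE p a q b s ⊆
      confIx M '' {c | c ∈ P ∧ ∃ n k : ℤ, c = (s, p * n + a, q * k + b)} := by
    rintro _ ⟨⟨c, hc, rfl⟩, v, hv, hcv⟩
    refine ⟨c, ⟨hc, ?_⟩, rfl⟩
    obtain ⟨n, k, e1, e2⟩ := conf_ex_V p a q v hv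
    refine ⟨n, k, ?_⟩
    obtain ⟨s', m', n'⟩ := c
    simp only [confIx, Prod.mk.injEq] at hcv
    obtain ⟨i1, i2⟩ := hcv
    have j1 := congrArg (fun z => (confEx true z).toAdd) i1
    have j2 := congrArg (fun z => (confEx false z).toAdd) i1
    simp only [map_mul, toAdd_mul, e1, e2] at j1 j2
    simp [confEx] at j1 j2
    rw [i2, j1, j2]
    ring_nf
  have h8 := Subgroup.closure_mono (Set.image_mono h7) h6
  have h9 : semi Bool M.S g1 ∈ (Subgroup.closure (cj '' (confIx M ''
      {c | c ∈ P ∧ ∃ n k : ℤ, c = (s, p * n + a, q * k + b)}))).map (semi Bool M.S) := by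
    rw [conf_semi_closure]
    exact ⟨w1, h8, hw2⟩
  obtain ⟨g3, hg3, hg4⟩ := h9
  rw [semi_injective _ _ hg4] at hg3
  exact ⟨g1, hg3, rfl⟩

/-- the configuration elements form a free family -/
theorem tc_free : Function.Injective (FreeGroup.lift (tc M)) := by
  have e : FreeGroup.lift (tc M) =
      (confIota M).comp (FreeGroup.lift fun k => cj (confIx M k)) := by
    ext c
    simp [conf_tc]
  rw [e]
  exact (conf_iota_inj M).comp (lift_cj_injective (confIx M) (conf_ix_inj M))

theorem tc_mem_closure (P : Set M.Cfg) (c : M.Cfg)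
    (h : tc M c ∈ Subgroup.closure (tc M '' P)) : c ∈ P := by
  rw [conf_tc_closure, conf_tc] at h
  obtain ⟨g, hg, hh⟩ := h
  rw [conf_iota_inj M hh] at hg
  obtain ⟨c', hc', e⟩ := cj_mem_closure _ _ hg
  rwa [← conf_ix_inj M e]

end Pool.Agent.H.MP_9a81ba_al
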