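import Pool.Agent.H.MP_9a81ba_al.Defs

/-!
Automorphisms fixing the relator preserve the cup product pairing.
-/

namespace Pool.Agent.H.MP_9a81ba_al

/-- the integer Heisenberg group -/
@[ext] structure CupHeis where
  /-- first coordinate -/
  a : ℤ
  /-- second coordinate -/
  b : ℤ
  /-- central coordinate -/
  c : ℤ

instance : Mul CupHeis := ⟨fun p q => ⟨p.a + q.a, p.b + q.b, p.c + q.c + p.a * q.b⟩⟩
instance : One CupHeis := ⟨⟨0, 0, 0⟩⟩
instance : Inv CupHeis := ⟨fun p => ⟨-p.a, -p.b, -p.c + p.a * p.b⟩⟩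

@[simp] theorem cup_mul_a (p q : CupHeis) : (p * q).a = p.a + q.a := rfl
@[simp] theorem cup_mul_b (p q : CupHeis) : (p * q).b = p.b + q.b := rfl
@[simp] theorem cup_mul_c (p q : CupHeis) : (p * q).c = p.c + q.c + p.a * q.b := rfl
@[simp] theorem cup_one_a : (1 : CupHeis).a = 0 := rfl
@[simp] theorem cup_one_b : (1 : CupHeis).b = 0 := rfl
@[simp] theorem cup_one_c : (1 : CupHeis).c = 0 := rfl
@[simp] theorem cup_inv_a (p : CupHeis) : (p⁻¹).a = -p.a := rfl
@[simp] theorem cup_inv_b (p : CupHeis) : (p⁻¹).b = -p.b := rfl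
@[simp] theorem cup_inv_c (p : CupHeis) : (p⁻¹).c = -p.c + p.a * p.b := rfl

instance : Group CupHeis where
  mul_assoc p q r := by
    ext
    · simp [add_assoc]
    · simp [add_assoc]
    · simp; ring
  one_mul p := by ext <;> simp
  mul_one p := by ext <;> simp
  inv_mul_cancel p := by
    ext
    · simp
    · simp
    · simp

/-- first coordinate as a homomorphism -/
def cupProjA : CupHeis →* Multiplicative ℤ where
  toFun p := Multiplicative.ofAdd p.a
  map_one' := rfl
  map_mul' _ _ := rfl

/-- second coordinate as a homomorphism -/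
def cupProjB : CupHeis →* Multiplicative ℤ where
  toFun p := Multiplicative.ofAdd p.b
  map_one' := rfl
  map_mul' _ _ := rfl

theorem cup_comm (p q : CupHeis) : cm p q = ⟨0, 0, p.a * q.b - q.a * p.b⟩ := by
  ext
  · simp [cm]
  · simp [cm]
  · simp [cm]; ring

theorem cup_prod (n : ℕ) (f : Fin n → ℤ) :
    (List.ofFn fun i => (⟨0, 0, f i⟩ : CupHeis)).prod = ⟨0, 0, ∑ i, f i⟩ := by
  induction n with
  | zero => simp; rfl
  | succ n ih =>
    rw [List.ofFn_succ, List.prod_cons, ih (fun i => f i.succ), Fin.sum_univ_succ]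
    ext <;> simp

theorem cup_rel (n : ℕ) (H : FreeGroup (Fin n × Bool) →* CupHeis) :
    H (surfRel n) = ⟨0, 0, ∑ i : Fin n,
      ((H (FreeGroup.of (i, false))).a * (H (FreeGroup.of (i, true))).b -
        (H (FreeGroup.of (i, true))).a * (H (FreeGroup.of (i, false))).b)⟩ := by
  rw [← cup_prod, surfRel, map_list_prod, List.map_ofFn]
  congr 1
  congr 1
  funext i
  simp only [Function.comp_apply]
  rw [map_cm, cup_comm]

/-- an automorphism of the surface group induced by an endomorphism of the free group fixing the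
relator preserves the cup product pairing -/
theorem cup_of_fix (n : ℕ) (f : FreeGroup (Fin n × Bool) →* FreeGroup (Fin n × Bool))
    (hf : f (surfRel n) = surfRel n) (φ : MulAut (Surf n))
    (hφ : ∀ g, φ (PresentedGroup.mk _ g) = PresentedGroup.mk _ (f g)) : φ ∈ OrPres n := by
  intro l m
  set H : FreeGroup (Fin n × Bool) →* CupHeis := FreeGroup.lift fun y =>
    ⟨(l (PresentedGroup.of y)).toAdd, (m (PresentedGroup.of y)).toAdd, 0⟩ with hH
  have hA : cupProjA.comp H = l.comp (PresentedGroup.mk _) := by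
    refine FreeGroup.ext_hom _ _ fun y => ?_
    simp only [hH, MonoidHom.comp_apply, FreeGroup.lift_apply_of]
    rfl
  have hB : cupProjB.comp H = m.comp (PresentedGroup.mk _) := by
    refine FreeGroup.ext_hom _ _ fun y => ?_
    simp only [hH, MonoidHom.comp_apply, FreeGroup.lift_apply_of]
    rfl
  have hA' : ∀ g, (H g).a = (l (PresentedGroup.mk _ g)).toAdd := fun g =>
    congrArg Multiplicative.toAdd (DFunLike.congr_fun hA g)
  have hB' : ∀ g, (H g).b = (m (PresentedGroup.mk _ g)).toAdd := fun g =>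
    congrArg Multiplicative.toAdd (DFunLike.congr_fun hB g)
  have h1 := cup_rel n H
  have h2 := cup_rel n (H.comp f)
  rw [MonoidHom.comp_apply, hf, h1] at h2
  have h3 := congrArg CupHeis.c h2
  simp only [MonoidHom.comp_apply, hA', hB'] at h3
  rw [cup, cup]
  refine Eq.trans ?_ h3.symm
  refine Finset.sum_congr rfl fun i _ => ?_
  simp only [← hφ]
  rfl

end Pool.Agent.H.MP_9a81ba_al
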