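import Mathlib

/-!
Surface groups, mapping class groups (as orientation preserving outer automorphisms) and the
generalized word problem.
-/

namespace Pool.Agent.H.MP_9a81ba_al

open Subgroup

/-- the commutator `a b a⁻¹ b⁻¹` -/
def cm {G : Type*} [Group G] (a b : G) : G := a * b * a⁻¹ * b⁻¹

theorem map_cm {G H : Type*} [Group G] [Group H] (f : G →* H) (a b : G) :
    f (cm a b) = cm (f a) (f b) := by
  simp [cm]

/-- the relator `[a_1,b_1][a_2,b_2]...[a_n,b_n]` of the closed orientable surface of genus `n`;
the generator `a_i` is `(i, false)` and `b_i` is `(i, true)` -/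
def surfRel (n : ℕ) : FreeGroup (Fin n × Bool) :=
  (List.ofFn fun i : Fin n => cm (FreeGroup.of (i, false)) (FreeGroup.of (i, true))).prod

/-- the fundamental group of the closed orientable surface of genus `n` -/
abbrev Surf (n : ℕ) : Type := PresentedGroup ({surfRel n} : Set (FreeGroup (Fin n × Bool)))

/-- The cup product pairing on `H^1 = Hom(Surf n, ℤ)` evaluated on the fundamental class:
`∑ i, (λ(a_i) μ(b_i) - λ(b_i) μ(a_i))`. -/
def cup (n : ℕ) (l m : Surf n →* Multiplicative ℤ) : ℤ :=
  ∑ i : Fin n, ((l (PresentedGroup.of (i, false))).toAdd *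
      (m (PresentedGroup.of (i, true))).toAdd -
    (l (PresentedGroup.of (i, true))).toAdd * (m (PresentedGroup.of (i, false))).toAdd)

/-- automorphisms of the surface group preserving the cup product pairing, that is, the
orientation preserving ones -/
def OrPres (n : ℕ) : Subgroup (MulAut (Surf n)) where
  carrier := {φ | ∀ l m : Surf n →* Multiplicative ℤ,
    cup n (l.comp φ.toMonoidHom) (m.comp φ.toMonoidHom) = cup n l m}
  one_mem' := fun _ _ => rfl
  mul_mem' := by
    intro φ ψ h1 h2 l m
    have := h2 (l.comp φ.toMonoidHom) (m.comp φ.toMonoidHom)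
    rw [h1] at this
    exact this
  inv_mem' := by
    intro φ h l m
    have := h (l.comp (φ⁻¹).toMonoidHom) (m.comp (φ⁻¹).toMonoidHom)
    rw [← this]
    congr 1
    · ext x
      simp
    · ext x
      simp

/-- inner automorphisms of the surface group, inside the orientation preserving automorphisms -/
def InnPres (n : ℕ) : Subgroup (OrPres n) :=
  (MulAut.conj : Surf n →* MulAut (Surf n)).range.subgroupOf (OrPres n)

instance (n : ℕ) : (InnPres n).Normal := by
  constructor
  rintro ⟨φ, hφ⟩ h ⟨ψ, hψ⟩
  rw [InnPres, Subgroup.mem_subgroupOf] at h ⊢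
  obtain ⟨a, ha⟩ := h
  refine ⟨ψ a, ?_⟩
  change MulAut.conj a = φ at ha
  change MulAut.conj (ψ a) = ψ * φ * ψ⁻¹
  subst ha
  ext x
  simp [MulAut.conj_apply]

/-- The mapping class group of the closed orientable surface of genus `n`, as the group of
orientation preserving outer automorphisms of its fundamental group. -/
abbrev Mod (n : ℕ) : Type := OrPres n ⧸ InnPres n

/-- evaluation of a word over a tuple of group elements -/
def ev {G : Type*} [Group G] {k : ℕ} (s : Fin k → G) (w : List (Fin k × Bool)) : G :=
  (w.map fun t => if t.2 then s t.1 else (s t.1)⁻¹).prod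

/-- The generalized word problem for the subgroup `H`, with input words over the tuple `s`, is
solvable. -/
def GWPSolvable {G : Type*} [Group G] {k : ℕ} (s : Fin k → G) (H : Subgroup G) : Prop :=
  ComputablePred fun w : List (Fin k × Bool) => ev s w ∈ H

end Pool.Agent.H.MP_9a81ba_al
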