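import Mathlib

/-!
Finite presentability: independence of the generators, semidirect products, products.
-/

namespace Pool.Agent.H.MP_9a81ba_al

/-- The kernel of any surjection from a finitely generated free group onto a finitely presented
group is finitely normally generated. -/
theorem ker_fng {X G : Type*} [Finite X] [Group G] [Group.IsFinitelyPresented G]
    (f : FreeGroup X →* G) (hf : Function.Surjective f) :
    f.ker.IsFinitelyNormallyGenerated := by
  obtain ⟨n, φ, hφ, S, hS, hSφ⟩ := ‹Group.IsFinitelyPresented G›.out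
  have ha : ∀ x : X, ∃ w, φ w = f (FreeGroup.of x) := fun x => hφ _
  choose a ha using ha
  have hb : ∀ i : Fin n, ∃ w, f w = φ (FreeGroup.of i) := fun i => hf _
  choose b hb using hb
  let β : FreeGroup (Fin n) →* FreeGroup X := FreeGroup.lift b
  let A : FreeGroup X →* FreeGroup (Fin n) := FreeGroup.lift a
  have hfβ : f.comp β = φ := by
    apply FreeGroup.ext_hom
    intro i
    simp [β, hb]
  have hφA : φ.comp A = f := by
    apply FreeGroup.ext_hom
    intro x
    simp [A, ha]
  let T : Set (FreeGroup X) := β '' S ∪ Set.range (fun x => (FreeGroup.of x)⁻¹ * β (a x))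
  refine ⟨T, (hS.image _).union (Set.finite_range _), ?_⟩
  apply le_antisymm
  · apply Subgroup.normalClosure_le_normal
    rintro w (⟨s, hs, rfl⟩ | ⟨x, rfl⟩)
    · have h1 : s ∈ φ.ker := by
        rw [← hSφ]
        exact Subgroup.subset_normalClosure hs
      change f (β s) = 1
      rw [← MonoidHom.comp_apply, hfβ]
      exact h1
    · change f ((FreeGroup.of x)⁻¹ * β (a x)) = 1
      rw [map_mul, map_inv, ← MonoidHom.comp_apply f β, hfβ, ha, inv_mul_cancel]
  · intro w hw
    have h1 : (QuotientGroup.mk' (Subgroup.normalClosure T)).comp (β.comp A) =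
        QuotientGroup.mk' (Subgroup.normalClosure T) := by
      apply FreeGroup.ext_hom
      intro x
      simp only [MonoidHom.comp_apply, QuotientGroup.mk'_apply]
      rw [eq_comm, QuotientGroup.eq]
      apply Subgroup.subset_normalClosure
      right
      refine ⟨x, ?_⟩
      simp [A]
    have h2 : A w ∈ Subgroup.normalClosure S := by
      rw [hSφ]
      change φ (A w) = 1
      rw [← MonoidHom.comp_apply, hφA]
      exact hw
    have h3 : Subgroup.normalClosure S ≤
        ((QuotientGroup.mk' (Subgroup.normalClosure T)).comp β).ker := by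
      apply Subgroup.normalClosure_le_normal
      intro s hs
      change (QuotientGroup.mk' (Subgroup.normalClosure T)) (β s) = 1
      rw [QuotientGroup.mk'_apply, QuotientGroup.eq_one_iff]
      apply Subgroup.subset_normalClosure
      left
      exact ⟨s, hs, rfl⟩
    have h4 := h3 h2
    have h5 : QuotientGroup.mk' (Subgroup.normalClosure T) w = 1 := by
      rw [← h1]
      exact h4
    rwa [QuotientGroup.mk'_apply, QuotientGroup.eq_one_iff] at h5

/-- Semidirect products of finitely presented groups are finitely presented. -/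
theorem fp_semidirect {N H : Type*} [Group N] [Group H] [Group.IsFinitelyPresented N]
    [Group.IsFinitelyPresented H] (φ : H →* MulAut N) :
    Group.IsFinitelyPresented (N ⋊[φ] H) := by
  obtain ⟨n, f1, hf1, S1, hS1, hSf1⟩ := ‹Group.IsFinitelyPresented N›.out
  obtain ⟨m, f2, hf2, S2, hS2, hSf2⟩ := ‹Group.IsFinitelyPresented H›.out
  have hw : ∀ (i : Fin n) (j : Fin m), ∃ w, f1 w = φ (f2 (FreeGroup.of j)) (f1 (FreeGroup.of i)) :=
    fun i j => hf1 _
  choose w hw using hw
  let i1 : FreeGroup (Fin n) →* FreeGroup (Fin n ⊕ Fin m) := FreeGroup.map Sum.inl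
  let i2 : FreeGroup (Fin m) →* FreeGroup (Fin n ⊕ Fin m) := FreeGroup.map Sum.inr
  let F : FreeGroup (Fin n ⊕ Fin m) →* N ⋊[φ] H := FreeGroup.lift (Sum.elim
    (fun i => SemidirectProduct.inl (f1 (FreeGroup.of i)))
    (fun j => SemidirectProduct.inr (f2 (FreeGroup.of j))))
  have hF1 : F.comp i1 = SemidirectProduct.inl.comp f1 := by
    apply FreeGroup.ext_hom
    intro i
    simp [F, i1]
  have hF2 : F.comp i2 = SemidirectProduct.inr.comp f2 := by
    apply FreeGroup.ext_hom
    intro j
    simp [F, i2]
  have hF1' : ∀ v, F (i1 v) = SemidirectProduct.inl (f1 v) := fun v => DFunLike.congr_fun hF1 v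
  have hF2' : ∀ v, F (i2 v) = SemidirectProduct.inr (f2 v) := fun v => DFunLike.congr_fun hF2 v
  have hFs : Function.Surjective F := by
    intro g
    obtain ⟨v1, hv1⟩ := hf1 g.left
    obtain ⟨v2, hv2⟩ := hf2 g.right
    refine ⟨i1 v1 * i2 v2, ?_⟩
    rw [map_mul, hF1', hF2', hv1, hv2, SemidirectProduct.inl_left_mul_inr_right]
  let R : Set (FreeGroup (Fin n ⊕ Fin m)) := i1 '' S1 ∪ i2 '' S2 ∪
    Set.range (fun p : Fin n × Fin m => (i1 (w p.1 p.2))⁻¹ *
      (i2 (FreeGroup.of p.2) * i1 (FreeGroup.of p.1) * (i2 (FreeGroup.of p.2))⁻¹))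
  have hR : R.Finite := ((hS1.image _).union (hS2.image _)).union (Set.finite_range _)
  refine Group.IsFinitelyPresented.of_surjective F hFs ⟨R, hR, ?_⟩
  apply le_antisymm
  · apply Subgroup.normalClosure_le_normal
    rintro v ((⟨s, hs, rfl⟩ | ⟨s, hs, rfl⟩) | ⟨p, rfl⟩)
    · change F (i1 s) = 1
      have h1 : s ∈ f1.ker := by
        rw [← hSf1]
        exact Subgroup.subset_normalClosure hs
      rw [hF1', MonoidHom.mem_ker.1 h1, map_one]
    · change F (i2 s) = 1
      have h1 : s ∈ f2.ker := by
        rw [← hSf2]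
        exact Subgroup.subset_normalClosure hs
      rw [hF2', MonoidHom.mem_ker.1 h1, map_one]
    · change F ((i1 (w p.1 p.2))⁻¹ *
        (i2 (FreeGroup.of p.2) * i1 (FreeGroup.of p.1) * (i2 (FreeGroup.of p.2))⁻¹)) = 1
      rw [map_mul, map_inv, map_mul, map_mul, map_inv, hF1', hF1', hF2', hw,
        SemidirectProduct.inl_aut, map_inv, inv_mul_cancel]
  · set P := FreeGroup (Fin n ⊕ Fin m) ⧸ Subgroup.normalClosure R with hP
    let q : FreeGroup (Fin n ⊕ Fin m) →* P := QuotientGroup.mk' (Subgroup.normalClosure R)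
    have hq : ∀ v ∈ R, q v = 1 := by
      intro v hv
      change ((v : FreeGroup (Fin n ⊕ Fin m)) : P) = 1
      rw [QuotientGroup.eq_one_iff]
      exact Subgroup.subset_normalClosure hv
    have hk1 : f1.ker ≤ (q.comp i1).ker := by
      rw [← hSf1]
      apply Subgroup.normalClosure_le_normal
      intro s hs
      exact hq _ (Or.inl (Or.inl ⟨s, hs, rfl⟩))
    have hk2 : f2.ker ≤ (q.comp i2).ker := by
      rw [← hSf2]
      apply Subgroup.normalClosure_le_normal
      intro s hs
      exact hq _ (Or.inl (Or.inr ⟨s, hs, rfl⟩))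
    let g1 : N →* P := f1.liftOfSurjective hf1 ⟨q.comp i1, hk1⟩
    let g2 : H →* P := f2.liftOfSurjective hf2 ⟨q.comp i2, hk2⟩
    have hg1 : ∀ v, g1 (f1 v) = q (i1 v) := fun v =>
      MonoidHom.liftOfRightInverse_comp_apply f1 _ _ ⟨q.comp i1, hk1⟩ v
    have hg2 : ∀ v, g2 (f2 v) = q (i2 v) := fun v =>
      MonoidHom.liftOfRightInverse_comp_apply f2 _ _ ⟨q.comp i2, hk2⟩ v
    have hgen : ∀ j : Fin m, ∀ x : N, g1 (φ (f2 (FreeGroup.of j)) x) =
        g2 (f2 (FreeGroup.of j)) * g1 x * (g2 (f2 (FreeGroup.of j)))⁻¹ := by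
      intro j x
      obtain ⟨v, rfl⟩ := hf1 x
      have h1 : (g1.comp ((φ (f2 (FreeGroup.of j))).toMonoidHom)).comp f1 =
          ((MulAut.conj (g2 (f2 (FreeGroup.of j)))).toMonoidHom.comp g1).comp f1 := by
        apply FreeGroup.ext_hom
        intro i
        simp only [MonoidHom.comp_apply, MulEquiv.coe_toMonoidHom, MulAut.conj_apply]
        rw [← hw, hg1, hg1, hg2]
        have h2 := hq _ (Or.inr ⟨(i, j), rfl⟩)
        simp only [map_mul, map_inv] at h2
        exact inv_mul_eq_one.1 h2
      exact DFunLike.congr_fun h1 v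
    have hall : ∀ (v : FreeGroup (Fin m)) (x : N), g1 (φ (f2 v) x) =
        g2 (f2 v) * g1 x * (g2 (f2 v))⁻¹ := by
      intro v
      induction v using FreeGroup.induction_on with
      | C1 => intro x; simp
      | of j => exact hgen j
      | inv_of j _ =>
        intro x
        have h3 := hgen j (φ (f2 (FreeGroup.of j)⁻¹) x)
        rw [map_inv f2, map_inv φ, MulAut.apply_inv_self] at h3
        rw [map_inv f2, map_inv φ, map_inv g2, h3]
        group
      | mul a b ha hb =>
        intro x
        rw [map_mul, map_mul, map_mul, MulAut.mul_apply, ha, hb]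
        group
    let Ψ : N ⋊[φ] H →* P := SemidirectProduct.lift g1 g2 (by
      intro h
      obtain ⟨v, rfl⟩ := hf2 h
      ext x
      exact hall v x)
    have hΨ : Ψ.comp F = q := by
      apply FreeGroup.ext_hom
      rintro (i | j)
      · have h1 : FreeGroup.of (Sum.inl i : Fin n ⊕ Fin m) = i1 (FreeGroup.of i) := by simp [i1]
        rw [h1, MonoidHom.comp_apply, hF1', SemidirectProduct.lift_inl, hg1]
      · have h1 : FreeGroup.of (Sum.inr j : Fin n ⊕ Fin m) = i2 (FreeGroup.of j) := by simp [i2]
        rw [h1, MonoidHom.comp_apply, hF2', SemidirectProduct.lift_inr, hg2]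
    intro v hv
    have h1 : q v = 1 := by
      rw [← hΨ, MonoidHom.comp_apply, MonoidHom.mem_ker.1 hv, map_one]
    exact (QuotientGroup.eq_one_iff v).1 h1

/-- Products of finitely presented groups are finitely presented. -/
theorem fp_prod {N H : Type*} [Group N] [Group H] [Group.IsFinitelyPresented N]
    [Group.IsFinitelyPresented H] : Group.IsFinitelyPresented (N × H) := by
  have h := fp_semidirect (1 : H →* MulAut N)
  exact Group.IsFinitelyPresented.equiv SemidirectProduct.mulEquivProd

end Pool.Agent.H.MP_9a81ba_al
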