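import Pool.Agent.H.MP_9a81ba_al.MachDefs
import Pool.Agent.H.MP_fc7d68_al.Comp3

/-!
An affine machine with undecidable reachability of the final configuration.
-/

set_option linter.unusedSectionVars false

namespace Pool.Agent.H.MP_9a81ba_al

open Turing

section

variable {Γ Q : Type} [Inhabited Γ] [Inhabited Q] [Fintype Γ]

/-- the base -/
def mach_m (Γ : Type) [Fintype Γ] : ℕ := Fintype.card Γ + 1

/-- digit of a symbol -/
noncomputable def mach_code (s : Γ) : ℕ := (Fintype.equivFin Γ s : ℕ) + 1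

theorem mach_code_pos (s : Γ) : 0 < mach_code s := Nat.succ_pos _

theorem mach_code_lt (s : Γ) : mach_code s < mach_m Γ :=
  Nat.succ_lt_succ (Fintype.equivFin Γ s).2

theorem mach_code_inj {s s' : Γ} (h : mach_code s = mach_code s') : s = s' :=
  (Fintype.equivFin Γ).injective (Fin.ext (Nat.succ_injective h))

open Classical in
/-- symbol of a digit -/
noncomputable def mach_dec (d : ℕ) : Γ :=
  if h : ∃ s : Γ, mach_code s = d then h.choose else default

theorem mach_dec_code (s : Γ) : mach_dec (mach_code s) = s := by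
  have h : ∃ s' : Γ, mach_code s' = mach_code s := ⟨s, rfl⟩
  rw [mach_dec, dif_pos h]
  exact mach_code_inj h.choose_spec

theorem mach_dec_zero : (mach_dec 0 : Γ) = default := by
  rw [mach_dec, dif_neg]
  rintro ⟨s, hs⟩
  exact (mach_code_pos s).ne' hs

/-- number of a list -/
noncomputable def mach_N : List Γ → ℕ
  | [] => 0
  | s :: l => mach_code s + mach_m Γ * mach_N l

/-- first digit of a list -/
noncomputable def mach_dg : List Γ → ℕ
  | [] => 0
  | s :: _ => mach_code s

theorem mach_N_eq (l : List Γ) : mach_N l = mach_m Γ * mach_N l.tail + mach_dg l := by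
  cases l with
  | nil => simp [mach_N, mach_dg]
  | cons s l => simp [mach_N, mach_dg, add_comm]

theorem mach_dg_lt (l : List Γ) : mach_dg l < mach_m Γ := by
  cases l with
  | nil => exact Nat.succ_pos _
  | cons s l => exact mach_code_lt s

theorem mach_dec_dg (l : List Γ) : mach_dec (mach_dg l) = l.headI := by
  cases l with
  | nil => exact mach_dec_zero
  | cons s l => exact mach_dec_code s

/-- result of a rule: state, multiplier and constant of the first and second coordinate -/
noncomputable def mach_tgt (M : TM0.Machine Γ Q) :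
    (Q ⊕ Bool) → ℕ → ℕ → Option (Q ⊕ Bool) × ℤ × ℤ × ℤ × ℤ
  | Sum.inl q, e, d =>
    match M q (mach_dec d) with
    | none => (some (Sum.inr false), mach_m Γ, e, mach_m Γ, d)
    | some (q', TM0.Stmt.write s) => (some (Sum.inl q'), mach_m Γ, e, mach_m Γ, mach_code s)
    | some (q', TM0.Stmt.move Dir.right) => (some (Sum.inl q'), mach_m Γ * mach_m Γ,
        mach_m Γ * e + mach_code (mach_dec d : Γ), 1, 0)
    | some (q', TM0.Stmt.move Dir.left) => (some (Sum.inl q'), 1, 0, mach_m Γ * mach_m Γ,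
        mach_m Γ * d + mach_code (mach_dec e : Γ))
  | Sum.inr false, e, d =>
    if e = 0 then (some (Sum.inr true), mach_m Γ, 0, mach_m Γ, d)
    else (some (Sum.inr false), 1, 0, mach_m Γ, d)
  | Sum.inr true, e, d =>
    if d = 0 then (none, mach_m Γ, e, mach_m Γ, 0)
    else (some (Sum.inr true), mach_m Γ, e, 1, 0)

theorem mach_m_pos : (0 : ℤ) < mach_m Γ := by
  have : 0 < mach_m Γ := Nat.succ_pos _
  exact_mod_cast this

theorem mach_tgt_pos (M : TM0.Machine Γ Q) (st : Q ⊕ Bool) (e d : ℕ) :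
    0 < (mach_tgt M st e d).2.1 ∧ 0 < (mach_tgt M st e d).2.2.2.1 := by
  have hm := mach_m_pos (Γ := Γ)
  have hm2 : (0 : ℤ) < mach_m Γ * mach_m Γ := mul_pos hm hm
  rcases st with q | b
  · rw [mach_tgt]
    rcases h : M q (mach_dec d) with _ | ⟨q', (_ | _) | s⟩
    · exact ⟨hm, hm⟩
    · exact ⟨one_pos, hm2⟩
    · exact ⟨hm2, one_pos⟩
    · exact ⟨hm, hm⟩
  · cases b
    · rw [mach_tgt]
      split_ifs
      · exact ⟨hm, hm⟩
      · exact ⟨one_pos, hm⟩
    · rw [mach_tgt]
      split_ifs
      · exact ⟨hm, hm⟩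
      · exact ⟨hm, one_pos⟩

theorem mach_div {m n n' e e' : ℤ} (hm : 0 < m) (he : 0 ≤ e) (he2 : e < m) (he' : 0 ≤ e')
    (he2' : e' < m) (h : m * n + e = m * n' + e') : n = n' ∧ e = e' := by
  have h1 : (m * n + e) / m = n := by
    rw [add_comm, Int.add_mul_ediv_left _ _ hm.ne', Int.ediv_eq_zero_of_lt he he2, zero_add]
  have h2 : (m * n' + e') / m = n' := by
    rw [add_comm, Int.add_mul_ediv_left _ _ hm.ne', Int.ediv_eq_zero_of_lt he' he2', zero_add]
  have h3 : n = n' := by rw [← h1, ← h2, h]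
  subst h3
  exact ⟨rfl, add_left_cancel h⟩

variable [Finite Q]

/-- the affine machine simulating a Post-Turing machine -/
noncomputable def machAM (M : TM0.Machine Γ Q) : AM where
  S := Option (Q ⊕ Bool)
  I := (Q ⊕ Bool) × Fin (mach_m Γ) × Fin (mach_m Γ)
  finS := inferInstance
  finI := inferInstance
  src i := some i.1
  dst i := (mach_tgt M i.1 i.2.1 i.2.2).1
  p _ := mach_m Γ
  a i := ((i.2.1 : ℕ) : ℤ)
  q _ := mach_m Γ
  b i := ((i.2.2 : ℕ) : ℤ)
  p' i := (mach_tgt M i.1 i.2.1 i.2.2).2.1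
  a' i := (mach_tgt M i.1 i.2.1 i.2.2).2.2.1
  q' i := (mach_tgt M i.1 i.2.1 i.2.2).2.2.2.1
  b' i := (mach_tgt M i.1 i.2.1 i.2.2).2.2.2.2
  hp _ := mach_m_pos
  hq _ := mach_m_pos
  hp' i := (mach_tgt_pos M _ _ _).1
  hq' i := (mach_tgt_pos M _ _ _).2
  fin := none
  term _ := Option.some_ne_none _
  det := by
    rintro ⟨s, e, d⟩ ⟨s', e', d'⟩ n k n' k' h1 h2 h3
    have h4 : s = s' := Option.some_injective _ h1
    have h5 := (mach_div mach_m_pos (Int.natCast_nonneg _) (Int.ofNat_lt.2 e.2)
      (Int.natCast_nonneg _) (Int.ofNat_lt.2 e'.2) h2).2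
    have h6 := (mach_div mach_m_pos (Int.natCast_nonneg _) (Int.ofNat_lt.2 d.2)
      (Int.natCast_nonneg _) (Int.ofNat_lt.2 d'.2) h3).2
    have h7 : e = e' := Fin.ext (Int.ofNat_inj.1 h5)
    have h8 : d = d' := Fin.ext (Int.ofNat_inj.1 h6)
    rw [h4, h7, h8]

/-- the successor of a configuration -/
noncomputable def mach_out (M : TM0.Machine Γ Q) (st : Q ⊕ Bool) (l r : List Γ) :
    Option (Q ⊕ Bool) × ℤ × ℤ :=
  ((mach_tgt M st (mach_dg l) (mach_dg r)).1,
    (mach_tgt M st (mach_dg l) (mach_dg r)).2.1 * mach_N l.tail +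
      (mach_tgt M st (mach_dg l) (mach_dg r)).2.2.1,
    (mach_tgt M st (mach_dg l) (mach_dg r)).2.2.2.1 * mach_N r.tail +
      (mach_tgt M st (mach_dg l) (mach_dg r)).2.2.2.2)

theorem mach_step_iff (M : TM0.Machine Γ Q) (st : Q ⊕ Bool) (l r : List Γ)
    (d : (machAM M).Cfg) :
    (machAM M).Step (some st, (mach_N l : ℤ), (mach_N r : ℤ)) d ↔ d = mach_out M st l r := by
  have hl : (mach_N l : ℤ) = mach_m Γ * mach_N l.tail + mach_dg l := by
    exact_mod_cast mach_N_eq l
  have hr : (mach_N r : ℤ) = mach_m Γ * mach_N r.tail + mach_dg r := by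
    exact_mod_cast mach_N_eq r
  constructor
  · rintro ⟨⟨s, e, d'⟩, n, k, h, rfl⟩
    have h1 : some st = some s := congrArg Prod.fst h
    have h2 : (mach_N l : ℤ) = mach_m Γ * n + ((e : ℕ) : ℤ) := congrArg (fun c => c.2.1) h
    have h3 : (mach_N r : ℤ) = mach_m Γ * k + ((d' : ℕ) : ℤ) := congrArg (fun c => c.2.2) h
    rw [hl] at h2
    rw [hr] at h3
    have h4 := mach_div mach_m_pos (Int.natCast_nonneg _) (Int.ofNat_lt.2 (mach_dg_lt l))
      (Int.natCast_nonneg _) (Int.ofNat_lt.2 e.2) h2
    have h5 := mach_div mach_m_pos (Int.natCast_nonneg _) (Int.ofNat_lt.2 (mach_dg_lt r))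
      (Int.natCast_nonneg _) (Int.ofNat_lt.2 d'.2) h3
    obtain ⟨rfl, h6⟩ := h4
    obtain ⟨rfl, h7⟩ := h5
    have h8 : (e : ℕ) = mach_dg l := (Int.ofNat_inj.1 h6).symm
    have h9 : (d' : ℕ) = mach_dg r := (Int.ofNat_inj.1 h7).symm
    have h10 : s = st := (Option.some_injective _ h1).symm
    subst h10
    rw [mach_out, ← h8, ← h9]
    rfl
  · rintro rfl
    refine ⟨⟨st, ⟨mach_dg l, mach_dg_lt l⟩, ⟨mach_dg r, mach_dg_lt r⟩⟩, (mach_N l.tail : ℤ),
      (mach_N r.tail : ℤ), ?_, rfl⟩
    rw [hl, hr]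
    rfl

/-- configurations of the Post-Turing machine -/
def mach_cfg (q : Q) (l r : List Γ) : TM0.Cfg Γ Q :=
  ⟨q, Tape.mk' (ListBlank.mk l) (ListBlank.mk r)⟩

theorem mach_sim (M : TM0.Machine Γ Q) (q : Q) (l r : List Γ) :
    (TM0.step M (mach_cfg q l r) = none ∧
      mach_out M (Sum.inl q) l r = (some (Sum.inr false), (mach_N l : ℤ), (mach_N r : ℤ))) ∨
    ∃ q' l' r', TM0.step M (mach_cfg q l r) = some (mach_cfg q' l' r') ∧
      mach_out M (Sum.inl q) l r = (some (Sum.inl q'), (mach_N l' : ℤ), (mach_N r' : ℤ)) := by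
  have hl : (mach_N l : ℤ) = mach_m Γ * mach_N l.tail + mach_dg l := by
    exact_mod_cast mach_N_eq l
  have hr : (mach_N r : ℤ) = mach_m Γ * mach_N r.tail + mach_dg r := by
    exact_mod_cast mach_N_eq r
  have hhead : (Tape.mk' (ListBlank.mk l) (ListBlank.mk r)).1 = r.headI := rfl
  rcases h : M q r.headI with _ | ⟨q', (_ | _) | s⟩
  · left
    constructor
    · simp only [TM0.step, mach_cfg, hhead, h]
      rfl
    · rw [mach_out, mach_tgt, mach_dec_dg, h]
      simp only [hl, hr]
  · right
    refine ⟨q', l.tail, l.headI :: r, ?_, ?_⟩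
    · simp only [TM0.step, mach_cfg, hhead, h, Option.map_some, Tape.move_left_mk']
      rfl
    · rw [mach_out, mach_tgt, mach_dec_dg, h]
      simp only [mach_dec_dg, mach_N, Nat.cast_add, Nat.cast_mul, hr]
      refine Prod.ext rfl (Prod.ext ?_ ?_)
      · simp
      · simp only
        ring
  · right
    refine ⟨q', r.headI :: l, r.tail, ?_, ?_⟩
    · simp only [TM0.step, mach_cfg, hhead, h, Option.map_some, Tape.move_right_mk']
      rfl
    · rw [mach_out, mach_tgt, mach_dec_dg, h]
      simp only [mach_N, Nat.cast_add, Nat.cast_mul, hl]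
      refine Prod.ext rfl (Prod.ext ?_ ?_)
      · simp only
        ring
      · simp
  · right
    refine ⟨q', l, s :: r.tail, ?_, ?_⟩
    · simp only [TM0.step, mach_cfg, hhead, h, Option.map_some, Tape.write_mk']
      rfl
    · rw [mach_out, mach_tgt, mach_dec_dg, h]
      simp only [mach_N, Nat.cast_add, Nat.cast_mul, hl]
      refine Prod.ext rfl (Prod.ext rfl ?_)
      exact add_comm _ _

theorem mach_acc2 (M : TM0.Machine Γ Q) (r : List Γ) :
    (machAM M).Acc (some (Sum.inr true), (0 : ℤ), (mach_N r : ℤ)) := by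
  induction r with
  | nil =>
    refine Relation.ReflTransGen.head ((mach_step_iff M (Sum.inr true) [] [] _).2 rfl) ?_
    have : mach_out M (Sum.inr true) ([] : List Γ) [] = (machAM M).fcfg := by
      rw [mach_out, mach_tgt]
      simp [mach_dg, mach_N, AM.fcfg, machAM]
    rw [this]
  | cons s r ih =>
    refine Relation.ReflTransGen.head ((mach_step_iff M (Sum.inr true) [] (s :: r) _).2 rfl) ?_
    have : mach_out M (Sum.inr true) ([] : List Γ) (s :: r) =
        (some (Sum.inr true), (0 : ℤ), (mach_N r : ℤ)) := by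
      rw [mach_out, mach_tgt]
      simp [mach_dg, mach_N, (mach_code_pos s).ne']
    rw [this]
    exact ih

theorem mach_acc1 (M : TM0.Machine Γ Q) (l r : List Γ) :
    (machAM M).Acc (some (Sum.inr false), (mach_N l : ℤ), (mach_N r : ℤ)) := by
  have hr : (mach_N r : ℤ) = mach_m Γ * mach_N r.tail + mach_dg r := by
    exact_mod_cast mach_N_eq r
  induction l with
  | nil =>
    refine Relation.ReflTransGen.head ((mach_step_iff M (Sum.inr false) [] r _).2 rfl) ?_
    have : mach_out M (Sum.inr false) ([] : List Γ) r =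
        (some (Sum.inr true), (0 : ℤ), (mach_N r : ℤ)) := by
      rw [mach_out, mach_tgt]
      simp [mach_dg, mach_N, hr]
    rw [this]
    exact mach_acc2 M r
  | cons s l ih =>
    refine Relation.ReflTransGen.head ((mach_step_iff M (Sum.inr false) (s :: l) r _).2 rfl) ?_
    have : mach_out M (Sum.inr false) (s :: l) r =
        (some (Sum.inr false), (mach_N l : ℤ), (mach_N r : ℤ)) := by
      rw [mach_out, mach_tgt]
      simp [mach_dg, (mach_code_pos s).ne', hr]
    rw [this]
    exact ih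

/-- the machine halts from the given configuration -/
def mach_halts (M : TM0.Machine Γ Q) (c : TM0.Cfg Γ Q) : Prop :=
  ∃ b, StateTransition.Reaches (TM0.step M) c b ∧ TM0.step M b = none

theorem mach_acc_of_halts (M : TM0.Machine Γ Q) {c b : TM0.Cfg Γ Q}
    (h : StateTransition.Reaches (TM0.step M) c b) (hb : TM0.step M b = none) :
    ∀ q l r, c = mach_cfg q l r →
      (machAM M).Acc (some (Sum.inl q), (mach_N l : ℤ), (mach_N r : ℤ)) := by
  induction h using Relation.ReflTransGen.head_induction_on with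
  | refl =>
    rintro q l r rfl
    rcases mach_sim M q l r with ⟨-, h2⟩ | ⟨q', l', r', h1, -⟩
    · refine Relation.ReflTransGen.head ((mach_step_iff M (Sum.inl q) l r _).2 rfl) ?_
      rw [h2]
      exact mach_acc1 M l r
    · rw [hb] at h1
      exact absurd h1 (by simp)
  | head h1 _ ih =>
    rintro q l r rfl
    rcases mach_sim M q l r with ⟨h2, -⟩ | ⟨q', l', r', h2, h3⟩
    · rw [h2] at h1
      exact absurd h1 (by simp)
    · rw [h2] at h1
      refine Relation.ReflTransGen.head ((mach_step_iff M (Sum.inl q) l r _).2 rfl) ?_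
      rw [h3]
      exact ih q' l' r' (Option.mem_some_iff.1 h1).symm

theorem mach_halts_of_acc (M : TM0.Machine Γ Q) {c : (machAM M).Cfg}
    (h : (machAM M).Acc c) : ∀ q l r,
      c = (some (Sum.inl q), (mach_N l : ℤ), (mach_N r : ℤ)) → mach_halts M (mach_cfg q l r) := by
  unfold AM.Acc at h
  induction h using Relation.ReflTransGen.head_induction_on with
  | refl =>
    intro q l r h1
    have h2 : (none : Option (Q ⊕ Bool)) = some (Sum.inl q) := congrArg Prod.fst h1
    exact absurd h2 (by simp)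
  | head h1 _ ih =>
    rintro q l r rfl
    have h1' := (mach_step_iff M (Sum.inl q) l r _).1 h1
    subst h1'
    rcases mach_sim M q l r with ⟨h2, -⟩ | ⟨q', l', r', h2, h3⟩
    · exact ⟨_, Relation.ReflTransGen.refl, h2⟩
    · obtain ⟨b, hb1, hb2⟩ := ih q' l' r' h3
      refine ⟨b, Relation.ReflTransGen.head ?_ hb1, hb2⟩
      rw [h2]
      rfl

theorem mach_acc_iff (M : TM0.Machine Γ Q) (w : List Γ) :
    (machAM M).Acc (some (Sum.inl default), (0 : ℤ), (mach_N w : ℤ)) ↔
      (TM0.eval M w).Dom := by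
  have h0 : (TM0.eval M w).Dom ↔ mach_halts M (mach_cfg default [] w) := by
    have h1 : (TM0.eval M w).Dom ↔ (StateTransition.eval (TM0.step M) (TM0.init w)).Dom := Iff.rfl
    rw [h1, Part.dom_iff_mem]
    exact exists_congr fun b => StateTransition.mem_eval
  rw [h0]
  constructor
  · intro h
    exact mach_halts_of_acc M h default [] w rfl
  · rintro ⟨b, hb1, hb2⟩
    exact mach_acc_of_halts M hb1 hb2 default [] w rfl

end

open MP_fc7d68_al in
/-- There is an affine machine with undecidable reachability of the final configuration. -/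
theorem exists_AM : ∃ (M : AM) (s₀ : M.S) (e : ℕ → ℕ), Computable e ∧
    ¬ ComputablePred fun n => M.Acc (s₀, 0, (e n : ℤ)) := by
  classical
  -- a program for the universal function
  have huniv : Partrec fun n : ℕ => ((Nat.Partrec.Code.eval (Denumerable.ofNat _ n) 0) : Part ℕ) :=
    Nat.Partrec.Code.eval_part.comp (Computable.ofNat _) (Computable.const 0)
  obtain ⟨c0, hc0⟩ : ∃ c0 : ToPartrec.Code, ∀ m : ℕ, (c0.eval [m]).Dom ↔
      (Nat.Partrec.Code.eval (Denumerable.ofNat _ m) 0).Dom := by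
    have h1 : Nat.Partrec' (n := 1) fun v =>
        ((Nat.Partrec.Code.eval (Denumerable.ofNat _ v.head) 0) : Part ℕ) :=
      Nat.Partrec'.part_iff₁.2 huniv
    obtain ⟨c0, hc0⟩ := Turing.ToPartrec.Code.exists_code h1
    refine ⟨c0, fun m => ?_⟩
    have h2 := hc0 ⟨[m], rfl⟩
    have h3 : c0.eval [m] = pure <$>
      ((Nat.Partrec.Code.eval (Denumerable.ofNat _ m) 0) : Part ℕ) := h2
    rw [h3]
    rfl
  obtain ⟨Q, i1, i2, M, hM⟩ := exists_machine c0
  have hfG : Finite GG := inferInstance
  have : Fintype GG := Fintype.ofFinite GG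
  refine ⟨machAM M, some (Sum.inl default),
    fun n => mach_N (g0 :: (Nat.bits n).reverse.map g1), ?_, ?_⟩
  · have h1 : (fun n : ℕ => mach_N (g0 :: (Nat.bits n).reverse.map g1)) = fun n =>
        mach_code g0 + mach_m GG * (Nat.bits n).reverse.foldr
          (fun b k => mach_code (g1 b) + mach_m GG * k) 0 := by
      funext n
      rw [mach_N]
      congr 2
      induction (Nat.bits n).reverse with
      | nil => rfl
      | cons b l ih =>
        rw [List.map_cons, mach_N, ih]
        rfl
    rw [h1]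
    refine Primrec.to_comp ?_
    refine Primrec.nat_add.comp (.const _) (Primrec.nat_mul.comp (.const _) ?_)
    refine Primrec.list_foldr (h := fun _ p => mach_code (g1 p.1) + mach_m GG * p.2)
      (Primrec.list_reverse.comp prim_bits) (.const 0) ?_
    refine Primrec.nat_add.comp ?_ (Primrec.nat_mul.comp (.const _)
      (Primrec.snd.comp Primrec.snd))
    exact (Primrec.dom_bool fun b => mach_code (g1 b)).comp (Primrec.fst.comp Primrec.snd)
  · intro hcomp
    refine ComputablePred.halting_problem 0 ?_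
    obtain ⟨f, hf, hfe⟩ := ComputablePred.computable_iff.1 hcomp
    refine ComputablePred.computable_iff.2 ⟨fun c => f (Encodable.encode c),
      hf.comp Computable.encode, ?_⟩
    funext c
    have h1 := congrFun hfe (Encodable.encode c)
    rw [← h1, mach_acc_iff, ← trInit_eq, hM, hc0, Denumerable.ofNat_encode]

end Pool.Agent.H.MP_9a81ba_al
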