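import Pool.Agent.H.MP_9a81ba_al.TowAsph
import Pool.Agent.H.MP_9a81ba_al.Mach

/-!
A two-generator group with undecidable word problem and a finite aspherical presentation.
-/

namespace Pool.Agent.H.MP_9a81ba_al

/-- the word `k t' k⁻¹ t'⁻¹` with `t' = y^(-m) t y^m`, in the letters `k, y, t` -/
def qmainW {N : ℕ} (k y t : Fin N) (m : ℕ) : List (Fin N × Bool) :=
  (k, true) :: (List.replicate m (y, false) ++ ((t, true) :: (List.replicate m (y, true) ++
    ((k, false) :: (List.replicate m (y, false) ++ ((t, false) :: List.replicate m (y, true)))))))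

theorem qmain_replicate {α : Type*} [Primcodable α] (a : α) :
    Primrec fun m : ℕ => List.replicate m a := by
  have h : (fun m : ℕ => List.replicate m a) = fun m => (List.range m).map fun _ => a := by
    funext m
    rw [List.map_const', List.length_range]
  rw [h]
  exact Primrec.list_map Primrec.list_range (Primrec.const a).to₂

theorem qmainW_primrec {N : ℕ} (k y t : Fin N) : Primrec (qmainW k y t) := by
  unfold qmainW
  have h1 := qmain_replicate (y, true)
  have h2 := qmain_replicate (y, false)
  exact Primrec.list_cons.comp (Primrec.const _) (Primrec.list_append.comp h2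
    (Primrec.list_cons.comp (Primrec.const _) (Primrec.list_append.comp h1
      (Primrec.list_cons.comp (Primrec.const _) (Primrec.list_append.comp h2
        (Primrec.list_cons.comp (Primrec.const _) h1))))))

theorem qmain_ev {Q : Type*} [Group Q] {N : ℕ} (q : Fin N → Q) (k y t : Fin N) (m : ℕ) :
    FreeGroup.lift q (FreeGroup.mk (qmainW k y t m)) =
      q k * ((q y ^ m)⁻¹ * q t * q y ^ m) * (q k)⁻¹ * ((q y ^ m)⁻¹ * q t * q y ^ m)⁻¹ := by
  have hr : ∀ b : Bool, ((List.replicate m (y, b)).map
      fun x : Fin N × Bool => cond x.2 (q x.1) (q x.1)⁻¹).prod = (cond b (q y) (q y)⁻¹) ^ m := by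
    intro b
    rw [List.map_replicate, List.prod_replicate]
  rw [FreeGroup.lift_mk]
  simp only [qmainW, List.map_cons, List.map_append, List.prod_cons, List.prod_append, hr,
    cond_true, cond_false]
  rw [inv_pow]
  group

/-- A two-generator group with a finite aspherical presentation and undecidable word problem. -/
theorem exists_Q : ∃ (Q : Type) (_ : Group Q) (N K : ℕ) (q : Fin N → Q)
    (ρ : Fin K → FreeGroup (Fin N)) (c d : Q) (f : ℕ → List (Fin N × Bool)),
    Asph q ρ ∧ Subgroup.closure {c, d} = ⊤ ∧ Computable f ∧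
      ¬ ComputablePred fun n => FreeGroup.lift q (FreeGroup.mk (f n)) = 1 := by
  obtain ⟨M, s₀, e, he, hAcc⟩ := exists_AM
  obtain ⟨K, ρ, hρ⟩ := exists_asph M
  let E := Finite.equivFin (Option (Option (Option (Gen M))))
  have hA := asph_reindex hρ E.symm (Equiv.refl (Fin K))
  let k : Option (Option (Option (Gen M))) := some none
  let y : Option (Option (Option (Gen M))) := some (some (some (.inl .y)))
  let t : Option (Option (Option (Gen M))) := some (some (some (.inl (.t s₀))))
  refine ⟨G3 M, inferInstance, _, K, _, _, HNNExtension.of (lb M), HNNExtension.t,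
    fun n => qmainW (E k) (E y) (E t) (e n), hA, G3_two M,
    (qmainW_primrec _ _ _).to_comp.comp he, ?_⟩
  intro hcomp
  apply hAcc
  refine hcomp.of_eq fun n => ?_
  rw [qmain_ev]
  have hk : qgen M (E.symm (E k)) = HNNExtension.of (HNNExtension.t : G2 M) := by
    rw [Equiv.symm_apply_apply]
    rfl
  have hy : qgen M (E.symm (E y)) = HNNExtension.of (up M (gy M)) := by
    rw [Equiv.symm_apply_apply]
    rfl
  have ht : qgen M (E.symm (E t)) = HNNExtension.of (up M (gt M s₀)) := by
    rw [Equiv.symm_apply_apply]
    rfl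
  rw [hk, hy, ht]
  have htc : tc M (s₀, 0, (e n : ℤ)) = (gy M ^ (e n))⁻¹ * gt M s₀ * gy M ^ (e n) := by
    simp [tc, kc]
  have h1 : (HNNExtension.of (up M (gy M)) ^ (e n))⁻¹ * HNNExtension.of (up M (gt M s₀)) *
      HNNExtension.of (up M (gy M)) ^ (e n) =
        (HNNExtension.of (up M (tc M (s₀, 0, (e n : ℤ)))) : G3 M) := by
    rw [htc]
    simp only [map_mul, map_inv, map_pow]
  have h2 : ∀ a : G2 M, (HNNExtension.of (HNNExtension.t : G2 M) : G3 M) * HNNExtension.of a *
      (HNNExtension.of (HNNExtension.t : G2 M))⁻¹ * (HNNExtension.of a)⁻¹ =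
        HNNExtension.of (HNNExtension.t * a * HNNExtension.t⁻¹ * a⁻¹) := by
    intro a
    simp only [map_mul, map_inv]
  rw [h1, h2, ← comm_iff]
  constructor
  · intro h
    have h3 := HNNExtension.of_injective (φ := phi3 M) (h.trans (map_one _).symm)
    exact mul_inv_eq_one.mp h3
  · intro h
    rw [h, mul_inv_cancel, map_one]

end Pool.Agent.H.MP_9a81ba_al
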