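import Pool.Agent.H.MP_9a81ba_al.SurfMain
import Pool.Agent.H.MP_9a81ba_al.QMain

/-!
Final assembly.
-/

namespace Pool.Agent.H.MP_9a81ba_al

theorem ev_eq_lift {G : Type*} [Group G] {k : ℕ} (s : Fin k → G) (w : List (Fin k × Bool)) :
    ev s w = FreeGroup.lift s (FreeGroup.mk w) := by
  rw [FreeGroup.lift_mk, ev]
  congr 1
  refine List.map_congr_left fun t _ => ?_
  cases t.2 <;> rfl

/-- translation of words by a table -/
def final_tr {N k : ℕ} (W : Fin N → List (Fin k × Bool)) (v : List (Fin N × Bool)) :
    List (Fin k × Bool) :=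
  v.flatMap fun t => if t.2 then W t.1 else (W t.1).reverse.map fun y => (y.1, !y.2)

theorem final_tr_computable {N k : ℕ} (W : Fin N → List (Fin k × Bool)) :
    Computable (final_tr W) := by
  refine Primrec.to_comp ?_
  unfold final_tr
  refine Primrec.list_flatMap Primrec.id ?_
  have h : Primrec fun t : Fin N × Bool =>
      if t.2 then W t.1 else (W t.1).reverse.map fun y => (y.1, !y.2) := Primrec.dom_finite _
  exact h.comp (Primrec.snd (α := List (Fin N × Bool)) (β := Fin N × Bool))

theorem final_ev_append {G : Type*} [Group G] {k : ℕ} (s : Fin k → G)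
    (v w : List (Fin k × Bool)) : ev s (v ++ w) = ev s v * ev s w := by
  simp [ev]

theorem final_ev_inv {G : Type*} [Group G] {k : ℕ} (s : Fin k → G)
    (v : List (Fin k × Bool)) : ev s (v.reverse.map fun y => (y.1, !y.2)) = (ev s v)⁻¹ := by
  induction v with
  | nil => simp [ev]
  | cons t v ih =>
    rw [List.reverse_cons, List.map_append, final_ev_append, ih]
    have : ev s (t :: v) = ev s [t] * ev s v := final_ev_append s [t] v
    rw [this, mul_inv_rev]
    congr 1
    obtain ⟨i, b⟩ := t
    cases b <;> simp [ev]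

theorem final_ev_tr {G : Type*} [Group G] {N k : ℕ} (α : Fin N → G) (s : Fin k → G)
    (W : Fin N → List (Fin k × Bool)) (hW : ∀ i, ev s (W i) = α i) (v : List (Fin N × Bool)) :
    ev s (final_tr W v) = ev α v := by
  induction v with
  | nil => rfl
  | cons t v ih =>
    have h1 : final_tr W (t :: v) = final_tr W [t] ++ final_tr W v := by
      simp [final_tr]
    have h2 : ev α (t :: v) = ev α [t] * ev α v := final_ev_append α [t] v
    rw [h1, h2, final_ev_append, ih]
    congr 1
    obtain ⟨i, b⟩ := t
    cases b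
    · simp only [final_tr, List.flatMap_cons, List.flatMap_nil, List.append_nil,
        Bool.false_eq_true, if_false]
      rw [final_ev_inv, hW]
      simp [ev]
    · simp only [final_tr, List.flatMap_cons, List.flatMap_nil, List.append_nil, if_true]
      rw [hW]
      simp [ev]

theorem final_comp {α β : Type*} [Primcodable α] [Primcodable β] (p : β → Prop) (f : α → β)
    (hf : Computable f) (hp : ComputablePred p) : ComputablePred fun a => p (f a) := by
  obtain ⟨_, hp⟩ := hp
  exact ⟨fun a => inferInstance, hp.comp hf⟩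

theorem main (g : ℕ) (hg : 4 ≤ g) :
    ∃ H : Subgroup (Mod g), Group.IsFinitelyPresented H ∧
      (∃ (k : ℕ) (s : Fin k → Mod g), ¬ GWPSolvable s H) ∧
      ∀ (k : ℕ) (s : Fin k → Mod g), Subgroup.closure (Set.range s) = ⊤ →
        ¬ GWPSolvable s H := by
  obtain ⟨r, rfl⟩ := Nat.exists_eq_add_of_le' hg
  obtain ⟨Q, _, N, K, q, ρ, c, d, f, hA, hcd, hf, hnc⟩ := exists_Q
  obtain ⟨H, α, hH, hα⟩ := surf_main hA c d hcd r
  have key : ¬ GWPSolvable α H := by
    intro hs
    apply hnc
    have := final_comp _ f hf hs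
    refine this.of_eq fun n => ?_
    rw [ev_eq_lift, hα]
  refine ⟨H, hH, ⟨N, α, key⟩, fun k s hs hsol => key ?_⟩
  have hW : ∀ i, ∃ W : List (Fin k × Bool), ev s W = α i := by
    intro i
    have : α i ∈ (FreeGroup.lift s).range := by
      rw [FreeGroup.range_lift_eq_closure, hs]
      trivial
    obtain ⟨w, hw⟩ := this
    refine ⟨w.toWord, ?_⟩
    rw [ev_eq_lift, FreeGroup.mk_toWord, hw]
  choose W hW using hW
  have := final_comp _ (final_tr W) (final_tr_computable W) hsol
  refine this.of_eq fun v => ?_
  rw [final_ev_tr α s W hW]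

end Pool.Agent.H.MP_9a81ba_al
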