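import Mathlib

/-!
Fox derivatives and aspherical presentations.
-/

set_option linter.unusedSectionVars false

namespace Pool.Agent.H.MP_9a81ba_al

open Classical

noncomputable section

variable {G X : Type*} [Group G]

/-- `G` acts by left multiplication on `X → ℤ[G]`. -/
def foxAct (G X : Type*) [Group G] :
    G →* MulAut (Multiplicative (X → MonoidAlgebra ℤ G)) where
  toFun h :=
    { toFun := fun v => Multiplicative.ofAdd fun x => MonoidAlgebra.of ℤ G h * v.toAdd x
      invFun := fun v => Multiplicative.ofAdd fun x => MonoidAlgebra.of ℤ G h⁻¹ * v.toAdd x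
      left_inv := by
        intro v
        apply Multiplicative.toAdd.injective
        funext x
        simp only [toAdd_ofAdd]
        rw [← mul_assoc, ← map_mul, inv_mul_cancel, map_one, one_mul]
      right_inv := by
        intro v
        apply Multiplicative.toAdd.injective
        funext x
        simp only [toAdd_ofAdd]
        rw [← mul_assoc, ← map_mul, mul_inv_cancel, map_one, one_mul]
      map_mul' := by
        intro v w
        apply Multiplicative.toAdd.injective
        funext x
        simp only [toAdd_ofAdd, toAdd_mul, Pi.add_apply, mul_add] }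
  map_one' := by
    refine MulEquiv.ext fun v => ?_
    apply Multiplicative.toAdd.injective
    funext x
    change MonoidAlgebra.of ℤ G 1 * v.toAdd x = v.toAdd x
    rw [map_one, one_mul]
  map_mul' := by
    intro h k
    refine MulEquiv.ext fun v => ?_
    apply Multiplicative.toAdd.injective
    funext x
    change MonoidAlgebra.of ℤ G (h * k) * v.toAdd x =
      MonoidAlgebra.of ℤ G h * (MonoidAlgebra.of ℤ G k * v.toAdd x)
    rw [map_mul, mul_assoc]

/-- the Magnus representation -/
def foxHom (g : X → G) :
    FreeGroup X →* Multiplicative (X → MonoidAlgebra ℤ G) ⋊[foxAct G X] G :=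
  FreeGroup.lift fun x => ⟨Multiplicative.ofAdd (Pi.single x 1), g x⟩

/-- Fox derivatives of a word, evaluated in `ℤ[G]` -/
def fox (g : X → G) (w : FreeGroup X) : X → MonoidAlgebra ℤ G := (foxHom g w).left.toAdd

theorem foxHom_right (g : X → G) (w : FreeGroup X) :
    (foxHom g w).right = FreeGroup.lift g w := by
  have : (SemidirectProduct.rightHom.comp (foxHom g)) = FreeGroup.lift g := by
    ext x
    simp [foxHom]
  exact DFunLike.congr_fun this w

@[simp] theorem fox_of (g : X → G) (x : X) : fox g (FreeGroup.of x) = Pi.single x 1 := by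
  rw [fox, foxHom, FreeGroup.lift_apply_of]
  rfl

@[simp] theorem fox_one (g : X → G) : fox g 1 = 0 := by
  rw [fox, map_one]
  rfl

theorem fox_mul (g : X → G) (v w : FreeGroup X) (x : X) :
    fox g (v * w) x = fox g v x + MonoidAlgebra.of ℤ G (FreeGroup.lift g v) * fox g w x := by
  rw [fox, map_mul, ← foxHom_right]
  rfl

theorem fox_inv (g : X → G) (w : FreeGroup X) (x : X) :
    fox g w⁻¹ x = - (MonoidAlgebra.of ℤ G (FreeGroup.lift g w)⁻¹ * fox g w x) := by
  have h := fox_mul g w⁻¹ w x
  rw [inv_mul_cancel, fox_one, Pi.zero_apply, map_inv] at h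
  exact eq_neg_of_add_eq_zero_left h.symm

/-- `(x | ρ)` is an aspherical presentation of `G` (the relation module is free on the
relators). -/
structure Asph {J : Type*} [Fintype J] (g : X → G) (ρ : J → FreeGroup X) : Prop where
  surj : Function.Surjective (FreeGroup.lift g)
  ker : (FreeGroup.lift g).ker = Subgroup.normalClosure (Set.range ρ)
  inj : ∀ v : J → MonoidAlgebra ℤ G, (∀ x, ∑ j, v j * fox g (ρ j) x = 0) → v = 0

end

end Pool.Agent.H.MP_9a81ba_al
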