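import Pool.Agent.H.MP_9a81ba_al.Fox

/-!
The elements `e_l - 1` are independent for a free family `e`.
-/

set_option linter.unusedSectionVars false

namespace Pool.Agent.H.MP_9a81ba_al

open Classical

noncomputable section

variable {G L : Type*} [Group G]

variable {H : Type*} [Group H]

private theorem foxFree_inj (f : H →* G) (hf : Function.Injective f) (c : G) :
    Function.Injective (fun h => c * f h) := fun _ _ hab => hf (mul_left_cancel hab)

/-- projection to a left coset of the image -/
private def foxFreePr (f : H →* G) (hf : Function.Injective f) (c : G) :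
    MonoidAlgebra ℤ G →+ MonoidAlgebra ℤ H :=
  MonoidAlgebra.comapDomainAddMonoidHom (fun h => c * f h) (foxFree_inj f hf c)

private theorem foxFreePr_single (f : H →* G) (hf : Function.Injective f) (c : G) (h : H) (r : ℤ) :
    foxFreePr f hf c (MonoidAlgebra.single (c * f h) r) = MonoidAlgebra.single h r :=
  MonoidAlgebra.comapDomain_single_map (fun h => c * f h) (foxFree_inj f hf c) h r

private theorem foxFreePr_single_not (f : H →* G) (hf : Function.Injective f) (c g : G) (r : ℤ)
    (hg : ∀ h, c * f h ≠ g) : foxFreePr f hf c (MonoidAlgebra.single g r) = 0 := by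
  refine MonoidAlgebra.comapDomain_single_of_not_mem_range ?_ (foxFree_inj f hf c)
  rintro ⟨h, hh⟩
  exact hg h hh

private theorem foxFreePr_coeff (f : H →* G) (hf : Function.Injective f) (c : G)
    (a : MonoidAlgebra ℤ G) : (foxFreePr f hf c a).coeff 1 = a.coeff c := by
  have h1 : (foxFreePr f hf c a).coeff 1 = a.coeff (c * f 1) := by
    simp [foxFreePr]
  rw [h1, map_one, mul_one]

private theorem foxFreePr_mul (f : H →* G) (hf : Function.Injective f) (c : G)
    (a : MonoidAlgebra ℤ G) (h : H) :
    foxFreePr f hf c (a * (MonoidAlgebra.of ℤ G (f h) - 1)) =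
      foxFreePr f hf c a * (MonoidAlgebra.of ℤ H h - 1) := by
  induction a using MonoidAlgebra.induction_linear with
  | zero => simp
  | add x y hx hy => rw [add_mul, map_add, map_add, add_mul, hx, hy]
  | single g r =>
    rw [mul_sub, mul_one, map_sub, mul_sub, mul_one, MonoidAlgebra.of_apply, MonoidAlgebra.of_apply,
      MonoidAlgebra.single_mul_single, mul_one]
    congr 1
    by_cases hg : ∃ h0, c * f h0 = g
    · obtain ⟨h0, rfl⟩ := hg
      rw [mul_assoc, ← map_mul, foxFreePr_single, foxFreePr_single,
        MonoidAlgebra.single_mul_single, mul_one]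
    · rw [foxFreePr_single_not f hf c g r (fun h0 hh => hg ⟨h0, hh⟩), zero_mul]
      refine foxFreePr_single_not f hf c _ _ fun h0 hh => hg ⟨h0 * h⁻¹, ?_⟩
      rw [map_mul, ← mul_assoc, hh, map_inv, mul_inv_cancel_right]

/-- the Fox derivative on the group ring of a free group -/
private def foxFreeD (k : L) : MonoidAlgebra ℤ (FreeGroup L) →+ MonoidAlgebra ℤ (FreeGroup L) :=
  (Finsupp.liftAddHom (fun w : FreeGroup L =>
    (smulAddHom ℤ (MonoidAlgebra ℤ (FreeGroup L))).flip (fox FreeGroup.of w k))).comp
    (MonoidAlgebra.coeffAddEquiv (R := ℤ) (M := FreeGroup L)).toAddMonoidHom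

private theorem foxFreeD_single (k : L) (w : FreeGroup L) (r : ℤ) :
    foxFreeD k (MonoidAlgebra.single w r) = r • fox FreeGroup.of w k := by
  simp [foxFreeD]

private theorem foxFreeD_mul (k l : L) (a : MonoidAlgebra ℤ (FreeGroup L)) :
    foxFreeD k (a * (MonoidAlgebra.of ℤ (FreeGroup L) (FreeGroup.of l) - 1)) =
      if l = k then a else 0 := by
  induction a using MonoidAlgebra.induction_linear with
  | zero => simp
  | add x y hx hy =>
    rw [add_mul, map_add, hx, hy]
    split_ifs
    · rfl
    · rw [add_zero]
  | single g r =>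
    rw [mul_sub, mul_one, map_sub, MonoidAlgebra.of_apply,
      MonoidAlgebra.single_mul_single, mul_one, foxFreeD_single, foxFreeD_single, fox_mul,
      smul_add, add_sub_cancel_left, fox_of]
    have h1 : FreeGroup.lift (FreeGroup.of (α := L)) g = g := by
      have h2 : FreeGroup.lift (FreeGroup.of (α := L)) = MonoidHom.id _ := by
        ext x
        simp
      rw [h2]
      rfl
    rw [h1]
    split_ifs with h
    · subst h
      rw [Pi.single_eq_same, mul_one, MonoidAlgebra.of_apply, MonoidAlgebra.smul_single]
      simp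
    · rw [Pi.single_eq_of_ne (Ne.symm h), mul_zero, smul_zero]

private theorem foxFree_free [Fintype L] (v : L → MonoidAlgebra ℤ (FreeGroup L))
    (hv : ∑ l, v l * (MonoidAlgebra.of ℤ (FreeGroup L) (FreeGroup.of l) - 1) = 0) : v = 0 := by
  funext k
  have h1 := congrArg (foxFreeD k) hv
  rw [map_sum, map_zero] at h1
  simp only [foxFreeD_mul] at h1
  rw [Finset.sum_ite_eq' Finset.univ k] at h1
  simpa using h1

/-- If the family `e` freely generates a free subgroup of `G` then the elements `e_l - 1` are left
linearly independent in `ℤ[G]`. -/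
theorem indep_free_family [Fintype L] (e : L → G)
    (he : Function.Injective (FreeGroup.lift e)) (v : L → MonoidAlgebra ℤ G)
    (hv : ∑ l, v l * (MonoidAlgebra.of ℤ G (e l) - 1) = 0) : v = 0 := by
  have h1 : ∀ c : G, (fun l => foxFreePr (FreeGroup.lift e) he c (v l)) = 0 := by
    intro c
    apply foxFree_free
    have h2 := congrArg (foxFreePr (FreeGroup.lift e) he c) hv
    rw [map_sum, map_zero] at h2
    rw [← h2]
    refine Finset.sum_congr rfl fun l _ => ?_
    have h3 := foxFreePr_mul (FreeGroup.lift e) he c (v l) (FreeGroup.of l)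
    rw [FreeGroup.lift_apply_of] at h3
    exact h3.symm
  funext l
  apply MonoidAlgebra.ext
  ext c
  have h3 : foxFreePr (FreeGroup.lift e) he c (v l) = 0 := congrFun (h1 c) l
  rw [← foxFreePr_coeff (FreeGroup.lift e) he c, h3]
  rfl

end

end Pool.Agent.H.MP_9a81ba_al
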