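import Pool.Agent.H.MP_9a81ba_al.FoxTools
import Pool.Agent.H.MP_9a81ba_al.FoxFree

/-!
Aspherical presentations of HNN extensions with free associated subgroups.
-/

set_option linter.unusedSectionVars false

namespace Pool.Agent.H.MP_9a81ba_al

open Classical

noncomputable section

/-- the presentation of a free group without relators -/
theorem asph_free (X : Type*) :
    Asph (J := Empty) (FreeGroup.of : X → FreeGroup X) (fun j => j.elim) := by
  have hl : FreeGroup.lift (FreeGroup.of : X → FreeGroup X) = MonoidHom.id _ := by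
    ext x
    simp
  refine ⟨?_, ?_, ?_⟩
  · rw [hl]
    exact Function.surjective_id
  · rw [hl, Set.range_eq_empty, Subgroup.normalClosure_empty]
    ext w
    simp
  · intro v _
    funext j
    exact j.elim

/-- generators of an HNN extension -/
def hnnGen {G X : Type*} [Group G] {A B : Subgroup G} (φ : A ≃* B) (g : X → G) :
    Option X → HNNExtension G A B φ
  | none => HNNExtension.t
  | some x => HNNExtension.of (g x)

/-- relators of an HNN extension -/
def hnnRel {X J L : Type*} (ρ : J → FreeGroup X) (e e' : L → FreeGroup X) :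
    J ⊕ L → FreeGroup (Option X)
  | .inl j => FreeGroup.map some (ρ j)
  | .inr l => FreeGroup.of none * FreeGroup.map some (e l) * (FreeGroup.of none)⁻¹ *
      (FreeGroup.map some (e' l))⁻¹

theorem foxHNN_lift_map {G X : Type*} [Group G] {A B : Subgroup G} (φ : A ≃* B) (g : X → G)
    (w : FreeGroup X) :
    FreeGroup.lift (hnnGen φ g) (FreeGroup.map some w) =
      HNNExtension.of (FreeGroup.lift g w) := by
  have : (FreeGroup.lift (hnnGen φ g)).comp (FreeGroup.map some) =
      (HNNExtension.of : G →* HNNExtension G A B φ).comp (FreeGroup.lift g) := by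
    ext x
    simp [hnnGen]
  exact DFunLike.congr_fun this w

theorem foxHNN_surj {G X : Type*} [Group G] {g : X → G}
    (h : Function.Surjective (FreeGroup.lift g)) {A B : Subgroup G} (φ : A ≃* B) :
    Function.Surjective (FreeGroup.lift (hnnGen φ g)) := by
  intro z
  induction z using HNNExtension.induction_on with
  | of a =>
    obtain ⟨w, rfl⟩ := h a
    exact ⟨FreeGroup.map some w, foxHNN_lift_map φ g w⟩
  | t => exact ⟨FreeGroup.of none, by simp [hnnGen]⟩
  | mul x y hx hy =>
    obtain ⟨a, rfl⟩ := hx
    obtain ⟨b, rfl⟩ := hy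
    exact ⟨a * b, map_mul _ _ _⟩
  | inv x hx =>
    obtain ⟨a, rfl⟩ := hx
    exact ⟨a⁻¹, map_inv _ _⟩

theorem foxHNN_conj {G X L : Type*} [Group G] {g : X → G}
    {A B : Subgroup G} (φ : A ≃* B)
    (e e' : L → FreeGroup X)
    (hA : A = Subgroup.closure (Set.range fun l => FreeGroup.lift g (e l)))
    (hφ : ∀ l (hl : FreeGroup.lift g (e l) ∈ A),
      ((φ ⟨FreeGroup.lift g (e l), hl⟩ : B) : G) = FreeGroup.lift g (e' l)) (l : L) :
    (HNNExtension.of (FreeGroup.lift g (e' l)) : HNNExtension G A B φ) =
      HNNExtension.t * HNNExtension.of (FreeGroup.lift g (e l)) * HNNExtension.t⁻¹ := by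
  have hl : FreeGroup.lift g (e l) ∈ A := by
    rw [hA]
    exact Subgroup.subset_closure ⟨l, rfl⟩
  have := HNNExtension.equiv_eq_conj (φ := φ) ⟨FreeGroup.lift g (e l), hl⟩
  rw [hφ l hl] at this
  exact this

theorem foxHNN_ker {G X J L : Type*} [Group G] {g : X → G}
    {ρ : J → FreeGroup X} (hs : Function.Surjective (FreeGroup.lift g))
    (hk : (FreeGroup.lift g).ker = Subgroup.normalClosure (Set.range ρ))
    {A B : Subgroup G} (φ : A ≃* B)
    (e e' : L → FreeGroup X)
    (hA : A = Subgroup.closure (Set.range fun l => FreeGroup.lift g (e l)))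
    (hφ : ∀ l (hl : FreeGroup.lift g (e l) ∈ A),
      ((φ ⟨FreeGroup.lift g (e l), hl⟩ : B) : G) = FreeGroup.lift g (e' l)) :
    (FreeGroup.lift (hnnGen φ g)).ker = Subgroup.normalClosure (Set.range (hnnRel ρ e e')) := by
  apply le_antisymm
  · -- the quotient
    set N := Subgroup.normalClosure (Set.range (hnnRel ρ e e')) with hN
    let b0 : FreeGroup X →* FreeGroup (Option X) ⧸ N :=
      (QuotientGroup.mk' N).comp (FreeGroup.map some)
    have hb0 : (FreeGroup.lift g).ker ≤ b0.ker := by
      rw [hk]
      apply Subgroup.normalClosure_le_normal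
      rintro _ ⟨j, rfl⟩
      change b0 (ρ j) = 1
      change (QuotientGroup.mk' N) (FreeGroup.map some (ρ j)) = 1
      rw [QuotientGroup.mk'_apply, QuotientGroup.eq_one_iff]
      exact Subgroup.subset_normalClosure ⟨.inl j, rfl⟩
    let b : G →* FreeGroup (Option X) ⧸ N :=
      (FreeGroup.lift g).liftOfSurjective hs ⟨b0, hb0⟩
    have hb : ∀ w, b (FreeGroup.lift g w) = b0 w := by
      intro w
      exact DFunLike.congr_fun
        (MonoidHom.liftOfRightInverse_comp (FreeGroup.lift g) (Function.surjInv hs)
          (Function.rightInverse_surjInv hs) ⟨b0, hb0⟩) w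
    let τ : FreeGroup (Option X) ⧸ N := QuotientGroup.mk' N (FreeGroup.of none)
    have hgen : ∀ l, τ * b (FreeGroup.lift g (e l)) * τ⁻¹ = b (FreeGroup.lift g (e' l)) := by
      intro l
      rw [hb, hb]
      have : QuotientGroup.mk' N (hnnRel ρ e e' (.inr l)) = 1 := by
        rw [QuotientGroup.mk'_apply, QuotientGroup.eq_one_iff]
        exact Subgroup.subset_normalClosure ⟨.inr l, rfl⟩
      rw [hnnRel, map_mul, map_mul, map_mul, map_inv, map_inv, mul_inv_eq_one] at this
      exact this
    have hcomp : ∀ a : A, τ * b (a : G) = b (φ a : G) * τ := by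
      rintro ⟨a, ha⟩
      have key : ∀ a (_ : a ∈ Subgroup.closure (Set.range fun l => FreeGroup.lift g (e l))),
          ∀ ha : a ∈ A, τ * b a * τ⁻¹ = b (φ ⟨a, ha⟩ : G) := by
        intro a hac
        induction hac using Subgroup.closure_induction with
        | mem x hx =>
          obtain ⟨l, rfl⟩ := hx
          intro ha
          rw [hφ l ha]
          exact hgen l
        | one =>
          intro ha
          have : (⟨1, ha⟩ : A) = 1 := rfl
          rw [this, map_one, map_one, OneMemClass.coe_one, map_one]
          group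
        | mul x y hx hy h1 h2 =>
          intro ha
          have hx' : x ∈ A := by rw [hA]; exact hx
          have hy' : y ∈ A := by rw [hA]; exact hy
          have : (⟨x * y, ha⟩ : A) = ⟨x, hx'⟩ * ⟨y, hy'⟩ := rfl
          rw [this, map_mul, map_mul, Subgroup.coe_mul, map_mul, ← h1 hx', ← h2 hy']
          group
        | inv x hx h1 =>
          intro ha
          have hx' : x ∈ A := by rw [hA]; exact hx
          have : (⟨x⁻¹, ha⟩ : A) = (⟨x, hx'⟩ : A)⁻¹ := rfl
          rw [this, map_inv, map_inv, Subgroup.coe_inv, map_inv, ← h1 hx']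
          group
      have := key a (by rw [← hA]; exact ha) ha
      rw [← this]
      group
    let P : HNNExtension G A B φ →* FreeGroup (Option X) ⧸ N := HNNExtension.lift b τ hcomp
    have hP : P.comp (FreeGroup.lift (hnnGen φ g)) = QuotientGroup.mk' N := by
      ext x
      rcases x with _ | x
      · simp only [MonoidHom.comp_apply, FreeGroup.lift_apply_of, hnnGen, P]
        rw [HNNExtension.lift_t]
      · simp only [MonoidHom.comp_apply, FreeGroup.lift_apply_of, hnnGen, P]
        rw [HNNExtension.lift_of]
        have := hb (FreeGroup.of x)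
        rw [FreeGroup.lift_apply_of] at this
        rw [this]
        simp [b0]
    intro w hw
    have h1 : FreeGroup.lift (hnnGen φ g) w = 1 := hw
    have h2 := DFunLike.congr_fun hP w
    rw [MonoidHom.comp_apply, h1, map_one] at h2
    exact (QuotientGroup.eq_one_iff w).1 h2.symm
  · apply Subgroup.normalClosure_le_normal
    rintro _ ⟨j | l, rfl⟩
    · change FreeGroup.lift (hnnGen φ g) (FreeGroup.map some (ρ j)) = 1
      rw [foxHNN_lift_map]
      have : ρ j ∈ (FreeGroup.lift g).ker := by
        rw [hk]
        exact Subgroup.subset_normalClosure ⟨j, rfl⟩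
      rw [show FreeGroup.lift g (ρ j) = 1 from this, map_one]
    · change FreeGroup.lift (hnnGen φ g) (FreeGroup.of none * FreeGroup.map some (e l) *
        (FreeGroup.of none)⁻¹ * (FreeGroup.map some (e' l))⁻¹) = 1
      rw [map_mul, map_mul, map_mul, map_inv, map_inv, foxHNN_lift_map, foxHNN_lift_map,
        FreeGroup.lift_apply_of, foxHNN_conj φ e e' hA hφ l]
      exact mul_inv_cancel _

/-- HNN extensions with free associated subgroups preserve asphericity. -/
theorem asph_hnn {G X J L : Type*} [Group G] [Fintype J] [Fintype L] {g : X → G}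
    {ρ : J → FreeGroup X} (h : Asph g ρ) {A B : Subgroup G} (φ : A ≃* B)
    (e e' : L → FreeGroup X)
    (hA : A = Subgroup.closure (Set.range fun l => FreeGroup.lift g (e l)))
    (hfree : Function.Injective (FreeGroup.lift fun l => FreeGroup.lift g (e l)))
    (hφ : ∀ l (hl : FreeGroup.lift g (e l) ∈ A),
      ((φ ⟨FreeGroup.lift g (e l), hl⟩ : B) : G) = FreeGroup.lift g (e' l)) :
    Asph (hnnGen φ g) (hnnRel ρ e e') := by
  have hnone : ∀ w : FreeGroup X, fox (hnnGen φ g) (FreeGroup.map some w) none = 0 := by
    intro w
    exact (fox_map some (Option.some_injective X) (hnnGen φ g) w).2 none (by simp)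
  have hof : fox (hnnGen φ g) (FreeGroup.of none) none = 1 := by
    rw [fox_of]
    exact @Pi.single_eq_same _ _ _ (fun a b => propDecidable (a = b)) _ _
  have hsome : ∀ (w : FreeGroup X) (x : X),
      fox (hnnGen φ g) (FreeGroup.map some w) (some x) =
        MonoidAlgebra.mapDomainRingHom ℤ
          (HNNExtension.of : G →* HNNExtension G A B φ) (fox g w x) := by
    intro w x
    rw [(fox_map some (Option.some_injective X) (hnnGen φ g) w).1 x, ← fox_comp]
    rfl
  refine ⟨foxHNN_surj h.surj φ, foxHNN_ker h.surj h.ker φ e e' hA hφ, ?_⟩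
  intro v hv
  have hr : ∀ l, v (.inr l) = 0 := by
    have hcol := hv none
    rw [Fintype.sum_sum_type] at hcol
    have h1 : ∀ j, v (.inl j) * fox (hnnGen φ g) (hnnRel ρ e e' (.inl j)) none = 0 := by
      intro j
      rw [show hnnRel ρ e e' (.inl j) = FreeGroup.map some (ρ j) from rfl, hnone, mul_zero]
    have h2 : ∀ l, fox (hnnGen φ g) (hnnRel ρ e e' (.inr l)) none =
        - (MonoidAlgebra.of ℤ (HNNExtension G A B φ)
          (HNNExtension.of (FreeGroup.lift g (e' l))) - 1) := by
      intro l
      rw [show hnnRel ρ e e' (.inr l) = FreeGroup.of none * FreeGroup.map some (e l) *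
        (FreeGroup.of none)⁻¹ * (FreeGroup.map some (e' l))⁻¹ from rfl]
      rw [fox_mul, fox_mul, fox_mul, fox_inv, fox_inv, hnone, hnone, hof,
        foxHNN_conj φ e e' hA hφ l, map_mul, map_mul,
        FreeGroup.lift_apply_of, foxHNN_lift_map]
      simp only [hnnGen, map_mul]
      simp only [mul_zero, add_zero, neg_zero, mul_one, mul_neg]
      rw [neg_sub, sub_eq_add_neg, mul_assoc]
    simp only [h1, h2, Finset.sum_const_zero, zero_add, mul_neg, Finset.sum_neg_distrib,
      neg_eq_zero] at hcol
    have hfree' : Function.Injective (FreeGroup.lift fun l =>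
        (HNNExtension.of (FreeGroup.lift g (e' l)) : HNNExtension G A B φ)) := by
      have h3 : (FreeGroup.lift fun l =>
        (HNNExtension.of (FreeGroup.lift g (e' l)) : HNNExtension G A B φ)) =
          (MulAut.conj (HNNExtension.t : HNNExtension G A B φ)).toMonoidHom.comp
            ((HNNExtension.of : G →* HNNExtension G A B φ).comp
              (FreeGroup.lift fun l => FreeGroup.lift g (e l))) := by
        ext l
        simp only [FreeGroup.lift_apply_of, MonoidHom.comp_apply]
        rw [foxHNN_conj φ e e' hA hφ l]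
        rfl
      rw [h3]
      exact ((MulAut.conj (HNNExtension.t : HNNExtension G A B φ)).injective.comp
        ((HNNExtension.of_injective φ).comp hfree))
    have := indep_free_family _ hfree' (fun l => v (.inr l)) hcol
    intro l
    exact congrFun this l
  have hl : (fun j => v (.inl j)) = 0 := by
    apply indep_base_change (HNNExtension.of : G →* HNNExtension G A B φ)
      (HNNExtension.of_injective φ) (fun j x => fox g (ρ j) x) h.inj
    intro x
    have hcol := hv (some x)
    rw [Fintype.sum_sum_type] at hcol
    simp only [hr, zero_mul, Finset.sum_const_zero, add_zero] at hcol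
    rw [← hcol]
    apply Finset.sum_congr rfl
    intro j _
    rw [show hnnRel ρ e e' (.inl j) = FreeGroup.map some (ρ j) from rfl, hsome]
  funext z
  rcases z with j | l
  · exact congrFun hl j
  · exact hr l

/-- change of index types -/
theorem asph_reindex {G X J X' J' : Type*} [Group G] [Fintype J] [Fintype J'] {g : X → G}
    {ρ : J → FreeGroup X} (h : Asph g ρ) (i : X' ≃ X) (j : J' ≃ J) :
    Asph (fun x => g (i x)) (fun r => FreeGroup.map i.symm (ρ (j r))) := by
  have hcomp : FreeGroup.lift (fun x => g (i x)) =
      (FreeGroup.lift g).comp (FreeGroup.map i) := by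
    ext x
    simp
  have hinv : ∀ w : FreeGroup X, FreeGroup.map i (FreeGroup.map i.symm w) = w := by
    intro w
    rw [FreeGroup.map.comp]
    simp
  have hinv' : ∀ w : FreeGroup X', FreeGroup.map i.symm (FreeGroup.map i w) = w := by
    intro w
    rw [FreeGroup.map.comp]
    simp
  refine ⟨?_, ?_, ?_⟩
  · intro z
    obtain ⟨w, rfl⟩ := h.surj z
    refine ⟨FreeGroup.map i.symm w, ?_⟩
    rw [hcomp, MonoidHom.comp_apply, hinv]
  · have hs : Function.Surjective (FreeGroup.map i.symm : FreeGroup X →* FreeGroup X') :=
      fun w => ⟨FreeGroup.map i w, hinv' w⟩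
    have h1 : (FreeGroup.lift (fun x => g (i x))).ker =
        ((FreeGroup.lift g).ker).map (FreeGroup.map i.symm) := by
      ext w
      rw [Subgroup.mem_map]
      constructor
      · intro hw
        refine ⟨FreeGroup.map i w, ?_, hinv' w⟩
        have : FreeGroup.lift (fun x => g (i x)) w = 1 := hw
        rw [hcomp, MonoidHom.comp_apply] at this
        exact this
      · rintro ⟨u, hu, rfl⟩
        change FreeGroup.lift (fun x => g (i x)) (FreeGroup.map i.symm u) = 1
        rw [hcomp, MonoidHom.comp_apply, hinv]
        exact hu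
    rw [h1, h.ker, Subgroup.map_normalClosure _ _ hs]
    congr 1
    ext w
    constructor
    · rintro ⟨_, ⟨k, rfl⟩, rfl⟩
      exact ⟨j.symm k, by simp⟩
    · rintro ⟨k, rfl⟩
      exact ⟨ρ (j k), ⟨j k, rfl⟩, rfl⟩
  · intro v hv
    have h2 : (fun k => v (j.symm k)) = 0 := by
      apply h.inj
      intro x
      have hx := hv (i.symm x)
      rw [← hx, ← Equiv.sum_comp j]
      apply Finset.sum_congr rfl
      intro k _
      rw [(fox_map i.symm i.symm.injective (fun x => g (i x)) (ρ (j k))).1 x]
      simp
    funext k
    have := congrFun h2 (j k)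
    simpa using this

end

end Pool.Agent.H.MP_9a81ba_al
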