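import Pool.Agent.H.MP_9a81ba_al.Fox

/-!
Functoriality of Fox derivatives; linear independence over a subgroup ring extends to the
group ring.
-/

set_option linter.unusedSectionVars false

namespace Pool.Agent.H.MP_9a81ba_al

open Classical

noncomputable section

variable {G H X J L : Type*} [Group G] [Group H]

private theorem foxTools_inj (f : H →* G) (hf : Function.Injective f) (c : G) :
    Function.Injective (fun h => c * f h) := fun _ _ hab => hf (mul_left_cancel hab)

/-- projection to a left coset of the image -/
private def foxToolsPr (f : H →* G) (hf : Function.Injective f) (c : G) :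
    MonoidAlgebra ℤ G →+ MonoidAlgebra ℤ H :=
  MonoidAlgebra.comapDomainAddMonoidHom (fun h => c * f h) (foxTools_inj f hf c)

private theorem foxToolsPr_single (f : H →* G) (hf : Function.Injective f) (c : G) (h : H) (r : ℤ) :
    foxToolsPr f hf c (MonoidAlgebra.single (c * f h) r) = MonoidAlgebra.single h r :=
  MonoidAlgebra.comapDomain_single_map (fun h => c * f h) (foxTools_inj f hf c) h r

private theorem foxToolsPr_single_not (f : H →* G) (hf : Function.Injective f) (c g : G) (r : ℤ)
    (hg : ∀ h, c * f h ≠ g) : foxToolsPr f hf c (MonoidAlgebra.single g r) = 0 := by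
  refine MonoidAlgebra.comapDomain_single_of_not_mem_range ?_ (foxTools_inj f hf c)
  rintro ⟨h, hh⟩
  exact hg h hh

private theorem foxToolsPr_coeff (f : H →* G) (hf : Function.Injective f) (c : G)
    (a : MonoidAlgebra ℤ G) : (foxToolsPr f hf c a).coeff 1 = a.coeff c := by
  have h1 : (foxToolsPr f hf c a).coeff 1 = a.coeff (c * f 1) := by
    simp [foxToolsPr]
  rw [h1, map_one, mul_one]

private theorem foxToolsPr_mul (f : H →* G) (hf : Function.Injective f) (c : G)
    (a : MonoidAlgebra ℤ G) (b : MonoidAlgebra ℤ H) :
    foxToolsPr f hf c (a * MonoidAlgebra.mapDomainRingHom ℤ f b) = foxToolsPr f hf c a * b := by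
  induction a using MonoidAlgebra.induction_linear with
  | zero => simp
  | add x y hx hy => rw [add_mul, map_add, map_add, add_mul, hx, hy]
  | single g r =>
    induction b using MonoidAlgebra.induction_linear with
    | zero => simp
    | add x y hx hy => rw [map_add, mul_add, map_add, mul_add, hx, hy]
    | single h s =>
      rw [MonoidAlgebra.mapDomainRingHom_apply, MonoidAlgebra.mapDomain_single,
        MonoidAlgebra.single_mul_single]
      by_cases hg : ∃ h0, c * f h0 = g
      · obtain ⟨h0, rfl⟩ := hg
        rw [mul_assoc, ← map_mul, foxToolsPr_single, foxToolsPr_single,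
          MonoidAlgebra.single_mul_single]
      · rw [foxToolsPr_single_not f hf c g r (fun h0 hh => hg ⟨h0, hh⟩), zero_mul]
        refine foxToolsPr_single_not f hf c _ _ fun h0 hh => hg ⟨h0 * h⁻¹, ?_⟩
        rw [map_mul, ← mul_assoc, hh, map_inv, mul_inv_cancel_right]

private theorem foxTools_lift (f : H →* G) (h : X → H) (w : FreeGroup X) :
    FreeGroup.lift (fun x => f (h x)) w = f (FreeGroup.lift h w) := by
  have h1 : FreeGroup.lift (fun x => f (h x)) = f.comp (FreeGroup.lift h) := by
    ext x
    simp
  rw [h1]
  rfl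

private theorem foxTools_lift_map {Y : Type*} (i : X → Y) (g : Y → G) (w : FreeGroup X) :
    FreeGroup.lift g (FreeGroup.map i w) = FreeGroup.lift (fun x => g (i x)) w := by
  have h1 : (FreeGroup.lift g).comp (FreeGroup.map i) = FreeGroup.lift (fun x => g (i x)) := by
    ext x
    simp
  rw [← h1]
  rfl

private theorem foxTools_of (f : H →* G) (h : H) :
    MonoidAlgebra.mapDomainRingHom ℤ f (MonoidAlgebra.of ℤ H h) = MonoidAlgebra.of ℤ G (f h) := by
  rw [MonoidAlgebra.mapDomainRingHom_apply, MonoidAlgebra.of_apply, MonoidAlgebra.mapDomain_single,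
    MonoidAlgebra.of_apply]

/-- functoriality of Fox derivatives in the group -/
theorem fox_comp (f : H →* G) (h : X → H) (w : FreeGroup X) (x : X) :
    fox (fun x => f (h x)) w x = MonoidAlgebra.mapDomainRingHom ℤ f (fox h w x) := by
  have hof : ∀ y : X, fox (fun x => f (h x)) (FreeGroup.of y) x =
      MonoidAlgebra.mapDomainRingHom ℤ f (fox h (FreeGroup.of y) x) := by
    intro y
    rw [fox_of, fox_of]
    by_cases hy : x = y
    · subst hy
      rw [Pi.single_eq_same, Pi.single_eq_same, map_one]
    · rw [Pi.single_eq_of_ne hy, Pi.single_eq_of_ne hy, map_zero]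
  induction w using FreeGroup.induction_on with
  | C1 => rw [fox_one, fox_one, Pi.zero_apply, Pi.zero_apply, map_zero]
  | of y => exact hof y
  | inv_of y _ =>
    rw [fox_inv, fox_inv, map_neg, map_mul, ← hof y, foxTools_of, foxTools_lift, map_inv f]
  | mul a b ha hb =>
    rw [fox_mul, fox_mul, map_add, map_mul, ← ha, ← hb, foxTools_of, foxTools_lift]

/-- functoriality of Fox derivatives in the alphabet -/
theorem fox_map {Y : Type*} (i : X → Y) (hi : Function.Injective i) (g : Y → G)
    (w : FreeGroup X) :
    (∀ x, fox g (FreeGroup.map i w) (i x) = fox (fun x => g (i x)) w x) ∧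
      ∀ y, (∀ x, i x ≠ y) → fox g (FreeGroup.map i w) y = 0 := by
  have hof : ∀ z : X, (∀ x, fox g (FreeGroup.map i (FreeGroup.of z)) (i x) =
        fox (fun x => g (i x)) (FreeGroup.of z) x) ∧
      ∀ y, (∀ x, i x ≠ y) → fox g (FreeGroup.map i (FreeGroup.of z)) y = 0 := by
    intro z
    rw [FreeGroup.map.of, fox_of, fox_of]
    constructor
    · intro x
      by_cases hx : x = z
      · subst hx
        rw [Pi.single_eq_same, Pi.single_eq_same]
      · rw [Pi.single_eq_of_ne hx, Pi.single_eq_of_ne (fun h => hx (hi h))]
    · intro y hy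
      rw [Pi.single_eq_of_ne (hy z).symm]
  induction w using FreeGroup.induction_on with
  | C1 =>
    rw [map_one, fox_one, fox_one]
    exact ⟨fun _ => rfl, fun _ _ => rfl⟩
  | of y => exact hof y
  | inv_of y _ =>
    obtain ⟨h1, h2⟩ := hof y
    rw [map_inv]
    constructor
    · intro x
      rw [fox_inv, fox_inv]
      have h3 := h1 x
      have h4 := foxTools_lift_map i g (FreeGroup.of y)
      rw [h4, ← h3]
    · intro z hz
      rw [fox_inv]
      have h3 := h2 z hz
      exact (congrArg (fun t => -(_ * t)) h3).trans (by rw [mul_zero, neg_zero])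
  | mul a b ha hb =>
    rw [map_mul]
    constructor
    · intro x
      rw [fox_mul, fox_mul, ha.1, hb.1, foxTools_lift_map]
    · intro z hz
      rw [fox_mul, ha.2 z hz, hb.2 z hz, mul_zero, add_zero]

/-- Left linear independence of the rows of a matrix over `ℤ[H]` is preserved under an injective
homomorphism `H → G`. -/
theorem indep_base_change [Fintype J] (f : H →* G) (hf : Function.Injective f)
    (m : J → X → MonoidAlgebra ℤ H)
    (hm : ∀ v : J → MonoidAlgebra ℤ H, (∀ x, ∑ j, v j * m j x = 0) → v = 0)
    (v : J → MonoidAlgebra ℤ G)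
    (hv : ∀ x, ∑ j, v j * MonoidAlgebra.mapDomainRingHom ℤ f (m j x) = 0) : v = 0 := by
  have h1 : ∀ c : G, (fun j => foxToolsPr f hf c (v j)) = 0 := by
    intro c
    apply hm
    intro x
    have h2 := congrArg (foxToolsPr f hf c) (hv x)
    rw [map_sum, map_zero] at h2
    rw [← h2]
    exact Finset.sum_congr rfl fun j _ => (foxToolsPr_mul f hf c _ _).symm
  funext j
  apply MonoidAlgebra.ext
  ext c
  have h3 : foxToolsPr f hf c (v j) = 0 := congrFun (h1 c) j
  rw [← foxToolsPr_coeff f hf c, h3]
  rfl

end

end Pool.Agent.H.MP_9a81ba_al
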