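import Mathlib

/-!
Affine machines on pairs of integers (a variant of modular machines).
-/

namespace Pool.Agent.H.MP_9a81ba_al

/-- An affine machine: finitely many rules; rule `i` sends the configuration
`(src i, p i * n + a i, q i * k + b i)` to `(dst i, p' i * n + a' i, q' i * k + b' i)` for all
integers `n, k`.  At most one rule applies to a configuration, and none in the final state. -/
structure AM where
  /-- states -/
  S : Type
  /-- rules -/
  I : Type
  finS : Finite S
  finI : Finite I
  src : I → S
  dst : I → S
  p : I → ℤ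
  a : I → ℤ
  q : I → ℤ
  b : I → ℤ
  p' : I → ℤ
  a' : I → ℤ
  q' : I → ℤ
  b' : I → ℤ
  hp : ∀ i, 0 < p i
  hq : ∀ i, 0 < q i
  hp' : ∀ i, 0 < p' i
  hq' : ∀ i, 0 < q' i
  /-- the final state -/
  fin : S
  term : ∀ i, src i ≠ fin
  det : ∀ i j n k n' k', src i = src j → p i * n + a i = p j * n' + a j →
    q i * k + b i = q j * k' + b j → i = j

attribute [instance] AM.finS AM.finI

namespace AM

variable (M : AM)

/-- configurations -/
abbrev Cfg : Type := M.S × ℤ × ℤ

/-- the configuration to which rule `i` applies, with parameters `n, k` -/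
def pre (i : M.I) (n k : ℤ) : M.Cfg := (M.src i, M.p i * n + M.a i, M.q i * k + M.b i)

/-- the result -/
def post (i : M.I) (n k : ℤ) : M.Cfg := (M.dst i, M.p' i * n + M.a' i, M.q' i * k + M.b' i)

/-- one step -/
def Step (c d : M.Cfg) : Prop := ∃ i n k, c = M.pre i n k ∧ d = M.post i n k

/-- the final configuration -/
def fcfg : M.Cfg := (M.fin, 0, 0)

/-- the configuration reaches the final one -/
def Acc (c : M.Cfg) : Prop := Relation.ReflTransGen M.Step c M.fcfg

end AM

end Pool.Agent.H.MP_9a81ba_al
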