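import Pool.Agent.H.MP_9a81ba_al.AutHom

/-!
Normal generation in `F4` from invariance under handle and foot pushes.
-/

namespace Pool.Agent.H.MP_9a81ba_al

/-- the handle push along the second loop -/
def sY : MulAut F4 := (s4 0)⁻¹ * s4 1 * s4 0

/-- the foot push along the second loop -/
def tY : MulAut F4 := ((s4 0)⁻¹ * s4 2 * s4 0)⁻¹

/-- foot pushes -/
def TT : FreeGroup (Fin 2) →* MulAut F4 := FreeGroup.lift ![s4 2, tY]

/-- inclusion of the free group on `x, y` -/
def inc2 : FreeGroup (Fin 2) →* F4 := FreeGroup.map (Fin.castAdd 2)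

theorem norm_sec (N : Subgroup F4) [N.Normal] (f : F4 →* F4)
    (h : ∀ i, (f (FreeGroup.of i))⁻¹ * FreeGroup.of i ∈ N) (w : F4) : (f w)⁻¹ * w ∈ N := by
  have e : (QuotientGroup.mk' N).comp f = QuotientGroup.mk' N := by
    apply FreeGroup.ext_hom
    intro i
    exact QuotientGroup.eq.mpr (h i)
  exact QuotientGroup.eq.mp (DFunLike.congr_fun e w)

/-- the commutator of `c` and `m` -/
def normkap : F4 := FreeGroup.of 2 * FreeGroup.of 3 * (FreeGroup.of 2)⁻¹ * (FreeGroup.of 3)⁻¹
/-- the element conjugating for the first handle push -/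
def normgx : F4 := normkap * FreeGroup.of 0
/-- the element conjugating for the second handle push -/
def normgy : F4 := normkap * (FreeGroup.of 1)⁻¹

theorem norm_inv_apply (φ : MulAut F4) (a b : F4) (h : φ a = b) : φ⁻¹ b = a := by
  rw [← h]; exact MulAut.inv_apply_self F4 φ a

theorem norm_S_conj : ∀ l : Fin 4, 2 ≤ l →
    en4 (v4 1 true) (FreeGroup.of l) = normgx⁻¹ * FreeGroup.of l * normgx := by
  decide +kernel

theorem norm_S_gx : en4 (v4 1 true) normgx = normgx := by
  decide +kernel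

theorem norm_S_gy : en4 (v4 1 true) normgy = normkap⁻¹ * normgy := by
  decide +kernel

theorem norm_Y_conj : ∀ l : Fin 4, 2 ≤ l →
    en4 (v4 0 false) (en4 (v4 1 true) (en4 (v4 0 true) (FreeGroup.of l))) =
      normgy⁻¹ * FreeGroup.of l * normgy := by
  decide +kernel

theorem norm_Y_gy : en4 (v4 0 false) (en4 (v4 1 true) (en4 (v4 0 true) normgy)) = normgy := by
  decide +kernel

theorem norm_Y_gx : en4 (v4 0 false) (en4 (v4 1 true) (en4 (v4 0 true) normgx)) =
    normgx * en4 (v4 0 false) (en4 (v4 1 true) (en4 (v4 0 true) normkap)) := by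
  decide +kernel

theorem norm_sY (w : F4) :
    sY w = en4 (v4 0 false) (en4 (v4 1 true) (en4 (v4 0 true) w)) := rfl

theorem norm_S (w : F4) : s4 1 w = en4 (v4 1 true) w := rfl

/-- conjugating data: `g` is fixed by `T`, `T` acts on `c, m` by conjugation by `g` -/
theorem norm_step (Th : Subgroup (MulAut F4)) (g : F4) (T : MulAut F4) (hT : T ∈ Th)
    (hTg : T g = g)
    (hTh : ∀ l : Fin 4, 2 ≤ l → T (FreeGroup.of l) = g⁻¹ * FreeGroup.of l * g)
    (K0 : Subgroup F4)
    (hK0 : K0 = Subgroup.closure {w | ∃ θ ∈ Th, ∃ l : Fin 4, 2 ≤ l ∧ w = θ (FreeGroup.of l)})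
    (hd : ∀ θ ∈ Th, g⁻¹ * θ g ∈ K0) (hd' : ∀ θ ∈ Th, g * (θ g)⁻¹ ∈ K0) :
    g ∈ Subgroup.normalizer (K0 : Set F4) := by
  have hmem : ∀ θ ∈ Th, ∀ l : Fin 4, 2 ≤ l → θ (FreeGroup.of l) ∈ K0 := by
    intro θ hθ l hl
    rw [hK0]
    exact Subgroup.subset_closure ⟨θ, hθ, l, hl, rfl⟩
  have h1 : ∀ w ∈ K0, g⁻¹ * w * g ∈ K0 := by
    have : K0 ≤ K0.comap (MulAut.conj g⁻¹).toMonoidHom := by
      conv_lhs => rw [hK0]
      rw [Subgroup.closure_le]
      rintro w ⟨θ, hθ, l, hl, rfl⟩
      show (MulAut.conj g⁻¹) (θ (FreeGroup.of l)) ∈ K0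
      rw [MulAut.conj_apply]
      have e : g⁻¹ * θ (FreeGroup.of l) * g⁻¹⁻¹ =
          (g⁻¹ * θ g) * ((θ * T) (FreeGroup.of l)) * (g⁻¹ * θ g)⁻¹ := by
        rw [MulAut.mul_apply, hTh l hl, map_mul, map_mul, map_inv]
        group
      rw [e]
      exact K0.mul_mem (K0.mul_mem (hd θ hθ) (hmem _ (Th.mul_mem hθ hT) l hl))
        (K0.inv_mem (hd θ hθ))
    intro w hw
    have := this hw
    rw [Subgroup.mem_comap] at this
    simpa [MulAut.conj_apply] using this
  have h2 : ∀ w ∈ K0, g * w * g⁻¹ ∈ K0 := by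
    have : K0 ≤ K0.comap (MulAut.conj g).toMonoidHom := by
      conv_lhs => rw [hK0]
      rw [Subgroup.closure_le]
      rintro w ⟨θ, hθ, l, hl, rfl⟩
      show (MulAut.conj g) (θ (FreeGroup.of l)) ∈ K0
      rw [MulAut.conj_apply]
      have e0 : T⁻¹ (FreeGroup.of l) = g * FreeGroup.of l * g⁻¹ := by
        apply norm_inv_apply
        rw [map_mul, map_mul, map_inv, hTg, hTh l hl]
        group
      have e : g * θ (FreeGroup.of l) * g⁻¹ =
          (g * (θ g)⁻¹) * ((θ * T⁻¹) (FreeGroup.of l)) * (g * (θ g)⁻¹)⁻¹ := by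
        rw [MulAut.mul_apply, e0, map_mul, map_mul, map_inv]
        group
      rw [e]
      exact K0.mul_mem (K0.mul_mem (hd' θ hθ) (hmem _ (Th.mul_mem hθ (Th.inv_mem hT)) l hl))
        (K0.inv_mem (hd' θ hθ))
    intro w hw
    have := this hw
    rw [Subgroup.mem_comap] at this
    simpa [MulAut.conj_apply] using this
  rw [Subgroup.mem_normalizer_iff]
  intro w
  constructor
  · exact h2 w
  · intro hw
    have := h1 _ hw
    have e : g⁻¹ * (g * w * g⁻¹) * g = w := by group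
    rwa [e] at this

theorem norm_coc (Th : Subgroup (MulAut F4)) (K0 : Subgroup F4) (X : Set (MulAut F4))
    (hX : Th = Subgroup.closure X) (hinv : ∀ θ ∈ Th, ∀ w ∈ K0, θ w ∈ K0) (g : F4)
    (h : ∀ θ ∈ X, g⁻¹ * θ g ∈ K0) : ∀ θ ∈ Th, g⁻¹ * θ g ∈ K0 := by
  intro θ hθ
  rw [hX] at hθ
  have key : θ ∈ Th ∧ g⁻¹ * θ g ∈ K0 := by
    induction hθ using Subgroup.closure_induction with
    | mem θ hθ => exact ⟨by rw [hX]; exact Subgroup.subset_closure hθ, h θ hθ⟩
    | one => exact ⟨Th.one_mem, by simp⟩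
    | mul a b _ _ iha ihb =>
      refine ⟨Th.mul_mem iha.1 ihb.1, ?_⟩
      have e : g⁻¹ * (a * b) g = (g⁻¹ * a g) * a (g⁻¹ * b g) := by
        rw [MulAut.mul_apply, map_mul, map_inv]; group
      rw [e]
      exact K0.mul_mem iha.2 (hinv a iha.1 _ ihb.2)
    | inv a _ iha =>
      refine ⟨Th.inv_mem iha.1, ?_⟩
      have e : g⁻¹ * a⁻¹ g = a⁻¹ ((g⁻¹ * a g)⁻¹) := by
        rw [mul_inv_rev, map_mul, inv_inv, map_inv, MulAut.inv_apply_self, ]
      rw [e]
      exact hinv _ (Th.inv_mem iha.1) _ (K0.inv_mem iha.2)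
  exact key.2

theorem norm_coc' (Th : Subgroup (MulAut F4)) (K0 : Subgroup F4) (X : Set (MulAut F4))
    (hX : Th = Subgroup.closure X) (hinv : ∀ θ ∈ Th, ∀ w ∈ K0, θ w ∈ K0) (g : F4)
    (h : ∀ θ ∈ X, g * (θ g)⁻¹ ∈ K0) : ∀ θ ∈ Th, g * (θ g)⁻¹ ∈ K0 := by
  intro θ hθ
  have := norm_coc Th K0 X hX hinv g⁻¹ (fun θ hθ => by simpa using h θ hθ) θ hθ
  simpa using this

theorem normal_core (K : Subgroup F4) (hc : FreeGroup.of 2 ∈ K) (hm : FreeGroup.of 3 ∈ K)
    (hS : ∀ w ∈ K, s4 1 w ∈ K) (hS' : ∀ w ∈ K, (s4 1)⁻¹ w ∈ K)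
    (hY : ∀ w ∈ K, sY w ∈ K) (hY' : ∀ w ∈ K, sY⁻¹ w ∈ K) :
    Subgroup.normalClosure {(FreeGroup.of 2 : F4), FreeGroup.of 3} ≤ K := by
  set Th : Subgroup (MulAut F4) := Subgroup.closure {s4 1, sY} with hTh
  set K0 : Subgroup F4 :=
    Subgroup.closure {w | ∃ θ ∈ Th, ∃ l : Fin 4, 2 ≤ l ∧ w = θ (FreeGroup.of l)} with hK0
  have hST : s4 1 ∈ Th := Subgroup.subset_closure (by simp)
  have hYT : sY ∈ Th := Subgroup.subset_closure (by simp)
  have hKinv : ∀ θ ∈ Th, (∀ w ∈ K, θ w ∈ K) ∧ (∀ w ∈ K, θ⁻¹ w ∈ K) := by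
    intro θ hθ
    induction hθ using Subgroup.closure_induction with
    | mem θ hθ =>
      rcases hθ with rfl | rfl
      · exact ⟨hS, hS'⟩
      · exact ⟨hY, hY'⟩
    | one => exact ⟨fun w hw => hw, fun w hw => hw⟩
    | mul a b _ _ iha ihb =>
      refine ⟨fun w hw => iha.1 _ (ihb.1 _ hw), fun w hw => ?_⟩
      rw [mul_inv_rev]
      exact ihb.2 _ (iha.2 _ hw)
    | inv a _ iha => exact ⟨iha.2, by rw [inv_inv]; exact iha.1⟩
  have hl2 : ∀ l : Fin 4, 2 ≤ l → FreeGroup.of l ∈ K := by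
    intro l hl
    fin_cases l
    · exact absurd hl (by decide)
    · exact absurd hl (by decide)
    · exact hc
    · exact hm
  have hK0K : K0 ≤ K := by
    rw [hK0, Subgroup.closure_le]
    rintro w ⟨θ, hθ, l, hl, rfl⟩
    exact (hKinv θ hθ).1 _ (hl2 l hl)
  have hmem : ∀ θ ∈ Th, ∀ l : Fin 4, 2 ≤ l → θ (FreeGroup.of l) ∈ K0 := by
    intro θ hθ l hl
    exact Subgroup.subset_closure ⟨θ, hθ, l, hl, rfl⟩
  have hinv : ∀ θ ∈ Th, ∀ w ∈ K0, θ w ∈ K0 := by
    intro θ hθ
    have : K0 ≤ K0.comap θ.toMonoidHom := by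
      conv_lhs => rw [hK0]
      rw [Subgroup.closure_le]
      rintro w ⟨θ', hθ', l, hl, rfl⟩
      exact hmem (θ * θ') (Th.mul_mem hθ hθ') l hl
    intro w hw
    exact this hw
  have hc0 : FreeGroup.of 2 ∈ K0 := hmem 1 Th.one_mem 2 (by decide)
  have hm0 : FreeGroup.of 3 ∈ K0 := hmem 1 Th.one_mem 3 (by decide)
  have hk0 : normkap ∈ K0 :=
    K0.mul_mem (K0.mul_mem (K0.mul_mem hc0 hm0) (K0.inv_mem hc0)) (K0.inv_mem hm0)
  have hXc : ∀ (P : MulAut F4 → Prop), P (s4 1) → P sY → ∀ θ ∈ ({s4 1, sY} : Set (MulAut F4)), P θ := by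
    intro P h1 h2 θ hθ
    rcases hθ with rfl | rfl
    · exact h1
    · exact h2
  have eSkap : s4 1 normkap = normgx⁻¹ * normkap * normgx := by
    rw [norm_S]; decide +kernel
  have eYkap : sY normkap = normgy⁻¹ * normkap * normgy := by
    rw [norm_sY]; decide +kernel
  have hSinvkap : normgx * normkap * normgx⁻¹ ∈ K0 := by
    have e : (s4 1)⁻¹ normkap = normgx * normkap * normgx⁻¹ := by
      apply norm_inv_apply
      rw [map_mul, map_mul, map_inv, eSkap, norm_S, norm_S_gx]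
      group
    rw [← e]
    exact hinv _ (Th.inv_mem hST) _ hk0
  have hgx : normgx ∈ Subgroup.normalizer (K0 : Set F4) := by
    refine norm_step Th normgx (s4 1) hST ?_ ?_ K0 hK0 ?_ ?_
    · rw [norm_S]; exact norm_S_gx
    · intro l hl
      rw [norm_S]; exact norm_S_conj l hl
    · apply norm_coc Th K0 _ hTh hinv
      apply hXc
      · rw [norm_S, norm_S_gx]; simp
      · have e : normgx⁻¹ * sY normgx = sY normkap := by
          rw [norm_sY, norm_Y_gx, norm_sY]; group
        rw [e]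
        exact hinv _ hYT _ hk0
    · have hTh2 : Th = Subgroup.closure {s4 1, sY⁻¹} := by
        apply le_antisymm
        · rw [hTh, Subgroup.closure_le]
          rintro θ (rfl | rfl)
          · exact Subgroup.subset_closure (by simp)
          · have : sY⁻¹ ∈ Subgroup.closure {s4 1, sY⁻¹} := Subgroup.subset_closure (by simp)
            simpa using Subgroup.inv_mem _ this
        · rw [Subgroup.closure_le]
          rintro θ (rfl | rfl)
          · exact hST
          · exact Th.inv_mem hYT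
      apply norm_coc' Th K0 _ hTh2 hinv
      rintro θ (rfl | rfl)
      · rw [norm_S, norm_S_gx]; simp
      · have e : sY⁻¹ normgx = normgx * normkap⁻¹ := by
          apply norm_inv_apply
          rw [map_mul, map_inv, norm_sY, norm_Y_gx, norm_sY]; group
        rw [e]
        have e2 : normgx * (normgx * normkap⁻¹)⁻¹ = normgx * normkap * normgx⁻¹ := by group
        rw [e2]
        exact hSinvkap
  have hgy : normgy ∈ Subgroup.normalizer (K0 : Set F4) := by
    refine norm_step Th normgy sY hYT ?_ ?_ K0 hK0 ?_ ?_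
    · rw [norm_sY]; exact norm_Y_gy
    · intro l hl
      rw [norm_sY]; exact norm_Y_conj l hl
    · apply norm_coc Th K0 _ hTh hinv
      apply hXc
      · have e : normgy⁻¹ * s4 1 normgy = (sY normkap)⁻¹ := by
          rw [norm_S, norm_S_gy, eYkap]; group
        rw [e]
        exact K0.inv_mem (hinv _ hYT _ hk0)
      · rw [norm_sY, norm_Y_gy]; simp
    · apply norm_coc' Th K0 _ hTh hinv
      apply hXc
      · have e : normgy * (s4 1 normgy)⁻¹ = normkap := by
          rw [norm_S, norm_S_gy]; group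
        rw [e]
        exact hk0
      · rw [norm_sY, norm_Y_gy]; simp
  have hN : Subgroup.normalizer (K0 : Set F4) = ⊤ := by
    rw [eq_top_iff, ← FreeGroup.closure_range_of, Subgroup.closure_le]
    rintro _ ⟨l, rfl⟩
    have hkN : normkap ∈ Subgroup.normalizer (K0 : Set F4) := Subgroup.le_normalizer hk0
    fin_cases l
    · have e : (FreeGroup.of 0 : F4) = normkap⁻¹ * normgx := by
        unfold normgx; group
      show FreeGroup.of 0 ∈ _
      rw [e]
      exact Subgroup.mul_mem _ (Subgroup.inv_mem _ hkN) hgx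
    · have e : (FreeGroup.of 1 : F4) = (normkap⁻¹ * normgy)⁻¹ := by
        unfold normgy; group
      show FreeGroup.of 1 ∈ _
      rw [e]
      exact Subgroup.inv_mem _ (Subgroup.mul_mem _ (Subgroup.inv_mem _ hkN) hgy)
    · exact Subgroup.le_normalizer hc0
    · exact Subgroup.le_normalizer hm0
  have hnorm : K0.Normal := Subgroup.normalizer_eq_top_iff.mp hN
  refine le_trans (Subgroup.normalClosure_le_normal ?_) hK0K
  rintro w (rfl | rfl)
  · exact hc0
  · exact hm0

/-- killing `m` -/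
def normpi : F4 →* FreeGroup (Fin 3) :=
  FreeGroup.lift ![FreeGroup.of 0, FreeGroup.of 1, FreeGroup.of 2, 1]
/-- inclusion of `x, y` in `x, y, c` -/
def normio : FreeGroup (Fin 2) →* FreeGroup (Fin 3) := FreeGroup.map (Fin.castAdd 1)
/-- inclusion of `x, y, c` in `F4` -/
def normsg : FreeGroup (Fin 3) →* F4 := FreeGroup.map (Fin.castAdd 1)
/-- `c` is multiplied by a word in `x, y` -/
def normB (r : FreeGroup (Fin 2)) : FreeGroup (Fin 3) →* FreeGroup (Fin 3) :=
  FreeGroup.lift ![FreeGroup.of 0, FreeGroup.of 1, FreeGroup.of 2 * normio r]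

theorem normpi_iff (n : F4) :
    n ∈ Subgroup.normalClosure {(FreeGroup.of 3 : F4)} ↔ normpi n = 1 := by
  constructor
  · intro hn
    have : Subgroup.normalClosure {(FreeGroup.of 3 : F4)} ≤ normpi.ker := by
      apply Subgroup.normalClosure_le_normal
      rintro w rfl
      show normpi (FreeGroup.of 3) = 1
      simp [normpi]
    exact this hn
  · intro hn
    have := norm_sec (Subgroup.normalClosure {(FreeGroup.of 3 : F4)}) (normsg.comp normpi) (by
      intro i
      fin_cases i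
      · have : (((normsg.comp normpi) (FreeGroup.of 0))⁻¹ * FreeGroup.of 0 : F4) = 1 := by
          decide +kernel
        show ((normsg.comp normpi) (FreeGroup.of 0))⁻¹ * FreeGroup.of 0 ∈ _
        rw [this]; exact Subgroup.one_mem _
      · have : (((normsg.comp normpi) (FreeGroup.of 1))⁻¹ * FreeGroup.of 1 : F4) = 1 := by
          decide +kernel
        show ((normsg.comp normpi) (FreeGroup.of 1))⁻¹ * FreeGroup.of 1 ∈ _
        rw [this]; exact Subgroup.one_mem _
      · have : (((normsg.comp normpi) (FreeGroup.of 2))⁻¹ * FreeGroup.of 2 : F4) = 1 := by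
          decide +kernel
        show ((normsg.comp normpi) (FreeGroup.of 2))⁻¹ * FreeGroup.of 2 ∈ _
        rw [this]; exact Subgroup.one_mem _
      · have : (((normsg.comp normpi) (FreeGroup.of 3))⁻¹ * FreeGroup.of 3 : F4) =
            FreeGroup.of 3 := by
          decide +kernel
        show ((normsg.comp normpi) (FreeGroup.of 3))⁻¹ * FreeGroup.of 3 ∈ _
        rw [this]; exact Subgroup.subset_normalClosure rfl) n
    simpa [hn] using this

theorem normB_io (r w : FreeGroup (Fin 2)) : normB r (normio w) = normio w := by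
  have : (normB r).comp normio = normio := by
    apply FreeGroup.ext_hom
    intro i
    fin_cases i <;> simp [normB, normio]
  exact DFunLike.congr_fun this w

theorem normB_mul (r s : FreeGroup (Fin 2)) (w : FreeGroup (Fin 3)) :
    normB (r * s) w = normB r (normB s w) := by
  have : normB (r * s) = (normB r).comp (normB s) := by
    apply FreeGroup.ext_hom
    intro i
    fin_cases i
    · simp [normB]
    · simp [normB]
    · show normB (r * s) (FreeGroup.of 2) = normB r (normB s (FreeGroup.of 2))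
      have e : ∀ r, normB r (FreeGroup.of 2) = FreeGroup.of 2 * normio r := by
        intro r; simp [normB]
      rw [e, e, map_mul, map_mul, e, normB_io, mul_assoc]
  exact DFunLike.congr_fun this w

theorem normpi_inc2 (w : FreeGroup (Fin 2)) : normpi (inc2 w) = normio w := by
  have : normpi.comp inc2 = normio := by
    apply FreeGroup.ext_hom
    intro i
    fin_cases i <;> simp [normpi, inc2, normio]
  exact DFunLike.congr_fun this w

theorem norm_hom_check (φ : F4 →* F4) (r : FreeGroup (Fin 2))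
    (h : ∀ l : Fin 4, normpi (φ (FreeGroup.of l)) = normB r (normpi (FreeGroup.of l))) (w : F4) :
    normpi (φ w) = normB r (normpi w) := by
  have : normpi.comp φ = (normB r).comp normpi := by
    apply FreeGroup.ext_hom
    exact h
  exact DFunLike.congr_fun this w

theorem norm_TT (r : FreeGroup (Fin 2)) : ∀ w : F4, normpi (TT r w) = normB r (normpi w) := by
  have b0 : ∀ w : F4, normpi (TT (FreeGroup.of 0) w) = normB (FreeGroup.of 0) (normpi w) := by
    intro w
    have e : TT (FreeGroup.of 0) = s4 2 := by simp [TT]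
    rw [e]
    exact norm_hom_check (en4 (v4 2 true)) _ (by decide +kernel) w
  have b0' : ∀ w : F4, normpi (TT (FreeGroup.of 0)⁻¹ w) = normB (FreeGroup.of 0)⁻¹ (normpi w) := by
    intro w
    have e : TT (FreeGroup.of 0)⁻¹ = (s4 2)⁻¹ := by simp [TT]
    rw [e]
    exact norm_hom_check (en4 (v4 2 false)) _ (by decide +kernel) w
  have b1 : ∀ w : F4, normpi (TT (FreeGroup.of 1) w) = normB (FreeGroup.of 1) (normpi w) := by
    intro w
    have e : TT (FreeGroup.of 1) = (s4 0)⁻¹ * (s4 2)⁻¹ * s4 0 := by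
      simp [TT, tY, mul_assoc]
    rw [e]
    exact norm_hom_check ((en4 (v4 0 false)).comp ((en4 (v4 2 false)).comp (en4 (v4 0 true)))) _
      (by decide +kernel) w
  have b1' : ∀ w : F4, normpi (TT (FreeGroup.of 1)⁻¹ w) = normB (FreeGroup.of 1)⁻¹ (normpi w) := by
    intro w
    have e : TT (FreeGroup.of 1)⁻¹ = (s4 0)⁻¹ * s4 2 * s4 0 := by
      simp [TT, tY, mul_assoc]
    rw [e]
    exact norm_hom_check ((en4 (v4 0 false)).comp ((en4 (v4 2 true)).comp (en4 (v4 0 true)))) _
      (by decide +kernel) w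
  induction r using FreeGroup.induction_on with
  | C1 =>
    intro w
    have : normB 1 = MonoidHom.id _ := by
      apply FreeGroup.ext_hom
      intro i
      fin_cases i <;> simp [normB]
    rw [map_one, this]; rfl
  | of i =>
    fin_cases i
    · exact b0
    · exact b1
  | inv_of i _ =>
    fin_cases i
    · exact b0'
    · exact b1'
  | mul a b iha ihb =>
    intro w
    rw [map_mul, MulAut.mul_apply, iha, ihb, normB_mul]

theorem TT_c (r : FreeGroup (Fin 2)) :
    ∃ n ∈ Subgroup.normalClosure {(FreeGroup.of 3 : F4)},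
      TT r (FreeGroup.of 2) = FreeGroup.of 2 * inc2 r * n := by
  refine ⟨(FreeGroup.of 2 * inc2 r)⁻¹ * TT r (FreeGroup.of 2), ?_, by group⟩
  rw [normpi_iff, map_mul, map_inv, map_mul, norm_TT, normpi_inc2]
  simp [normpi, normB]

theorem TT_m (r : FreeGroup (Fin 2)) (n : F4)
    (hn : n ∈ Subgroup.normalClosure {(FreeGroup.of 3 : F4)}) :
    TT r n ∈ Subgroup.normalClosure {(FreeGroup.of 3 : F4)} := by
  rw [normpi_iff] at hn ⊢
  rw [norm_TT, hn, map_one]

theorem TT_inc (r w : FreeGroup (Fin 2)) :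
    ∃ n ∈ Subgroup.normalClosure {(FreeGroup.of 3 : F4)}, TT r (inc2 w) = inc2 w * n := by
  refine ⟨(inc2 w)⁻¹ * TT r (inc2 w), ?_, by group⟩
  rw [normpi_iff, map_mul, map_inv, norm_TT, normpi_inc2, normB_io]
  simp

/-- the homomorphism `F4 → Q` killing `c, m` -/
def pQ {Q : Type*} [Group Q] (c d : Q) : F4 →* Q := FreeGroup.lift ![c, d, 1, 1]

theorem norm_pQ {Q : Type*} [Group Q] (c d : Q) (w : F4) :
    pQ c d w = FreeGroup.lift ![c, d] (pQ (FreeGroup.of 0 : FreeGroup (Fin 2)) (FreeGroup.of 1) w) := by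
  have : pQ c d = (FreeGroup.lift ![c, d]).comp
      (pQ (FreeGroup.of 0 : FreeGroup (Fin 2)) (FreeGroup.of 1)) := by
    apply FreeGroup.ext_hom
    intro i
    fin_cases i <;> simp [pQ]
  exact DFunLike.congr_fun this w

theorem norm_pQ_check (φ : F4 →* F4)
    (h : ∀ l : Fin 4, pQ (FreeGroup.of 0 : FreeGroup (Fin 2)) (FreeGroup.of 1) (φ (FreeGroup.of l)) =
      pQ (FreeGroup.of 0 : FreeGroup (Fin 2)) (FreeGroup.of 1) (FreeGroup.of l))
    {Q : Type*} [Group Q] (c d : Q) (w : F4) : pQ c d (φ w) = pQ c d w := by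
  have : (pQ (FreeGroup.of 0 : FreeGroup (Fin 2)) (FreeGroup.of 1)).comp φ =
      pQ (FreeGroup.of 0 : FreeGroup (Fin 2)) (FreeGroup.of 1) := by
    apply FreeGroup.ext_hom
    exact h
  rw [norm_pQ, norm_pQ c d w]
  exact congrArg _ (DFunLike.congr_fun this w)

theorem pQ_s4 {Q : Type*} [Group Q] (c d : Q) (w : F4) : pQ c d (s4 1 w) = pQ c d w :=
  norm_pQ_check (en4 (v4 1 true)) (by decide +kernel) c d w

theorem pQ_sY {Q : Type*} [Group Q] (c d : Q) (w : F4) : pQ c d (sY w) = pQ c d w :=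
  norm_pQ_check ((en4 (v4 0 false)).comp ((en4 (v4 1 true)).comp (en4 (v4 0 true))))
    (by decide +kernel) c d w

theorem norm_pQ_M {Q : Type*} [Group Q] (c d : Q) (n : F4)
    (hn : n ∈ Subgroup.normalClosure {(FreeGroup.of 3 : F4)}) : pQ c d n = 1 := by
  have : Subgroup.normalClosure {(FreeGroup.of 3 : F4)} ≤ (pQ c d).ker := by
    apply Subgroup.normalClosure_le_normal
    rintro w rfl
    show pQ c d (FreeGroup.of 3) = 1
    simp [pQ]
  exact this hn

theorem norm_pQ_inc2 {Q : Type*} [Group Q] (c d : Q) (w : FreeGroup (Fin 2)) :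
    pQ c d (inc2 w) = FreeGroup.lift ![c, d] w := by
  have : (pQ c d).comp inc2 = FreeGroup.lift ![c, d] := by
    apply FreeGroup.ext_hom
    intro i
    fin_cases i <;> simp [pQ, inc2]
  exact DFunLike.congr_fun this w

theorem pQ_TT {Q : Type*} [Group Q] (c d : Q) (r : FreeGroup (Fin 2))
    (hr : FreeGroup.lift ![c, d] r = 1) (w : F4) : pQ c d (TT r w) = pQ c d w := by
  have : (pQ c d).comp (TT r).toMonoidHom = pQ c d := by
    apply FreeGroup.ext_hom
    intro i
    show pQ c d (TT r (FreeGroup.of i)) = pQ c d (FreeGroup.of i)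
    fin_cases i
    · obtain ⟨n, hn, e⟩ := TT_inc r (FreeGroup.of 0)
      have e0 : inc2 (FreeGroup.of 0) = FreeGroup.of 0 := by simp [inc2]
      rw [e0] at e
      show pQ c d (TT r (FreeGroup.of 0)) = pQ c d (FreeGroup.of 0)
      rw [e, map_mul, norm_pQ_M c d n hn, mul_one]
    · obtain ⟨n, hn, e⟩ := TT_inc r (FreeGroup.of 1)
      have e0 : inc2 (FreeGroup.of 1) = FreeGroup.of 1 := by simp [inc2]
      rw [e0] at e
      show pQ c d (TT r (FreeGroup.of 1)) = pQ c d (FreeGroup.of 1)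
      rw [e, map_mul, norm_pQ_M c d n hn, mul_one]
    · obtain ⟨n, hn, e⟩ := TT_c r
      show pQ c d (TT r (FreeGroup.of 2)) = pQ c d (FreeGroup.of 2)
      rw [e, map_mul, norm_pQ_M c d n hn, mul_one, map_mul, norm_pQ_inc2, hr, mul_one]
    · show pQ c d (TT r (FreeGroup.of 3)) = pQ c d (FreeGroup.of 3)
      have h3 : (FreeGroup.of 3 : F4) ∈ Subgroup.normalClosure {(FreeGroup.of 3 : F4)} :=
        Subgroup.subset_normalClosure rfl
      rw [norm_pQ_M c d _ (TT_m r _ h3), norm_pQ_M c d _ h3]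
  exact DFunLike.congr_fun this w

/-- The kernel of `F4 → Q` is contained in every subgroup containing `c, m` and invariant under
the handle pushes and the foot pushes along the relators. -/
theorem ker_pQ_le {Q : Type*} [Group Q] (c d : Q) {K : ℕ} (r : Fin K → FreeGroup (Fin 2))
    (hker : (FreeGroup.lift ![c, d]).ker = Subgroup.normalClosure (Set.range r))
    (L : Subgroup F4) (hc : FreeGroup.of 2 ∈ L) (hm : FreeGroup.of 3 ∈ L)
    (hS : ∀ w ∈ L, s4 1 w ∈ L) (hS' : ∀ w ∈ L, (s4 1)⁻¹ w ∈ L)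
    (hY : ∀ w ∈ L, sY w ∈ L) (hY' : ∀ w ∈ L, sY⁻¹ w ∈ L)
    (hT : ∀ j, ∀ w ∈ L, TT (r j) w ∈ L) :
    (pQ c d).ker ≤ L := by
  have hC0 := normal_core L hc hm hS hS' hY hY'
  set C0 := Subgroup.normalClosure {(FreeGroup.of 2 : F4), FreeGroup.of 3} with hC0d
  have hcC : (FreeGroup.of 2 : F4) ∈ C0 := Subgroup.subset_normalClosure (by simp)
  have hmC : (FreeGroup.of 3 : F4) ∈ C0 := Subgroup.subset_normalClosure (by simp)
  have hMC : Subgroup.normalClosure {(FreeGroup.of 3 : F4)} ≤ C0 := by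
    apply Subgroup.normalClosure_le_normal
    rintro w rfl
    exact hmC
  have hnC : C0.Normal := Subgroup.normalClosure_normal
  have key : ∀ w0 ∈ Subgroup.normalClosure (Set.range r), inc2 w0 ∈ L := by
    have : Subgroup.normalClosure (Set.range r) ≤ L.comap inc2 := by
      unfold Subgroup.normalClosure
      rw [Subgroup.closure_le]
      intro g hg
      rw [Group.mem_conjugatesOfSet_iff] at hg
      obtain ⟨a, ⟨j, rfl⟩, hj⟩ := hg
      rw [isConj_iff] at hj
      obtain ⟨w, rfl⟩ := hj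
      show inc2 (w * r j * w⁻¹) ∈ L
      obtain ⟨n1, hn1, e1⟩ := TT_inc (r j) w
      obtain ⟨n2, hn2, e2⟩ := TT_c (r j)
      have ha : inc2 w * FreeGroup.of 2 * (inc2 w)⁻¹ ∈ L :=
        hC0 (hnC.conj_mem _ hcC _)
      have hTa := hT j _ ha
      have e3 : (inc2 w * FreeGroup.of 2 * (inc2 w)⁻¹)⁻¹ *
          TT (r j) (inc2 w * FreeGroup.of 2 * (inc2 w)⁻¹) =
          (inc2 w * ((FreeGroup.of 2)⁻¹ * n1 * (FreeGroup.of 2)) * (inc2 w)⁻¹) *
          inc2 (w * r j * w⁻¹) * (inc2 w * (n2 * n1⁻¹) * (inc2 w)⁻¹) := by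
        rw [map_mul (TT (r j)), map_mul (TT (r j)), map_inv (TT (r j)), e1, e2, map_mul inc2,
          map_mul inc2, map_inv inc2]
        group
      have h4 : inc2 w * ((FreeGroup.of 2)⁻¹ * n1 * (FreeGroup.of 2)) * (inc2 w)⁻¹ ∈ L := by
        apply hC0
        apply hnC.conj_mem
        have := hnC.conj_mem _ (hMC hn1) (FreeGroup.of 2)⁻¹
        simpa using this
      have h5 : inc2 w * (n2 * n1⁻¹) * (inc2 w)⁻¹ ∈ L := by
        apply hC0
        apply hnC.conj_mem
        exact C0.mul_mem (hMC hn2) (C0.inv_mem (hMC hn1))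
      have h6 : (inc2 w * FreeGroup.of 2 * (inc2 w)⁻¹)⁻¹ *
          TT (r j) (inc2 w * FreeGroup.of 2 * (inc2 w)⁻¹) ∈ L :=
        L.mul_mem (L.inv_mem ha) hTa
      rw [e3] at h6
      have h7 := (L.mul_mem_cancel_right h5).mp h6
      exact (L.mul_mem_cancel_left h4).mp h7
    intro w0 hw0
    exact this hw0
  intro w hw
  have hw1 : pQ c d w = 1 := hw
  rw [norm_pQ] at hw1
  have h1 : pQ (FreeGroup.of 0 : FreeGroup (Fin 2)) (FreeGroup.of 1) w ∈
      Subgroup.normalClosure (Set.range r) := by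
    rw [← hker]; exact hw1
  have h2 := key _ h1
  have h3 := norm_sec C0 (inc2.comp (pQ (FreeGroup.of 0 : FreeGroup (Fin 2)) (FreeGroup.of 1))) (by
    intro i
    fin_cases i
    · have : ((inc2.comp (pQ (FreeGroup.of 0 : FreeGroup (Fin 2)) (FreeGroup.of 1)))
          (FreeGroup.of 0))⁻¹ * FreeGroup.of 0 = 1 := by
        decide +kernel
      show ((inc2.comp (pQ (FreeGroup.of 0 : FreeGroup (Fin 2)) (FreeGroup.of 1)))
          (FreeGroup.of 0))⁻¹ * FreeGroup.of 0 ∈ _
      rw [this]; exact Subgroup.one_mem _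
    · have : ((inc2.comp (pQ (FreeGroup.of 0 : FreeGroup (Fin 2)) (FreeGroup.of 1)))
          (FreeGroup.of 1))⁻¹ * FreeGroup.of 1 = 1 := by
        decide +kernel
      show ((inc2.comp (pQ (FreeGroup.of 0 : FreeGroup (Fin 2)) (FreeGroup.of 1)))
          (FreeGroup.of 1))⁻¹ * FreeGroup.of 1 ∈ _
      rw [this]; exact Subgroup.one_mem _
    · have : ((inc2.comp (pQ (FreeGroup.of 0 : FreeGroup (Fin 2)) (FreeGroup.of 1)))
          (FreeGroup.of 2))⁻¹ * FreeGroup.of 2 = FreeGroup.of 2 := by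
        decide +kernel
      show ((inc2.comp (pQ (FreeGroup.of 0 : FreeGroup (Fin 2)) (FreeGroup.of 1)))
          (FreeGroup.of 2))⁻¹ * FreeGroup.of 2 ∈ _
      rw [this]; exact hcC
    · have : ((inc2.comp (pQ (FreeGroup.of 0 : FreeGroup (Fin 2)) (FreeGroup.of 1)))
          (FreeGroup.of 3))⁻¹ * FreeGroup.of 3 = FreeGroup.of 3 := by
        decide +kernel
      show ((inc2.comp (pQ (FreeGroup.of 0 : FreeGroup (Fin 2)) (FreeGroup.of 1)))
          (FreeGroup.of 3))⁻¹ * FreeGroup.of 3 ∈ _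
      rw [this]; exact hmC) w
  have h4 := L.mul_mem h2 (hC0 h3)
  have e : inc2 (pQ (FreeGroup.of 0 : FreeGroup (Fin 2)) (FreeGroup.of 1) w) *
      (((inc2.comp (pQ (FreeGroup.of 0 : FreeGroup (Fin 2)) (FreeGroup.of 1))) w)⁻¹ * w) = w := by
    rw [MonoidHom.comp_apply]; group
  rwa [e] at h4

end Pool.Agent.H.MP_9a81ba_al
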