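import Pool.Agent.H.MP_9a81ba_al.FP
import Pool.Agent.H.MP_9a81ba_al.Fox

/-!
A version of the 1-2-3 theorem: fibre products over a group with a finite aspherical presentation.
-/

set_option linter.unusedSectionVars false

namespace Pool.Agent.H.MP_9a81ba_al

/-- the fibre product of `p : G → Q` and of the surjection `FreeGroup X → Q` given by `q` -/
def fib {G Q X : Type*} [Group G] [Group Q] (p : G →* Q) (q : X → Q) :
    Subgroup (G × FreeGroup X) :=
  (p.comp (MonoidHom.fst G (FreeGroup X))).eqLocus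
    ((FreeGroup.lift q).comp (MonoidHom.snd G (FreeGroup X)))

theorem mem_fib {G Q X : Type*} [Group G] [Group Q] (p : G →* Q) (q : X → Q)
    (y : G × FreeGroup X) : y ∈ fib p q ↔ p y.1 = FreeGroup.lift q y.2 := Iff.rfl

open Subgroup

/-- a homomorphism to a free group with central kernel splits off its kernel -/
theorem ott_central {E X : Type*} [Group E] (f : E →* FreeGroup X)
    (hc : f.ker ≤ Subgroup.center E) {z : E} (hz : f z = 1) (hz' : z ∈ commutator E) : z = 1 := by
  classical
  have hfree : IsFreeGroup f.range := inferInstance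
  choose pre hpre using fun b : IsFreeGroup.Generators f.range =>
    f.rangeRestrict_surjective (IsFreeGroup.of b)
  let sec : f.range →* E := IsFreeGroup.lift pre
  have hsec : f.rangeRestrict.comp sec = MonoidHom.id _ := by
    apply IsFreeGroup.ext_hom
    intro b
    simp [sec, hpre]
  have hsec' : ∀ y, f (sec (f.rangeRestrict y)) = f y := by
    intro y
    have := DFunLike.congr_fun hsec (f.rangeRestrict y)
    exact congrArg Subtype.val this
  let r0 : E → E := fun y => y * (sec (f.rangeRestrict y))⁻¹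
  have hr0 : ∀ y, r0 y ∈ Subgroup.center E := by
    intro y
    apply hc
    rw [MonoidHom.mem_ker]
    simp [r0, hsec']
  let r : E →* E := MonoidHom.mk' r0 (by
    intro y y'
    have h1 := Subgroup.mem_center_iff.1 (hr0 y')
    have h2 : r0 (y * y') = y * r0 y' * (sec (f.rangeRestrict y))⁻¹ := by
      simp [r0, mul_assoc]
    rw [h2, h1, mul_assoc, ← h1])
  have hcomm : commutator E ≤ r.ker := by
    rw [commutator_def, Subgroup.commutator_le]
    intro a _ b _
    rw [MonoidHom.mem_ker, map_commutatorElement, commutatorElement_eq_one_iff_mul_comm]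
    exact (Subgroup.mem_center_iff.1 (hr0 a) (r b)).symm
  have h1 : r z = 1 := hcomm hz'
  have h2 : f.rangeRestrict z = 1 := Subtype.ext hz
  have h3 : r z = z * (sec (f.rangeRestrict z))⁻¹ := rfl
  rw [h2, map_one, inv_one, mul_one] at h3
  rw [← h3, h1]

/-- Fox derivatives of a conjugate of an element of the kernel -/
theorem ott_fox_conj {Q X : Type*} [Group Q] (q : X → Q) (w r : FreeGroup X)
    (hr : FreeGroup.lift q r = 1) (x : X) :
    fox q (w * r * w⁻¹) x = MonoidAlgebra.of ℤ Q (FreeGroup.lift q w) * fox q r x := by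
  rw [fox_mul, fox_mul, fox_inv, map_mul, hr, mul_one, mul_neg, ← mul_assoc, ← map_mul,
    mul_inv_cancel, map_one, one_mul]
  abel

section Abstract

variable {G Q X J S Γ : Type*} [Group G] [Group Q] [Group Γ] [Fintype J]

/-- the coefficient map `ℤ[Q] → M` given by a family of elements of an additive commutative
group -/
noncomputable def ott_coef {M : Type*} [AddCommGroup M] (m : Q → M) : MonoidAlgebra ℤ Q →+ M :=
  (Finsupp.liftAddHom fun a => (zmultiplesHom M) (m a)).comp
    { toFun := MonoidAlgebra.coeff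
      map_zero' := rfl
      map_add' := fun _ _ => rfl }

theorem ott_coef_of {M : Type*} [AddCommGroup M] (m : Q → M) (a : Q) :
    ott_coef m (MonoidAlgebra.of ℤ Q a) = m a := by
  show Finsupp.liftAddHom (fun a => (zmultiplesHom M) (m a)) (Finsupp.single a (1 : ℤ)) = m a
  rw [Finsupp.liftAddHom_apply_single]
  simp

/-- the injectivity part of the 1-2-3 theorem -/
theorem ott_inj (p : G →* Q) {q : X → Q} {ρ : J → FreeGroup X} (h : Asph q ρ)
    (π1 : Γ →* G) (π2 : Γ →* FreeGroup X)
    (hcomp : ∀ γ, p (π1 γ) = FreeGroup.lift q (π2 γ))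
    (nh : S → Γ) (gh : X → Γ)
    (hgen : Subgroup.closure (Set.range nh ∪ Set.range gh) = ⊤)
    (hn2 : ∀ i, π2 (nh i) = 1) (hg2 : ∀ x, π2 (gh x) = FreeGroup.of x)
    (V : J → FreeGroup S) (Z : J → Γ)
    (hZ : ∀ j, Z j = (FreeGroup.lift nh (V j))⁻¹ * FreeGroup.lift gh (ρ j))
    (hZ1 : ∀ j, π1 (Z j) = 1)
    (hNn : (Subgroup.closure (Set.range nh)).Normal)
    (hcomm : ∀ j i, Z j * nh i = nh i * Z j)
    (hker : π1.ker ≤ Subgroup.normalClosure (Set.range Z))
    {z : Γ} (hz1 : π1 z = 1) (hz2 : π2 z = 1) : z = 1 := by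
  classical
  set N := Subgroup.closure (Set.range nh) with hN
  set Zc := Subgroup.normalClosure (Set.range Z) with hZc
  set s : FreeGroup X →* Γ := FreeGroup.lift gh with hs
  -- `Zc` commutes with `N`
  have hcen : Zc ≤ Subgroup.centralizer (N : Set Γ) := by
    refine Subgroup.normalClosure_le_normal ?_
    rintro _ ⟨j, rfl⟩
    rw [hN, Subgroup.centralizer_closure]
    rw [SetLike.mem_coe, Subgroup.mem_centralizer_iff]
    rintro _ ⟨i, rfl⟩
    exact (hcomm j i).symm
  have hcomm' : ∀ y ∈ Zc, ∀ n ∈ N, n * y = y * n := fun y hy n hn =>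
    Subgroup.mem_centralizer_iff.1 (hcen hy) n hn
  -- the section
  have hπs : ∀ w, π2 (s w) = w := by
    intro w
    have : π2.comp s = MonoidHom.id _ := by
      ext x
      simp [hs, hg2]
    exact DFunLike.congr_fun this w
  have hdec : ∀ γ, γ * (s (π2 γ))⁻¹ ∈ N := by
    have h1 : (QuotientGroup.mk' N) = (QuotientGroup.mk' N).comp (s.comp π2) := by
      refine MonoidHom.eq_of_eqOn_dense hgen ?_
      rintro y (⟨i, rfl⟩ | ⟨x, rfl⟩)
      · rw [MonoidHom.comp_apply, MonoidHom.comp_apply, hn2, map_one, map_one]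
        rw [QuotientGroup.mk'_apply, QuotientGroup.eq_one_iff]
        exact Subgroup.subset_closure ⟨i, rfl⟩
      · rw [MonoidHom.comp_apply, MonoidHom.comp_apply, hg2, hs, FreeGroup.lift_apply_of]
    intro γ
    have h2 := DFunLike.congr_fun h1 γ
    rw [← (QuotientGroup.ker_mk' N), MonoidHom.mem_ker, map_mul, map_inv, h2]
    exact mul_inv_cancel _
  have hkill : ∀ y ∈ Zc, π1 y = 1 := by
    have h1 : Zc ≤ π1.ker := by
      refine Subgroup.normalClosure_le_normal ?_
      rintro _ ⟨j, rfl⟩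
      exact hZ1 j
    exact fun y hy => h1 hy
  have hkq : ∀ y ∈ Zc, FreeGroup.lift q (π2 y) = 1 := by
    intro y hy
    rw [← hcomp, hkill y hy, map_one]
  have hlρ : ∀ j, FreeGroup.lift q (ρ j) = 1 := by
    intro j
    have : ρ j ∈ (FreeGroup.lift q).ker := by
      rw [h.ker]
      exact Subgroup.subset_normalClosure ⟨j, rfl⟩
    exact this
  have hVn : ∀ v : FreeGroup S, FreeGroup.lift nh v ∈ N := by
    intro v
    have : (FreeGroup.lift nh).range = N := by rw [FreeGroup.range_lift_eq_closure]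
    rw [← this]
    exact ⟨v, rfl⟩
  have hπN : ∀ n ∈ N, π2 n = 1 := by
    intro n hn
    have h1 : N ≤ π2.ker := by
      rw [hN, Subgroup.closure_le]
      rintro _ ⟨i, rfl⟩
      exact hn2 i
    exact h1 hn
  have hπZ : ∀ j, π2 (Z j) = ρ j := by
    intro j
    rw [hZ, map_mul, map_inv, hπN _ (hVn _), inv_one, one_mul]
    exact hπs _
  have hZmem : ∀ j, Z j ∈ Zc := fun j => Subgroup.subset_normalClosure ⟨j, rfl⟩
  have hZn : Zc.Normal := Subgroup.normalClosure_normal
  have hzmem : ∀ (γ : Γ) j, γ * Z j * γ⁻¹ ∈ Zc := fun γ j => hZn.conj_mem _ (hZmem j) γ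
  -- classes
  let E := Zc
  let cl : E →* Abelianization E := Abelianization.of
  have hcl_conj : ∀ (y u : E), cl (y * u * y⁻¹) = cl u := by
    intro y u
    rw [map_mul, map_mul, map_inv, mul_comm (cl y), mul_assoc, mul_inv_cancel, mul_one]
  -- conjugation by an element of `N` and of `Zc`
  have hstep : ∀ (γ : Γ) (n y : Γ), n ∈ N → y ∈ Zc → ∀ j,
      cl ⟨(γ * (n * y)) * Z j * (γ * (n * y))⁻¹, hzmem _ j⟩ = cl ⟨γ * Z j * γ⁻¹, hzmem _ j⟩ := by
    intro γ n y hn hy j
    have hy' : γ * y * γ⁻¹ ∈ Zc := hZn.conj_mem _ hy γ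
    have e1 : n * (y * Z j * y⁻¹) = (y * Z j * y⁻¹) * n := hcomm' _ (hzmem y j) n hn
    have e2 : (γ * (n * y)) * Z j * (γ * (n * y))⁻¹ =
        (γ * y * γ⁻¹) * (γ * Z j * γ⁻¹) * (γ * y * γ⁻¹)⁻¹ := by
      have e3 : (γ * (n * y)) * Z j * (γ * (n * y))⁻¹ =
          γ * (n * (y * Z j * y⁻¹)) * n⁻¹ * γ⁻¹ := by group
      rw [e3, e1]
      group
    have e4 : (⟨(γ * (n * y)) * Z j * (γ * (n * y))⁻¹, hzmem _ j⟩ : E) =
        ⟨γ * y * γ⁻¹, hy'⟩ * ⟨γ * Z j * γ⁻¹, hzmem _ j⟩ * (⟨γ * y * γ⁻¹, hy'⟩ : E)⁻¹ :=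
      Subtype.ext e2
    rw [e4, hcl_conj]
  have hNZ : ∀ r ∈ (FreeGroup.lift q).ker, s r ∈ N ⊔ Zc := by
    have h1 : (FreeGroup.lift q).ker ≤ (N ⊔ Zc).comap s := by
      rw [h.ker]
      refine Subgroup.normalClosure_le_normal ?_
      rintro _ ⟨j, rfl⟩
      show s (ρ j) ∈ N ⊔ Zc
      have : s (ρ j) = FreeGroup.lift nh (V j) * Z j := by
        rw [hZ]
        group
      rw [this]
      exact Subgroup.mul_mem_sup (hVn _) (hZmem j)
    exact fun r hr => h1 hr
  have hclass : ∀ (γ γ' : Γ), FreeGroup.lift q (π2 γ) = FreeGroup.lift q (π2 γ') → ∀ j,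
      cl ⟨γ * Z j * γ⁻¹, hzmem _ j⟩ = cl ⟨γ' * Z j * γ'⁻¹, hzmem _ j⟩ := by
    intro γ γ' hγ j
    -- `γ = γ' * (n * y)`
    have h1 : γ'⁻¹ * γ ∈ N ⊔ Zc := by
      have h2 : s (π2 (γ'⁻¹ * γ)) ∈ N ⊔ Zc := by
        refine hNZ _ ?_
        rw [MonoidHom.mem_ker, map_mul, map_mul, map_inv, map_inv, hγ, inv_mul_cancel]
      have h3 := hdec (γ'⁻¹ * γ)
      have h4 : γ'⁻¹ * γ = (γ'⁻¹ * γ * (s (π2 (γ'⁻¹ * γ)))⁻¹) * s (π2 (γ'⁻¹ * γ)) := by group
      rw [h4]
      exact Subgroup.mul_mem _ (Subgroup.mem_sup_left h3) h2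
    obtain ⟨n, hn, y, hy, hny⟩ := Subgroup.mem_sup_of_normal_right.1 h1
    have h5 : γ = γ' * (n * y) := by rw [hny]; group
    have h6 := hstep γ' n y hn hy j
    rw [← h6]
    congr 1
    exact Subtype.ext (by rw [← h5])
  -- lifts of the elements of `Q`
  choose lf hlf using h.surj
  let m : J → Q → Additive (Abelianization E) := fun j a =>
    Additive.ofMul (cl ⟨s (lf a) * Z j * (s (lf a))⁻¹, hzmem _ j⟩)
  let Lam : (J → MonoidAlgebra ℤ Q) → Additive (Abelianization E) := fun v =>
    ∑ j, ott_coef (m j) (v j)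
  have hLam0 : Lam 0 = 0 := by simp [Lam]
  have hLamadd : ∀ v w, Lam (v + w) = Lam v + Lam w := by
    intro v w
    simp only [Lam, Pi.add_apply, map_add]
    exact Finset.sum_add_distrib
  have hLamneg : ∀ v, Lam (-v) = - Lam v := by
    intro v
    simp only [Lam, Pi.neg_apply, map_neg]
    exact Finset.sum_neg_distrib _
  have hLams : ∀ j a, Lam (Pi.single j (MonoidAlgebra.of ℤ Q a)) = m j a := by
    intro j a
    simp only [Lam]
    rw [Finset.sum_eq_single j]
    · rw [Pi.single_eq_same, ott_coef_of]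
    · intro j' _ hj'
      rw [Pi.single_eq_of_ne hj', map_zero]
    · intro hj
      exact absurd (Finset.mem_univ j) hj
  have key : ∀ y (hy : y ∈ Zc), ∃ v : J → MonoidAlgebra ℤ Q,
      Additive.ofMul (cl ⟨y, hy⟩) = Lam v ∧ ∀ x, fox q (π2 y) x = ∑ j, v j * fox q (ρ j) x := by
    intro y hy
    have hy' := hy
    rw [hZc] at hy'
    unfold Subgroup.normalClosure at hy'
    induction hy' using Subgroup.closure_induction with
    | mem y hy2 =>
      rw [Group.mem_conjugatesOfSet_iff] at hy2
      obtain ⟨_, ⟨j, rfl⟩, hconj⟩ := hy2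
      rw [isConj_iff] at hconj
      obtain ⟨γ, rfl⟩ := hconj
      refine ⟨Pi.single j (MonoidAlgebra.of ℤ Q (FreeGroup.lift q (π2 γ))), ?_, ?_⟩
      · rw [hLams]
        show _ = Additive.ofMul _
        congr 1
        refine hclass γ _ ?_ j
        rw [hπs, hlf]
      · intro x
        rw [map_mul, map_mul, map_inv, hπZ, ott_fox_conj q _ _ (hlρ j),
          Finset.sum_eq_single j]
        · rw [Pi.single_eq_same]
        · intro j' _ hj'
          rw [Pi.single_eq_of_ne hj', zero_mul]
        · intro hj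
          exact absurd (Finset.mem_univ j) hj
    | one =>
      refine ⟨0, ?_, ?_⟩
      · rw [hLam0]
        have : (⟨1, hy⟩ : E) = 1 := rfl
        rw [this, map_one]
        rfl
      · intro x
        rw [map_one, fox_one]
        simp
    | mul y y' hy1 hy2 ih1 ih2 =>
      have m1 : y ∈ Zc := hy1
      have m2 : y' ∈ Zc := hy2
      obtain ⟨v, hv, hv'⟩ := ih1 m1
      obtain ⟨v', hw, hw'⟩ := ih2 m2
      refine ⟨v + v', ?_, ?_⟩
      · rw [hLamadd, ← hv, ← hw]
        have : (⟨y * y', hy⟩ : E) = ⟨y, m1⟩ * ⟨y', m2⟩ := rfl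
        rw [this, map_mul]
        rfl
      · intro x
        rw [map_mul, fox_mul, hkq y m1, map_one, one_mul, hv', hw', ← Finset.sum_add_distrib]
        refine Finset.sum_congr rfl fun j _ => ?_
        rw [Pi.add_apply, add_mul]
    | inv y hy1 ih1 =>
      have m1 : y ∈ Zc := hy1
      obtain ⟨v, hv, hv'⟩ := ih1 m1
      refine ⟨-v, ?_, ?_⟩
      · rw [hLamneg, ← hv]
        have : (⟨y⁻¹, hy⟩ : E) = (⟨y, m1⟩ : E)⁻¹ := rfl
        rw [this, map_inv]
        rfl
      · intro x
        rw [map_inv, fox_inv, hkq y m1, inv_one, map_one, one_mul, hv', ← Finset.sum_neg_distrib]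
        refine Finset.sum_congr rfl fun j _ => ?_
        rw [Pi.neg_apply, neg_mul]
  have hzZ : z ∈ Zc := hker hz1
  obtain ⟨v, hv, hv'⟩ := key z hzZ
  have hv0 : v = 0 := by
    refine h.inj v fun x => ?_
    rw [← hv' x, hz2, fox_one]
    rfl
  have hclz : cl ⟨z, hzZ⟩ = 1 := by
    rw [hv0, hLam0] at hv
    exact hv
  have hcom : (⟨z, hzZ⟩ : E) ∈ commutator E := by
    rw [← Abelianization.ker_of]
    exact hclz
  have hfin := ott_central (π2.comp E.subtype) (z := (⟨z, hzZ⟩ : E)) ?_ hz2 hcom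
  · exact congrArg Subtype.val hfin
  · intro u hu
    have hu' : π2 (u : Γ) = 1 := hu
    have huN : (u : Γ) ∈ N := by
      have := hdec (u : Γ)
      rwa [hu', map_one, inv_one, mul_one] at this
    rw [Subgroup.mem_center_iff]
    intro y
    exact Subtype.ext (hcomm' (y : Γ) y.2 (u : Γ) huN).symm

end Abstract

/-- `1-2-3`: if `G` is finitely presented, `ker p` is finitely generated and `Q` has the finite
aspherical presentation `(q | ρ)`, then the fibre product is finitely presented. -/
theorem fp_fib {G Q X J : Type*} [Group G] [Group Q] [Finite X] [Fintype J]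
    [Group.IsFinitelyPresented G] (p : G →* Q) (hp : Function.Surjective p)
    {q : X → Q} {ρ : J → FreeGroup X} (h : Asph q ρ) (hN : p.ker.FG) :
    Group.IsFinitelyPresented (fib p q) := by
  classical
  obtain ⟨S0, hS0⟩ := hN
  let S : Type _ := {x : G // x ∈ S0}
  let n : S → G := Subtype.val
  have hn : Subgroup.closure (Set.range n) = p.ker := by
    rw [← hS0]
    congr 1
    exact Subtype.range_coe
  choose g hg using fun x : X => hp (q x)
  let A : Type _ := S ⊕ X
  let φ : FreeGroup A →* G := FreeGroup.lift (Sum.elim n g)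
  let ψ : FreeGroup A →* FreeGroup X := FreeGroup.lift (Sum.elim (fun _ => 1) FreeGroup.of)
  let il : FreeGroup S →* FreeGroup A := FreeGroup.map Sum.inl
  let ir : FreeGroup X →* FreeGroup A := FreeGroup.map Sum.inr
  have hφl : ∀ v, φ (il v) = FreeGroup.lift n v := by
    intro v
    have : φ.comp il = FreeGroup.lift n := by
      ext i
      simp [φ, il]
    exact DFunLike.congr_fun this v
  have hφr : ∀ w, φ (ir w) = FreeGroup.lift g w := by
    intro v
    have : φ.comp ir = FreeGroup.lift g := by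
      ext i
      simp [φ, ir]
    exact DFunLike.congr_fun this v
  have hψl : ∀ v, ψ (il v) = 1 := by
    intro v
    have : ψ.comp il = 1 := by
      ext i
      simp [ψ, il]
    exact DFunLike.congr_fun this v
  have hψr : ∀ w, ψ (ir w) = w := by
    intro v
    have : ψ.comp ir = MonoidHom.id _ := by
      ext i
      simp [ψ, ir]
    exact DFunLike.congr_fun this v
  have hnker : ∀ i, p (n i) = 1 := by
    intro i
    have : n i ∈ p.ker := by
      rw [← hn]
      exact Subgroup.subset_closure ⟨i, rfl⟩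
    exact this
  have hcomp0 : ∀ w, p (φ w) = FreeGroup.lift q (ψ w) := by
    intro w
    have : p.comp φ = (FreeGroup.lift q).comp ψ := by
      ext (i | x)
      · simp [φ, ψ, hnker]
      · simp [φ, ψ, hg]
    exact DFunLike.congr_fun this w
  have hker_lift : ∀ y, p y = 1 → ∃ v : FreeGroup S, FreeGroup.lift n v = y := by
    intro y hy
    have h1 : y ∈ Subgroup.closure (Set.range n) := by
      rw [hn]
      exact hy
    rw [← FreeGroup.range_lift_eq_closure] at h1
    exact h1
  let Φ : FreeGroup A →* fib p q := (φ.prod ψ).codRestrict (fib p q) (fun w => by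
    rw [mem_fib]
    exact hcomp0 w)
  have hΦ1 : ∀ w, ((Φ w : G × FreeGroup X)) = (φ w, ψ w) := fun w => rfl
  have hΦs : Function.Surjective Φ := by
    rintro ⟨⟨y, w⟩, hyw⟩
    rw [mem_fib] at hyw
    have h1 : p (y * (FreeGroup.lift g w)⁻¹) = 1 := by
      have h2 := hcomp0 (ir w)
      rw [hφr, hψr] at h2
      rw [map_mul, map_inv, h2]
      change p y = _ at hyw
      rw [hyw]
      exact mul_inv_cancel _
    obtain ⟨v, hv⟩ := hker_lift _ h1
    refine ⟨il v * ir w, Subtype.ext ?_⟩
    rw [hΦ1, map_mul, map_mul, hφl, hφr, hψl, hψr, hv, one_mul, inv_mul_cancel_right]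
  have hΦk : ∀ w, w ∈ Φ.ker ↔ φ w = 1 ∧ ψ w = 1 := by
    intro w
    rw [MonoidHom.mem_ker]
    constructor
    · intro h1
      have h2 := congrArg Subtype.val h1
      rw [hΦ1] at h2
      exact ⟨congrArg Prod.fst h2, congrArg Prod.snd h2⟩
    · rintro ⟨h1, h2⟩
      apply Subtype.ext
      rw [hΦ1, h1, h2]
      rfl
  have hφs : Function.Surjective φ := by
    intro y
    obtain ⟨w, hw⟩ := h.surj (p y)
    obtain ⟨u, hu⟩ := hΦs ⟨(y, w), by rw [mem_fib]; exact hw.symm⟩
    refine ⟨u, ?_⟩
    have h2 := congrArg Subtype.val hu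
    rw [hΦ1] at h2
    exact congrArg Prod.fst h2
  have hψs : Function.Surjective ψ := fun w => ⟨ir w, hψr w⟩
  -- the words
  have hlρ : ∀ j, FreeGroup.lift q (ρ j) = 1 := by
    intro j
    have : ρ j ∈ (FreeGroup.lift q).ker := by
      rw [h.ker]
      exact Subgroup.subset_normalClosure ⟨j, rfl⟩
    exact this
  have hV : ∀ j, ∃ v : FreeGroup S, FreeGroup.lift n v = FreeGroup.lift g (ρ j) := by
    intro j
    refine hker_lift _ ?_
    have h2 := hcomp0 (ir (ρ j))
    rw [hφr, hψr, hlρ] at h2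
    exact h2
  choose V hV using hV
  let Zt : J → FreeGroup A := fun j => (il (V j))⁻¹ * ir (ρ j)
  have hZφ : ∀ j, φ (Zt j) = 1 := by
    intro j
    simp only [Zt]
    rw [map_mul, map_inv, hφl, hφr, hV, inv_mul_cancel]
  have hZψ : ∀ j, ψ (Zt j) = ρ j := by
    intro j
    simp only [Zt]
    rw [map_mul, map_inv, hψl, hψr, inv_one, one_mul]
  have hU : ∀ x i, ∃ v : FreeGroup S, FreeGroup.lift n v = g x * n i * (g x)⁻¹ := by
    intro x i
    refine hker_lift _ ?_
    rw [map_mul, map_mul, map_inv, hnker, mul_one, mul_inv_cancel]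
  have hU' : ∀ x i, ∃ v : FreeGroup S, FreeGroup.lift n v = (g x)⁻¹ * n i * g x := by
    intro x i
    refine hker_lift _ ?_
    rw [map_mul, map_mul, map_inv, hnker, mul_one, inv_mul_cancel]
  choose U hU using hU
  choose U' hU' using hU'
  obtain ⟨W, hWfin, hW⟩ := ker_fng φ hφs
  have hY : ∀ w, w ∈ W → ∃ y ∈ Subgroup.normalClosure (Set.range Zt), ψ y = ψ w := by
    intro w hw
    have h1 : φ w = 1 := by
      have : w ∈ φ.ker := by
        rw [← hW]
        exact Subgroup.subset_normalClosure hw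
      exact this
    have h2 : ψ w ∈ (FreeGroup.lift q).ker := by
      rw [MonoidHom.mem_ker, ← hcomp0, h1, map_one]
    rw [h.ker] at h2
    have h3 : ψ '' (Set.range Zt) = Set.range ρ := by
      rw [← Set.range_comp]
      congr 1
      funext j
      exact hZψ j
    rw [← h3, ← Subgroup.map_normalClosure _ _ hψs] at h2
    exact h2
  choose! Y hYm hYe using hY
  let nA : S → FreeGroup A := fun i => FreeGroup.of (Sum.inl i)
  let gA : X → FreeGroup A := fun x => FreeGroup.of (Sum.inr x)
  have hφn : ∀ i, φ (nA i) = n i := fun i => by simp [φ, nA]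
  have hφg : ∀ i, φ (gA i) = g i := fun i => by simp [φ, gA]
  have hψn : ∀ i, ψ (nA i) = 1 := fun i => by simp [ψ, nA]
  have hψg : ∀ i, ψ (gA i) = FreeGroup.of i := fun i => by simp [ψ, gA]
  let R1 : Set (FreeGroup A) := Set.range fun t : X × S =>
    gA t.1 * nA t.2 * (gA t.1)⁻¹ * (il (U t.1 t.2))⁻¹
  let R1' : Set (FreeGroup A) := Set.range fun t : X × S =>
    (gA t.1)⁻¹ * nA t.2 * gA t.1 * (il (U' t.1 t.2))⁻¹
  let R2 : Set (FreeGroup A) := Set.range fun t : J × S => Zt t.1 * nA t.2 * (Zt t.1)⁻¹ * (nA t.2)⁻¹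
  let R3 : Set (FreeGroup A) := (fun w => w * (Y w)⁻¹) '' W
  let R : Set (FreeGroup A) := R1 ∪ R1' ∪ R2 ∪ R3
  have hRfin : R.Finite :=
    (((Set.finite_range _).union (Set.finite_range _)).union (Set.finite_range _)).union
      (hWfin.image _)
  have hRk : ∀ r ∈ R, φ r = 1 ∧ ψ r = 1 := by
    rintro r (((⟨⟨x, i⟩, rfl⟩ | ⟨⟨x, i⟩, rfl⟩) | ⟨⟨j, i⟩, rfl⟩) | ⟨w, hw, rfl⟩)
    · constructor
      · simp only [map_mul, map_inv, hφn, hφg, hφl, hU]
        group
      · simp only [map_mul, map_inv, hψn, hψg, hψl]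
        group
    · constructor
      · simp only [map_mul, map_inv, hφn, hφg, hφl, hU']
        group
      · simp only [map_mul, map_inv, hψn, hψg, hψl]
        group
    · constructor
      · simp only [map_mul, map_inv, hφn, hZφ]
        group
      · simp only [map_mul, map_inv, hψn, hZψ]
        group
    · have h1 : φ w = 1 := by
        have : w ∈ φ.ker := by
          rw [← hW]
          exact Subgroup.subset_normalClosure hw
        exact this
      have h2 : φ (Y w) = 1 := by
        have h3 : Subgroup.normalClosure (Set.range Zt) ≤ φ.ker := by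
          refine Subgroup.normalClosure_le_normal ?_
          rintro _ ⟨j, rfl⟩
          exact hZφ j
        exact h3 (hYm w hw)
      constructor
      · rw [map_mul, map_inv, h1, h2, inv_one, one_mul]
      · rw [map_mul, map_inv, hYe w hw, mul_inv_cancel]
  let K := Subgroup.normalClosure R
  have hKφ : K ≤ φ.ker := Subgroup.normalClosure_le_normal fun r hr => (hRk r hr).1
  have hKψ : K ≤ ψ.ker := Subgroup.normalClosure_le_normal fun r hr => (hRk r hr).2
  let Γ := FreeGroup A ⧸ K
  let mk : FreeGroup A →* Γ := QuotientGroup.mk' K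
  have hmks : Function.Surjective mk := QuotientGroup.mk'_surjective K
  have hmkR : ∀ r ∈ R, mk r = 1 := by
    intro r hr
    rw [QuotientGroup.mk'_apply, QuotientGroup.eq_one_iff]
    exact Subgroup.subset_normalClosure hr
  let π1 : Γ →* G := QuotientGroup.lift K φ hKφ
  let π2 : Γ →* FreeGroup X := QuotientGroup.lift K ψ hKψ
  have hπ1 : ∀ w, π1 (mk w) = φ w := fun w => rfl
  have hπ2 : ∀ w, π2 (mk w) = ψ w := fun w => rfl
  let nh : S → Γ := fun i => mk (nA i)
  let gh : X → Γ := fun x => mk (gA x)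
  have hmkl : ∀ v, mk (il v) = FreeGroup.lift nh v := by
    intro v
    have : mk.comp il = FreeGroup.lift nh := by
      ext i
      simp [il, nh, nA]
    exact DFunLike.congr_fun this v
  have hmkr : ∀ v, mk (ir v) = FreeGroup.lift gh v := by
    intro v
    have : mk.comp ir = FreeGroup.lift gh := by
      ext i
      simp [ir, gh, gA]
    exact DFunLike.congr_fun this v
  have hgenA : Subgroup.closure (Set.range nA ∪ Set.range gA) = ⊤ := by
    have h1 : Set.range nA ∪ Set.range gA = Set.range (FreeGroup.of : A → FreeGroup A) := by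
      ext y
      constructor
      · rintro (⟨i, rfl⟩ | ⟨i, rfl⟩)
        · exact ⟨_, rfl⟩
        · exact ⟨_, rfl⟩
      · rintro ⟨i | i, rfl⟩
        · exact Or.inl ⟨i, rfl⟩
        · exact Or.inr ⟨i, rfl⟩
    rw [h1, FreeGroup.closure_range_of]
  have hgen : Subgroup.closure (Set.range nh ∪ Set.range gh) = ⊤ := by
    have h1 : Set.range nh ∪ Set.range gh = mk '' (Set.range nA ∪ Set.range gA) := by
      rw [Set.image_union, ← Set.range_comp, ← Set.range_comp]
      rfl
    rw [h1, ← MonoidHom.map_closure, hgenA, ← MonoidHom.range_eq_map,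
      MonoidHom.range_eq_top.2 hmks]
  have hnhl : ∀ v, FreeGroup.lift nh v ∈ Subgroup.closure (Set.range nh) := by
    intro v
    rw [← FreeGroup.range_lift_eq_closure]
    exact ⟨v, rfl⟩
  have hconj1 : ∀ x i, gh x * nh i * (gh x)⁻¹ ∈ Subgroup.closure (Set.range nh) := by
    intro x i
    have h1 := hmkR _ (Or.inl (Or.inl (Or.inl ⟨(x, i), rfl⟩)))
    simp only [map_mul, map_inv, hmkl] at h1
    rw [mul_inv_eq_one] at h1
    show mk (gA x) * mk (nA i) * (mk (gA x))⁻¹ ∈ _
    rw [h1]
    exact hnhl _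
  have hconj2 : ∀ x i, (gh x)⁻¹ * nh i * gh x ∈ Subgroup.closure (Set.range nh) := by
    intro x i
    have h1 := hmkR _ (Or.inl (Or.inl (Or.inr ⟨(x, i), rfl⟩)))
    simp only [map_mul, map_inv, hmkl] at h1
    rw [mul_inv_eq_one] at h1
    show (mk (gA x))⁻¹ * mk (nA i) * mk (gA x) ∈ _
    rw [h1]
    exact hnhl _
  have hNn : (Subgroup.closure (Set.range nh)).Normal := by
    rw [← Subgroup.normalizer_eq_top_iff, eq_top_iff, ← hgen, Subgroup.closure_le]
    have haux : ∀ (c : Γ), (∀ i, c * nh i * c⁻¹ ∈ Subgroup.closure (Set.range nh)) →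
        ∀ y ∈ Subgroup.closure (Set.range nh), c * y * c⁻¹ ∈ Subgroup.closure (Set.range nh) := by
      intro c hc y hy
      have h1 : Subgroup.closure (Set.range nh) ≤
          (Subgroup.closure (Set.range nh)).comap (MulAut.conj c).toMonoidHom := by
        rw [Subgroup.closure_le]
        rintro _ ⟨i, rfl⟩
        exact hc i
      exact h1 hy
    rintro y (⟨i, rfl⟩ | ⟨x, rfl⟩)
    · exact Subgroup.le_normalizer (Subgroup.subset_closure ⟨i, rfl⟩)
    · rw [SetLike.mem_coe, Subgroup.mem_normalizer_iff]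
      intro y
      constructor
      · exact haux _ (hconj1 x) y
      · intro hy
        have h2 := haux (gh x)⁻¹ (fun i => by rw [inv_inv]; exact hconj2 x i) _ hy
        have h3 : (gh x)⁻¹ * (gh x * y * (gh x)⁻¹) * (gh x)⁻¹⁻¹ = y := by group
        rwa [h3] at h2
  have hmain : ∀ z : Γ, π1 z = 1 → π2 z = 1 → z = 1 := fun z => ott_inj (S := S) p h π1 π2 (by
      intro γ
      obtain ⟨w, rfl⟩ := hmks γ
      rw [hπ1, hπ2, hcomp0]) nh gh hgen
    (fun i => by show π2 (mk (nA i)) = 1; rw [hπ2, hψn])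
    (fun x => by show π2 (mk (gA x)) = _; rw [hπ2, hψg])
    V (fun j => mk (Zt j))
    (fun j => by
      simp only [Zt]
      rw [map_mul, map_inv, hmkl, hmkr])
    (fun j => by rw [hπ1, hZφ]) hNn
    (fun j i => by
      have h1 := hmkR _ (Or.inl (Or.inr ⟨(j, i), rfl⟩))
      simp only [map_mul, map_inv] at h1
      rw [mul_inv_eq_one, mul_inv_eq_iff_eq_mul] at h1
      exact h1)
    (by
      intro γ hγ
      obtain ⟨w, rfl⟩ := hmks γ
      rw [MonoidHom.mem_ker, hπ1] at hγ
      have h1 : w ∈ Subgroup.normalClosure W := by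
        rw [hW]
        exact hγ
      have hnorm : (Subgroup.normalClosure (Set.range fun j => mk (Zt j))).Normal :=
        Subgroup.normalClosure_normal
      have h2 : Subgroup.normalClosure W ≤
          (Subgroup.normalClosure (Set.range fun j => mk (Zt j))).comap mk := by
        refine Subgroup.normalClosure_le_normal ?_
        intro w hw
        change mk w ∈ Subgroup.normalClosure (Set.range fun j => mk (Zt j))
        have h3 := hmkR _ (Or.inr ⟨w, hw, rfl⟩)
        simp only [map_mul, map_inv] at h3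
        rw [mul_inv_eq_one] at h3
        rw [h3]
        have h4 : (Set.range fun j => mk (Zt j)) = mk '' (Set.range Zt) := by
          rw [← Set.range_comp]
          rfl
        rw [h4, ← Subgroup.map_normalClosure _ _ hmks]
        exact Subgroup.mem_map_of_mem mk (hYm w hw)
      exact h2 h1)
  have hfinA : Finite A := inferInstanceAs (Finite (S ⊕ X))
  refine Group.IsFinitelyPresented.of_surjective Φ hΦs ⟨R, hRfin, ?_⟩
  apply le_antisymm
  · intro w hw
    rw [hΦk]
    exact ⟨hKφ hw, hKψ hw⟩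
  · intro w hw
    rw [hΦk] at hw
    have h1 := hmain (mk w) (by rw [hπ1, hw.1]) (by rw [hπ2, hw.2])
    rwa [QuotientGroup.mk'_apply, QuotientGroup.eq_one_iff] at h1

end Pool.Agent.H.MP_9a81ba_al
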