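import Pool.Agent.H.MP_9a81ba_al.Base

/-!
Pinch analysis.
-/

namespace Pool.Agent.H.MP_9a81ba_al

variable (M : AM)

/-- the subgroup of the base group without rule letters -/
def noU : Subgroup (F0 M) :=
  Subgroup.closure (FreeGroup.of '' {g : Gen M | ∀ i, g ≠ .inl (.u i)})

theorem pinch_gx_mem : gx M ∈ noU M :=
  Subgroup.subset_closure ⟨.inl .x, fun i h => by injection h with h; injection h, rfl⟩

theorem pinch_gy_mem : gy M ∈ noU M :=
  Subgroup.subset_closure ⟨.inl .y, fun i h => by injection h with h; injection h, rfl⟩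

theorem pinch_gt_mem (s : M.S) : gt M s ∈ noU M :=
  Subgroup.subset_closure ⟨.inl (.t s), fun i h => by injection h with h; injection h, rfl⟩

theorem tc_mem_noU (c : M.Cfg) : tc M c ∈ noU M := by
  have h : kc M c ∈ noU M :=
    mul_mem (zpow_mem (pinch_gy_mem M) _) (zpow_mem (pinch_gx_mem M) _)
  exact mul_mem (mul_mem (inv_mem h) (pinch_gt_mem M _)) h

/-- killing all letters except the rule letters -/
def pinchN : F0 M →* FreeGroup M.I :=
  FreeGroup.lift (fun g : Gen M => match g with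
    | .inl (.u i) => FreeGroup.of i
    | _ => 1)

theorem pinchN_gu (i : M.I) : pinchN M (gu M i) = FreeGroup.of i := by
  simp [pinchN, gu]

theorem pinchN_noU (w : F0 M) (hw : w ∈ noU M) : pinchN M w = 1 := by
  have : noU M ≤ (pinchN M).ker := by
    rw [noU, Subgroup.closure_le]
    rintro _ ⟨g, hg, rfl⟩
    rw [SetLike.mem_coe, MonoidHom.mem_ker, pinchN, FreeGroup.lift_apply_of]
    rcases g with (_ | _ | s | i) | b
    · rfl
    · rfl
    · rfl
    · exact absurd rfl (hg i)
    · rfl
  exact this hw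

open Classical in
/-- the permutation action -/
noncomputable def pinchA (H : Subgroup (F0 M)) (i : M.I) :
    F0 M →* Equiv.Perm (Option (F0 M ⧸ H)) :=
  FreeGroup.lift (fun g : Gen M => match g with
    | .inl (.u j) => if j = i then Equiv.swap none (some ((1 : F0 M) : F0 M ⧸ H)) else 1
    | g => Equiv.optionCongr (MulAction.toPerm (FreeGroup.of g)))

theorem pinchA_noU (H : Subgroup (F0 M)) (i : M.I) (w : F0 M) (hw : w ∈ noU M) :
    pinchA M H i w none = none ∧ ∀ c : F0 M ⧸ H, pinchA M H i w (some c) = some (w • c) := by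
  induction hw using Subgroup.closure_induction with
  | mem w hw =>
    obtain ⟨g, hg, rfl⟩ := hw
    rw [pinchA, FreeGroup.lift_apply_of]
    rcases g with (_ | _ | s | j) | b
    · exact ⟨rfl, fun c => rfl⟩
    · exact ⟨rfl, fun c => rfl⟩
    · exact ⟨rfl, fun c => rfl⟩
    · exact absurd rfl (hg j)
    · exact ⟨rfl, fun c => rfl⟩
  | one => simp
  | mul v w _ _ hv hw =>
    rw [map_mul]
    refine ⟨?_, fun c => ?_⟩
    · rw [Equiv.Perm.mul_apply, hw.1, hv.1]
    · rw [Equiv.Perm.mul_apply, hw.2, hv.2, mul_smul]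
  | inv w _ hw =>
    rw [map_inv]
    refine ⟨?_, fun c => ?_⟩
    · rw [Equiv.Perm.inv_eq_iff_eq, hw.1]
    · rw [Equiv.Perm.inv_eq_iff_eq, hw.2, smul_inv_smul]

open Classical in
theorem pinchA_gu_self (H : Subgroup (F0 M)) (i : M.I) :
    pinchA M H i (gu M i) = Equiv.swap none (some ((1 : F0 M) : F0 M ⧸ H)) := by
  simp [pinchA, gu]

theorem pinchA_gu_ne (H : Subgroup (F0 M)) (i j : M.I) (h : j ≠ i) :
    pinchA M H i (gu M j) = 1 := by
  simp [pinchA, gu, h]

open Classical in
/-- generic pinch lemma: `e i` a family of three elements of `noU` for every rule `i` -/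
theorem pinch (e : M.I → Fin 3 → F0 M) (he : ∀ i l, e i l ∈ noU M) (i j : M.I) (g : F0 M)
    (hg : g ∈ noU M)
    (h : gu M i * g * (gu M j)⁻¹ ∈ (FreeGroup.lift fun y : M.I × Fin 3 =>
      gu M y.1 * e y.1 y.2 * (gu M y.1)⁻¹).range) :
    i = j ∧ g ∈ Subgroup.closure (Set.range (e i)) := by
  have hij : i = j := by
    have h1 : (FreeGroup.lift fun y : M.I × Fin 3 =>
        gu M y.1 * e y.1 y.2 * (gu M y.1)⁻¹).range ≤ (pinchN M).ker := by
      apply FreeGroup.range_lift_le
      rintro _ ⟨y, rfl⟩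
      simp [MonoidHom.mem_ker, pinchN_noU M _ (he y.1 y.2)]
    have h2 := h1 h
    rw [MonoidHom.mem_ker, map_mul, map_mul, pinchN_noU M g hg, map_inv, pinchN_gu, pinchN_gu,
      mul_one, mul_inv_eq_one] at h2
    exact FreeGroup.of_injective h2
  refine ⟨hij, ?_⟩
  subst hij
  set H := Subgroup.closure (Set.range (e i)) with hH
  have h1 : (FreeGroup.lift fun y : M.I × Fin 3 =>
      gu M y.1 * e y.1 y.2 * (gu M y.1)⁻¹).range ≤
      (MulAction.stabilizer (Equiv.Perm (Option (F0 M ⧸ H)))
        (none : Option (F0 M ⧸ H))).comap (pinchA M H i) := by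
    apply FreeGroup.range_lift_le
    rintro _ ⟨⟨l, k⟩, rfl⟩
    rw [SetLike.mem_coe, Subgroup.mem_comap, MulAction.mem_stabilizer_iff, Equiv.Perm.smul_def]
    simp only [map_mul, map_inv, Equiv.Perm.mul_apply]
    by_cases hl : l = i
    · subst hl
      rw [pinchA_gu_self, Equiv.swap_inv, Equiv.swap_apply_left,
        (pinchA_noU M H l _ (he l k)).2]
      have : e l k • ((1 : F0 M) : F0 M ⧸ H) = ((1 : F0 M) : F0 M ⧸ H) := by
        rw [MulAction.Quotient.smul_coe, smul_eq_mul, mul_one, eq_comm, QuotientGroup.eq]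
        simpa using Subgroup.subset_closure (Set.mem_range_self k)
      rw [this, Equiv.swap_apply_right]
    · rw [pinchA_gu_ne M H i l hl, inv_one, Equiv.Perm.one_apply, Equiv.Perm.one_apply,
        (pinchA_noU M H i _ (he l k)).1]
  have h2 := h1 h
  rw [Subgroup.mem_comap, MulAction.mem_stabilizer_iff, Equiv.Perm.smul_def] at h2
  simp only [map_mul, map_inv, Equiv.Perm.mul_apply] at h2
  rw [pinchA_gu_self, Equiv.swap_inv, Equiv.swap_apply_left, (pinchA_noU M H i _ hg).2,
    ← Equiv.swap_inv, Equiv.Perm.inv_eq_iff_eq, Equiv.swap_apply_left] at h2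
  have h3 := Option.some_injective _ h2
  rw [MulAction.Quotient.smul_coe, smul_eq_mul, mul_one, eq_comm, QuotientGroup.eq] at h3
  simpa using h3

theorem e0_mem (i : M.I) (l : Fin 3) : e0 M i l ∈ noU M := by
  have hx := pinch_gx_mem M
  have hy := pinch_gy_mem M
  fin_cases l
  · exact zpow_mem hx _
  · exact mul_mem (mul_mem (inv_mem (zpow_mem hx _)) (zpow_mem hy _)) (zpow_mem hx _)
  · exact tc_mem_noU M _

theorem e1_mem (i : M.I) (l : Fin 3) : e1 M i l ∈ noU M := by
  have hx := pinch_gx_mem M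
  have hy := pinch_gy_mem M
  fin_cases l
  · exact zpow_mem hx _
  · exact mul_mem (mul_mem (inv_mem (zpow_mem hx _)) (zpow_mem hy _)) (zpow_mem hx _)
  · exact tc_mem_noU M _

end Pool.Agent.H.MP_9a81ba_al
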