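import Pool.Agent.H.MP_9a81ba_al.Norm
import Pool.Agent.H.MP_9a81ba_al.FP

/-!
The group `(F4 × ℤ) ⋊ F(s)` and its homomorphism onto the two-generator group.
-/

namespace Pool.Agent.H.MP_9a81ba_al

/-- the action of the letters `J, S, T` on `F4 × ℤ` -/
def hk (k : Fin 3) : MulAut (F4 × Multiplicative ℤ) where
  toFun y := (s4 k y.1, e4h k y.1 * y.2)
  invFun y := ((s4 k)⁻¹ y.1, (e4h k ((s4 k)⁻¹ y.1))⁻¹ * y.2)
  left_inv := by
    rintro ⟨w, n⟩
    simp
  right_inv := by
    rintro ⟨w, n⟩
    simp
  map_mul' := by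
    rintro ⟨w, n⟩ ⟨w', n'⟩
    ext
    · simp
    · simp only [Prod.mk_mul_mk, map_mul]
      rw [mul_mul_mul_comm]

/-- the action of the free group on the letters `J, S, T` -/
def hat : FreeGroup (Fin 3) →* MulAut (F4 × Multiplicative ℤ) := FreeGroup.lift hk

/-- the words in `J, S, T` of the acting letters: two handle pushes and the foot pushes along the
relators -/
def sw {K : ℕ} (r : Fin K → FreeGroup (Fin 2)) : Fin 2 ⊕ Fin K → FreeGroup (Fin 3)
  | .inl i => (![FreeGroup.of 1, (FreeGroup.of 0)⁻¹ * FreeGroup.of 1 * FreeGroup.of 0] :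
      Fin 2 → FreeGroup (Fin 3)) i
  | .inr j => FreeGroup.lift (![FreeGroup.of 2, ((FreeGroup.of 0)⁻¹ * FreeGroup.of 2 *
      FreeGroup.of 0)⁻¹] : Fin 2 → FreeGroup (Fin 3)) (r j)

variable {K : ℕ} (r : Fin K → FreeGroup (Fin 2))

/-- the acting homomorphism -/
def act : FreeGroup (Fin 2 ⊕ Fin K) →* MulAut (F4 × Multiplicative ℤ) :=
  hat.comp (FreeGroup.lift (sw r))

/-- the group `(F4 × ℤ) ⋊ F(s)` -/
abbrev GG : Type := (F4 × Multiplicative ℤ) ⋊[act r] FreeGroup (Fin 2 ⊕ Fin K)

theorem semig_lift_fst (v : FreeGroup (Fin 3)) (y : F4 × Multiplicative ℤ) :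
    (hat v y).1 = FreeGroup.lift s4 v y.1 := by
  induction v using FreeGroup.induction_on generalizing y with
  | C1 => simp
  | of k =>
    simp only [hat, FreeGroup.lift_apply_of]
    rfl
  | inv_of k _ =>
    simp only [hat, map_inv, FreeGroup.lift_apply_of]
    rfl
  | mul v v' h h' =>
    rw [map_mul, map_mul, MulAut.mul_apply, MulAut.mul_apply, h, h']

theorem semig_TT (v : FreeGroup (Fin 2)) :
    FreeGroup.lift s4 (FreeGroup.lift (![FreeGroup.of 2, ((FreeGroup.of 0)⁻¹ * FreeGroup.of 2 *
      FreeGroup.of 0)⁻¹] : Fin 2 → FreeGroup (Fin 3)) v) = TT v := by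
  have h : (FreeGroup.lift s4).comp (FreeGroup.lift (![FreeGroup.of 2, ((FreeGroup.of 0)⁻¹ *
      FreeGroup.of 2 * FreeGroup.of 0)⁻¹] : Fin 2 → FreeGroup (Fin 3))) = TT := by
    refine FreeGroup.ext_hom _ _ fun i => ?_
    fin_cases i
    · simp [TT]
    · simp [TT, tY]
  exact DFunLike.congr_fun h v

/-- the action on the first component -/
def semigA : FreeGroup (Fin 2 ⊕ Fin K) →* MulAut F4 :=
  (FreeGroup.lift s4).comp (FreeGroup.lift (sw r))

theorem semig_act_fst (s : FreeGroup (Fin 2 ⊕ Fin K)) (y : F4 × Multiplicative ℤ) :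
    (act r s y).1 = semigA r s y.1 := semig_lift_fst _ _

theorem semigA_0 : semigA r (FreeGroup.of (.inl 0)) = s4 1 := by
  simp [semigA, sw]

theorem semigA_1 : semigA r (FreeGroup.of (.inl 1)) = sY := by
  simp [semigA, sw, sY]

theorem semigA_j (j : Fin K) : semigA r (FreeGroup.of (.inr j)) = TT (r j) := by
  rw [← semig_TT]
  simp [semigA, sw]

theorem fp_GG : Group.IsFinitelyPresented (GG r) := by
  have : Group.IsFinitelyPresented (F4 × Multiplicative ℤ) := fp_prod
  exact fp_semidirect (act r)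

theorem semig_pQ {Q : Type*} [Group Q] (c d : Q) (hr : ∀ j, FreeGroup.lift ![c, d] (r j) = 1)
    (s : FreeGroup (Fin 2 ⊕ Fin K)) (w : F4) : pQ c d (semigA r s w) = pQ c d w := by
  induction s using FreeGroup.induction_on generalizing w with
  | C1 => simp
  | of k =>
    rcases k with k | j
    · fin_cases k
      · exact (congrArg (fun a : MulAut F4 => pQ c d (a w)) (semigA_0 r)).trans (pQ_s4 c d w)
      · exact (congrArg (fun a : MulAut F4 => pQ c d (a w)) (semigA_1 r)).trans (pQ_sY c d w)
    · exact (congrArg (fun a : MulAut F4 => pQ c d (a w)) (semigA_j r j)).trans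
        (pQ_TT c d (r j) (hr j) w)
  | inv_of k h =>
    rw [map_inv]
    have h1 := h ((semigA r (FreeGroup.of k))⁻¹ w)
    rw [← MulAut.mul_apply, mul_inv_cancel, MulAut.one_apply] at h1
    exact h1.symm
  | mul v v' h h' =>
    rw [map_mul, MulAut.mul_apply, h, h']

/-- the homomorphism onto `Q` -/
theorem exists_toQ {Q : Type*} [Group Q] (c d : Q) (hr : ∀ j, FreeGroup.lift ![c, d] (r j) = 1) :
    ∃ p : GG r →* Q, (∀ w n, p (SemidirectProduct.inl (w, n)) = pQ c d w) ∧
      ∀ s, p (SemidirectProduct.inr s) = 1 := by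
  refine ⟨SemidirectProduct.lift ((pQ c d).comp (MonoidHom.fst F4 (Multiplicative ℤ))) 1 ?_,
    ?_, ?_⟩
  · intro s
    refine MonoidHom.ext fun y => ?_
    simp only [MonoidHom.comp_apply, MonoidHom.one_apply, map_one, MulEquiv.coe_toMonoidHom,
      MulAut.one_apply]
    change pQ c d (act r s y).1 = pQ c d y.1
    rw [semig_act_fst, semig_pQ r c d hr]
  · intro w n
    simp
  · intro s
    simp

theorem ker_toQ_fg {Q : Type*} [Group Q] (c d : Q)
    (hker : (FreeGroup.lift ![c, d]).ker = Subgroup.normalClosure (Set.range r))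
    (p : GG r →* Q) (hp1 : ∀ w n, p (SemidirectProduct.inl (w, n)) = pQ c d w)
    (hp2 : ∀ s, p (SemidirectProduct.inr s) = 1) : p.ker.FG := by
  let T : Set (GG r) := {SemidirectProduct.inl (FreeGroup.of 2, 1),
    SemidirectProduct.inl (FreeGroup.of 3, 1),
    SemidirectProduct.inl (1, Multiplicative.ofAdd 1)} ∪
    Set.range fun s => SemidirectProduct.inr (FreeGroup.of s)
  rw [Subgroup.fg_iff]
  refine ⟨T, ?_, ?_⟩
  swap
  · exact ((((Set.finite_singleton _).insert _).insert _)).union (Set.finite_range _)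
  apply le_antisymm
  · rw [Subgroup.closure_le]
    rintro x (hx | ⟨s, rfl⟩)
    · simp only [Set.mem_insert_iff, Set.mem_singleton_iff] at hx
      rcases hx with rfl | rfl | rfl
      · rw [SetLike.mem_coe, MonoidHom.mem_ker, hp1]
        simp [pQ]
      · rw [SetLike.mem_coe, MonoidHom.mem_ker, hp1]
        simp [pQ]
      · rw [SetLike.mem_coe, MonoidHom.mem_ker, hp1]
        simp
    · exact hp2 _
  · -- the subgroup `H`
    have h2 : (SemidirectProduct.inl (FreeGroup.of 2, 1) : GG r) ∈ Subgroup.closure T :=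
      Subgroup.subset_closure (Or.inl (by simp))
    have h3 : (SemidirectProduct.inl (FreeGroup.of 3, 1) : GG r) ∈ Subgroup.closure T :=
      Subgroup.subset_closure (Or.inl (by simp))
    have h1 : (SemidirectProduct.inl (1, Multiplicative.ofAdd 1) : GG r) ∈
        Subgroup.closure T := Subgroup.subset_closure (Or.inl (by simp))
    have hs : ∀ s, (SemidirectProduct.inr s : GG r) ∈ Subgroup.closure T := by
      intro s
      induction s using FreeGroup.induction_on with
      | C1 => rw [map_one]; exact Subgroup.one_mem _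
      | of k => exact Subgroup.subset_closure (Or.inr ⟨k, rfl⟩)
      | inv_of k h => rw [map_inv]; exact Subgroup.inv_mem _ h
      | mul v v' h h' => rw [map_mul]; exact Subgroup.mul_mem _ h h'
    have hn : ∀ n : Multiplicative ℤ, (SemidirectProduct.inl (1, n) : GG r) ∈
        Subgroup.closure T := by
      intro n
      have h4 : (SemidirectProduct.inl (1, n) : GG r) =
          (SemidirectProduct.inl (1, Multiplicative.ofAdd 1)) ^ n.toAdd := by
        rw [← map_zpow]
        congr 1
        ext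
        · simp
        · simp
      rw [h4]
      exact Subgroup.zpow_mem _ h1 _
    have hsplit : ∀ (w : F4) (n : Multiplicative ℤ), (SemidirectProduct.inl (w, n) : GG r) =
        SemidirectProduct.inl (w, 1) * SemidirectProduct.inl (1, n) := by
      intro w n
      rw [← map_mul]
      simp
    let L : Subgroup F4 := (Subgroup.closure T).comap
      ((SemidirectProduct.inl : _ →* GG r).comp (MonoidHom.inl F4 (Multiplicative ℤ)))
    have hL : ∀ w, w ∈ L ↔ (SemidirectProduct.inl (w, 1) : GG r) ∈ Subgroup.closure T :=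
      fun w => Iff.rfl
    have hinv : ∀ s, ∀ w ∈ L, semigA r s w ∈ L := by
      intro s w hw
      rw [hL] at hw ⊢
      have h5 := SemidirectProduct.inl_aut (φ := act r) s (w, 1)
      have h6 : (SemidirectProduct.inl (act r s (w, 1)) : GG r) ∈ Subgroup.closure T := by
        rw [h5]
        exact Subgroup.mul_mem _ (Subgroup.mul_mem _ (hs _) hw) (hs _)
      have h7 : act r s (w, 1) = (semigA r s w, (act r s (w, 1)).2) :=
        Prod.ext (semig_act_fst r s (w, 1)) rfl
      rw [h7, hsplit] at h6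
      exact (Subgroup.mul_mem_cancel_right _ (hn _)).mp h6
    have hle : (pQ c d).ker ≤ L := by
      refine ker_pQ_le c d r hker L h2 h3 ?_ ?_ ?_ ?_ ?_
      · intro w hw
        have := hinv (FreeGroup.of (.inl 0)) w hw
        rwa [semigA_0] at this
      · intro w hw
        have := hinv (FreeGroup.of (.inl 0))⁻¹ w hw
        rwa [map_inv, semigA_0] at this
      · intro w hw
        have := hinv (FreeGroup.of (.inl 1)) w hw
        rwa [semigA_1] at this
      · intro w hw
        have := hinv (FreeGroup.of (.inl 1))⁻¹ w hw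
        rwa [map_inv, semigA_1] at this
      · intro j w hw
        have := hinv (FreeGroup.of (.inr j)) w hw
        rwa [semigA_j] at this
    rintro ⟨⟨w, n⟩, s⟩ hx
    rw [MonoidHom.mem_ker] at hx
    rw [← SemidirectProduct.inl_left_mul_inr_right ⟨(w, n), s⟩] at hx ⊢
    rw [map_mul, hp2, mul_one, hp1] at hx
    refine Subgroup.mul_mem _ ?_ (hs _)
    rw [hsplit]
    exact Subgroup.mul_mem _ (hle hx) (hn _)

/-- the action on `F6` of the letters `J, S, T` -/
def h6 : FreeGroup (Fin 3) →* MulAut F6 := FreeGroup.lift s6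

/-- the homomorphism of block pushes and twists -/
def semigP : F4 × Multiplicative ℤ →* MulAut F6 where
  toFun y := th y.1 * zz ^ y.2.toAdd
  map_one' := by simp
  map_mul' := by
    rintro ⟨w, n⟩ ⟨w', n'⟩
    have hc : Commute (th w') zz := th_zz w'
    have hc' := hc.zpow_right n.toAdd
    simp only [Prod.mk_mul_mk, map_mul, toAdd_mul, zpow_add]
    have h1 : th w * zz ^ n.toAdd * (th w' * zz ^ n'.toAdd) =
      th w * (zz ^ n.toAdd * th w') * zz ^ n'.toAdd := by group
    rw [h1, ← hc'.eq]
    group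

theorem semigP_apply (w : F4) (n : Multiplicative ℤ) : semigP (w, n) = th w * zz ^ n.toAdd := rfl

theorem semig_of (k : Fin 3) (y : F4 × Multiplicative ℤ) :
    s6 k * semigP y * (s6 k)⁻¹ = semigP (hk k y) := by
  obtain ⟨w, n⟩ := y
  have hc : Commute (s6 k) zz := s6_zz k
  have hc' := hc.zpow_right n.toAdd
  have h1 : hk k (w, n) = (s4 k w, e4h k w * n) := rfl
  rw [h1, semigP_apply, semigP_apply, toAdd_mul, zpow_add, ← mul_assoc (th (s4 k w)), ← s6_th]
  have h2 : s6 k * th w * (s6 k)⁻¹ * zz ^ n.toAdd =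
      s6 k * th w * ((s6 k)⁻¹ * zz ^ n.toAdd * s6 k) * (s6 k)⁻¹ := by group
  have h3 : (s6 k)⁻¹ * zz ^ n.toAdd * s6 k = zz ^ n.toAdd := by
    rw [mul_assoc, ← hc'.eq]
    group
  rw [h2, h3]
  group

theorem semig_equiv (v : FreeGroup (Fin 3)) (y : F4 × Multiplicative ℤ) :
    h6 v * semigP y * (h6 v)⁻¹ = semigP (hat v y) := by
  induction v using FreeGroup.induction_on generalizing y with
  | C1 => simp
  | of k =>
    simp only [h6, hat, FreeGroup.lift_apply_of]
    exact semig_of k y
  | inv_of k _ =>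
    simp only [h6, hat, map_inv, FreeGroup.lift_apply_of]
    have h1 := semig_of k ((hk k)⁻¹ y)
    rw [← MulAut.mul_apply, mul_inv_cancel, MulAut.one_apply] at h1
    rw [← h1]
    group
  | mul v v' h h' =>
    rw [map_mul, map_mul, MulAut.mul_apply, ← h, ← h']
    group

theorem h6_equiv (v : FreeGroup (Fin 3)) (w : F4) (n : Multiplicative ℤ) :
    h6 v * (th w * zz ^ n.toAdd) * (h6 v)⁻¹ =
      th (hat v (w, n)).1 * zz ^ (hat v (w, n)).2.toAdd := semig_equiv v (w, n)

/-- the representation on `F6` -/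
theorem exists_G6 : ∃ f : GG r →* MulAut F6,
    (∀ w n, f (SemidirectProduct.inl (w, n)) = th w * zz ^ n.toAdd) ∧
      ∀ s, f (SemidirectProduct.inr s) = h6 (FreeGroup.lift (sw r) s) := by
  refine ⟨SemidirectProduct.lift semigP (h6.comp (FreeGroup.lift (sw r))) ?_, ?_, ?_⟩
  · intro s
    refine MonoidHom.ext fun y => ?_
    simp only [MonoidHom.comp_apply, MulEquiv.coe_toMonoidHom, MulAut.conj_apply]
    exact (semig_equiv _ y).symm
  · intro w n
    rw [SemidirectProduct.lift_inl]
    rfl
  · intro s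
    rw [SemidirectProduct.lift_inr]
    rfl

end Pool.Agent.H.MP_9a81ba_al
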