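import Pool.Agent.H.MP_9a81ba_al.AutHom
import Pool.Agent.H.MP_9a81ba_al.Cup

/-!
Extension of automorphisms of `F6` and of the rest of the surface to the surface group.
-/

namespace Pool.Agent.H.MP_9a81ba_al

/-- letters of `F6` as generators of the surface group of genus `r + 4`: `u, v` is block `0`,
`c, m` is block `1` and `x, y` is block `2` -/
def let6 (r : ℕ) : Fin 6 → Fin (r + 4) × Bool :=
  ![(⟨0, by omega⟩, false), (⟨0, by omega⟩, true), (⟨2, by omega⟩, false), (⟨2, by omega⟩, true),
    (⟨1, by omega⟩, false), (⟨1, by omega⟩, true)]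

/-- `F6` in the free group -/
def emb6 (r : ℕ) : F6 →* FreeGroup (Fin (r + 4) × Bool) := FreeGroup.map (let6 r)

/-- the rest of the surface -/
abbrev FR (r : ℕ) : Type := FreeGroup (Fin (r + 1) × Bool)

/-- the rest of the surface in the free group -/
def embR (r : ℕ) : FR r →* FreeGroup (Fin (r + 4) × Bool) :=
  FreeGroup.map fun y => (⟨y.1.1 + 3, by omega⟩, y.2)

theorem surfext_beta : (beta6 : F6) = cm (FreeGroup.of 0) (FreeGroup.of 1) *
    (cm (FreeGroup.of 4) (FreeGroup.of 5) * cm (FreeGroup.of 2) (FreeGroup.of 3)) := by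
  decide +kernel

theorem surfRel_split (r : ℕ) :
    surfRel (r + 4) = emb6 r beta6 * embR r (surfRel (r + 1)) := by
  have h1 : embR r (surfRel (r + 1)) = (List.ofFn fun i : Fin (r + 1) =>
      cm (FreeGroup.of (i.succ.succ.succ, false)) (FreeGroup.of (i.succ.succ.succ, true))).prod := by
    rw [surfRel, map_list_prod, List.map_ofFn]
    congr 1
  rw [h1, surfext_beta]
  simp only [map_mul, map_cm, emb6, FreeGroup.map.of]
  rw [surfRel, List.ofFn_succ, List.ofFn_succ, List.ofFn_succ]
  simp only [List.prod_cons, mul_assoc]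
  rfl

/-- the map to the surface group -/
def toS (r : ℕ) : F6 →* Surf (r + 4) := (PresentedGroup.mk _).comp (emb6 r)
/-- the map to the surface group -/
def toR (r : ℕ) : FR r →* Surf (r + 4) := (PresentedGroup.mk _).comp (embR r)

/-- automorphisms fixing the boundary word -/
def St6 : Subgroup (MulAut F6) := MulAction.stabilizer (MulAut F6) beta6
/-- automorphisms fixing the boundary word -/
def StR (r : ℕ) : Subgroup (MulAut (FR r)) := MulAction.stabilizer (MulAut (FR r)) (surfRel (r + 1))

/-- inverse of `let6` -/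
def surfext_inv : ℕ → Bool → Fin 6
  | 0, false => 0
  | 0, true => 1
  | 1, false => 4
  | 1, true => 5
  | _, false => 2
  | _, true => 3

theorem surfext_inv_let (r : ℕ) (j : Fin 6) :
    surfext_inv (let6 r j).1.1 (let6 r j).2 = j ∧ (let6 r j).1.1 < 3 := by
  fin_cases j <;> exact ⟨rfl, by simp [let6]⟩

/-- combination of two homomorphisms -/
def surfext_comb {X : Type*} [Group X] (r : ℕ) (f : F6 →* X) (g : FR r →* X) :
    FreeGroup (Fin (r + 4) × Bool) →* X :=
  FreeGroup.lift fun p => if h : p.1.1 < 3 then f (FreeGroup.of (surfext_inv p.1.1 p.2))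
    else g (FreeGroup.of (⟨p.1.1 - 3, by have := p.1.2; omega⟩, p.2))

theorem surfext_comb6 {X : Type*} [Group X] (r : ℕ) (f : F6 →* X) (g : FR r →* X) (x : F6) :
    surfext_comb r f g (emb6 r x) = f x := by
  have h : (surfext_comb r f g).comp (emb6 r) = f := by
    ext j
    simp only [MonoidHom.comp_apply, emb6, FreeGroup.map.of, surfext_comb, FreeGroup.lift_apply_of]
    rw [dif_pos (surfext_inv_let r j).2, (surfext_inv_let r j).1]
  exact DFunLike.congr_fun h x

theorem surfext_combR {X : Type*} [Group X] (r : ℕ) (f : F6 →* X) (g : FR r →* X) (x : FR r) :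
    surfext_comb r f g (embR r x) = g x := by
  have h : (surfext_comb r f g).comp (embR r) = g := by
    ext j
    simp only [MonoidHom.comp_apply, embR, FreeGroup.map.of, surfext_comb, FreeGroup.lift_apply_of]
    rw [dif_neg (by omega)]
    rfl
  exact DFunLike.congr_fun h x

theorem surfext_ext {X : Type*} [Group X] (r : ℕ) (f g : FreeGroup (Fin (r + 4) × Bool) →* X)
    (h6 : ∀ x, f (emb6 r x) = g (emb6 r x)) (hR : ∀ x, f (embR r x) = g (embR r x)) : f = g := by
  apply FreeGroup.ext_hom
  rintro ⟨⟨i, hi⟩, b⟩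
  by_cases h : i < 3
  · have h1 := h6 (FreeGroup.of (surfext_inv i b))
    simp only [emb6, FreeGroup.map.of] at h1
    have h2 : let6 r (surfext_inv i b) = (⟨i, hi⟩, b) := by
      interval_cases i <;> cases b <;> rfl
    rwa [h2] at h1
  · have h1 := hR (FreeGroup.of (⟨i - 3, by omega⟩, b))
    simp only [embR, FreeGroup.map.of] at h1
    have h2 : (⟨i - 3 + 3, by omega⟩ : Fin (r + 4)) = ⟨i, hi⟩ := by
      apply Fin.ext
      show i - 3 + 3 = i
      omega
    rwa [h2] at h1

/-- the endomorphism of the free group -/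
def surfext_e (r : ℕ) (φ : MulAut F6) (ψ : MulAut (FR r)) :
    FreeGroup (Fin (r + 4) × Bool) →* FreeGroup (Fin (r + 4) × Bool) :=
  surfext_comb r ((emb6 r).comp φ.toMonoidHom) ((embR r).comp ψ.toMonoidHom)

theorem surfext_e6 (r : ℕ) (φ : MulAut F6) (ψ : MulAut (FR r)) (x : F6) :
    surfext_e r φ ψ (emb6 r x) = emb6 r (φ x) := surfext_comb6 _ _ _ _

theorem surfext_eR (r : ℕ) (φ : MulAut F6) (ψ : MulAut (FR r)) (x : FR r) :
    surfext_e r φ ψ (embR r x) = embR r (ψ x) := surfext_combR _ _ _ _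

theorem surfext_one (r : ℕ) (x) : surfext_e r 1 1 x = x := by
  have h : surfext_e r 1 1 = MonoidHom.id _ := by
    apply surfext_ext
    · intro x
      rw [surfext_e6]; rfl
    · intro x
      rw [surfext_eR]; rfl
  exact DFunLike.congr_fun h x

theorem surfext_mul (r : ℕ) (φ φ' : MulAut F6) (ψ ψ' : MulAut (FR r)) (x) :
    surfext_e r (φ * φ') (ψ * ψ') x = surfext_e r φ ψ (surfext_e r φ' ψ' x) := by
  have h : surfext_e r (φ * φ') (ψ * ψ') = (surfext_e r φ ψ).comp (surfext_e r φ' ψ') := by
    apply surfext_ext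
    · intro x
      rw [MonoidHom.comp_apply, surfext_e6, surfext_e6, surfext_e6]; rfl
    · intro x
      rw [MonoidHom.comp_apply, surfext_eR, surfext_eR, surfext_eR]; rfl
  exact DFunLike.congr_fun h x

theorem surfext_fix (r : ℕ) (φ : St6) (ψ : StR r) :
    surfext_e r φ ψ (surfRel (r + 4)) = surfRel (r + 4) := by
  have h1 : (φ : MulAut F6) beta6 = beta6 := φ.2
  have h2 : (ψ : MulAut (FR r)) (surfRel (r + 1)) = surfRel (r + 1) := ψ.2
  rw [surfRel_split, map_mul, surfext_e6, surfext_eR, h1, h2]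

/-- endomorphism of the surface group induced by one of the free group fixing the relator -/
def surfext_desc (n : ℕ) (f : FreeGroup (Fin n × Bool) →* FreeGroup (Fin n × Bool))
    (hf : f (surfRel n) = surfRel n) : Surf n →* Surf n :=
  PresentedGroup.toGroup (f := fun p => PresentedGroup.mk _ (f (FreeGroup.of p))) (by
    intro x hx
    rw [Set.mem_singleton_iff] at hx
    subst hx
    have h : FreeGroup.lift (fun p => PresentedGroup.mk ({surfRel n} : Set _) (f (FreeGroup.of p))) =
        (PresentedGroup.mk ({surfRel n} : Set _)).comp f := by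
      apply FreeGroup.ext_hom
      intro p
      simp
    rw [h, MonoidHom.comp_apply, hf]
    exact PresentedGroup.one_of_mem rfl)

theorem surfext_desc_mk (n : ℕ) (f : FreeGroup (Fin n × Bool) →* FreeGroup (Fin n × Bool))
    (hf : f (surfRel n) = surfRel n) (x) :
    surfext_desc n f hf (PresentedGroup.mk _ x) = PresentedGroup.mk _ (f x) := by
  have h : (surfext_desc n f hf).comp (PresentedGroup.mk _) = (PresentedGroup.mk _).comp f := by
    apply FreeGroup.ext_hom
    intro p
    simp only [MonoidHom.comp_apply]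
    exact PresentedGroup.toGroup.of _
  exact DFunLike.congr_fun h x

theorem surfext_inv_apply (r : ℕ) (φ : MulAut F6) (ψ : MulAut (FR r)) (x) :
    surfext_e r φ⁻¹ ψ⁻¹ (surfext_e r φ ψ x) = x := by
  rw [← surfext_mul, inv_mul_cancel, inv_mul_cancel, surfext_one]

theorem surfext_apply_inv (r : ℕ) (φ : MulAut F6) (ψ : MulAut (FR r)) (x) :
    surfext_e r φ ψ (surfext_e r φ⁻¹ ψ⁻¹ x) = x := by
  rw [← surfext_mul, mul_inv_cancel, mul_inv_cancel, surfext_one]

/-- the automorphism of the surface group -/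
def surfext_aut (r : ℕ) (p : St6 × StR r) : MulAut (Surf (r + 4)) where
  toFun := surfext_desc (r + 4) (surfext_e r p.1 p.2) (surfext_fix r p.1 p.2)
  invFun := surfext_desc (r + 4) (surfext_e r (p.1⁻¹ : St6) (p.2⁻¹ : StR r))
    (surfext_fix r p.1⁻¹ p.2⁻¹)
  left_inv := by
    intro y
    obtain ⟨x, rfl⟩ := PresentedGroup.mk_surjective _ y
    rw [surfext_desc_mk, surfext_desc_mk]
    congr 1
    exact surfext_inv_apply r _ _ x
  right_inv := by
    intro y
    obtain ⟨x, rfl⟩ := PresentedGroup.mk_surjective _ y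
    rw [surfext_desc_mk, surfext_desc_mk]
    congr 1
    exact surfext_apply_inv r _ _ x
  map_mul' := fun x y => map_mul _ x y

theorem surfext_aut_mk (r : ℕ) (p : St6 × StR r) (x) :
    surfext_aut r p (PresentedGroup.mk _ x) = PresentedGroup.mk _ (surfext_e r p.1 p.2 x) :=
  surfext_desc_mk _ _ (surfext_fix r p.1 p.2) _

/-- extension of pairs of automorphisms -/
theorem exists_ext (r : ℕ) : ∃ E : St6 × StR r →* OrPres (r + 4),
    (∀ φ ψ g, ((E (φ, ψ) : OrPres (r + 4)) : MulAut (Surf (r + 4))) (toS r g) =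
      toS r ((φ : MulAut F6) g)) ∧
    ∀ φ ψ g, ((E (φ, ψ) : OrPres (r + 4)) : MulAut (Surf (r + 4))) (toR r g) =
      toR r ((ψ : MulAut (FR r)) g) := by
  have hmem : ∀ p : St6 × StR r, surfext_aut r p ∈ OrPres (r + 4) := fun p =>
    cup_of_fix (r + 4) (surfext_e r p.1 p.2) (surfext_fix r p.1 p.2) _ (surfext_aut_mk r p)
  refine ⟨MonoidHom.mk' (fun p => ⟨surfext_aut r p, hmem p⟩) ?_, ?_, ?_⟩
  · intro p q
    apply Subtype.ext
    apply MulEquiv.ext
    intro y
    obtain ⟨x, rfl⟩ := PresentedGroup.mk_surjective _ y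
    show surfext_aut r (p * q) (PresentedGroup.mk _ x) =
      surfext_aut r p (surfext_aut r q (PresentedGroup.mk _ x))
    rw [surfext_aut_mk, surfext_aut_mk, surfext_aut_mk, ← surfext_mul]
    rfl
  · intro φ ψ g
    show surfext_aut r (φ, ψ) (PresentedGroup.mk _ (emb6 r g)) = PresentedGroup.mk _ (emb6 r _)
    rw [surfext_aut_mk, surfext_e6]
  · intro φ ψ g
    show surfext_aut r (φ, ψ) (PresentedGroup.mk _ (embR r g)) = PresentedGroup.mk _ (embR r _)
    rw [surfext_aut_mk, surfext_eR]

end Pool.Agent.H.MP_9a81ba_al
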