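import Pool.Agent.H.MP_9a81ba_al.SurfExt
import Pool.Agent.H.MP_9a81ba_al.Amalg
import Pool.Agent.H.MP_9a81ba_al.Fox

/-!
Detection of pushes in a wreath product.
-/

namespace Pool.Agent.H.MP_9a81ba_al

/-- an element of `F4` commuting with everything is trivial -/
theorem wreath_center (w : F4) (hw : ∀ g : F4, w * g = g * w) : w = 1 := by
  by_contra hne
  have hL : w.toWord ≠ [] := fun h => hne (FreeGroup.toWord_eq_nil_iff.mp h)
  obtain ⟨a, L, hcons⟩ := List.exists_cons_of_ne_nil hL
  obtain ⟨b, hb⟩ : ∃ b, w.toWord.getLast? = some b := by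
    rw [List.getLast?_eq_some_getLast hL]
    exact ⟨_, rfl⟩
  have hex : ∀ x y : Fin 4, ∃ j : Fin 4, j ≠ x ∧ j ≠ y := by decide
  obtain ⟨j, hja, hjb⟩ := hex a.1 b.1
  have hred : FreeGroup.IsReduced w.toWord := FreeGroup.isReduced_toWord
  have h1 : FreeGroup.IsReduced ((j, true) :: w.toWord) := by
    rw [hcons] at hred ⊢
    rw [FreeGroup.isReduced_cons_cons]
    exact ⟨fun h => absurd h hja, hred⟩
  have h2 : FreeGroup.IsReduced (w.toWord ++ [(j, true)]) := by
    unfold FreeGroup.IsReduced
    rw [List.isChain_append]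
    refine ⟨hred, List.isChain_singleton _, ?_⟩
    intro x hx y hy h
    rw [hb] at hx
    simp only [Option.mem_def, Option.some.injEq] at hx
    simp only [List.head?_cons, Option.mem_def, Option.some.injEq] at hy
    subst hx hy
    exact absurd h.symm hjb
  have h3 : (w * FreeGroup.of j).toWord = w.toWord ++ [(j, true)] := by
    rw [FreeGroup.toWord_mul, FreeGroup.toWord_of]
    exact h2.reduce_eq
  have h4 : (FreeGroup.of j * w).toWord = (j, true) :: w.toWord := by
    rw [FreeGroup.toWord_mul, FreeGroup.toWord_of]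
    exact h1.reduce_eq
  rw [hw, h4, hcons] at h3
  have h5 : (j, true) = a := by
    have := congrArg List.head? h3
    simpa using this
  exact hja (by rw [← h5])

/-- the automorphisms which act as the identity after `del` and conjugate the block by an element
with trivial image -/
def wreathSub : Subgroup (MulAut F6) where
  carrier := {φ | (∀ g, del (φ g) = del g) ∧ ∃ g : F6, del g = 1 ∧
    ∀ l : Fin 2, φ (FreeGroup.of (l.castAdd 4)) = g * FreeGroup.of (l.castAdd 4) * g⁻¹}
  one_mem' := ⟨fun _ => rfl, 1, map_one _, fun l => by simp⟩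
  mul_mem' := by
    rintro φ ψ ⟨h1, g, hg, hl⟩ ⟨h2, g', hg', hl'⟩
    refine ⟨fun x => by rw [MulAut.mul_apply, h1, h2], φ g' * g, ?_, fun l => ?_⟩
    · rw [map_mul, h1, hg, hg', one_mul]
    · rw [MulAut.mul_apply, hl', map_mul, map_mul, map_inv, hl]
      group
  inv_mem' := by
    rintro φ ⟨h1, g, hg, hl⟩
    have h1' : ∀ x, del (φ⁻¹ x) = del x := by
      intro x
      rw [← h1 (φ⁻¹ x), MulAut.apply_inv_self]
    refine ⟨h1', (φ⁻¹ g)⁻¹, by rw [map_inv, h1', hg, inv_one], fun l => ?_⟩
    have h2 : (φ⁻¹ : MulAut F6) (φ (FreeGroup.of (l.castAdd 4))) =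
        (φ⁻¹ : MulAut F6) (g * FreeGroup.of (l.castAdd 4) * g⁻¹) := by rw [hl l]
    rw [MulAut.inv_apply_self, map_mul, map_mul, map_inv] at h2
    rw [inv_inv]
    have h3 : φ⁻¹ (FreeGroup.of (l.castAdd 4)) =
        (φ⁻¹ g)⁻¹ * (φ⁻¹ g * φ⁻¹ (FreeGroup.of (l.castAdd 4)) * (φ⁻¹ g)⁻¹) * φ⁻¹ g := by group
    rw [h3, ← h2]

theorem wreath_zz (k : ℤ) : zz ^ k ∈ wreathSub := by
  apply Subgroup.zpow_mem
  exact ⟨del_zz, zz_block⟩

noncomputable section

/-- the wreath product `ℤ[A] ⋊ A` with `A` the surface group of genus `r + 3` -/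
abbrev WrG (r : ℕ) : Type :=
  Multiplicative (Unit → MonoidAlgebra ℤ (Surf (r + 3))) ⋊[foxAct (Surf (r + 3)) Unit]
    (Surf (r + 3))

/-- images of the generators -/
def wreathGen (r : ℕ) (y : Fin (r + 4) × Bool) : WrG r :=
  Fin.cases (motive := fun _ => WrG r)
    (if y.2 then 1 else SemidirectProduct.inl (Multiplicative.ofAdd fun _ => 1))
    (fun i => SemidirectProduct.inr (PresentedGroup.of (i, y.2))) y.1

theorem wreathGen_succ (r : ℕ) (i : Fin (r + 3)) (b : Bool) :
    wreathGen r (i.succ, b) = SemidirectProduct.inr (PresentedGroup.of (i, b)) := rfl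

theorem wreathGen_zero_true (r : ℕ) : wreathGen r (0, true) = 1 := rfl

theorem wreathGen_zero_false (r : ℕ) : wreathGen r (0, false) =
    SemidirectProduct.inl (Multiplicative.ofAdd fun _ => 1) := rfl

theorem wreath_rel (r : ℕ) : FreeGroup.lift (wreathGen r) (surfRel (r + 4)) = 1 := by
  have h0 : ((SemidirectProduct.inr : Surf (r + 3) →* WrG r).comp
      (PresentedGroup.mk ({surfRel (r + 3)} : Set _)))
        (List.ofFn fun i : Fin (r + 3) =>
          cm (FreeGroup.of (i, false)) (FreeGroup.of (i, true))).prod = 1 := by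
    have : (PresentedGroup.mk ({surfRel (r + 3)} : Set _)) (List.ofFn fun i : Fin (r + 3) =>
          cm (FreeGroup.of (i, false)) (FreeGroup.of (i, true))).prod = 1 :=
      PresentedGroup.one_of_mem rfl
    rw [MonoidHom.comp_apply, this, map_one]
  have hs : surfRel (r + 4) = (List.ofFn fun i : Fin (r + 4) =>
      cm (FreeGroup.of (i, false)) (FreeGroup.of (i, true))).prod := rfl
  rw [hs, List.ofFn_succ, List.prod_cons, map_mul, map_cm, FreeGroup.lift_apply_of,
    FreeGroup.lift_apply_of, wreathGen_zero_true]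
  have h1 : cm (wreathGen r (0, false)) 1 = 1 := by simp [cm]
  rw [h1, one_mul, ← h0, map_list_prod, map_list_prod, List.map_ofFn, List.map_ofFn]
  congr 2
  funext i
  simp only [Function.comp_apply, map_cm, FreeGroup.lift_apply_of, wreathGen_succ]
  rfl

/-- the homomorphism to the wreath product -/
def wreathHom (r : ℕ) : Surf (r + 4) →* WrG r :=
  PresentedGroup.toGroup (f := wreathGen r) (by
    intro x hx
    rw [Set.mem_singleton_iff] at hx
    rw [hx]
    exact wreath_rel r)

theorem wreathHom_of (r : ℕ) (y : Fin (r + 4) × Bool) :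
    wreathHom r (PresentedGroup.of y) = wreathGen r y := PresentedGroup.toGroup.of _

theorem toS_of (r : ℕ) (l : Fin 6) : toS r (FreeGroup.of l) = PresentedGroup.of (let6 r l) := by
  simp only [toS, emb6, MonoidHom.comp_apply, FreeGroup.map.of]
  rfl

theorem toS4_of (r : ℕ) (l : Fin 4) : toS4 r (FreeGroup.of l) = PresentedGroup.of (let4 r l) := by
  simp only [toS4, MonoidHom.comp_apply, FreeGroup.map.of]
  rfl

/-- the second component -/
theorem wreath_right (r : ℕ) (g : F6) : (wreathHom r (toS r g)).right = toS4 r (del g) := by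
  have : (SemidirectProduct.rightHom.comp ((wreathHom r).comp (toS r))) =
      (toS4 r).comp del := by
    ext l
    simp only [MonoidHom.comp_apply, toS_of, wreathHom_of]
    have hd : del (FreeGroup.of l) = (![1, 1, FreeGroup.of 0, FreeGroup.of 1, FreeGroup.of 2,
      FreeGroup.of 3] : Fin 6 → F4) l := FreeGroup.lift_apply_of
    rw [hd]
    fin_cases l
    · change SemidirectProduct.rightHom (wreathGen r (0, false)) = toS4 r 1
      rw [map_one, wreathGen_zero_false]
      rfl
    · change SemidirectProduct.rightHom (wreathGen r (0, true)) = toS4 r 1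
      rw [map_one, wreathGen_zero_true, map_one]
    · change _ = toS4 r (FreeGroup.of 0)
      rw [toS4_of]
      rfl
    · change _ = toS4 r (FreeGroup.of 1)
      rw [toS4_of]
      rfl
    · change _ = toS4 r (FreeGroup.of 2)
      rw [toS4_of]
      rfl
    · change _ = toS4 r (FreeGroup.of 3)
      rw [toS4_of]
      rfl
  exact DFunLike.congr_fun this g

theorem wreath_conj (r : ℕ) (s : WrG r) :
    (s * SemidirectProduct.inl (Multiplicative.ofAdd fun _ => 1) * s⁻¹).left =
      Multiplicative.ofAdd fun _ => MonoidAlgebra.of ℤ (Surf (r + 3)) s.right := by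
  have h1 : (s * SemidirectProduct.inl (Multiplicative.ofAdd fun _ => 1) * s⁻¹).left =
      foxAct (Surf (r + 3)) Unit s.right (Multiplicative.ofAdd fun _ => 1) := by
    simp only [SemidirectProduct.mul_left, SemidirectProduct.mul_right,
      SemidirectProduct.left_inl, SemidirectProduct.right_inl, mul_one,
      SemidirectProduct.inv_left]
    rw [← MulAut.mul_apply, ← map_mul, mul_inv_cancel, map_one, MulAut.one_apply,
      mul_comm s.left, mul_assoc, mul_inv_cancel, mul_one]
  rw [h1]
  apply Multiplicative.toAdd.injective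
  funext x
  change MonoidAlgebra.of ℤ (Surf (r + 3)) s.right * 1 = _
  rw [mul_one]
  rfl

end

/-- a product of a push and of a power of the twist, extended by the identity, is inner only if
the push is trivial -/
theorem th_inner (r : ℕ) (w : F4) (k : ℤ) (h : Surf (r + 4))
    (hh : ∀ g : F6, toS r ((th w * zz ^ k) g) = h * toS r g * h⁻¹) : w = 1 := by
  obtain ⟨hz1, g, hg, hgl⟩ := wreath_zz k
  obtain ⟨g0, hg0, hg0l⟩ := th_block w
  have hA : (wreathHom r h).right = toS4 r w⁻¹ := by
    have h1 := hh (FreeGroup.of 0)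
    obtain ⟨G1, hG1, h2⟩ : ∃ G1 : F6, del G1 = w⁻¹ ∧ (th w * zz ^ k) (FreeGroup.of 0) =
        G1 * FreeGroup.of 0 * G1⁻¹ := by
      refine ⟨th w g * g0, by rw [map_mul, del_th, hg, hg0, one_mul], ?_⟩
      have e1 := hgl 0
      have e2 := hg0l 0
      change (zz ^ k) (FreeGroup.of 0) = g * FreeGroup.of 0 * g⁻¹ at e1
      change th w (FreeGroup.of 0) = g0 * FreeGroup.of 0 * g0⁻¹ at e2
      rw [MulAut.mul_apply, e1, map_mul, map_mul, map_inv, e2]
      group
    rw [h2, map_mul, map_mul, map_inv] at h1
    have h3 := congrArg (wreathHom r) h1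
    rw [map_mul, map_mul, map_inv, map_mul, map_mul, map_inv] at h3
    have h4 : wreathHom r (toS r (FreeGroup.of 0)) =
        SemidirectProduct.inl (Multiplicative.ofAdd fun _ => 1) := by
      rw [toS_of, wreathHom_of]
      rfl
    rw [h4] at h3
    have h5 := congrArg SemidirectProduct.left h3
    rw [wreath_conj, wreath_conj] at h5
    have h6 := congrFun (Multiplicative.ofAdd.injective h5) ()
    have h7 := MonoidAlgebra.of_injective h6
    rw [wreath_right, hG1] at h7
    exact h7.symm
  apply wreath_center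
  intro w'
  have h1 := hh (inc4 w')
  have h2 := congrArg (fun z => (wreathHom r z).right) h1
  simp only [map_mul, map_inv, SemidirectProduct.mul_right, SemidirectProduct.inv_right] at h2
  rw [hA, wreath_right, wreath_right, MulAut.mul_apply, del_th, hz1, del_inc4, ← map_inv,
    ← map_mul, ← map_mul] at h2
  have h3 := toS4_injective r h2
  rw [inv_inv] at h3
  calc w * w' = w * (w⁻¹ * w' * w) := by rw [← h3]
    _ = w' * w := by group

end Pool.Agent.H.MP_9a81ba_al
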