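import Pool.Agent.H.MP_9a81ba_al.SemiG
import Pool.Agent.H.MP_9a81ba_al.BR
import Pool.Agent.H.MP_9a81ba_al.Wreath
import Pool.Agent.H.MP_9a81ba_al.OTT

/-!
Fibre products inside mapping class groups.
-/

namespace Pool.Agent.H.MP_9a81ba_al

theorem surfmain_h6_mem (P : Subgroup (MulAut F6)) (h : ∀ k, s6 k ∈ P) (v : FreeGroup (Fin 3)) :
    h6 v ∈ P := by
  have : h6.range ≤ P := by
    rw [h6, FreeGroup.range_lift_eq_closure, Subgroup.closure_le]
    rintro _ ⟨l, rfl⟩
    exact h l
  exact this ⟨v, rfl⟩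

theorem surfmain_a6_mem (P : Subgroup (MulAut F6)) (h : ∀ k, a6 k ∈ P) (v : FreeGroup (Fin 2)) :
    FreeGroup.lift a6 v ∈ P := by
  have : (FreeGroup.lift a6).range ≤ P := by
    rw [FreeGroup.range_lift_eq_closure, Subgroup.closure_le]
    rintro _ ⟨l, rfl⟩
    exact h l
  exact this ⟨v, rfl⟩

/-- a subgroup containing all pushes, twists and `s6` contains the image of `GG` -/
theorem surfmain_G6_mem {K : ℕ} (rel : Fin K → FreeGroup (Fin 2)) (f : GG rel →* MulAut F6)
    (hf1 : ∀ w n, f (SemidirectProduct.inl (w, n)) = th w * zz ^ n.toAdd)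
    (hf2 : ∀ s, f (SemidirectProduct.inr s) = h6 (FreeGroup.lift (sw rel) s))
    (P : Subgroup (MulAut F6)) (h1 : ∀ w, th w ∈ P) (h2 : zz ∈ P) (h3 : ∀ k, s6 k ∈ P)
    (y : GG rel) : f y ∈ P := by
  have : y = SemidirectProduct.inl (y.left.1, y.left.2) * SemidirectProduct.inr y.right :=
    (SemidirectProduct.inl_left_mul_inr_right y).symm
  rw [this, map_mul, hf1, hf2]
  exact P.mul_mem (P.mul_mem (h1 _) (P.zpow_mem h2 _)) (surfmain_h6_mem P h3 _)

/-- the automorphisms not changing `hu` -/
def surfmain_hu : Subgroup (MulAut F6) where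
  carrier := {φ | ∀ g, hu (φ g) = hu g}
  one_mem' := fun _ => rfl
  mul_mem' := by
    intro φ ψ h1 h2 g
    rw [MulAut.mul_apply, h1, h2]
  inv_mem' := by
    intro φ h g
    have := h (φ⁻¹ g)
    rw [MulAut.apply_inv_self] at this
    exact this.symm

/-- The representation of `GG r × F(N)` in the mapping class group, with kernel contained in the
central twists. -/
theorem exists_Xi {K : ℕ} (rel : Fin K → FreeGroup (Fin 2)) (N r : ℕ) :
    ∃ X : GG rel × FreeGroup (Fin N) →* Mod (r + 4), ∀ y, X y = 1 →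
      y.2 = 1 ∧ ∃ n : Multiplicative ℤ, y.1 = SemidirectProduct.inl (1, n) := by
  obtain ⟨wa, hwa⟩ := exists_free_family (Fin N)
  obtain ⟨wb, hwb⟩ := exists_free_family (Fin 2 ⊕ Fin K)
  obtain ⟨f, hf1, hf2⟩ := exists_G6 rel
  obtain ⟨B, hB⟩ := exists_bR r
  obtain ⟨E, hE1, hE2⟩ := exists_ext r
  have hfS : ∀ y, f y ∈ St6 := fun y => surfmain_G6_mem rel f hf1 hf2 St6 th_beta zz_beta s6_beta y
  have haS : ∀ v, FreeGroup.lift a6 v ∈ St6 := fun v => surfmain_a6_mem St6 a6_beta v
  let fS : GG rel →* St6 := f.codRestrict St6 hfS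
  let aS : FreeGroup (Fin N) →* St6 :=
    ((FreeGroup.lift a6).codRestrict St6 haS).comp (FreeGroup.lift wa)
  have hcomm : ∀ y a, Commute (fS y) (aS a) := by
    intro y a
    apply Subtype.ext
    change f y * FreeGroup.lift a6 (FreeGroup.lift wa a) =
      FreeGroup.lift a6 (FreeGroup.lift wa a) * f y
    have h1 : ∀ φ : MulAut F6, (∀ j, a6 j * φ = φ * a6 j) →
        ∀ v, φ * FreeGroup.lift a6 v = FreeGroup.lift a6 v * φ := by
      intro φ hφ v
      have := surfmain_a6_mem (Subgroup.centralizer {φ}) (fun j => by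
        rw [Subgroup.mem_centralizer_singleton_iff]
        exact hφ j) v
      rw [Subgroup.mem_centralizer_singleton_iff] at this
      exact this.symm
    have h2 := surfmain_G6_mem rel f hf1 hf2
      (Subgroup.centralizer {FreeGroup.lift a6 (FreeGroup.lift wa a)})
      (fun w => by
        rw [Subgroup.mem_centralizer_singleton_iff]
        exact h1 _ (fun j => a6_th j w) _)
      (by
        rw [Subgroup.mem_centralizer_singleton_iff]
        exact h1 _ a6_zz _)
      (fun k => by
        rw [Subgroup.mem_centralizer_singleton_iff]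
        exact h1 _ (fun j => a6_s6 j k) _) y
    rw [Subgroup.mem_centralizer_singleton_iff] at h2
    exact h2
  let X1 : GG rel × FreeGroup (Fin N) →* St6 := fS.noncommCoprod aS hcomm
  let X2 : GG rel × FreeGroup (Fin N) →* StR r :=
    (B.comp ((FreeGroup.lift wb).comp SemidirectProduct.rightHom)).comp (MonoidHom.fst _ _)
  let X : GG rel × FreeGroup (Fin N) →* Mod (r + 4) :=
    (QuotientGroup.mk' (InnPres (r + 4))).comp (E.comp (X1.prod X2))
  refine ⟨X, ?_⟩
  rintro ⟨y, a⟩ hy
  have hy1 : E (X1 (y, a), X2 (y, a)) ∈ InnPres (r + 4) := by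
    rw [← QuotientGroup.eq_one_iff]
    exact hy
  rw [InnPres, Subgroup.mem_subgroupOf] at hy1
  obtain ⟨h, hh⟩ := hy1
  have hX1 : ((X1 (y, a) : St6) : MulAut F6) = f y * FreeGroup.lift a6 (FreeGroup.lift wa a) := rfl
  have e1 : ∀ g, toS r ((f y * FreeGroup.lift a6 (FreeGroup.lift wa a)) g) =
      h * toS r g * h⁻¹ := by
    intro g
    have := hE1 (X1 (y, a)) (X2 (y, a)) g
    change ((E (X1 (y, a), X2 (y, a)) : OrPres (r + 4)) : MulAut (Surf (r + 4))) _ = _ at this
    have hh' : ((E (X1 (y, a), X2 (y, a)) : OrPres (r + 4)) : MulAut (Surf (r + 4))) =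
      MulAut.conj h := hh.symm
    rw [hh', MulAut.conj_apply] at this
    exact this.symm
  have e2 : ∀ g, toR r ((B (FreeGroup.lift wb y.right) : MulAut (FR r)) g) =
      h * toR r g * h⁻¹ := by
    intro g
    have := hE2 (X1 (y, a)) (X2 (y, a)) g
    have hh' : ((E (X1 (y, a), X2 (y, a)) : OrPres (r + 4)) : MulAut (Surf (r + 4))) =
      MulAut.conj h := hh.symm
    rw [hh', MulAut.conj_apply] at this
    exact this.symm
  obtain ⟨i1, i2⟩ := inner_homology r _ _ h e1 e2
  have hfhu : ∀ y g, hu (f y g) = hu g := fun y =>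
    surfmain_G6_mem rel f hf1 hf2 surfmain_hu hu_th hu_zz hu_s6 y
  have ha : a = 1 := by
    have h3 : ∀ g, hu (FreeGroup.lift a6 (FreeGroup.lift wa a) g) = hu g := by
      intro g
      rw [← i1 g, MulAut.mul_apply, hfhu]
    have h4 : FreeGroup.lift wa a = 1 := by
      apply sanov
      · have := h3 (FreeGroup.of 0)
        rw [hu_a6] at this
        exact Multiplicative.ofAdd.injective this
      · have := h3 (FreeGroup.of 1)
        rw [hu_a6] at this
        exact Multiplicative.ofAdd.injective this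
    exact (injective_iff_map_eq_one _).1 hwa a h4
  have hs : y.right = 1 := by
    have h4 : FreeGroup.lift wb y.right = 1 := by
      apply sanov
      · have := i2 (FreeGroup.of (0, false))
        rw [hB] at this
        have e : hr r (FreeGroup.of (0, false)) = Multiplicative.ofAdd ((1, 0) : ℤ × ℤ) := by
          simp [hr]
        rw [e] at this
        exact Multiplicative.ofAdd.injective this
      · have := i2 (FreeGroup.of (0, true))
        rw [hB] at this
        have e : hr r (FreeGroup.of (0, true)) = Multiplicative.ofAdd ((0, 1) : ℤ × ℤ) := by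
          simp [hr]
        rw [e] at this
        exact Multiplicative.ofAdd.injective this
    exact (injective_iff_map_eq_one _).1 hwb _ h4
  have hyl : y = SemidirectProduct.inl (y.left.1, y.left.2) := by
    have := (SemidirectProduct.inl_left_mul_inr_right y).symm
    rw [hs, map_one, mul_one] at this
    exact this
  have hw : y.left.1 = 1 := by
    apply th_inner r y.left.1 y.left.2.toAdd h
    intro g
    have := e1 g
    rw [ha, map_one, map_one, mul_one, hyl, hf1] at this
    exact this
  refine ⟨ha, y.left.2, ?_⟩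
  exact hyl.trans (congrArg (fun w => (SemidirectProduct.inl (w, y.left.2) : GG rel)) hw)

/-- a finitely presented two-generator quotient with finite presentation of the kernel -/
theorem exists_rel {Q X J : Type*} [Group Q] [Finite X] [Fintype J] {q : X → Q}
    {ρ : J → FreeGroup X} (hA : Asph q ρ) (c d : Q) (hcd : Subgroup.closure {c, d} = ⊤) :
    ∃ (K : ℕ) (rel : Fin K → FreeGroup (Fin 2)),
      Function.Surjective (FreeGroup.lift ![c, d]) ∧
      (FreeGroup.lift ![c, d]).ker = Subgroup.normalClosure (Set.range rel) := by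
  have hfp : Group.IsFinitelyPresented Q :=
    Group.IsFinitelyPresented.of_surjective (FreeGroup.lift q) hA.surj
      ⟨Set.range ρ, Set.finite_range ρ, hA.ker.symm⟩
  have hsurj : Function.Surjective (FreeGroup.lift ![c, d]) := by
    rw [← MonoidHom.range_eq_top, FreeGroup.range_lift_eq_closure, ← hcd]
    congr 1
    simp [Set.pair_comm]
  obtain ⟨S, hS, hS2⟩ := ker_fng (FreeGroup.lift ![c, d]) hsurj
  obtain ⟨K, e⟩ := Finite.exists_equiv_fin S (h := hS)
  obtain ⟨e⟩ := e
  refine ⟨K, fun i => (e.symm i : FreeGroup (Fin 2)), hsurj, ?_⟩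
  rw [← hS2]
  congr 1
  ext x
  constructor
  · intro hx
    exact ⟨e ⟨x, hx⟩, by simp⟩
  · rintro ⟨i, rfl⟩
    exact (e.symm i).2

theorem surf_main {Q : Type} [Group Q] {N K : ℕ} {q : Fin N → Q}
    {ρ : Fin K → FreeGroup (Fin N)} (hA : Asph q ρ) (c d : Q)
    (hcd : Subgroup.closure {c, d} = ⊤) (r : ℕ) :
    ∃ (H : Subgroup (Mod (r + 4))) (α : Fin N → Mod (r + 4)),
      Group.IsFinitelyPresented H ∧
        ∀ v : FreeGroup (Fin N), FreeGroup.lift α v ∈ H ↔ FreeGroup.lift q v = 1 := by
  obtain ⟨K', rel, hsurj, hker⟩ := exists_rel hA c d hcd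
  have hrel : ∀ j, FreeGroup.lift ![c, d] (rel j) = 1 := by
    intro j
    rw [← MonoidHom.mem_ker, hker]
    exact Subgroup.subset_normalClosure ⟨j, rfl⟩
  obtain ⟨p, hp1, hp2⟩ := exists_toQ rel c d hrel
  have hpsurj : Function.Surjective p := by
    intro z
    obtain ⟨w, hw⟩ := hsurj z
    refine ⟨SemidirectProduct.inl (inc2 w, 1), ?_⟩
    rw [hp1, ← hw]
    have : (pQ c d).comp inc2 = FreeGroup.lift ![c, d] := by
      ext l
      fin_cases l <;> simp [pQ, inc2]
    exact DFunLike.congr_fun this w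
  have hfg := ker_toQ_fg rel c d hker p hp1 hp2
  have hGG := fp_GG rel
  have hfib : Group.IsFinitelyPresented (fib p q) := fp_fib p hpsurj hA hfg
  obtain ⟨X, hX⟩ := exists_Xi rel N r
  let H : Subgroup (Mod (r + 4)) := (fib p q).map X
  let α : Fin N → Mod (r + 4) := fun i => X (1, FreeGroup.of i)
  have hα : ∀ v, FreeGroup.lift α v = X (1, v) := by
    intro v
    have : FreeGroup.lift α = X.comp (MonoidHom.inr _ _) := by
      ext i
      simp [α]
    rw [this]
    rfl
  let π : fib p q →* H := X.subgroupMap (fib p q)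
  have hπ : Function.Surjective π := X.subgroupMap_surjective (fib p q)
  have hmem : ∀ n : Multiplicative ℤ, ((SemidirectProduct.inl (1, n) : GG rel),
      (1 : FreeGroup (Fin N))) ∈ fib p q := by
    intro n
    rw [mem_fib]
    simp [hp1]
  let ι : Multiplicative ℤ →* fib p q :=
    { toFun := fun n => ⟨(SemidirectProduct.inl (1, n), 1), hmem n⟩
      map_one' := by
        apply Subtype.ext
        apply Prod.ext
        · exact map_one SemidirectProduct.inl
        · rfl
      map_mul' := by
        intro a b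
        apply Subtype.ext
        apply Prod.ext
        · change (SemidirectProduct.inl (1, a * b) : GG rel) =
            SemidirectProduct.inl (1, a) * SemidirectProduct.inl (1, b)
          rw [← map_mul, Prod.mk_mul_mk, one_mul]
        · change (1 : FreeGroup (Fin N)) = 1 * 1
          rw [one_mul] }
  have hker2 : π.ker ≤ ι.range := by
    rintro ⟨⟨y, a⟩, hya⟩ hk
    have h1 : X (y, a) = 1 := by
      have := congrArg Subtype.val (MonoidHom.mem_ker.1 hk)
      exact this
    obtain ⟨h2, n, h3⟩ := hX _ h1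
    refine ⟨n, ?_⟩
    apply Subtype.ext
    apply Prod.ext
    · exact h3.symm
    · exact h2.symm
  have hkerfg : π.ker.FG := by
    obtain ⟨S, hS⟩ : (π.ker.comap ι).FG := by
      have : IsCyclic (π.ker.comap ι) := inferInstance
      rw [← Group.fg_iff_subgroup_fg]
      obtain ⟨g, hg⟩ := IsCyclic.exists_generator (α := π.ker.comap ι)
      refine Group.fg_iff.2 ⟨{g}, ?_, Set.finite_singleton g⟩
      rw [← Subgroup.zpowers_eq_closure, eq_top_iff]
      intro x _
      exact hg x
    have h2 : (π.ker.comap ι).map ι = π.ker := by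
      rw [Subgroup.map_comap_eq, inf_eq_right.2 hker2]
    classical
    refine ⟨S.image ι, ?_⟩
    rw [Finset.coe_image, ← MonoidHom.map_closure, hS, h2]
  have hH : Group.IsFinitelyPresented H := by
    have : Group.FG π.ker := (Group.fg_iff_subgroup_fg _).2 hkerfg
    exact Group.IsFinitelyPresented.of_surjective π hπ (Subgroup.IsFinitelyNormallyGenerated.of_FG _)
  refine ⟨H, α, hH, fun v => ?_⟩
  rw [hα]
  constructor
  · rintro ⟨⟨y, a⟩, hya, hXy⟩
    have h1 : X ((y, a)⁻¹ * (1, v)) = 1 := by
      rw [map_mul, map_inv, hXy, inv_mul_cancel]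
    obtain ⟨h2, n, h3⟩ := hX _ h1
    have h4 : v = a := by
      have : a⁻¹ * v = 1 := h2
      exact (inv_mul_eq_one.1 this).symm
    have h5 : y⁻¹ = SemidirectProduct.inl (1, n) := by
      have : y⁻¹ * 1 = SemidirectProduct.inl (1, n) := h3
      rwa [mul_one] at this
    have h6 : p y = 1 := by
      have h7 : p y⁻¹ = 1 := by
        rw [h5, hp1, map_one]
      rwa [map_inv, inv_eq_one] at h7
    rw [SetLike.mem_coe, mem_fib] at hya
    rw [h4]
    change p y = FreeGroup.lift q a at hya
    rw [← hya, h6]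
  · intro hv
    refine ⟨(1, v), ?_, rfl⟩
    rw [SetLike.mem_coe, mem_fib]
    change p 1 = FreeGroup.lift q v
    rw [map_one, hv]

end Pool.Agent.H.MP_9a81ba_al
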