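import Pool.Agent.H.MP_9a81ba_al.BaseFree
import Pool.Agent.H.MP_9a81ba_al.Pinch
import Pool.Agent.H.MP_9a81ba_al.Conf
import Pool.Agent.H.MP_9a81ba_al.Brit

/-!
The first HNN extension: it simulates the machine.
-/

namespace Pool.Agent.H.MP_9a81ba_al

variable (M : AM)

/-- source subgroup -/
def subA : Subgroup (F0 M) := (FreeGroup.lift (fA M)).range
/-- target subgroup -/
def subB : Subgroup (F0 M) := (FreeGroup.lift (fB M)).range

/-- the isomorphism between the associated subgroups, sending `fA y` to `fB y` -/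
noncomputable def phi1 : subA M ≃* subB M :=
  (MonoidHom.ofInjective (fA_injective M)).symm.trans (MonoidHom.ofInjective (fB_injective M))

theorem phi1_apply (w : FreeGroup (M.I × Fin 3)) (h : FreeGroup.lift (fA M) w ∈ subA M) :
    ((phi1 M ⟨FreeGroup.lift (fA M) w, h⟩ : subB M) : F0 M) = FreeGroup.lift (fB M) w := by
  have h1 : (MonoidHom.ofInjective (fA_injective M)).symm ⟨FreeGroup.lift (fA M) w, h⟩ = w := by
    rw [MulEquiv.symm_apply_eq]
    rfl
  change (((MonoidHom.ofInjective (fB_injective M))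
    ((MonoidHom.ofInjective (fA_injective M)).symm ⟨FreeGroup.lift (fA M) w, h⟩) :
      (FreeGroup.lift (fB M)).range) : F0 M) = _
  rw [h1]
  rfl

/-- the first HNN extension -/
abbrev G1 : Type := HNNExtension (F0 M) (subA M) (subB M) (phi1 M)

/-- the element `ρ_i`, which conjugates by the rule `i` -/
noncomputable def rho (i : M.I) : G1 M :=
  (HNNExtension.of (gu M i))⁻¹ * HNNExtension.t * HNNExtension.of (gu M i)

theorem tow1_rho_e (i : M.I) (l : Fin 3) :
    rho M i * HNNExtension.of (e0 M i l) * (rho M i)⁻¹ = HNNExtension.of (e1 M i l) := by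
  have hA : FreeGroup.lift (fA M) (FreeGroup.of (i, l)) = gu M i * e0 M i l * (gu M i)⁻¹ := by
    rw [FreeGroup.lift_apply_of]
    rfl
  have hB : FreeGroup.lift (fB M) (FreeGroup.of (i, l)) = gu M i * e1 M i l * (gu M i)⁻¹ := by
    rw [FreeGroup.lift_apply_of]
    rfl
  have hmem : FreeGroup.lift (fA M) (FreeGroup.of (i, l)) ∈ subA M := ⟨_, rfl⟩
  have h1 := HNNExtension.t_mul_of (φ := phi1 M) ⟨_, hmem⟩
  rw [phi1_apply] at h1
  simp only [hA, hB, map_mul, map_inv] at h1
  rw [rho, mul_inv_rev, mul_inv_rev, inv_inv]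
  have h2 : (HNNExtension.t : G1 M) * (HNNExtension.of (gu M i) * HNNExtension.of (e0 M i l) *
      (HNNExtension.of (gu M i))⁻¹) * HNNExtension.t⁻¹ = HNNExtension.of (gu M i) *
        HNNExtension.of (e1 M i l) * (HNNExtension.of (gu M i))⁻¹ := by
    rw [h1]
    exact mul_inv_cancel_right _ _
  have h3 : (HNNExtension.of (gu M i))⁻¹ * (HNNExtension.t : G1 M) * HNNExtension.of (gu M i) *
      HNNExtension.of (e0 M i l) * ((HNNExtension.of (gu M i))⁻¹ * (HNNExtension.t⁻¹ *
        HNNExtension.of (gu M i))) = (HNNExtension.of (gu M i))⁻¹ *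
        ((HNNExtension.t : G1 M) * (HNNExtension.of (gu M i) * HNNExtension.of (e0 M i l) *
      (HNNExtension.of (gu M i))⁻¹) * HNNExtension.t⁻¹) * HNNExtension.of (gu M i) := by
    simp only [mul_assoc]
  rw [h3, h2]
  simp only [mul_assoc, inv_mul_cancel, mul_one, inv_mul_cancel_left]

theorem tow1_tc_pre (i : M.I) (n k : ℤ) : tc M (M.pre i n k) =
    (e0 M i 1 ^ k * e0 M i 0 ^ n)⁻¹ * e0 M i 2 * (e0 M i 1 ^ k * e0 M i 0 ^ n) := by
  have e2 : e0 M i 1 ^ k = (gx M ^ M.a i)⁻¹ * gy M ^ (M.q i * k) * gx M ^ M.a i := by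
    have := conj_zpow (a := (gx M ^ M.a i)⁻¹) (b := gy M ^ M.q i) (i := k)
    rw [inv_inv, ← zpow_mul] at this
    exact this
  have e3 : e0 M i 0 ^ n = gx M ^ (M.p i * n) := (zpow_mul _ _ _).symm
  have e4 : e0 M i 2 = tc M (M.src i, M.a i, M.b i) := rfl
  have e5 : kc M (M.pre i n k) = kc M (M.src i, M.a i, M.b i) *
      (e0 M i 1 ^ k * e0 M i 0 ^ n) := by
    rw [e2, e3]
    show gy M ^ (M.q i * k + M.b i) * gx M ^ (M.p i * n + M.a i) =
      gy M ^ (M.b i) * gx M ^ (M.a i) * _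
    rw [add_comm (M.q i * k), add_comm (M.p i * n), zpow_add, zpow_add]
    group
  rw [e4]
  unfold tc
  rw [e5]
  have e6 : (M.pre i n k).1 = M.src i := rfl
  rw [e6, mul_inv_rev]
  simp only [mul_assoc]

theorem tow1_tc_post (i : M.I) (n k : ℤ) : tc M (M.post i n k) =
    (e1 M i 1 ^ k * e1 M i 0 ^ n)⁻¹ * e1 M i 2 * (e1 M i 1 ^ k * e1 M i 0 ^ n) := by
  have e2 : e1 M i 1 ^ k = (gx M ^ M.a' i)⁻¹ * gy M ^ (M.q' i * k) * gx M ^ M.a' i := by
    have := conj_zpow (a := (gx M ^ M.a' i)⁻¹) (b := gy M ^ M.q' i) (i := k)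
    rw [inv_inv, ← zpow_mul] at this
    exact this
  have e3 : e1 M i 0 ^ n = gx M ^ (M.p' i * n) := (zpow_mul _ _ _).symm
  have e4 : e1 M i 2 = tc M (M.dst i, M.a' i, M.b' i) := rfl
  have e5 : kc M (M.post i n k) = kc M (M.dst i, M.a' i, M.b' i) *
      (e1 M i 1 ^ k * e1 M i 0 ^ n) := by
    rw [e2, e3]
    show gy M ^ (M.q' i * k + M.b' i) * gx M ^ (M.p' i * n + M.a' i) =
      gy M ^ (M.b' i) * gx M ^ (M.a' i) * _
    rw [add_comm (M.q' i * k), add_comm (M.p' i * n), zpow_add, zpow_add]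
    group
  rw [e4]
  unfold tc
  rw [e5]
  have e6 : (M.post i n k).1 = M.dst i := rfl
  rw [e6, mul_inv_rev]
  simp only [mul_assoc]

theorem rho_tc (i : M.I) (n k : ℤ) :
    rho M i * HNNExtension.of (tc M (M.pre i n k)) * (rho M i)⁻¹ =
      HNNExtension.of (tc M (M.post i n k)) := by
  have h : ∀ l, (MulAut.conj (rho M i)) (HNNExtension.of (e0 M i l)) =
      HNNExtension.of (e1 M i l) := fun l => by
    rw [MulAut.conj_apply]
    exact tow1_rho_e M i l
  have h1 : (MulAut.conj (rho M i)) (HNNExtension.of (tc M (M.pre i n k))) =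
      HNNExtension.of (tc M (M.post i n k)) := by
    rw [tow1_tc_pre, tow1_tc_post]
    simp only [map_mul, map_inv, map_zpow, h]
  rw [MulAut.conj_apply] at h1
  exact h1

/-- the family generating `U` -/
noncomputable def yfam : Option M.I → G1 M
  | none => HNNExtension.of (tc M M.fcfg)
  | some i => rho M i

/-- the words over the family `yfam` giving the elements of the accepted configurations -/
inductive Tow1T : M.Cfg → FreeGroup (Option M.I) → Prop
  | base : Tow1T M.fcfg (FreeGroup.of none)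
  | step (i : M.I) (n k : ℤ) (w : FreeGroup (Option M.I)) : Tow1T (M.post i n k) w →
      Tow1T (M.pre i n k) ((FreeGroup.of (some i))⁻¹ * w * FreeGroup.of (some i))

theorem tow1_exists {c : M.Cfg} (h : M.Acc c) : ∃ w, Tow1T M c w := by
  induction h using Relation.ReflTransGen.head_induction_on with
  | refl => exact ⟨_, Tow1T.base⟩
  | head h1 _ ih =>
    obtain ⟨i, n, k, rfl, rfl⟩ := h1
    obtain ⟨w, hw⟩ := ih
    exact ⟨_, Tow1T.step i n k w hw⟩

theorem tow1_pre_inj {i j : M.I} {n k n' k' : ℤ} (h : M.pre i n k = M.pre j n' k') :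
    i = j ∧ n = n' ∧ k = k' := by
  have h1 : M.src i = M.src j := congrArg Prod.fst h
  have h2 : M.p i * n + M.a i = M.p j * n' + M.a j := congrArg (fun c => c.2.1) h
  have h3 : M.q i * k + M.b i = M.q j * k' + M.b j := congrArg (fun c => c.2.2) h
  have h4 := M.det i j n k n' k' h1 h2 h3
  subst h4
  refine ⟨rfl, ?_, ?_⟩
  · exact mul_left_cancel₀ (M.hp i).ne' (add_right_cancel h2)
  · exact mul_left_cancel₀ (M.hq i).ne' (add_right_cancel h3)

theorem tow1_pre_ne {i : M.I} {n k : ℤ} : M.pre i n k ≠ M.fcfg := fun h =>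
  M.term i (congrArg Prod.fst h)

theorem tow1_inv {i : M.I} {n k : ℤ} {w : FreeGroup (Option M.I)}
    (h : Tow1T M (M.pre i n k) w) : ∃ w', Tow1T M (M.post i n k) w' ∧
      w = (FreeGroup.of (some i))⁻¹ * w' * FreeGroup.of (some i) := by
  generalize hc : M.pre i n k = c at h
  cases h with
  | base => exact absurd hc (tow1_pre_ne M)
  | step j n' k' w' h' =>
    obtain ⟨rfl, rfl, rfl⟩ := tow1_pre_inj M hc
    exact ⟨w', h', rfl⟩

theorem tow1_unique {c : M.Cfg} {w w' : FreeGroup (Option M.I)} (h : Tow1T M c w)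
    (h' : Tow1T M c w') : w = w' := by
  induction h generalizing w' with
  | base =>
    generalize hc : M.fcfg = c at h'
    cases h' with
    | base => rfl
    | step j n' k' w' h' => exact absurd hc.symm (tow1_pre_ne M)
  | step i n k w _ ih =>
    obtain ⟨w1, h1, rfl⟩ := tow1_inv M h'
    rw [ih h1]

theorem tow1_acc_of {c : M.Cfg} {w : FreeGroup (Option M.I)} (h : Tow1T M c w) : M.Acc c := by
  induction h with
  | base => exact Relation.ReflTransGen.refl
  | step i n k w _ ih => exact Relation.ReflTransGen.head ⟨i, n, k, rfl, rfl⟩ ih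

theorem tow1_eval {c : M.Cfg} {w : FreeGroup (Option M.I)} (h : Tow1T M c w) :
    FreeGroup.lift (yfam M) w = HNNExtension.of (tc M c) := by
  induction h with
  | base =>
    rw [FreeGroup.lift_apply_of]
    rfl
  | step i n k w _ ih =>
    rw [map_mul, map_mul, map_inv, ih, FreeGroup.lift_apply_of, ← rho_tc]
    show (rho M i)⁻¹ * (rho M i * _ * (rho M i)⁻¹) * rho M i = _
    simp only [mul_assoc, inv_mul_cancel, mul_one, inv_mul_cancel_left]

/-- the word of an accepted configuration -/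
noncomputable def tow1_w (c : {c : M.Cfg // M.Acc c}) : FreeGroup (Option M.I) :=
  (tow1_exists M c.2).choose

theorem tow1_w_spec (c : {c : M.Cfg // M.Acc c}) : Tow1T M c.1 (tow1_w M c) :=
  (tow1_exists M c.2).choose_spec

/-- the free group on the accepted configurations, mapped to the words over `yfam` -/
noncomputable def tow1_tau : FreeGroup {c : M.Cfg // M.Acc c} →* FreeGroup (Option M.I) :=
  FreeGroup.lift (tow1_w M)

/-- the free group on the accepted configurations, mapped to the base group -/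
noncomputable def tow1_kappa : FreeGroup {c : M.Cfg // M.Acc c} →* F0 M :=
  FreeGroup.lift fun c => tc M c.1

theorem tow1_kappa_inj : Function.Injective (tow1_kappa M) := by
  have h1 : tow1_kappa M = (FreeGroup.lift (tc M)).comp (FreeGroup.map Subtype.val) := by
    ext c
    simp [tow1_kappa]
  rw [h1]
  exact (tc_free M).comp (FreeGroup.map_injective Subtype.val_injective)

theorem tow1_tau_eval (k : FreeGroup {c : M.Cfg // M.Acc c}) :
    FreeGroup.lift (yfam M) (tow1_tau M k) = HNNExtension.of (tow1_kappa M k) := by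
  have h1 : (FreeGroup.lift (yfam M)).comp (tow1_tau M) =
      (HNNExtension.of : F0 M →* G1 M).comp (tow1_kappa M) := by
    apply FreeGroup.ext_hom
    intro c
    rw [MonoidHom.comp_apply, MonoidHom.comp_apply, tow1_tau, tow1_kappa,
      FreeGroup.lift_apply_of, FreeGroup.lift_apply_of]
    exact tow1_eval M (tow1_w_spec M c)
  exact DFunLike.congr_fun h1 k

theorem tow1_kappa_mem (k : FreeGroup {c : M.Cfg // M.Acc c}) :
    tow1_kappa M k ∈ Subgroup.closure (tc M '' {c | M.Acc c}) := by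
  have h1 : (tow1_kappa M).range ≤ Subgroup.closure (tc M '' {c | M.Acc c}) := by
    rw [tow1_kappa, FreeGroup.range_lift_eq_closure, Subgroup.closure_le]
    rintro _ ⟨c, rfl⟩
    exact Subgroup.subset_closure ⟨c.1, c.2, rfl⟩
  exact h1 ⟨k, rfl⟩

theorem tow1_kappa_noU (k : FreeGroup {c : M.Cfg // M.Acc c}) : tow1_kappa M k ∈ noU M := by
  have h1 : Subgroup.closure (tc M '' {c | M.Acc c}) ≤ noU M := by
    rw [Subgroup.closure_le]
    rintro _ ⟨c, -, rfl⟩
    exact tc_mem_noU M c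
  exact h1 (tow1_kappa_mem M k)

/-- elements of `K` whose image lies in the subgroup generated by some configurations -/
theorem tow1_pull {P : M.Cfg → Prop} {k : FreeGroup {c : M.Cfg // M.Acc c}}
    (h : tow1_kappa M k ∈ Subgroup.closure (tc M '' {c | M.Acc c ∧ P c})) :
    k ∈ Subgroup.closure (FreeGroup.of '' {c : {c : M.Cfg // M.Acc c} | P c.1}) := by
  have h1 : tc M '' {c | M.Acc c ∧ P c} =
      tow1_kappa M '' (FreeGroup.of '' {c : {c : M.Cfg // M.Acc c} | P c.1}) := by
    ext y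
    constructor
    · rintro ⟨c, ⟨hc, hP⟩, rfl⟩
      exact ⟨_, ⟨⟨c, hc⟩, hP, rfl⟩, by rw [tow1_kappa, FreeGroup.lift_apply_of]⟩
    · rintro ⟨_, ⟨c, hP, rfl⟩, rfl⟩
      exact ⟨c.1, ⟨c.2, hP⟩, by rw [tow1_kappa, FreeGroup.lift_apply_of]⟩
  rw [h1, ← MonoidHom.map_closure] at h
  obtain ⟨k', hk', he⟩ := h
  rw [← tow1_kappa_inj M he]
  exact hk'

theorem tow1_conj_pre (i : M.I) {k : FreeGroup {c : M.Cfg // M.Acc c}}
    (h : k ∈ Subgroup.closure (FreeGroup.of ''
      {c : {c : M.Cfg // M.Acc c} | ∃ n k : ℤ, c.1 = (M.src i, M.p i * n + M.a i,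
        M.q i * k + M.b i)})) :
    ∃ k', FreeGroup.of (some i) * tow1_tau M k * (FreeGroup.of (some i))⁻¹ = tow1_tau M k' := by
  have h1 : Subgroup.closure (FreeGroup.of ''
      {c : {c : M.Cfg // M.Acc c} | ∃ n k : ℤ, c.1 = (M.src i, M.p i * n + M.a i,
        M.q i * k + M.b i)}) ≤ (tow1_tau M).range.comap
          ((MulAut.conj (FreeGroup.of (some i))).toMonoidHom.comp (tow1_tau M)) := by
    rw [Subgroup.closure_le]
    rintro _ ⟨⟨c, hc⟩, ⟨n, k, hnk⟩, rfl⟩
    have hcp : c = M.pre i n k := hnk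
    subst hcp
    obtain ⟨w', hw', hww⟩ := tow1_inv M (tow1_w_spec M ⟨_, hc⟩)
    show FreeGroup.of (some i) * tow1_tau M (FreeGroup.of _) * (FreeGroup.of (some i))⁻¹ ∈
      (tow1_tau M).range
    refine ⟨FreeGroup.of ⟨_, tow1_acc_of M hw'⟩, ?_⟩
    rw [tow1_tau, FreeGroup.lift_apply_of, FreeGroup.lift_apply_of, hww,
      tow1_unique M (tow1_w_spec M ⟨_, tow1_acc_of M hw'⟩) hw']
    group
  obtain ⟨k', hk'⟩ := h1 h
  exact ⟨k', hk'.symm⟩

theorem tow1_conj_post (i : M.I) {k : FreeGroup {c : M.Cfg // M.Acc c}}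
    (h : k ∈ Subgroup.closure (FreeGroup.of ''
      {c : {c : M.Cfg // M.Acc c} | ∃ n k : ℤ, c.1 = (M.dst i, M.p' i * n + M.a' i,
        M.q' i * k + M.b' i)})) :
    ∃ k', (FreeGroup.of (some i))⁻¹ * tow1_tau M k * FreeGroup.of (some i) = tow1_tau M k' := by
  have h1 : Subgroup.closure (FreeGroup.of ''
      {c : {c : M.Cfg // M.Acc c} | ∃ n k : ℤ, c.1 = (M.dst i, M.p' i * n + M.a' i,
        M.q' i * k + M.b' i)}) ≤ (tow1_tau M).range.comap
          ((MulAut.conj (FreeGroup.of (some i))⁻¹).toMonoidHom.comp (tow1_tau M)) := by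
    rw [Subgroup.closure_le]
    rintro _ ⟨⟨c, hc⟩, ⟨n, k, hnk⟩, rfl⟩
    have hcp : c = M.post i n k := hnk
    subst hcp
    have h2 := Tow1T.step i n k _ (tow1_w_spec M ⟨_, hc⟩)
    show (FreeGroup.of (some i))⁻¹ * tow1_tau M (FreeGroup.of _) * (FreeGroup.of (some i))⁻¹⁻¹ ∈
      (tow1_tau M).range
    refine ⟨FreeGroup.of ⟨_, tow1_acc_of M h2⟩, ?_⟩
    rw [tow1_tau, FreeGroup.lift_apply_of, FreeGroup.lift_apply_of,
      tow1_unique M (tow1_w_spec M ⟨_, tow1_acc_of M h2⟩) h2, inv_inv]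
  obtain ⟨k', hk'⟩ := h1 h
  refine ⟨k', ?_⟩
  rw [hk']
  show _ = (FreeGroup.of (some i))⁻¹ * tow1_tau M k * (FreeGroup.of (some i))⁻¹⁻¹
  rw [inv_inv]

/-- evaluation of a list as a word over `yfam` -/
noncomputable def tow1_E : FreeGroup {c : M.Cfg // M.Acc c} →
    List (ℤˣ × M.I × FreeGroup {c : M.Cfg // M.Acc c}) → FreeGroup (Option M.I)
  | k, [] => tow1_tau M k
  | k, (e, i, k') :: l => tow1_tau M k * FreeGroup.of (some i) ^ (e : ℤ) * tow1_E k' l

theorem tow1_E_append (l₁ l₂ : List (ℤˣ × M.I × FreeGroup {c : M.Cfg // M.Acc c}))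
    (k k' : FreeGroup {c : M.Cfg // M.Acc c}) (e : ℤˣ) (i : M.I) :
    tow1_E M k (l₁ ++ (e, i, k') :: l₂) =
      tow1_E M k l₁ * FreeGroup.of (some i) ^ (e : ℤ) * tow1_E M k' l₂ := by
  induction l₁ generalizing k with
  | nil => rfl
  | cons y l ih =>
    obtain ⟨e', i', k''⟩ := y
    show tow1_tau M k * FreeGroup.of (some i') ^ (e' : ℤ) * tow1_E M k'' (l ++ (e, i, k') :: l₂) =
      tow1_tau M k * FreeGroup.of (some i') ^ (e' : ℤ) * tow1_E M k'' l * _ * _
    rw [ih]
    simp only [mul_assoc]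

theorem tow1_absorb (l : List (ℤˣ × M.I × FreeGroup {c : M.Cfg // M.Acc c}))
    (k x : FreeGroup {c : M.Cfg // M.Acc c}) :
    ∃ k' l', l'.length = l.length ∧ tow1_E M k l * tow1_tau M x = tow1_E M k' l' := by
  induction l generalizing k with
  | nil => exact ⟨k * x, [], rfl, (map_mul _ _ _).symm⟩
  | cons y l ih =>
    obtain ⟨e, i, k''⟩ := y
    obtain ⟨k', l', hl', hE⟩ := ih k''
    refine ⟨k, (e, i, k') :: l', by simp [hl'], ?_⟩
    show tow1_tau M k * FreeGroup.of (some i) ^ (e : ℤ) * tow1_E M k'' l * tow1_tau M x =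
      tow1_tau M k * FreeGroup.of (some i) ^ (e : ℤ) * tow1_E M k' l'
    rw [← hE]
    simp only [mul_assoc]

/-- right multiplication of a list by another one -/
theorem tow1_join (l₁ l₂ : List (ℤˣ × M.I × FreeGroup {c : M.Cfg // M.Acc c}))
    (k k' : FreeGroup {c : M.Cfg // M.Acc c}) :
    ∃ k'' l, l.length = l₁.length + l₂.length ∧
      tow1_E M k l₁ * tow1_E M k' l₂ = tow1_E M k'' l := by
  cases l₂ with
  | nil => exact tow1_absorb M l₁ k k'
  | cons y l₂ =>
    obtain ⟨e, i, k₂⟩ := y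
    obtain ⟨k₁, l₁', hl₁', hE⟩ := tow1_absorb M l₁ k k'
    refine ⟨k₁, l₁' ++ (e, i, k₂) :: l₂, by simp [hl₁'], ?_⟩
    rw [tow1_E_append, ← hE]
    show tow1_E M k l₁ * (tow1_tau M k' * _ * _) = _
    simp only [mul_assoc]

/-- first letter -/
noncomputable def tow1_hd : List (ℤˣ × M.I × FreeGroup {c : M.Cfg // M.Acc c}) → F0 M
  | [] => 1
  | (_, i, _) :: _ => (gu M i)⁻¹

/-- conversion to the form of Britton's lemma -/
noncomputable def tow1_cv : List (ℤˣ × M.I × FreeGroup {c : M.Cfg // M.Acc c}) →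
    List (ℤˣ × F0 M)
  | [] => []
  | (e, i, k) :: l => (e, gu M i * tow1_kappa M k * tow1_hd M l) :: tow1_cv l

theorem tow1_rho_pow (i : M.I) (e : ℤ) : rho M i ^ e =
    (HNNExtension.of (gu M i))⁻¹ * HNNExtension.t ^ e * HNNExtension.of (gu M i) := by
  have := conj_zpow (a := (HNNExtension.of (gu M i) : G1 M)⁻¹) (b := (HNNExtension.t : G1 M))
    (i := e)
  rw [inv_inv] at this
  exact this

theorem tow1_eval_E (l : List (ℤˣ × M.I × FreeGroup {c : M.Cfg // M.Acc c}))
    (k : FreeGroup {c : M.Cfg // M.Acc c}) :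
    FreeGroup.lift (yfam M) (tow1_E M k l) = HNNExtension.of (tow1_kappa M k * tow1_hd M l) *
      ((tow1_cv M l).map fun y => (HNNExtension.t : G1 M) ^ (y.1 : ℤ) *
        HNNExtension.of y.2).prod := by
  induction l generalizing k with
  | nil =>
    show FreeGroup.lift (yfam M) (tow1_tau M k) = HNNExtension.of (tow1_kappa M k * 1) * 1
    rw [mul_one, mul_one, tow1_tau_eval]
  | cons y l ih =>
    obtain ⟨e, i, k'⟩ := y
    show FreeGroup.lift (yfam M) (tow1_tau M k * FreeGroup.of (some i) ^ (e : ℤ) *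
      tow1_E M k' l) = HNNExtension.of (tow1_kappa M k * (gu M i)⁻¹) *
        (((e, gu M i * tow1_kappa M k' * tow1_hd M l) :: tow1_cv M l).map
          fun y => (HNNExtension.t : G1 M) ^ (y.1 : ℤ) * HNNExtension.of y.2).prod
    rw [map_mul, map_mul, map_zpow, ih, tow1_tau_eval, FreeGroup.lift_apply_of,
      List.map_cons, List.prod_cons]
    show _ * rho M i ^ (e : ℤ) * _ = _
    rw [tow1_rho_pow]
    simp only [map_mul, map_inv, mul_assoc]

theorem tow1_cv_split (l : List (ℤˣ × M.I × FreeGroup {c : M.Cfg // M.Acc c}))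
    (l₁ l₂ : List (ℤˣ × F0 M)) (u v : ℤˣ) (g g' : F0 M)
    (h : tow1_cv M l = l₁ ++ (u, g) :: (v, g') :: l₂) :
    ∃ L₁ i k i' k' L₂, l = L₁ ++ (u, i, k) :: (v, i', k') :: L₂ ∧
      g = gu M i * tow1_kappa M k * (gu M i')⁻¹ := by
  induction l generalizing l₁ with
  | nil =>
    have h1 : ([] : List (ℤˣ × F0 M)) = l₁ ++ (u, g) :: (v, g') :: l₂ := h
    simp at h1
  | cons y l ih =>
    obtain ⟨e, i, k⟩ := y
    have h0 : (e, gu M i * tow1_kappa M k * tow1_hd M l) :: tow1_cv M l =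
      l₁ ++ (u, g) :: (v, g') :: l₂ := h
    cases l₁ with
    | nil =>
      rw [List.nil_append] at h0
      have h1 := List.cons_eq_cons.1 h0
      obtain ⟨h2, h3⟩ := h1
      cases l with
      | nil =>
        have h4 : ([] : List (ℤˣ × F0 M)) = (v, g') :: l₂ := h3
        simp at h4
      | cons y l =>
        obtain ⟨e', i', k'⟩ := y
        have h4 : (e', gu M i' * tow1_kappa M k' * tow1_hd M l) :: tow1_cv M l =
          (v, g') :: l₂ := h3
        have h5 := (List.cons_eq_cons.1 h4).1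
        have h6 : e' = v := congrArg Prod.fst h5
        have h7 : e = u := congrArg Prod.fst h2
        have h8 : gu M i * tow1_kappa M k * (gu M i')⁻¹ = g := congrArg Prod.snd h2
        subst h6
        subst h7
        exact ⟨[], i, k, i', k', l, rfl, h8.symm⟩
    | cons z l₁ =>
      rw [List.cons_append] at h0
      have h1 := (List.cons_eq_cons.1 h0).2
      obtain ⟨L₁, i₁, k₁, i', k', L₂, hL, hg⟩ := ih l₁ h1
      exact ⟨(e, i, k) :: L₁, i₁, k₁, i', k', L₂, by rw [hL]; rfl, hg⟩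

theorem tow1_reduce (N : ℕ) : ∀ (l : List (ℤˣ × M.I × FreeGroup {c : M.Cfg // M.Acc c}))
    (k : FreeGroup {c : M.Cfg // M.Acc c}), l.length ≤ N →
    FreeGroup.lift (yfam M) (tow1_E M k l) ∈ (HNNExtension.of : F0 M →* G1 M).range →
    tow1_E M k l ∈ (tow1_tau M).range := by
  induction N with
  | zero =>
    intro l k hl _
    have : l = [] := List.length_eq_zero_iff.1 (Nat.le_zero.1 hl)
    subst this
    exact ⟨k, rfl⟩
  | succ N ih =>
    intro l k hl h
    by_cases hne : l = []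
    · subst hne
      exact ⟨k, rfl⟩
    · have h' := h
      rw [tow1_eval_E] at h'
      have hne' : tow1_cv M l ≠ [] := by
        cases l with
        | nil => exact absurd rfl hne
        | cons y l => exact List.cons_ne_nil _ _
      obtain ⟨l₁, u, g, g', l₂, hsplit, hg⟩ := britton (phi1 M) _ _ hne' h'
      obtain ⟨L₁, i, k₁, i', k₂, L₂, rfl, rfl⟩ := tow1_cv_split M l l₁ l₂ u (-u) g g' hsplit
      have hlen : L₁.length + L₂.length ≤ N := by
        simp only [List.length_append, List.length_cons] at hl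
        omega
      -- it suffices to replace the pinch by an element of the range of `tow1_tau`
      have hmain : ∀ k' : FreeGroup {c : M.Cfg // M.Acc c},
          FreeGroup.of (some i) ^ (u : ℤ) * tow1_tau M k₁ * FreeGroup.of (some i') ^ ((-u : ℤˣ) : ℤ)
            = tow1_tau M k' → tow1_E M k (L₁ ++ (u, i, k₁) :: (-u, i', k₂) :: L₂) ∈
              (tow1_tau M).range := by
        intro k' hk'
        obtain ⟨k₃, L₃, hL₃, hE₃⟩ := tow1_absorb M L₁ k k'
        obtain ⟨k₄, L₄, hL₄, hE₄⟩ := tow1_join M L₃ L₂ k₃ k₂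
        have hE : tow1_E M k (L₁ ++ (u, i, k₁) :: (-u, i', k₂) :: L₂) = tow1_E M k₄ L₄ := by
          rw [tow1_E_append, ← hE₄, ← hE₃, ← hk']
          show _ * (tow1_tau M k₁ * _ * _) = _
          simp only [mul_assoc]
        rw [hE] at h ⊢
        exact ih L₄ k₄ (by rw [hL₄, hL₃]; exact hlen) h
      rcases Int.units_eq_one_or u with rfl | rfl
      · have hg' : gu M i * tow1_kappa M k₁ * (gu M i')⁻¹ ∈ subA M := hg
        obtain ⟨rfl, hk₁⟩ := pinch M (e0 M) (e0_mem M) i i' _ (tow1_kappa_noU M k₁) hg'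
        have h1 := conf_inter M (M.p i) (M.a i) (M.q i) (M.b i) (M.src i) {c | M.Acc c} _
          (tow1_kappa_mem M k₁) hk₁
        have h2 := tow1_pull M (P := fun c => ∃ n k : ℤ, c = (M.src i, M.p i * n + M.a i,
          M.q i * k + M.b i)) h1
        obtain ⟨k', hk'⟩ := tow1_conj_pre M i h2
        refine hmain k' ?_
        rw [← hk']
        simp
      · have hg' : gu M i * tow1_kappa M k₁ * (gu M i')⁻¹ ∈ subB M := hg
        obtain ⟨rfl, hk₁⟩ := pinch M (e1 M) (e1_mem M) i i' _ (tow1_kappa_noU M k₁) hg'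
        have h1 := conf_inter M (M.p' i) (M.a' i) (M.q' i) (M.b' i) (M.dst i) {c | M.Acc c} _
          (tow1_kappa_mem M k₁) hk₁
        have h2 := tow1_pull M (P := fun c => ∃ n k : ℤ, c = (M.dst i, M.p' i * n + M.a' i,
          M.q' i * k + M.b' i)) h1
        obtain ⟨k', hk'⟩ := tow1_conj_post M i h2
        refine hmain k' ?_
        rw [← hk']
        simp

theorem tow1_all (w : FreeGroup (Option M.I)) : ∃ k l, w = tow1_E M k l := by
  induction w using FreeGroup.induction_on with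
  | C1 => exact ⟨1, [], (map_one _).symm⟩
  | of o =>
    cases o with
    | none =>
      refine ⟨FreeGroup.of ⟨M.fcfg, Relation.ReflTransGen.refl⟩, [], ?_⟩
      show _ = tow1_tau M _
      rw [tow1_tau, FreeGroup.lift_apply_of]
      exact tow1_unique M Tow1T.base (tow1_w_spec M ⟨M.fcfg, Relation.ReflTransGen.refl⟩)
    | some i =>
      refine ⟨1, [(1, i, 1)], ?_⟩
      show _ = tow1_tau M 1 * _ * tow1_tau M 1
      rw [map_one]
      simp
  | inv_of o _ =>
    cases o with
    | none =>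
      refine ⟨(FreeGroup.of ⟨M.fcfg, Relation.ReflTransGen.refl⟩)⁻¹, [], ?_⟩
      show _ = tow1_tau M _
      rw [map_inv, tow1_tau, FreeGroup.lift_apply_of]
      exact congrArg _ (tow1_unique M Tow1T.base
        (tow1_w_spec M ⟨M.fcfg, Relation.ReflTransGen.refl⟩))
    | some i =>
      refine ⟨1, [(-1, i, 1)], ?_⟩
      show _ = tow1_tau M 1 * _ * tow1_tau M 1
      rw [map_one]
      simp
  | mul v w hv hw =>
    obtain ⟨k, l, rfl⟩ := hv
    obtain ⟨k', l', rfl⟩ := hw
    obtain ⟨k'', l'', -, h⟩ := tow1_join M l l' k k'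
    exact ⟨k'', l'', h⟩

/-- Main lemma: words in the family `yfam` lying in the base group -/
theorem yfam_base (w : FreeGroup (Option M.I)) (g : F0 M)
    (h : FreeGroup.lift (yfam M) w = HNNExtension.of g) :
    g ∈ Subgroup.closure (tc M '' {c | M.Acc c}) ∧ (g = 1 → w = 1) := by
  obtain ⟨k, l, rfl⟩ := tow1_all M w
  obtain ⟨k₁, hk₁⟩ := tow1_reduce M l.length l k le_rfl ⟨g, h.symm⟩
  rw [← hk₁, tow1_tau_eval] at h
  have h1 : tow1_kappa M k₁ = g := HNNExtension.of_injective _ h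
  refine ⟨by rw [← h1]; exact tow1_kappa_mem M k₁, ?_⟩
  intro hg
  rw [hg] at h1
  have h2 : k₁ = 1 := tow1_kappa_inj M (by rw [h1, map_one])
  rw [← hk₁, h2, map_one]

theorem yfam_injective : Function.Injective (FreeGroup.lift (yfam M)) := by
  rw [injective_iff_map_eq_one]
  intro w hw
  exact (yfam_base M w 1 (by rw [hw, map_one])).2 rfl

theorem tc_mem_yfam (c : M.Cfg) :
    (HNNExtension.of (tc M c) : G1 M) ∈ (FreeGroup.lift (yfam M)).range ↔ M.Acc c := by
  constructor
  · rintro ⟨w, hw⟩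
    exact tc_mem_closure M _ c (yfam_base M w (tc M c) hw).1
  · intro h
    obtain ⟨w, hw⟩ := tow1_exists M h
    exact ⟨w, tow1_eval M hw⟩

end Pool.Agent.H.MP_9a81ba_al
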