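import Pool.Agent.H.MP_9a81ba_al.Tow1

/-!
The second and third HNN extensions: undecidable word problem and two generators.
-/

namespace Pool.Agent.H.MP_9a81ba_al

variable (M : AM)

/-- the subgroup of the first HNN extension generated by the final configuration element and the
rule elements -/
noncomputable def subU : Subgroup (G1 M) := (FreeGroup.lift (yfam M)).range

/-- the second HNN extension: the stable letter commutes with `subU` -/
abbrev G2 : Type := HNNExtension (G1 M) (subU M) (subU M) (MulEquiv.refl _)

/-- the base group in the second extension -/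
noncomputable def up : F0 M →* G2 M := (HNNExtension.of : G1 M →* G2 M).comp HNNExtension.of

/-- the stable letter commutes with the element of a configuration exactly if the configuration
reaches the final one -/
theorem comm_iff (c : M.Cfg) :
    (HNNExtension.t : G2 M) * up M (tc M c) * HNNExtension.t⁻¹ = up M (tc M c) ↔ M.Acc c := by
  rw [← tc_mem_yfam]
  constructor
  · intro h
    set g : G1 M := HNNExtension.of (tc M c) with hg
    have h1 : (HNNExtension.of (1 : G1 M) * (([((1 : ℤˣ), g), (-1, 1)] : List (ℤˣ × G1 M)).map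
        fun y => (HNNExtension.t : G2 M) ^ (y.1 : ℤ) * HNNExtension.of y.2).prod) ∈
        (HNNExtension.of : G1 M →* G2 M).range := by
      refine ⟨g, ?_⟩
      have h2 : (HNNExtension.t : G2 M) * HNNExtension.of g * HNNExtension.t⁻¹ =
        HNNExtension.of g := h
      simp only [List.map_cons, List.map_nil, List.prod_cons, List.prod_nil, map_one, one_mul,
        mul_one, Units.val_one, zpow_one, Units.val_neg, zpow_neg]
      exact h2.symm
    obtain ⟨l₁, u, g1, g2, l₂, hl, hm⟩ := britton _ _ _ (by simp) h1
    have hlen := congrArg List.length hl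
    simp only [List.length_cons, List.length_nil, List.length_append] at hlen
    have hl1 : l₁ = [] := List.length_eq_zero_iff.1 (by omega)
    subst hl1
    simp only [List.nil_append, List.cons.injEq, Prod.mk.injEq] at hl
    obtain ⟨⟨hu, hg1⟩, -⟩ := hl
    subst hu hg1
    rw [HNNExtension.toSubgroup_one] at hm
    exact hm
  · intro h
    have h1 := HNNExtension.t_mul_of (G := G1 M) (A := subU M) (B := subU M)
      (φ := MulEquiv.refl _) ⟨_, h⟩
    have h2 : (HNNExtension.t : G2 M) * HNNExtension.of (HNNExtension.of (tc M c)) =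
      HNNExtension.of (HNNExtension.of (tc M c)) * HNNExtension.t := h1
    change (HNNExtension.t : G2 M) * HNNExtension.of (HNNExtension.of (tc M c)) *
      HNNExtension.t⁻¹ = HNNExtension.of (HNNExtension.of (tc M c))
    rw [h2, mul_inv_cancel_right]

/-- indices for the third family -/
abbrev J3 : Type := Option (Gen0 M ⊕ Bool)

/-- the generators of the second extension other than `a, b` -/
noncomputable def g3 : J3 M → G2 M
  | none => 1
  | some (.inl g) => up M (FreeGroup.of (.inl g))
  | some (.inr false) => HNNExtension.of HNNExtension.t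
  | some (.inr true) => HNNExtension.t

/-- the letter `a` -/
noncomputable def la : G2 M := up M (FreeGroup.of (.inr false))
/-- the letter `b` -/
noncomputable def lb : G2 M := up M (FreeGroup.of (.inr true))

/-- an injective numbering of the indices, with `none ↦ 0` -/
noncomputable def num : J3 M → ℕ
  | none => 0
  | some j => (Finite.equivFin (Gen0 M ⊕ Bool) j : ℕ) + 1

theorem num_injective : Function.Injective (num M) := by
  rintro (_ | i) (_ | j) h
  · rfl
  · simp [num] at h
  · simp [num] at h
  · simp only [num, Nat.add_right_cancel_iff] at h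
    rw [Fin.val_inj] at h
    rw [(Finite.equivFin (Gen0 M ⊕ Bool)).injective h]

/-- the family generating the source subgroup -/
noncomputable def eC (j : J3 M) : G2 M := (la M ^ num M j)⁻¹ * lb M * la M ^ num M j
/-- the family generating the target subgroup -/
noncomputable def eD (j : J3 M) : G2 M :=
  g3 M j * ((lb M ^ num M j)⁻¹ * la M * lb M ^ num M j)

/-- the retraction on the base group -/
private def tow2_r0 : F0 M →* FreeGroup Bool :=
  FreeGroup.lift (Sum.elim (fun _ => 1) FreeGroup.of)

private theorem tow2_r0_inl (g : Gen0 M) : tow2_r0 M (FreeGroup.of (.inl g)) = 1 := by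
  simp [tow2_r0]

private theorem tow2_r0_inr (b : Bool) : tow2_r0 M (FreeGroup.of (.inr b)) = FreeGroup.of b := by
  simp [tow2_r0]

private theorem tow2_r0_fA (w : FreeGroup (M.I × Fin 3)) :
    tow2_r0 M (FreeGroup.lift (fA M) w) = 1 := by
  have h : (tow2_r0 M).comp (FreeGroup.lift (fA M)) = 1 := by
    ext ⟨i, l⟩
    fin_cases l <;>
    simp [fA, e0, tc, kc, gu, gx, gy, gt, tow2_r0_inl]
  exact DFunLike.congr_fun h w

private theorem tow2_r0_fB (w : FreeGroup (M.I × Fin 3)) :
    tow2_r0 M (FreeGroup.lift (fB M) w) = 1 := by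
  have h : (tow2_r0 M).comp (FreeGroup.lift (fB M)) = 1 := by
    ext ⟨i, l⟩
    fin_cases l <;>
    simp [fB, e1, tc, kc, gu, gx, gy, gt, tow2_r0_inl]
  exact DFunLike.congr_fun h w

/-- The retraction of the second extension onto the free group on `a, b`. -/
theorem exists_retraction : ∃ r : G2 M →* FreeGroup Bool,
    r (la M) = FreeGroup.of false ∧ r (lb M) = FreeGroup.of true ∧ ∀ j, r (g3 M j) = 1 := by
  have h1 : ∀ a : subA M, (1 : FreeGroup Bool) * tow2_r0 M (a : F0 M) =
      tow2_r0 M ((phi1 M a : subB M) : F0 M) * 1 := by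
    rintro ⟨a, ha⟩
    obtain ⟨w, rfl⟩ := ha
    rw [phi1_apply M w, tow2_r0_fA, tow2_r0_fB]
  let r1 : G1 M →* FreeGroup Bool := HNNExtension.lift (tow2_r0 M) 1 h1
  have h2 : ∀ a : subU M, (1 : FreeGroup Bool) * r1 (a : G1 M) =
      r1 (((MulEquiv.refl (subU M)) a : subU M) : G1 M) * 1 := by
    intro a
    rw [one_mul, mul_one]
    rfl
  let r2 : G2 M →* FreeGroup Bool := HNNExtension.lift r1 1 h2
  have e0 : ∀ g : F0 M, r2 (up M g) = tow2_r0 M g := by
    intro g
    change r2 (HNNExtension.of (HNNExtension.of g)) = _
    rw [HNNExtension.lift_of, HNNExtension.lift_of]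
  refine ⟨r2, ?_, ?_, ?_⟩
  · rw [la, e0, tow2_r0_inr]
  · rw [lb, e0, tow2_r0_inr]
  · rintro (_ | (g | (_ | _)))
    · exact map_one r2
    · change r2 (up M (FreeGroup.of (.inl g))) = 1
      rw [e0, tow2_r0_inl]
    · change r2 (HNNExtension.of HNNExtension.t) = 1
      rw [HNNExtension.lift_of, HNNExtension.lift_t]
    · change r2 HNNExtension.t = 1
      rw [HNNExtension.lift_t]

private theorem tow2_pow_inj {m n : ℕ}
    (h : (FreeGroup.of () : FreeGroup Unit) ^ m = FreeGroup.of () ^ n) : m = n := by
  have h1 := congrArg (FreeGroup.lift fun _ : Unit => Multiplicative.ofAdd (1 : ℤ)) h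
  rw [map_pow, map_pow, FreeGroup.lift_apply_of, ← ofAdd_nsmul, ← ofAdd_nsmul] at h1
  have h2 := Multiplicative.ofAdd.injective h1
  simpa using h2

/-- conjugates of one letter by distinct powers of another letter form a free family -/
private theorem tow2_free {K : Type*} (n : K → ℕ) (hn : Function.Injective n) (p q : Bool)
    (hpq : p ≠ q) : Function.Injective (FreeGroup.lift fun j =>
      ((FreeGroup.of p : FreeGroup Bool) ^ n j)⁻¹ * FreeGroup.of q * FreeGroup.of p ^ n j) := by
  have h1 := lift_cj_injective (Z := Unit) (T := Unit)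
    (fun j : K => ((FreeGroup.of () : FreeGroup Unit) ^ n j, ())) (by
      intro i j hij
      exact hn (tow2_pow_inj (Prod.mk.inj hij).1))
  have h2 : Function.Injective (FreeGroup.map (Sum.elim (fun _ => p) (fun _ => q) :
      Unit ⊕ Unit → Bool)) := by
    refine FreeGroup.map_injective ?_
    rintro (_ | _) (_ | _) h
    · rfl
    · exact absurd h hpq
    · exact absurd h.symm hpq
    · rfl
  have h3 : (FreeGroup.lift fun j =>
      ((FreeGroup.of p : FreeGroup Bool) ^ n j)⁻¹ * FreeGroup.of q * FreeGroup.of p ^ n j) =
      (FreeGroup.map (Sum.elim (fun _ => p) (fun _ => q) : Unit ⊕ Unit → Bool)).comp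
        (FreeGroup.lift fun j : K =>
          cj (Z := Unit) (T := Unit) ((FreeGroup.of () : FreeGroup Unit) ^ n j, ())) := by
    ext j
    simp [cj]
  rw [h3]
  exact h2.comp h1

theorem eC_injective : Function.Injective (FreeGroup.lift (eC M)) := by
  obtain ⟨r, ha, hb, hg⟩ := exists_retraction M
  have h1 : r.comp (FreeGroup.lift (eC M)) = FreeGroup.lift fun j =>
      ((FreeGroup.of false : FreeGroup Bool) ^ num M j)⁻¹ * FreeGroup.of true *
        FreeGroup.of false ^ num M j := by
    ext j
    simp [eC, ha, hb]
  have h2 := tow2_free (num M) (num_injective M) false true (by decide)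
  rw [← h1, MonoidHom.coe_comp] at h2
  exact Function.Injective.of_comp h2

theorem eD_injective : Function.Injective (FreeGroup.lift (eD M)) := by
  obtain ⟨r, ha, hb, hg⟩ := exists_retraction M
  have h1 : r.comp (FreeGroup.lift (eD M)) = FreeGroup.lift fun j =>
      ((FreeGroup.of true : FreeGroup Bool) ^ num M j)⁻¹ * FreeGroup.of false *
        FreeGroup.of true ^ num M j := by
    ext j
    simp [eD, ha, hb, hg]
  have h2 := tow2_free (num M) (num_injective M) true false (by decide)
  rw [← h1, MonoidHom.coe_comp] at h2
  exact Function.Injective.of_comp h2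

/-- source subgroup -/
noncomputable def subC : Subgroup (G2 M) := (FreeGroup.lift (eC M)).range
/-- target subgroup -/
noncomputable def subD : Subgroup (G2 M) := (FreeGroup.lift (eD M)).range

/-- the isomorphism between the associated subgroups, sending `eC j` to `eD j` -/
noncomputable def phi3 : subC M ≃* subD M :=
  (MonoidHom.ofInjective (eC_injective M)).symm.trans (MonoidHom.ofInjective (eD_injective M))

/-- the third HNN extension -/
abbrev G3 : Type := HNNExtension (G2 M) (subC M) (subD M) (phi3 M)

private theorem tow2_phi3_apply (w : FreeGroup (J3 M)) (h : FreeGroup.lift (eC M) w ∈ subC M) :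
    ((phi3 M ⟨FreeGroup.lift (eC M) w, h⟩ : subD M) : G2 M) = FreeGroup.lift (eD M) w := by
  have h1 : (MonoidHom.ofInjective (eC_injective M)).symm ⟨FreeGroup.lift (eC M) w, h⟩ = w := by
    rw [MulEquiv.symm_apply_eq]
    rfl
  change (((MonoidHom.ofInjective (eD_injective M))
    ((MonoidHom.ofInjective (eC_injective M)).symm ⟨FreeGroup.lift (eC M) w, h⟩) :
      (FreeGroup.lift (eD M)).range) : G2 M) = _
  rw [h1]
  rfl

theorem t_eC (j : J3 M) : (HNNExtension.t : G3 M) * HNNExtension.of (eC M j) *
    HNNExtension.t⁻¹ = HNNExtension.of (eD M j) := by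
  have hm : FreeGroup.lift (eC M) (FreeGroup.of j) ∈ subC M := ⟨_, rfl⟩
  have h1 := HNNExtension.t_mul_of (G := G2 M) (A := subC M) (B := subD M) (φ := phi3 M)
    ⟨_, hm⟩
  rw [tow2_phi3_apply M (FreeGroup.of j) hm] at h1
  simp only [FreeGroup.lift_apply_of] at h1
  rw [h1, mul_inv_cancel_right]

/-- the third extension is generated by two elements -/
theorem G3_two : Subgroup.closure {(HNNExtension.of (lb M) : G3 M), HNNExtension.t} = ⊤ := by
  set H : Subgroup (G3 M) := Subgroup.closure {(HNNExtension.of (lb M) : G3 M), HNNExtension.t}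
    with hH
  have hb : (HNNExtension.of (lb M) : G3 M) ∈ H := Subgroup.subset_closure (by simp)
  have ht : (HNNExtension.t : G3 M) ∈ H := Subgroup.subset_closure (by simp)
  have hD : ∀ j, (HNNExtension.of (eC M j) : G3 M) ∈ H → (HNNExtension.of (eD M j) : G3 M) ∈ H := by
    intro j hj
    rw [← t_eC]
    exact H.mul_mem (H.mul_mem ht hj) (H.inv_mem ht)
  have ha : (HNNExtension.of (la M) : G3 M) ∈ H := by
    have h1 := hD none (by
      have : eC M none = lb M := by simp [eC, num]
      rw [this]
      exact hb)
    have h2 : eD M none = la M := by simp [eD, num, g3]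
    rwa [h2] at h1
  have hC : ∀ j, (HNNExtension.of (eC M j) : G3 M) ∈ H := by
    intro j
    rw [eC, map_mul, map_mul, map_inv, map_pow]
    exact H.mul_mem (H.mul_mem (H.inv_mem (H.pow_mem ha _)) hb) (H.pow_mem ha _)
  have hg : ∀ j, (HNNExtension.of (g3 M j) : G3 M) ∈ H := by
    intro j
    have h1 := hD j (hC j)
    rw [eD, map_mul] at h1
    have h2 : (HNNExtension.of ((lb M ^ num M j)⁻¹ * la M * lb M ^ num M j) : G3 M) ∈ H := by
      rw [map_mul, map_mul, map_inv, map_pow]
      exact H.mul_mem (H.mul_mem (H.inv_mem (H.pow_mem hb _)) ha) (H.pow_mem hb _)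
    exact (H.mul_mem_cancel_right h2).1 h1
  -- the base group
  have hF : ∀ g : F0 M, (HNNExtension.of (up M g) : G3 M) ∈ H := by
    intro g
    have h1 : g ∈ H.comap ((HNNExtension.of : G2 M →* G3 M).comp (up M)) := by
      have h2 : (⊤ : Subgroup (F0 M)) ≤
          H.comap ((HNNExtension.of : G2 M →* G3 M).comp (up M)) := by
        rw [← FreeGroup.closure_range_of, Subgroup.closure_le]
        rintro _ ⟨(g | (_ | _)), rfl⟩
        · exact hg (some (.inl g))
        · exact ha
        · exact hb
      exact h2 (Subgroup.mem_top g)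
    exact h1
  have h1 : ∀ g : G1 M, (HNNExtension.of (HNNExtension.of g : G2 M) : G3 M) ∈ H := by
    intro g
    induction g using HNNExtension.induction_on with
    | of g => exact hF g
    | t => exact hg (some (.inr false))
    | mul x y hx hy => rw [map_mul, map_mul]; exact H.mul_mem hx hy
    | inv x hx => rw [map_inv, map_inv]; exact H.inv_mem hx
  have h2 : ∀ g : G2 M, (HNNExtension.of g : G3 M) ∈ H := by
    intro g
    induction g using HNNExtension.induction_on with
    | of g => exact h1 g
    | t => exact hg (some (.inr true))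
    | mul x y hx hy => rw [map_mul]; exact H.mul_mem hx hy
    | inv x hx => rw [map_inv]; exact H.inv_mem hx
  rw [Subgroup.eq_top_iff']
  intro g
  induction g using HNNExtension.induction_on with
  | of g => exact h2 g
  | t => exact ht
  | mul x y hx hy => exact H.mul_mem hx hy
  | inv x hx => exact H.inv_mem hx

end Pool.Agent.H.MP_9a81ba_al
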