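import Pool.Agent.H.MP_9a81ba_al.Tow2
import Pool.Agent.H.MP_9a81ba_al.FoxHNN

/-!
The finite aspherical presentation of the third HNN extension.
-/

namespace Pool.Agent.H.MP_9a81ba_al

variable (M : AM)

/-- final generators -/
noncomputable def qgen : Option (Option (Option (Gen M))) → G3 M :=
  hnnGen (phi3 M) (hnnGen (MulEquiv.refl (subU M)) (hnnGen (phi1 M)
    (FreeGroup.of : Gen M → F0 M)))

theorem towasph_lift {G X : Type*} [Group G] {A B : Subgroup G} (φ : A ≃* B) (g : X → G)
    (w : FreeGroup X) :
    FreeGroup.lift (hnnGen φ g) (FreeGroup.map some w) = HNNExtension.of (FreeGroup.lift g w) := by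
  have h : (FreeGroup.lift (hnnGen φ g)).comp (FreeGroup.map some) =
      (HNNExtension.of : G →* HNNExtension G A B φ).comp (FreeGroup.lift g) := by
    ext x
    change FreeGroup.lift (hnnGen φ g) (FreeGroup.map some (FreeGroup.of x)) =
      HNNExtension.of (FreeGroup.lift g (FreeGroup.of x))
    rw [FreeGroup.map.of, FreeGroup.lift_apply_of, FreeGroup.lift_apply_of]
    rfl
  exact DFunLike.congr_fun h w

theorem towasph_none {G X : Type*} [Group G] {A B : Subgroup G} (φ : A ≃* B) (g : X → G) :
    FreeGroup.lift (hnnGen φ g) (FreeGroup.of none) = HNNExtension.t := by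
  rw [FreeGroup.lift_apply_of]
  rfl

theorem towasph_id {X : Type*} (w : FreeGroup X) : FreeGroup.lift FreeGroup.of w = w := by
  have h : (FreeGroup.lift FreeGroup.of : FreeGroup X →* FreeGroup X) = MonoidHom.id _ := by
    ext x
    exact FreeGroup.lift_apply_of
  exact DFunLike.congr_fun h w

theorem towasph_phi1 {a : F0 M} (ha : a ∈ subA M) {w : FreeGroup (M.I × Fin 3)}
    (h : a = FreeGroup.lift (fA M) w) :
    ((phi1 M ⟨a, ha⟩ : subB M) : F0 M) = FreeGroup.lift (fB M) w := by
  subst h
  exact phi1_apply M w ha

theorem towasph_phi3 {a : G2 M} (ha : a ∈ subC M) {w : FreeGroup (J3 M)}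
    (h : a = FreeGroup.lift (eC M) w) :
    ((phi3 M ⟨a, ha⟩ : subD M) : G2 M) = FreeGroup.lift (eD M) w := by
  subst h
  have h1 : (MonoidHom.ofInjective (eC_injective M)).symm ⟨FreeGroup.lift (eC M) w, ha⟩ = w := by
    rw [MulEquiv.symm_apply_eq]
    rfl
  change (((MonoidHom.ofInjective (eD_injective M))
    ((MonoidHom.ofInjective (eC_injective M)).symm ⟨FreeGroup.lift (eC M) w, ha⟩) :
      (FreeGroup.lift (eD M)).range) : G2 M) = _
  rw [h1]
  rfl

/-- words for the family `yfam` -/
noncomputable def towasph_wy : Option M.I → FreeGroup (Option (Gen M))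
  | none => FreeGroup.map some (tc M M.fcfg)
  | some i => (FreeGroup.map some (gu M i))⁻¹ * FreeGroup.of none * FreeGroup.map some (gu M i)

theorem towasph_wy_lift (l : Option M.I) :
    FreeGroup.lift (hnnGen (phi1 M) (FreeGroup.of : Gen M → F0 M)) (towasph_wy M l) =
      yfam M l := by
  cases l with
  | none =>
    rw [towasph_wy, towasph_lift, towasph_id]
    rfl
  | some i =>
    rw [towasph_wy, map_mul, map_mul, map_inv, towasph_lift, towasph_id, towasph_none]
    rfl

/-- generators of the second extension -/
noncomputable def towasph_g2 : Option (Option (Gen M)) → G2 M :=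
  hnnGen (MulEquiv.refl (subU M)) (hnnGen (phi1 M) (FreeGroup.of : Gen M → F0 M))

/-- the word for `a` -/
noncomputable def towasph_wa : FreeGroup (Option (Option (Gen M))) :=
  FreeGroup.of (some (some (.inr false)))
/-- the word for `b` -/
noncomputable def towasph_wb : FreeGroup (Option (Option (Gen M))) :=
  FreeGroup.of (some (some (.inr true)))

/-- words for the elements `g3` -/
noncomputable def towasph_w3 : J3 M → FreeGroup (Option (Option (Gen M)))
  | none => 1
  | some (.inl g) => FreeGroup.of (some (some (.inl g)))
  | some (.inr false) => FreeGroup.of (some none)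
  | some (.inr true) => FreeGroup.of none

theorem towasph_wa_lift : FreeGroup.lift (towasph_g2 M) (towasph_wa M) = la M := by
  rw [towasph_wa, FreeGroup.lift_apply_of]
  rfl

theorem towasph_wb_lift : FreeGroup.lift (towasph_g2 M) (towasph_wb M) = lb M := by
  rw [towasph_wb, FreeGroup.lift_apply_of]
  rfl

theorem towasph_w3_lift (j : J3 M) :
    FreeGroup.lift (towasph_g2 M) (towasph_w3 M j) = g3 M j := by
  rcases j with _ | g | _ | _
  · rw [towasph_w3, map_one]
    rfl
  · rw [towasph_w3, FreeGroup.lift_apply_of]
    rfl
  · rw [towasph_w3, FreeGroup.lift_apply_of]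
    rfl
  · rw [towasph_w3, FreeGroup.lift_apply_of]
    rfl

/-- words for the family `eC` -/
noncomputable def towasph_wC (j : J3 M) : FreeGroup (Option (Option (Gen M))) :=
  (towasph_wa M ^ num M j)⁻¹ * towasph_wb M * towasph_wa M ^ num M j
/-- words for the family `eD` -/
noncomputable def towasph_wD (j : J3 M) : FreeGroup (Option (Option (Gen M))) :=
  towasph_w3 M j * ((towasph_wb M ^ num M j)⁻¹ * towasph_wa M * towasph_wb M ^ num M j)

theorem towasph_wC_lift (j : J3 M) :
    FreeGroup.lift (towasph_g2 M) (towasph_wC M j) = eC M j := by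
  rw [towasph_wC, map_mul, map_mul, map_inv, map_pow, towasph_wa_lift, towasph_wb_lift]
  rfl

theorem towasph_wD_lift (j : J3 M) :
    FreeGroup.lift (towasph_g2 M) (towasph_wD M j) = eD M j := by
  rw [towasph_wD, map_mul, map_mul, map_mul, map_inv, map_pow, towasph_wa_lift, towasph_wb_lift,
    towasph_w3_lift]
  rfl

/-- the third extension has a finite aspherical presentation on the final generators -/
theorem exists_asph : ∃ (K : ℕ) (ρ : Fin K → FreeGroup (Option (Option (Option (Gen M))))),
    Asph (qgen M) ρ := by
  haveI : Fintype (M.I × Fin 3) := Fintype.ofFinite _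
  haveI : Fintype (Option M.I) := Fintype.ofFinite _
  haveI : Fintype (J3 M) := Fintype.ofFinite _
  have h1 := asph_hnn (asph_free (Gen M)) (phi1 M) (fA M) (fB M)
    (by
      simp only [towasph_id]
      exact FreeGroup.range_lift_eq_closure)
    (by
      simp only [towasph_id]
      exact fA_injective M)
    (by
      intro l hl
      rw [towasph_phi1 M hl (w := FreeGroup.of l) (by
        rw [towasph_id, FreeGroup.lift_apply_of]), FreeGroup.lift_apply_of, towasph_id])
  have h2 := asph_hnn h1 (MulEquiv.refl (subU M)) (towasph_wy M) (towasph_wy M)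
    (by
      simp only [towasph_wy_lift]
      exact FreeGroup.range_lift_eq_closure)
    (by
      simp only [towasph_wy_lift]
      exact yfam_injective M)
    (fun l hl => rfl)
  have h3 := asph_hnn h2 (phi3 M) (towasph_wC M) (towasph_wD M)
    (by
      change subC M = Subgroup.closure (Set.range fun l =>
        FreeGroup.lift (towasph_g2 M) (towasph_wC M l))
      simp only [towasph_wC_lift]
      exact FreeGroup.range_lift_eq_closure)
    (by
      change Function.Injective (FreeGroup.lift fun l =>
        FreeGroup.lift (towasph_g2 M) (towasph_wC M l))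
      simp only [towasph_wC_lift]
      exact eC_injective M)
    (by
      intro l hl
      rw [towasph_phi3 M hl (w := FreeGroup.of l) (by
        rw [FreeGroup.lift_apply_of]
        exact towasph_wC_lift M l), FreeGroup.lift_apply_of]
      exact (towasph_wD_lift M l).symm)
  exact ⟨_, _, asph_reindex h3 (Equiv.refl _) (Fintype.equivFin _).symm⟩

end Pool.Agent.H.MP_9a81ba_al
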